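import Pool.Agent.MP_6d294b_pr.Stm

open Finset

namespace Pool.Agent.MP_6d294b_pr

variable {d : ℕ}

theorem mem_JS_Chain {S R : Bx d} {U : Finset (Dat d)} {s : Sd d} {j : ℤ} :
    j ∈ JS S R U s ↔ (S s < j ∧ j ≤ R s) ∧ ∀ u ∈ U, ¬ (u.1 s - u.2 s < j ∧ j ≤ u.1 s) := by
  simp only [JS, mem_filter, mem_Ioc]

theorem occ_mono_Chain {R : Bx d} {s : Sd d} {j : ℤ} {W W' : Finset (Pt d)} (h : W ⊆ W')
    (hW : Occ R s j W) : Occ R s j W' := by
  obtain ⟨x, hx, h1⟩ := hW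
  exact ⟨x, h hx, h1⟩

theorem adm_mono_Chain {T : ℕ} {S S' R : Bx d} (h : S ≤ S') {u : Dat d} (hu : Adm T S' R u) :
    Adm T S R u := by
  obtain ⟨h1, h2, h3, h4, h5, h6⟩ := hu
  refine ⟨h1, h2, h3, h4, fun s hs => ?_, h6⟩
  have a1 := h5 s hs
  have a2 : S s ≤ S' s := h s
  omega

theorem key_Chain (hG : SGeoA) {T : ℕ} {B C : Finset (Pt d)} {Q P R : Bx d} (hP : Span B P)
    (hQ : Val Q) (hg : gap Q P ≤ 2) (hT : psi P < T) (hR : Q ⊔ P ≤ R) (hd : Disjoint B C)
    (hC : Cross T (Q ⊔ P) R C) : Cross T Q R (C ∪ B) := by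
  classical
  obtain ⟨U, w, W, c1, c2, c3, c4, c5⟩ := hC
  obtain ⟨p1, p2, -, p4⟩ := (hG d).1 _ _ hP
  have hPR : P ≤ R := le_sup_right.trans hR
  have hsup : ∀ s, (Q ⊔ P) s = max (Q s) (P s) := fun s => rfl
  obtain ⟨e, he⟩ : ∃ e : Sd d → ℕ, ∀ s, e s = ((Q ⊔ P) s - Q s).toNat := ⟨_, fun _ => rfl⟩
  have hsum : ∑ s, e s ≤ psi P + 2 := by
    have a1 := ((hG d).2.2.2.1 Q (Q ⊔ P) hQ le_sup_left).2.2.2.1
    have a2 := ((hG d).2.2.2.2 Q P hQ p1).2
    rw [sum_congr rfl fun s _ => he s]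
    omega
  simp only [hsup] at he
  by_cases ha : ∃ s s' : Sd d, s.1 ≠ s'.1 ∧ e s ≠ 0 ∧ e s' ≠ 0
  · have hnew : (P, e) ∉ U := by
      intro h
      obtain ⟨s, -, -, hs, -⟩ := ha
      have := (c1 _ h).1.2.2.2.2.1 s hs
      simp only [hsup] at this
      omega
    have hw : ∀ u ∈ U, (if u = (P, e) then B else w u) = w u := fun u hu =>
      if_neg fun h : u = (P, e) => hnew (h ▸ hu)
    refine ⟨insert (P, e) U, fun u => if u = (P, e) then B else w u, W, ?_, fun s => ?_, ?_, c4, ?_⟩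
    · intro u hu
      rcases mem_insert.1 hu with rfl | hu
      · simp only [if_true]
        refine ⟨⟨p1, hPR, hT, hsum, fun s hs => ?_, ha⟩, subset_union_right, hP⟩
        have := he s
        simp only at hs ⊢
        omega
      · simp only [hw u hu]
        exact ⟨adm_mono_Chain le_sup_left (c1 u hu).1, (c1 u hu).2.1.trans subset_union_left,
          (c1 u hu).2.2⟩
    · refine ⟨(c2 s).1.trans subset_union_left, ?_⟩
      have : JS Q R (insert (P, e) U) s = JS (Q ⊔ P) R U s := by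
        ext j
        simp only [mem_JS_Chain, forall_mem_insert, hsup]
        have := he s
        constructor
        · rintro ⟨h1, h2, h3⟩
          exact ⟨by omega, h3⟩
        · rintro ⟨h1, h3⟩
          exact ⟨by omega, by omega, h3⟩
      rw [this]
      exact (c2 s).2
    · intro u hu v hv huv
      rcases mem_insert.1 hu with e1 | g1 <;> rcases mem_insert.1 hv with e2 | g2
      · exact absurd (e1.trans e2.symm) huv
      · simp only [hw v g2, e1, if_true]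
        exact hd.mono_right (c1 v g2).2.1
      · simp only [hw u g1, e2, if_true]
        exact (hd.mono_right (c1 u g1).2.1).symm
      · simp only [hw u g1, hw v g2]
        exact c3 u g1 v g2 huv
    · intro u hu s
      rcases mem_insert.1 hu with rfl | hu
      · simp only [if_true]
        exact hd.mono_right (c2 s).1
      · simp only [hw u hu]
        exact c5 u hu s
  · refine ⟨U, w, fun s => W s ∪ B.filter fun x => Q s < kap s x, fun u hu => ?_, fun s => ?_, c3,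
      fun s t hst => ?_, fun u hu s => ?_⟩
    · exact ⟨adm_mono_Chain le_sup_left (c1 u hu).1, (c1 u hu).2.1.trans subset_union_left,
        (c1 u hu).2.2⟩
    · refine ⟨union_subset_union (c2 s).1 (filter_subset _ _), fun j hj => ?_⟩
      obtain ⟨⟨j1, j2⟩, j3⟩ := mem_JS_Chain.1 hj
      by_cases hj' : (Q ⊔ P) s < j
      · rcases (c2 s).2 j (mem_JS_Chain.2 ⟨⟨hj', j2⟩, j3⟩) with h | ⟨h, h'⟩
        · exact Or.inl (occ_mono_Chain subset_union_left h)
        · obtain ⟨⟨-, k2⟩, k3⟩ := mem_JS_Chain.1 h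
          exact Or.inr ⟨mem_JS_Chain.2 ⟨⟨by omega, k2⟩, k3⟩, occ_mono_Chain subset_union_left h'⟩
      · rw [hsup] at hj'
        have a1 : (- P (opp s) - Q s).toNat ≤ gap Q P :=
          single_le_sum (f := fun s => (- P (opp s) - Q s).toNat) (fun _ _ => Nat.zero_le _)
            (mem_univ s)
        obtain ⟨x, hx, hk⟩ := p4 s j (by omega) (by omega)
        have a2 : InB x R := fun t => (p2 x hx t).trans (hPR t)
        have a3 := p2 x hx s
        rcases hk with hk | hk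
        · exact Or.inl ⟨x, mem_union_right _ (mem_filter.2 ⟨hx, by omega⟩), a2, hk⟩
        · refine Or.inr ⟨mem_JS_Chain.2 ⟨⟨by omega, hk ▸ a2 s⟩, fun u hu h => ?_⟩,
            x, mem_union_right _ (mem_filter.2 ⟨hx, by omega⟩), a2, hk⟩
          have := (c1 u hu).1.2.2.2.2.1 s (by omega)
          rw [hsup] at this
          omega
    · refine disjoint_union_left.2 ⟨disjoint_union_right.2 ⟨c4 s t hst,
        (hd.mono (filter_subset _ _) (c2 s).1).symm⟩, disjoint_union_right.2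
          ⟨hd.mono (filter_subset _ _) (c2 t).1, disjoint_left.2 fun x hx hx' => ?_⟩⟩
      rw [mem_filter] at hx hx'
      have a1 := p2 x hx.1 s
      have a2 := p2 x hx.1 t
      have a3 := he s
      have a4 := he t
      have a5 : s.1 = t.1 := by
        by_contra h
        exact ha ⟨s, t, h, by omega, by omega⟩
      obtain ⟨i, b⟩ := s
      obtain ⟨i', b'⟩ := t
      obtain rfl : i = i' := a5
      have a6 := hQ i
      have a7 := hx.2
      have a8 := hx'.2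
      cases b <;> cases b' <;> simp only [kap, if_true, Bool.false_eq_true, if_false] at a7 a8
      · exact hst rfl
      · omega
      · omega
      · exact hst rfl
    · exact disjoint_union_right.2 ⟨c5 u hu s, (hd.mono (filter_subset _ _) (c1 u hu).2.1).symm⟩

/-- the conclusion of the chain decomposition -/
def ConclChain (T : ℕ) (A : Finset (Pt d)) (R : Bx d) : Prop :=
  (∃ (S : Bx d) (B C : Finset (Pt d)), B ⊆ A ∧ C ⊆ A ∧ Disjoint B C ∧ Span B S ∧ Cross T S R C ∧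
    S ≤ R ∧ psi S + T ≤ psi R ∧ psi R ≤ psi S + (2 * T + 1)) ∨
  (∃ (Q P : Bx d) (B₁ B₂ C : Finset (Pt d)), B₁ ⊆ A ∧ B₂ ⊆ A ∧ C ⊆ A ∧ Disjoint B₁ B₂ ∧
    Disjoint B₁ C ∧ Disjoint B₂ C ∧ Span B₁ Q ∧ Span B₂ P ∧ Cross T (Q ⊔ P) R C ∧ Q ⊔ P ≤ R ∧
    gap Q P ≤ 2 ∧ T ≤ psi P ∧ psi P ≤ psi Q ∧ psi Q < psi (Q ⊔ P) ∧ psi R < psi (Q ⊔ P) + T)

theorem merge_Chain (hG : SGeoA) {T : ℕ} {A B₁ B₂ C : Finset (Pt d)} {Q P R : Bx d}
    (h1 : Span B₁ Q) (h2 : Span B₂ P) (hd : Disjoint B₁ B₂) (hg : gap Q P ≤ 2)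
    (hle : psi P ≤ psi Q)
    (ih : ∀ C, B₁ ⊆ A → C ⊆ A → Disjoint B₁ C → Cross T Q R C → Q ≤ R → psi R < psi Q + T →
      ConclChain T A R)
    (s1 : B₁ ⊆ A) (s2 : B₂ ⊆ A) (s3 : C ⊆ A) (d1 : Disjoint B₁ C) (d2 : Disjoint B₂ C)
    (hC : Cross T (Q ⊔ P) R C) (hR : Q ⊔ P ≤ R) (hψ : psi R < psi (Q ⊔ P) + T) :
    ConclChain T A R := by
  classical
  have hQ := ((hG d).1 _ _ h1).1
  have a1 := ((hG d).2.2.2.1 Q (Q ⊔ P) hQ le_sup_left).2.2.2.1
  have a2 := ((hG d).2.2.2.2 Q P hQ ((hG d).1 _ _ h2).1).2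
  by_cases c1 : psi Q = psi (Q ⊔ P)
  · have e : Q ⊔ P = Q := by
      refine le_antisymm (fun s => ?_) le_sup_left
      have := sum_eq_zero_iff.1 (show ∑ s, ((Q ⊔ P) s - Q s).toNat = 0 by omega) s (mem_univ s)
      show (Q ⊔ P) s ≤ Q s
      omega
    rw [e] at hC hR hψ
    exact ih C s1 s3 d1 hC hR hψ
  by_cases c2 : T ≤ psi P
  · exact Or.inr ⟨Q, P, B₁, B₂, C, s1, s2, s3, hd, d1, d2, h1, h2, hC, hR, hg, c2, hle, by omega, hψ⟩
  have k := key_Chain hG h2 hQ hg (by omega) hR d2 hC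
  have d3 : Disjoint B₁ (C ∪ B₂) := disjoint_union_right.2 ⟨d1, hd⟩
  by_cases c3 : psi Q + T ≤ psi R
  · exact Or.inl ⟨Q, B₁, C ∪ B₂, s1, union_subset s3 s2, d3, h1, k, le_sup_left.trans hR, c3,
      by omega⟩
  · exact ih _ s1 (union_subset s3 s2) d3 k (le_sup_left.trans hR) (by omega)

theorem main_Chain (hG : SGeoA) {T : ℕ} {A : Finset (Pt d)} {R : Bx d} (hT : T ≤ psi R)
    {B : Finset (Pt d)} {Q : Bx d} (h : Span B Q) : ∀ C, B ⊆ A → C ⊆ A → Disjoint B C →
      Cross T Q R C → Q ≤ R → psi R < psi Q + T → ConclChain T A R := by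
  induction h with
  | pt x =>
    intro C _ _ _ _ _ h
    have : psi (ptB x) = 0 := by simp [psi, ex, ptB, kap]
    omega
  | @merge B₁ B₂ Q P h1 h2 hd hg ih₁ ih₂ =>
    intro C s1 s3 d1 hC hR hψ
    obtain ⟨s11, s12⟩ := union_subset_iff.1 s1
    obtain ⟨d11, d12⟩ := disjoint_union_left.1 d1
    rcases le_total (psi P) (psi Q) with hle | hle
    · exact merge_Chain hG h1 h2 hd hg hle ih₁ s11 s12 s3 d11 d12 hC hR hψ
    · rw [sup_comm] at hC hR hψ
      rw [(hG d).2.1] at hg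
      exact merge_Chain hG h2 h1 hd.symm hg hle ih₂ s12 s11 s3 d12 d11 hC hR hψ

theorem sChain (hG : SGeoA) : SChain := by
  intro d T A R h h1 hT
  refine main_Chain hG hT h ∅ (Subset.refl _) (empty_subset _) (disjoint_empty_right _)
    ⟨∅, fun _ => ∅, fun _ => ∅, by simp, fun s => ⟨Subset.refl _, fun j hj => ?_⟩, by simp,
      by simp, by simp⟩ le_rfl (by omega)
  have := (mem_JS_Chain.1 hj).1
  omega

end Pool.Agent.MP_6d294b_pr
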