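import Pool.Agent.MP_6d294b_pr.Stm

open Finset

namespace Pool.Agent.MP_6d294b_pr

theorem lg_le_Crit {d N : ℕ} (R : Bx d) (h : psi R ≤ 2 * N) :
    lg R ≤ d * Real.log (2 * N + 1) := by
  unfold lg
  have h1 : ∀ i ∈ (univ : Finset (Fin d)),
      Real.log ((ex R i : ℝ) + 1) ≤ Real.log (2 * N + 1) := by
    intro i _
    have h2 : ex R i ≤ psi R := single_le_sum (f := ex R) (fun _ _ => Nat.zero_le _) (mem_univ i)
    have h3 : ((ex R i : ℕ) : ℝ) ≤ ((2 * N : ℕ) : ℝ) := Nat.cast_le.2 (h2.trans h)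
    push_cast at h3
    exact Real.log_le_log (by positivity) (by linarith)
  refine (sum_le_card_nsmul _ _ _ h1).trans_eq ?_
  rw [card_univ, Fintype.card_fin, nsmul_eq_mul]

theorem sCrit (hG : SGeoA) (hb : SBet) (hs : SSlope) (h5 : SPotA) (h6 : SPotB) (h7 : SInd) :
    SCrit := by
  intro d T M N p p' Ω hP hp R hR hN1 hN2
  have _ := hG
  obtain ⟨Φ, hΦ⟩ := (h5 d fun k : ℕ => Gt d M p' k).1
  obtain ⟨m, m1, m2, m3, -⟩ := hs.1
  have hp' : 0 < p' := hP.2.1
  have hs0 : (0 : ℝ) < sst d M := by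
    unfold sst
    positivity
  have pos : ∀ z : ℝ, 0 ≤ z → 0 < p' * (z + sst d M) := fun z hz => by positivity
  have a1 := h6 d (Gt d M p') (fun z => p' * m (p' * (z + sst d M))) Φ
    (by have := hP.1; omega) hΦ
    (fun z z' hz hz' => by
      have := m1 _ _ (pos z hz) (pos z' hz')
      unfold Gt
      linarith)
    (fun z z' hz hz' => mul_le_mul_of_nonneg_left
      (m2 _ _ (pos z hz) (mul_le_mul_of_nonneg_left (by linarith) hp'.le)) hp'.le)
    (fun z hz => mul_nonpos_of_nonneg_of_nonpos hp'.le (m3 _ (pos z hz))) (ex R)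
  have a2 : ∑ t ∈ range N, Gt d M p' ((((t : ℝ) + d + 1) / d) ^ (d - 1))
      ≤ ∑ t ∈ range (∑ i, ex R i), Gt d M p' ((((t : ℝ) + d + 1) / d) ^ (d - 1)) :=
    sum_le_sum_of_subset_of_nonneg (range_subset_range.2 hN1)
      fun t _ _ => (hb.2 _ (pos _ (by positivity))).2.1
  refine (h7 d T M N p p' Ω Φ hP hp hΦ R hR hN2).trans (Real.exp_le_exp.2 ?_)
  have e1 : 0 ≤ eta d T := by
    have h1 : 0 ≤ Real.log (2 * (T : ℝ) + 2) :=
      Real.log_nonneg (by have : (0 : ℝ) ≤ T := Nat.cast_nonneg T; linarith)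
    have h3 : 0 ≤ Real.log 2 := Real.log_nonneg (by norm_num)
    unfold eta
    positivity
  have e2 : 0 ≤ theta d T N p' := by
    unfold theta
    positivity
  have b1 : ((psi R : ℕ) : ℝ) ≤ ((2 * N : ℕ) : ℝ) := Nat.cast_le.2 hN2
  push_cast at b1
  have b2 := mul_le_mul_of_nonneg_left b1 e1
  have b3 := mul_le_mul_of_nonneg_left (lg_le_Crit R hN2) e2
  unfold epsMax
  linarith

end Pool.Agent.MP_6d294b_pr
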