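import Pool.Agent.MP_6d294b_pr.Stm

open Finset

namespace Pool.Agent.MP_6d294b_pr

lemma card_JS_Cross {d : ℕ} (S R : Bx d) (U : Finset (Dat d)) (s : Sd d) :
    (R s - S s).toNat ≤ (JS S R U s).card + ∑ u ∈ U, u.2 s := by
  classical
  have h : Finset.Ioc (S s) (R s) ⊆ JS S R U s ∪
      U.biUnion (fun u => Finset.Ioc (u.1 s - u.2 s) (u.1 s)) := by
    intro j hj
    by_cases hc : ∀ u ∈ U, ¬ (u.1 s - u.2 s < j ∧ j ≤ u.1 s)
    · exact mem_union_left _ (by unfold JS; exact mem_filter.2 ⟨hj, hc⟩)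
    · push Not at hc
      obtain ⟨u, hu, h1, h2⟩ := hc
      exact mem_union_right _ (mem_biUnion.2 ⟨u, hu, mem_Ioc.2 ⟨h1, h2⟩⟩)
  have h2 := (card_le_card h).trans (card_union_le _ _)
  rw [Int.card_Ioc] at h2
  refine h2.trans (Nat.add_le_add_left (card_biUnion_le.trans (le_of_eq ?_)) _)
  refine sum_congr rfl fun u _ => ?_
  rw [Int.card_Ioc]
  simp

lemma pow_JS_Cross {d : ℕ} (S R : Bx d) (U : Finset (Dat d)) (s : Sd d) {b : ℝ} (h0 : 0 < b)
    (h1 : b ≤ 1) : b ^ (JS S R U s).card ≤ b ^ (R s - S s).toNat * ∏ u ∈ U, b⁻¹ ^ u.2 s := by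
  rw [Finset.prod_pow_eq_pow_sum, inv_pow, ← div_eq_mul_inv, le_div_iff₀ (by positivity), ← pow_add]
  exact pow_le_pow_of_le_one h0.le h1 (card_JS_Cross S R U s)

theorem sCross (hA : SPrA) (hBK : SBK) (hG : SGeoA) : SCross := by
  classical
  intro d Ω p p0 p1 T S R b _ hb hgood
  obtain ⟨a1, -, a3, -, a5, -⟩ := hA (Pt d) Ω p p0 (by linarith)
  let E : Finset (Dat d) → Dat d ⊕ Sd d → Finset (Pt d) → Prop := fun U =>
    Sum.elim (fun u => ISp u.1) (fun s => Good R s (JS S R U s))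
  have hE : ∀ U k, Incr (E U k) := by
    rintro U (u | s) A B hAB h
    · obtain ⟨C, hC, hs⟩ := h
      exact ⟨C, hC.trans hAB, hs⟩
    · intro j hj
      rcases h j hj with ⟨x, hx, h⟩ | ⟨h1, x, hx, h⟩
      · exact Or.inl ⟨x, hAB hx, h⟩
      · exact Or.inr ⟨h1, x, hAB hx, h⟩
  have step1 := a3 (Cross T S R) (fun A => ∃ U ∈ (admSet T S R).powerset,
      ∃ w : Dat d ⊕ Sd d → Finset (Pt d), (∀ k ∈ U.disjSum univ, w k ⊆ A ∧ E U k (w k)) ∧
        ∀ k ∈ U.disjSum univ, ∀ l ∈ U.disjSum univ, k ≠ l → Disjoint (w k) (w l)) (by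
    rintro A - ⟨U, w, W, h1, h2, h3, h4, h5⟩
    refine ⟨U, mem_powerset.2 fun u hu => ?_, Sum.elim w W, ?_, ?_⟩
    · obtain ⟨had, -, -⟩ := h1 u hu
      unfold admSet
      refine mem_filter.2 ⟨mem_product.2 ⟨((hG d).2.2.2.1 u.1 R had.1 had.2.1).2.2.2.2, ?_⟩, had⟩
      refine Fintype.mem_piFinset.2 fun s => mem_range.2 ?_
      have := Finset.single_le_sum (f := u.2) (fun _ _ => Nat.zero_le _) (mem_univ s)
      have h6 := had.2.2.1
      have h7 := had.2.2.2.1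
      omega
    · rintro (u | s) hk
      · have hu : u ∈ U := by simpa using hk
        exact ⟨(h1 u hu).2.1, w u, Subset.rfl, (h1 u hu).2.2⟩
      · exact h2 s
    · rintro (u | s) hk (v | t) hl hne
      · exact h3 u (by simpa using hk) v (by simpa using hl) (fun h => hne (by rw [h]))
      · exact h5 u (by simpa using hk) t
      · exact (h5 v (by simpa using hl) s).symm
      · exact h4 s t (fun h => hne (by rw [h])))
  refine step1.trans ((a5 _ _ _).trans ?_)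
  have wn : ∀ u : Dat d, 0 ≤ Pr Ω p (ISp u.1) * ∏ s : Sd d, (b s.1)⁻¹ ^ u.2 s := fun u =>
    mul_nonneg (a1 _) (prod_nonneg fun s _ => pow_nonneg (inv_nonneg.2 (hb _).1.le) _)
  have pn : 0 ≤ ∏ s : Sd d, b s.1 ^ (R s - S s).toNat :=
    prod_nonneg fun s _ => pow_nonneg (hb _).1.le _
  calc _ ≤ ∑ U ∈ (admSet T S R).powerset, (∏ s : Sd d, b s.1 ^ (R s - S s).toNat) *
        ∏ u ∈ U, (Pr Ω p (ISp u.1) * ∏ s : Sd d, (b s.1)⁻¹ ^ u.2 s) := by
        refine sum_le_sum fun U _ => ?_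
        refine (hBK (Pt d) Ω p p0 p1 _ (U.disjSum univ) (E U) (fun k _ => hE U k)).trans ?_
        rw [Finset.prod_disjSum, prod_mul_distrib, prod_comm, mul_left_comm, ← prod_mul_distrib]
        refine mul_le_mul_of_nonneg_left ?_ (prod_nonneg fun u _ => a1 _)
        refine prod_le_prod (fun s _ => a1 _) fun s _ => ?_
        exact (hgood s _).trans (pow_JS_Cross S R U s (hb _).1 (hb _).2)
    _ = (∏ s : Sd d, b s.1 ^ (R s - S s).toNat) *
        ∏ u ∈ admSet T S R, (1 + Pr Ω p (ISp u.1) * ∏ s : Sd d, (b s.1)⁻¹ ^ u.2 s) := by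
        rw [← mul_sum, Finset.prod_one_add]
    _ ≤ _ := by
        refine mul_le_mul_of_nonneg_left ?_ pn
        rw [Real.exp_sum]
        refine prod_le_prod (fun u _ => add_nonneg zero_le_one (wn u)) fun u _ => ?_
        rw [add_comm]; exact Real.add_one_le_exp _

end Pool.Agent.MP_6d294b_pr
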