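import Pool.Agent.MP_6d294b_pr.Stm

open Finset

namespace Pool.Agent.MP_6d294b_pr

lemma sg_pos_Merge {d : ℕ} (y : Fin d → ℕ) (i : Fin d) : 1 ≤ sg y i :=
  Finset.prod_pos fun _ _ => Nat.succ_pos _

lemma sg_le_Merge {d : ℕ} (R : Bx d) (i : Fin d) : sg (ex R) i ≤ (psi R + 1) ^ (d - 1) := by
  classical
  unfold sg
  have h : ∀ j ∈ univ.erase i, ex R j + 1 ≤ psi R + 1 := fun j _ =>
    Nat.succ_le_succ (Finset.single_le_sum (f := fun i => ex R i) (fun _ _ => Nat.zero_le _)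
      (Finset.mem_univ j))
  have := Finset.prod_le_pow_card _ _ _ h
  rwa [Finset.card_erase_of_mem (Finset.mem_univ i), Finset.card_univ, Fintype.card_fin] at this

lemma exp3_Merge : 4 * Real.exp 1 * Real.exp 2 ≤ 100 := by
  have h1 := Real.exp_one_lt_d9
  have h0 := Real.exp_pos 1
  have h2 : Real.exp 2 = Real.exp 1 * Real.exp 1 := by rw [← Real.exp_add]; norm_num
  rw [h2]
  have h3 : Real.exp 1 ≤ 2.8 := by linarith
  have h4 : Real.exp 1 * Real.exp 1 ≤ 2.8 * 2.8 := mul_le_mul h3 h3 h0.le (by norm_num)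
  nlinarith

theorem sMerge (hG : SGeoA) (hb : SBet) (hs : SSlope) (h3 : SSeed) (h5 : SPotA) : SMerge := by
  intro d T M N p p' Ω Φ hpar hp hΦ
  obtain ⟨hd, hp', -, -, hsm, -⟩ := hpar
  obtain ⟨⟨m, hm1, -, -, hm4⟩, hs2⟩ := hs
  set w : ℝ := ((M : ℝ) + 1) ^ (d - 1) with hw
  have hw1 : 1 ≤ w := one_le_pow₀ (by linarith [(Nat.cast_nonneg M : (0 : ℝ) ≤ M)])
  have hsst : (sst d M : ℝ) = 200 * w := by
    unfold sst
    push_cast
    rfl
  have hpw : 0 < p' * w := by positivity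
  have hz0 : 0 < p' * sst d M := by rw [hsst]; positivity
  have hz1 : p' * sst d M ≤ 1 := by rw [hsst]; nlinarith
  set c : ℝ := Real.log (2 / (p' * sst d M)) / 2 with hc
  have hc2 : Real.exp (2 * c) = 2 / (p' * sst d M) := by
    rw [hc, mul_div_cancel₀ _ (two_ne_zero), Real.exp_log (by positivity)]
  have hc0 : 0 ≤ c := by
    refine div_nonneg (Real.log_nonneg ?_) (by norm_num)
    rw [le_div_iff₀ hz0]
    linarith
  have harg : ∀ k : ℕ, p' * sst d M ≤ p' * ((k : ℝ) + sst d M) := fun k =>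
    mul_le_mul_of_nonneg_left (by linarith [(Nat.cast_nonneg k : (0 : ℝ) ≤ k)]) hp'.le
  have hanti : Antitone (fun k : ℕ => Gt d M p' k) := by
    intro k l hkl
    have : (k : ℝ) ≤ l := by exact_mod_cast hkl
    exact (hs2 _ _ (hz0.trans_le (harg k))
      (mul_le_mul_of_nonneg_left (by linarith) hp'.le)).1
  have hbd : ∀ k : ℕ, 0 ≤ Gt d M p' k ∧ Gt d M p' k ≤ c := by
    intro k
    have hz := hz0.trans_le (harg k)
    obtain ⟨-, a1, a2, -⟩ := hb.2 _ hz
    refine ⟨a1, a2.trans ?_⟩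
    rw [hc]
    refine div_le_div_of_nonneg_right (Real.log_le_log (by positivity) ?_) (by norm_num)
    have b1 : 1 / (p' * ((k : ℝ) + sst d M)) ≤ 1 / (p' * sst d M) :=
      one_div_le_one_div_of_le hz0 (harg k)
    have b2 : 1 ≤ 1 / (p' * sst d M) := by
      rw [le_div_iff₀ hz0]
      linarith
    have b3 : 2 / (p' * sst d M) = 1 / (p' * sst d M) + 1 / (p' * sst d M) := by ring
    linarith
  obtain ⟨-, P3, P2⟩ := (h5 d (fun k : ℕ => Gt d M p' k)).2 Φ c hΦ hanti hbd
  have hp0 : 0 ≤ p := by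
    rw [hp, sub_nonneg]
    exact Real.exp_le_one_iff.2 (by linarith)
  have hp1 : p ≤ 1 := by
    rw [hp]
    linarith [Real.exp_pos (- p')]
  have hpp : p ≤ p' := by
    rw [hp]
    linarith [Real.add_one_le_exp (- p')]
  refine ⟨?_, ?_, ?_⟩
  · rintro R ⟨i, hi⟩
    have hi' : (sg (ex R) i : ℝ) ≤ 2 * w := by
      rw [hw]
      exact_mod_cast hi
    have a1 := (h3 d Ω p hp0 hp1 R i (c + 1) (by linarith)).1 ?_
    · refine a1.trans (Real.exp_le_exp.2 ?_)
      have a2 : Φ (ex R) ≤ (psi R : ℝ) * c := P3 (ex R)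
      linarith
    · have e1 : Real.exp (- (2 * (c + 1))) = 100 * (p' * w) / Real.exp 2 := by
        rw [show - (2 * (c + 1)) = - (2 * c) - 2 by ring, Real.exp_sub, Real.exp_neg, hc2, hsst]
        field_simp
        norm_num
      rw [e1, le_div_iff₀ (Real.exp_pos 2)]
      have b1 : p * sg (ex R) i ≤ p' * (2 * w) :=
        mul_le_mul hpp hi' (Nat.cast_nonneg _) hp'.le
      have b2 := mul_le_mul_of_nonneg_left b1
        (show 0 ≤ 2 * Real.exp 1 * Real.exp 2 by positivity)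
      have b3 := mul_le_mul_of_nonneg_right exp3_Merge hpw.le
      nlinarith
  · intro R hR
    by_contra hM
    have a1 := hR ⟨0, by omega⟩
    have a2 := sg_le_Merge R ⟨0, by omega⟩
    have a3 : (psi R + 1) ^ (d - 1) ≤ (M + 1) ^ (d - 1) := Nat.pow_le_pow_left (by omega) _
    omega
  · intro Q P hQ hP hg
    have a1 : ex Q ≤ ex (Q ⊔ P) := ((hG d).2.2.2.1 Q (Q ⊔ P) hQ le_sup_left).2.1
    have a2 : ex P ≤ ex (Q ⊔ P) := ((hG d).2.2.2.1 P (Q ⊔ P) hP le_sup_right).2.1
    have a3 := ((hG d).2.2.2.2 Q P hQ hP).1.trans hg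
    constructor
    · have b1 := P2 (ex Q) (ex P) (ex (Q ⊔ P)) 0 0 a1 a2 a3 le_rfl (Nat.zero_le _) ?_
      · rw [← hc2]
        refine Real.exp_le_exp.2 ?_
        linarith
      · intro i k hk
        rw [zero_add, one_pow] at hk
        rw [add_zero]
        exact hanti (hk.trans (sg_pos_Merge _ _))
    · intro hQ2 hM
      have b1 := P2 (ex Q) (ex P) (ex (Q ⊔ P)) M (1 / 808) a1 a2 a3 (by norm_num) hM ?_
      · rw [← hc2]
        refine Real.exp_le_exp.2 ?_
        linarith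
      · intro i k hk
        have hk' : (k : ℝ) ≤ w := by
          rw [hw]
          exact_mod_cast hk
        have hi' : 2 * w ≤ (sg (ex Q) i : ℝ) := by
          rw [hw]
          exact_mod_cast (hQ2 i).le
        have c1 : gf (p' * ((sg (ex Q) i : ℝ) + sst d M)) ≤ gf (202 * (p' * w)) :=
          (hs2 _ _ (by positivity) (by rw [hsst]; nlinarith)).1
        have c2 : gf (201 * (p' * w)) ≤ gf (p' * ((k : ℝ) + sst d M)) :=
          (hs2 _ _ (hz0.trans_le (harg k)) (by rw [hsst]; nlinarith)).1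
        have c3 := hm1 (202 * (p' * w)) (201 * (p' * w)) (by positivity) (by positivity)
        have c4 := hm4 (202 * (p' * w)) (by positivity) (by linarith)
        show gf (p' * ((sg (ex Q) i : ℝ) + sst d M)) + 1 / 808 ≤ gf (p' * ((k : ℝ) + sst d M))
        nlinarith

end Pool.Agent.MP_6d294b_pr
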