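import Pool.Agent.MP_6d294b_pr.Stm

open Finset

namespace Pool.Agent.MP_6d294b_pr

open Filter

noncomputable def KK_Par (k : ℕ) : ℝ :=
  1 + 2 ^ (3 * (k + 1) + 3) * ((k : ℝ) + 1) * ((5 * ((k : ℝ) + 1)) ^ k + 1)

noncomputable def CC_Par (k : ℕ) : ℝ :=
  808 * (20 * ((k : ℝ) + 1) ^ 2 + 15 * ((k : ℝ) + 1) * KK_Par k + 2) + 2

theorem KK_pos_Par (k : ℕ) : 0 < KK_Par k := by unfold KK_Par; positivity

theorem CC_pos_Par (k : ℕ) : 0 < CC_Par k := by
  have := KK_pos_Par k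
  unfold CC_Par; positivity

theorem log_le_Par {x y : ℝ} (n : ℕ) (hy : 0 < y) (h : y ≤ x ^ n) :
    Real.log y ≤ n * Real.log x := by
  rw [← Real.log_pow]; exact Real.log_le_log hy h

theorem eps_nn_Par (d T N : ℕ) {p : ℝ} (hp : 0 ≤ p) : 0 ≤ epsMax d T N p := by
  have h1 : 0 ≤ Real.log (2 * (T : ℝ) + 2) :=
    Real.log_nonneg (by have : (0 : ℝ) ≤ T := Nat.cast_nonneg T; linarith)
  have h2 : 0 ≤ Real.log (2 * (N : ℝ) + 1) :=
    Real.log_nonneg (by have : (0 : ℝ) ≤ N := Nat.cast_nonneg N; linarith)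
  have h3 : 0 ≤ Real.log 2 := Real.log_nonneg (by norm_num)
  unfold epsMax eta theta
  positivity

theorem eps_Par (k T N : ℕ) {x l B : ℝ} (hx : 2 ≤ x) (hl : l = 2 * Real.log x) (hl1 : 1 ≤ l)
    (hB1 : 1 ≤ B) (hBl : B ≤ l) (hBk : B ^ k = l) (hT1 : x ≤ T) (hT2 : (T : ℝ) ≤ 2 * x)
    (hN2 : (N : ℝ) ≤ 2 * (((k : ℝ) + 1) * B * x ^ 2)) (hN3 : 2 * (N : ℝ) + 1 ≤ x ^ 6) :
    epsMax (k + 1) T N ((1 / x ^ 2) ^ k)
      ≤ (20 * ((k : ℝ) + 1) ^ 2 + 15 * ((k : ℝ) + 1) * KK_Par k) * (x * l ^ 2) := by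
  have hx0 : 0 < x := by linarith
  have hk : (0 : ℝ) ≤ k := Nat.cast_nonneg k
  have hN0 : (0 : ℝ) ≤ N := Nat.cast_nonneg N
  set D : ℝ := (k : ℝ) + 1 with hD
  have hD1 : 1 ≤ D := by linarith
  have a1 : Real.log (2 * (T : ℝ) + 2) ≤ 2 * l := by
    have h4 : 2 * (T : ℝ) + 2 ≤ x ^ 4 := by
      have h8 : 8 ≤ x ^ 3 := by
        have := pow_le_pow_left₀ (by norm_num) hx 3
        linarith
      have : x ^ 4 = x ^ 3 * x := by ring
      nlinarith
    have := log_le_Par 4 (by positivity) h4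
    push_cast at this
    linarith
  have a2 : Real.log (2 * (N : ℝ) + 1) ≤ 3 * l := by
    have := log_le_Par 6 (by positivity) hN3
    push_cast at this
    linarith
  have a2' : 0 ≤ Real.log (2 * (N : ℝ) + 1) := Real.log_nonneg (by linarith)
  have a3 : Real.log 2 ≤ 1 := by
    have := Real.log_le_sub_one_of_pos (x := 2) (by norm_num)
    linarith
  have a4 : eta (k + 1) T ≤ 5 * D * l / x := by
    unfold eta
    push_cast
    refine div_le_div₀ (by positivity) ?_ hx0 hT1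
    have := mul_le_mul_of_nonneg_left a1 (show 0 ≤ 2 * D by positivity)
    nlinarith
  have a5 : 2 * (N : ℝ) * eta (k + 1) T ≤ 20 * D ^ 2 * (x * l ^ 2) := by
    have b1 : 2 * (N : ℝ) ≤ 4 * (D * l * x ^ 2) := by
      have : D * B * x ^ 2 ≤ D * l * x ^ 2 := by gcongr
      linarith
    calc 2 * (N : ℝ) * eta (k + 1) T ≤ 2 * N * (5 * D * l / x) := by gcongr
      _ ≤ 4 * (D * l * x ^ 2) * (5 * D * l / x) := by gcongr
      _ = 20 * D ^ 2 * (x * l ^ 2) := by field_simp; ring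
  have a6 : (1 / x ^ 2) ^ k * (2 * (N : ℝ) + 1) ^ k ≤ (5 * D) ^ k * l := by
    rw [← hBk, ← mul_pow, ← mul_pow]
    refine pow_le_pow_left₀ (by positivity) ?_ k
    rw [one_div, inv_mul_le_iff₀ (by positivity)]
    have b1 : 1 ≤ D * B * x ^ 2 :=
      one_le_mul_of_one_le_of_one_le (one_le_mul_of_one_le_of_one_le hD1 hB1)
        (one_le_pow₀ (by linarith))
    nlinarith
  have a7 : theta (k + 1) T N ((1 / x ^ 2) ^ k) ≤ 5 * x * (KK_Par k * l) := by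
    unfold theta KK_Par
    rw [Nat.add_sub_cancel]
    push_cast
    rw [← hD]
    have hc : (0 : ℝ) ≤ 2 ^ (3 * (k + 1) + 3) * D := by positivity
    refine mul_le_mul (by linarith) ?_ (by positivity) (by positivity)
    have b1 : (1 / x ^ 2) ^ k * (2 * (N : ℝ) + 1) ^ k + 1 ≤ ((5 * D) ^ k + 1) * l := by linarith
    have b2 := mul_le_mul_of_nonneg_left b1 hc
    nlinarith
  have a8 : theta (k + 1) T N ((1 / x ^ 2) ^ k) * (D * Real.log (2 * (N : ℝ) + 1))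
      ≤ 5 * x * (KK_Par k * l) * (D * (3 * l)) := by
    have := KK_pos_Par k
    refine mul_le_mul a7 (by gcongr) (by positivity) (by positivity)
  unfold epsMax
  push_cast
  rw [← hD]
  nlinarith

theorem main_Par (k : ℕ) (hk : 1 ≤ k) {x : ℝ} (hx : 2 ≤ x)
    (h3 : 2020 * CC_Par k * Real.log x ^ 2 ≤ x)
    (h4 : x ^ (24 * (k + 1) + 2 * k) * Real.exp (-x) ≤ 1 / 2) :
    ∃ (T M N : ℕ) (B : ℝ), Par (k + 1) T M N ((1 / x ^ 2) ^ k) ∧ 1 ≤ N ∧ (N : ℝ) ≤ x ^ 4 ∧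
      1 / x ^ 2 * (2 + 200 * (M + 1)) ≤ 1 ∧ 1 ≤ B ∧ B * ((k : ℝ) + 1) ≤ 1 / x ^ 2 * N ∧
      B ^ k = 2 * Real.log x ∧ (M : ℝ) + 1 ≤ CC_Par k * (2 * Real.log x) ^ 2 * x := by
  have hx0 : 0 < x := by linarith
  have hk0 : (0 : ℝ) ≤ k := Nat.cast_nonneg k
  set l : ℝ := 2 * Real.log x with hl
  have hl1 : 1 ≤ l := by
    have h1 : Real.log 2 ≤ Real.log x := Real.log_le_log (by norm_num) hx
    have := Real.log_two_gt_d9
    linarith
  set B : ℝ := l ^ ((k : ℝ)⁻¹) with hB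
  have hBk : B ^ k = l := Real.rpow_inv_natCast_pow (by linarith) (by omega)
  have hB1 : 1 ≤ B := Real.one_le_rpow hl1 (by positivity)
  have hBl : B ≤ l := by rw [← hBk]; exact le_self_pow₀ hB1 (by omega)
  set D : ℝ := (k : ℝ) + 1 with hD
  have hD1 : 1 ≤ D := by linarith
  have hK := KK_pos_Par k
  have hC : CC_Par k = 808 * (20 * D ^ 2 + 15 * D * KK_Par k + 2) + 2 := rfl
  have h5 : 505 * CC_Par k * l ^ 2 ≤ x := by rw [hl]; nlinarith
  have b1 : 1 ≤ D * B * x ^ 2 :=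
    one_le_mul_of_one_le_of_one_le (one_le_mul_of_one_le_of_one_le hD1 hB1)
      (one_le_pow₀ (by linarith))
  set T : ℕ := ⌈x⌉₊ with hT
  set N : ℕ := ⌈D * B * x ^ 2⌉₊ with hN
  have hT1 : x ≤ T := Nat.le_ceil x
  have hT2 : (T : ℝ) ≤ 2 * x := by have := Nat.ceil_lt_add_one hx0.le; linarith
  have hN1 : D * B * x ^ 2 ≤ N := Nat.le_ceil _
  have hN2 : (N : ℝ) ≤ 2 * (D * B * x ^ 2) := by
    have := Nat.ceil_lt_add_one (show 0 ≤ D * B * x ^ 2 by linarith); linarith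
  have hl2 : 1 ≤ l ^ 2 := one_le_pow₀ hl1
  have hN4 : (N : ℝ) ≤ x ^ 4 := by
    have c1 : D ≤ CC_Par k := by
      have : 0 ≤ D * KK_Par k := by positivity
      rw [hC]; nlinarith
    have c2 : D * B ≤ CC_Par k * l ^ 2 :=
      mul_le_mul c1 (hBl.trans (le_self_pow₀ hl1 (by norm_num))) (by linarith) (by linarith)
    have c3 : 2 * (D * B) ≤ x ^ 2 := by nlinarith
    have c4 := mul_le_mul_of_nonneg_right c3 (show 0 ≤ x ^ 2 by positivity)
    nlinarith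
  have hx4 : 1 ≤ x ^ 4 := one_le_pow₀ (by linarith)
  have hN3 : 2 * (N : ℝ) + 1 ≤ x ^ 6 := by
    have c1 : 4 ≤ x ^ 2 := by nlinarith
    have : x ^ 6 = x ^ 2 * x ^ 4 := by ring
    nlinarith
  have he := eps_Par k T N hx hl hl1 hB1 hBl hBk hT1 hT2 hN2 hN3
  have he0 := eps_nn_Par (k + 1) T N (p := (1 / x ^ 2) ^ k) (by positivity)
  set e := epsMax (k + 1) T N ((1 / x ^ 2) ^ k) with hE
  set M : ℕ := ⌈808 * (e + T)⌉₊ with hM
  have hM1 : 808 * (e + T) ≤ M := Nat.le_ceil _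
  have hxl : x ≤ x * l ^ 2 := le_mul_of_one_le_right hx0.le hl2
  have hM2 : (M : ℝ) + 1 ≤ CC_Par k * l ^ 2 * x := by
    have := Nat.ceil_lt_add_one (show 0 ≤ 808 * (e + T) by positivity)
    rw [hC]
    rw [← hD] at he
    nlinarith
  have hM0 : (0 : ℝ) ≤ M := Nat.cast_nonneg M
  have hq : 1 / x ^ 2 * ((M : ℝ) + 1) ≤ 1 / 505 := by
    rw [one_div, inv_mul_le_iff₀ (by positivity)]
    have := mul_le_mul_of_nonneg_right h5 hx0.le
    nlinarith
  have hq0 : 0 < 1 / x ^ 2 := by positivity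
  refine ⟨T, M, N, B, ⟨by omega, by positivity, ?_, hM1, ?_, ?_⟩, ?_, hN4, ?_, hB1, ?_, hBk, hM2⟩
  · exact Nat.one_le_iff_ne_zero.2 (Nat.ceil_pos.2 hx0).ne'
  · rw [Nat.add_sub_cancel, mul_left_comm, ← mul_pow]
    have : (1 / x ^ 2 * ((M : ℝ) + 1)) ^ k ≤ 1 / x ^ 2 * ((M : ℝ) + 1) :=
      pow_le_of_le_one (by positivity) (by linarith) (by omega)
    linarith
  · refine le_trans ?_ h4
    have c1 : (2 * (N : ℝ) + 1) ^ (4 * (k + 1)) ≤ x ^ (24 * (k + 1)) := by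
      rw [show 24 * (k + 1) = 6 * (4 * (k + 1)) by ring, pow_mul x 6]
      exact pow_le_pow_left₀ (by positivity) hN3 _
    have c2 : 2 / ((1 / x ^ 2) ^ k * (sst (k + 1) M : ℝ)) ≤ x ^ (2 * k) := by
      have c3 : (2 : ℝ) ≤ sst (k + 1) M := by
        have : (1 : ℝ) ≤ ((M : ℝ) + 1) ^ k := one_le_pow₀ (by linarith)
        unfold sst
        rw [Nat.add_sub_cancel]
        push_cast
        linarith
      rw [div_le_iff₀ (by positivity), ← mul_assoc, pow_mul, ← mul_pow,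
        mul_one_div_cancel (by positivity), one_pow, one_mul]
      exact c3
    rw [pow_add]
    exact mul_le_mul (mul_le_mul c1 c2 (by positivity) (by positivity))
      (Real.exp_le_exp.2 (by linarith)) (by positivity) (by positivity)
  · exact Nat.one_le_iff_ne_zero.2 (Nat.ceil_pos.2 (by linarith)).ne'
  · nlinarith
  · rw [one_div, le_inv_mul_iff₀ (by positivity)]
    linarith

theorem ev_Par (c : ℝ) (hc : 0 < c) (n : ℕ) : ∃ x₀ : ℝ, 0 < x₀ ∧ ∀ x, x₀ ≤ x →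
    2 ≤ x ∧ c * Real.log x ^ 2 ≤ x ∧ x ^ n * Real.exp (-x) ≤ 1 / 2 := by
  have h1 := (Real.isLittleO_pow_log_id_atTop (n := 2)).bound (c := c⁻¹) (by positivity)
  have h2 := (Real.tendsto_pow_mul_exp_neg_atTop_nhds_zero n).eventually
    (ge_mem_nhds (show (0 : ℝ) < 1 / 2 by norm_num))
  obtain ⟨a, ha⟩ := eventually_atTop.1 ((h1.and h2).and (eventually_ge_atTop (2 : ℝ)))
  refine ⟨max a 1, by positivity, fun x hx => ?_⟩
  obtain ⟨⟨b1, b2⟩, b3⟩ := ha x ((le_max_left _ _).trans hx)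
  refine ⟨b3, ?_, b2⟩
  rw [Real.norm_of_nonneg (by positivity), id, Real.norm_of_nonneg (by linarith),
    le_inv_mul_iff₀ hc] at b1
  exact b1

theorem sPar : SPar := by
  intro d hd
  obtain ⟨k, rfl⟩ : ∃ k, d = k + 1 := ⟨d - 1, by omega⟩
  have hC := CC_pos_Par k
  obtain ⟨x₀, h0, hx⟩ := ev_Par (2020 * CC_Par k) (by positivity) (24 * (k + 1) + 2 * k)
  refine ⟨CC_Par k, 1 / x₀ ^ 2, hC, by positivity, fun q hq hq0 => ?_⟩
  have hs : 0 < Real.sqrt q := Real.sqrt_pos.2 hq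
  set x : ℝ := (Real.sqrt q)⁻¹ with hxd
  have hx0 : 0 < x := by positivity
  have e1 : 1 / x ^ 2 = q := by
    rw [hxd, inv_pow, Real.sq_sqrt hq.le, one_div, inv_inv]
  have hle : x₀ ≤ x := by
    rw [← e1] at hq0
    have := (one_div_le_one_div (by positivity) (by positivity)).1 hq0
    exact (pow_le_pow_iff_left₀ h0.le hx0.le two_ne_zero).1 this
  obtain ⟨b1, b2, b3⟩ := hx x hle
  obtain ⟨T, M, N, B, c1, c2, c3, c4, c5, c6, c7, c8⟩ := main_Par k (by omega) b1 b2 b3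
  have e2 : Real.log (1 / q) = 2 * Real.log x := by
    rw [← e1, one_div_one_div, Real.log_pow]; norm_num
  have e3 : 1 / q ^ 2 = x ^ 4 := by rw [← e1]; field_simp
  rw [e1] at c1 c4 c6
  refine ⟨T, M, N, B, c1, c2, by rw [e3]; exact c3, c4, c5, by push_cast; exact c6,
    by rw [e2]; exact c7, ?_⟩
  rw [e2, div_eq_mul_inv]
  exact c8

end Pool.Agent.MP_6d294b_pr
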