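import Pool.Agent.MP_6d294b_pr.Stm

open Finset

namespace Pool.Agent.MP_6d294b_pr

noncomputable def yy_Slope (z : ℝ) : ℝ := (1 + Real.sqrt (1 + 4 / (Real.exp z - 1))) / 2

noncomputable def mm_Slope (z : ℝ) : ℝ :=
  - ((yy_Slope z - 1) ^ 2 * (yy_Slope z + 1) / (2 * yy_Slope z - 1))

lemma epos_Slope {z : ℝ} (hz : 0 < z) : 0 < Real.exp z - 1 := by
  have := Real.add_one_lt_exp hz.ne'
  linarith

lemma ysq_Slope {z : ℝ} (hz : 0 < z) :
    yy_Slope z * (yy_Slope z - 1) = 1 / (Real.exp z - 1) := by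
  have he := epos_Slope hz
  have hD : 0 ≤ 1 + 4 / (Real.exp z - 1) := by positivity
  have hs := Real.mul_self_sqrt hD
  have h4 : 4 / (Real.exp z - 1) = 4 * (1 / (Real.exp z - 1)) := by ring
  unfold yy_Slope
  rw [h4] at hs ⊢
  nlinarith [hs]

lemma ygt_Slope {z : ℝ} (hz : 0 < z) : 1 < yy_Slope z := by
  have he := epos_Slope hz
  have h1 : (1 : ℝ) < Real.sqrt (1 + 4 / (Real.exp z - 1)) := by
    rw [Real.lt_sqrt zero_le_one]
    have : 0 < 4 / (Real.exp z - 1) := by positivity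
    linarith
  unfold yy_Slope
  linarith

lemma yanti_Slope {z z' : ℝ} (hz : 0 < z) (h : z ≤ z') : yy_Slope z' ≤ yy_Slope z := by
  have he := epos_Slope hz
  have h1 : Real.exp z ≤ Real.exp z' := Real.exp_le_exp.2 h
  have h2 : 4 / (Real.exp z' - 1) ≤ 4 / (Real.exp z - 1) :=
    div_le_div_of_nonneg_left (by norm_num) he (by linarith)
  have h3 : Real.sqrt (1 + 4 / (Real.exp z' - 1)) ≤ Real.sqrt (1 + 4 / (Real.exp z - 1)) :=
    Real.sqrt_le_sqrt (by linarith)
  unfold yy_Slope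
  linarith

lemma uu_Slope {z : ℝ} (hz : 0 < z) :
    (1 - Real.exp (- z)) * (yy_Slope z ^ 2 - yy_Slope z + 1) = 1 := by
  have he := epos_Slope hz
  have h1 := ysq_Slope hz
  have h2 : yy_Slope z ^ 2 - yy_Slope z + 1 = 1 / (Real.exp z - 1) + 1 := by
    rw [← h1]; ring
  have h3 : 0 < Real.exp z := Real.exp_pos z
  rw [h2, Real.exp_neg]
  field_simp
  ring

lemma upos_Slope {z : ℝ} (hz : 0 < z) : 0 < 1 - Real.exp (- z) := by
  have : Real.exp (- z) < Real.exp 0 := Real.exp_lt_exp.2 (by linarith)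
  rw [Real.exp_zero] at this
  linarith

lemma bet_Slope {z : ℝ} (hz : 0 < z) :
    bet (1 - Real.exp (- z)) = yy_Slope z * (1 - Real.exp (- z)) := by
  have hu := uu_Slope hz
  have hp := upos_Slope hz
  have hy := ygt_Slope hz
  set u := 1 - Real.exp (- z) with hudef
  set y := yy_Slope z with hydef
  have h1 : u * (4 - 3 * u) = ((2 * y - 1) * u) ^ 2 := by
    have : ((2 * y - 1) * u) ^ 2 = u * (4 * (u * (y ^ 2 - y + 1)) - 3 * u) := by ring
    rw [this, hu]; ring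
  have h2 : 0 ≤ (2 * y - 1) * u := mul_nonneg (by linarith) hp.le
  unfold bet
  rw [h1, Real.sqrt_sq h2]
  ring

lemma gf_Slope {z : ℝ} (hz : 0 < z) :
    gf z = - Real.log (yy_Slope z) - Real.log (1 - Real.exp (- z)) := by
  have hp := upos_Slope hz
  have hy := ygt_Slope hz
  unfold gf
  rw [bet_Slope hz, Real.log_mul (by linarith) hp.ne']
  ring

lemma ydiff_Slope {z : ℝ} (hz : 0 < z) :
    HasDerivAt yy_Slope
      (- ((yy_Slope z ^ 2 - yy_Slope z + 1) * (yy_Slope z * (yy_Slope z - 1)) /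
        (2 * yy_Slope z - 1))) z := by
  have he := epos_Slope hz
  have hD : 0 < 1 + 4 / (Real.exp z - 1) := by positivity
  have h1 : HasDerivAt (fun x : ℝ => Real.exp x - 1) (Real.exp z) z :=
    (Real.hasDerivAt_exp z).sub_const 1
  have h2 : HasDerivAt (fun x : ℝ => 1 + 4 / (Real.exp x - 1))
      ((0 * (Real.exp z - 1) - 4 * Real.exp z) / (Real.exp z - 1) ^ 2) z :=
    ((hasDerivAt_const z (4 : ℝ)).div h1 he.ne').const_add 1
  have h3 := ((h2.sqrt hD.ne').const_add 1).div_const 2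
  have hs : Real.sqrt (1 + 4 / (Real.exp z - 1)) = 2 * yy_Slope z - 1 := by
    unfold yy_Slope; ring
  have hq := ysq_Slope hz
  have hq2 : yy_Slope z ^ 2 - yy_Slope z + 1 = 1 / (Real.exp z - 1) + 1 := by
    rw [← hq]; ring
  have hy := ygt_Slope hz
  have hy2 : (2 * yy_Slope z - 1) ≠ 0 := by linarith
  refine HasDerivAt.congr_deriv (f := yy_Slope) h3 ?_
  rw [hs, hq, hq2]
  field_simp
  ring

lemma gdiff_Slope {z : ℝ} (hz : 0 < z) : HasDerivAt gf (mm_Slope z) z := by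
  have hp := upos_Slope hz
  have hy := ygt_Slope hz
  have hu := uu_Slope hz
  have h1 := (ydiff_Slope hz).log (by linarith : yy_Slope z ≠ 0)
  have h2 : HasDerivAt (fun x : ℝ => 1 - Real.exp (- x)) (Real.exp (- z)) z := by
    have := ((hasDerivAt_neg z).exp).const_sub 1
    simpa using this
  have h3 := h2.log hp.ne'
  have h4 := h1.neg.sub h3
  have h5 : gf =ᶠ[nhds z] fun x => - Real.log (yy_Slope x) - Real.log (1 - Real.exp (- x)) := by
    filter_upwards [Ioi_mem_nhds hz] with x hx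
    exact gf_Slope hx
  have h6 : Real.exp (- z) / (1 - Real.exp (- z)) = yy_Slope z * (yy_Slope z - 1) := by
    rw [div_eq_iff hp.ne']
    nlinarith [hu]
  have hy2 : (2 * yy_Slope z - 1) ≠ 0 := by linarith
  have hy3 : yy_Slope z ≠ 0 := by linarith
  refine HasDerivAt.congr_of_eventuallyEq (HasDerivAt.congr_deriv h4 ?_) h5
  rw [h6]
  unfold mm_Slope
  generalize yy_Slope z = y at hy2 hy3 ⊢
  obtain ⟨w, hw⟩ : ∃ w, w = 2 * y - 1 := ⟨_, rfl⟩
  have e1 : - (- ((y ^ 2 - y + 1) * (y * (y - 1)) / (2 * y - 1)) / y) =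
      (y ^ 2 - y + 1) * (y - 1) / (2 * y - 1) := by
    rw [← hw] at hy2 ⊢
    field_simp
  have e2 : y * (y - 1) = y * (y - 1) * (2 * y - 1) / (2 * y - 1) := by
    rw [← hw] at hy2 ⊢
    field_simp
  rw [e1, e2, ← sub_div, ← neg_div]
  congr 1
  ring

lemma hmono_Slope {a b : ℝ} (ha : 1 ≤ a) (hab : a ≤ b) :
    (a - 1) ^ 2 * (a + 1) / (2 * a - 1) ≤ (b - 1) ^ 2 * (b + 1) / (2 * b - 1) := by
  have h1 : 0 < 2 * a - 1 := by linarith
  have h2 : 0 < 2 * b - 1 := by linarith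
  have e1 : (a - 1) ^ 2 * (a + 1) / (2 * a - 1) = (a - 1) * ((a - 1) * (a + 1) / (2 * a - 1)) := by
    ring
  have e2 : (b - 1) ^ 2 * (b + 1) / (2 * b - 1) = (b - 1) * ((b - 1) * (b + 1) / (2 * b - 1)) := by
    ring
  rw [e1, e2]
  have h3 : (a - 1) * (a + 1) / (2 * a - 1) ≤ (b - 1) * (b + 1) / (2 * b - 1) := by
    rw [div_le_div_iff₀ h1 h2]
    have h4 : (b - 1) * (b + 1) * (2 * a - 1) - (a - 1) * (a + 1) * (2 * b - 1) =
        (b - a) * (a * (b - 1) + b * (a - 1) + 2) := by ring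
    have h5 : 0 ≤ (b - a) * (a * (b - 1) + b * (a - 1) + 2) := by
      apply mul_nonneg (by linarith)
      have : 0 ≤ a * (b - 1) := mul_nonneg (by linarith) (by linarith)
      have : 0 ≤ b * (a - 1) := mul_nonneg (by linarith) (by linarith)
      linarith
    linarith
  have h6 : 0 ≤ (a - 1) * (a + 1) / (2 * a - 1) :=
    div_nonneg (mul_nonneg (by linarith) (by linarith)) h1.le
  exact mul_le_mul (by linarith) h3 h6 (by linarith)

lemma mmono_Slope {z z' : ℝ} (hz : 0 < z) (h : z ≤ z') : mm_Slope z ≤ mm_Slope z' := by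
  have := hmono_Slope (ygt_Slope (lt_of_lt_of_le hz h)).le (yanti_Slope hz h)
  unfold mm_Slope
  linarith

lemma mneg_Slope {z : ℝ} (hz : 0 < z) : mm_Slope z ≤ 0 := by
  have hy := ygt_Slope hz
  have : 0 ≤ (yy_Slope z - 1) ^ 2 * (yy_Slope z + 1) / (2 * yy_Slope z - 1) :=
    div_nonneg (mul_nonneg (sq_nonneg _) (by linarith)) (by linarith)
  unfold mm_Slope
  linarith

lemma mvt_Slope {f f' : ℝ → ℝ} (hf : ∀ x, 0 < x → HasDerivAt f (f' x) x) {a b : ℝ} (ha : 0 < a)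
    (hab : a < b) : ∃ c, a < c ∧ c < b ∧ f b - f a = f' c * (b - a) := by
  have hc : ContinuousOn f (Set.Icc a b) := fun x hx =>
    (hf x (lt_of_lt_of_le ha hx.1)).continuousAt.continuousWithinAt
  obtain ⟨c, hc1, hc2⟩ := exists_hasDerivAt_eq_slope f f' hab hc
    (fun x hx => hf x (lt_trans ha hx.1))
  refine ⟨c, hc1.1, hc1.2, ?_⟩
  have : b - a ≠ 0 := by linarith
  rw [hc2]
  field_simp

lemma supp_Slope {z z' : ℝ} (hz : 0 < z) (hz' : 0 < z') :
    gf z + mm_Slope z * (z' - z) ≤ gf z' := by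
  rcases lt_trichotomy z z' with h | h | h
  · obtain ⟨c, h1, _, h3⟩ := mvt_Slope (fun x hx => gdiff_Slope hx) hz h
    have h4 := mmono_Slope hz h1.le
    have h5 := mul_le_mul_of_nonneg_right h4 (by linarith : 0 ≤ z' - z)
    linarith
  · subst h; simp
  · obtain ⟨c, h1, h2, h3⟩ := mvt_Slope (fun x hx => gdiff_Slope hx) hz' h
    have h4 := mmono_Slope (lt_trans hz' h1) h2.le
    have h5 := mul_le_mul_of_nonneg_right h4 (by linarith : 0 ≤ z - z')
    linarith

lemma mlow_Slope {z : ℝ} (hz : 0 < z) : 0 ≤ mm_Slope z + z⁻¹ := by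
  have hy := ygt_Slope hz
  have hq := ysq_Slope hz
  have h1 : z ≤ Real.exp z - 1 := by
    have := Real.add_one_le_exp z
    linarith
  have h2 : 1 / (Real.exp z - 1) ≤ 1 / z := one_div_le_one_div_of_le hz h1
  have h3 : (yy_Slope z - 1) ^ 2 * (yy_Slope z + 1) / (2 * yy_Slope z - 1) ≤
      yy_Slope z * (yy_Slope z - 1) := by
    rw [div_le_iff₀ (by linarith)]
    have h4 : 0 ≤ (yy_Slope z - 1) * (yy_Slope z ^ 2 - yy_Slope z + 1) :=
      mul_nonneg (by linarith) (by nlinarith)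
    nlinarith [h4]
  rw [one_div z] at h2
  unfold mm_Slope
  linarith

lemma mupp_Slope {z : ℝ} (hz : 0 < z) (hz2 : z ≤ 2 / 5) : z * mm_Slope z ≤ - (1 / 4) := by
  have hy := ygt_Slope hz
  have hu := uu_Slope hz
  have h1 : 1 - z ≤ Real.exp (- z) := by
    have := Real.add_one_le_exp (- z)
    linarith
  have hp := upos_Slope hz
  set u := 1 - Real.exp (- z) with hudef
  set y := yy_Slope z with hydef
  have huz : u ≤ z := by linarith
  have hQ : 0 < y ^ 2 - y + 1 := by nlinarith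
  have h2 : 1 ≤ z * (y ^ 2 - y + 1) := by
    have := mul_le_mul_of_nonneg_right huz hQ.le
    linarith
  have h3 : 5 / 2 ≤ y ^ 2 - y + 1 := by
    have := mul_le_mul_of_nonneg_right hz2 hQ.le
    linarith
  have h4 : 9 / 5 ≤ y := by
    by_contra hc
    push Not at hc
    nlinarith
  have h5 : (2 * y - 1) * (y ^ 2 - y + 1) ≤ 4 * ((y - 1) ^ 2 * (y + 1)) := by
    obtain ⟨t, ht⟩ : ∃ t, y = 9 / 5 + t := ⟨y - 9 / 5, by ring⟩
    have ht0 : 0 ≤ t := by linarith
    rw [ht]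
    nlinarith [mul_nonneg ht0 ht0, mul_nonneg (mul_nonneg ht0 ht0) ht0]
  have h6 : (y ^ 2 - y + 1) / 4 ≤ (y - 1) ^ 2 * (y + 1) / (2 * y - 1) := by
    rw [div_le_div_iff₀ (by norm_num) (by linarith)]
    linarith
  have h7 := mul_le_mul_of_nonneg_left h6 hz.le
  have h8 : mm_Slope z = - ((y - 1) ^ 2 * (y + 1) / (2 * y - 1)) := rfl
  rw [h8]
  linarith

theorem sSlope (hb : SBet) : SSlope := by
  have _ := hb
  refine ⟨⟨mm_Slope, fun z z' hz hz' => supp_Slope hz hz', fun z z' hz h => mmono_Slope hz h,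
    fun z hz => mneg_Slope hz, fun z hz h => mupp_Slope hz h⟩, fun z z' hz h => ⟨?_, ?_⟩⟩
  · have hz' : 0 < z' := lt_of_lt_of_le hz h
    have h1 := supp_Slope hz' hz
    have h2 : 0 ≤ mm_Slope z' * (z - z') :=
      mul_nonneg_of_nonpos_of_nonpos (mneg_Slope hz') (by linarith)
    linarith
  · rcases eq_or_lt_of_le h with h | h
    · subst h; simp
    · obtain ⟨c, h1, _, h3⟩ := mvt_Slope (f := fun x => gf x + Real.log x)
        (f' := fun x => mm_Slope x + x⁻¹)
        (fun x hx => (gdiff_Slope hx).add (Real.hasDerivAt_log hx.ne')) hz h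
      have h4 := mul_nonneg (mlow_Slope (lt_trans hz h1)) (by linarith : 0 ≤ z' - z)
      linarith

end Pool.Agent.MP_6d294b_pr
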