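import Pool.Agent.MP_6d294b_pr.Stm

open Finset

namespace Pool.Agent.MP_6d294b_pr

theorem sg_pos_Step {d : ℕ} (y : Fin d → ℕ) (i : Fin d) : 1 ≤ sg y i :=
  Finset.one_le_prod' fun _ _ => Nat.le_add_left _ _

theorem sg_le_Step {d : ℕ} (y : Fin d → ℕ) (i : Fin d) (K : ℕ) (h : ∀ j, y j + 1 ≤ K) :
    sg y i ≤ K ^ (d - 1) := by
  have := Finset.prod_le_pow_card (univ.erase i) (fun j => y j + 1) K fun j _ => h j
  rwa [card_erase_of_mem (mem_univ _), card_univ, Fintype.card_fin] at this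

theorem ex_le_Step {d : ℕ} (R : Bx d) (j : Fin d) : ex R j ≤ psi R :=
  Finset.single_le_sum (f := ex R) (fun _ _ => Nat.zero_le _) (mem_univ j)

theorem log_sg_Step {d : ℕ} (S R : Bx d) (h : ∀ i, ex S i ≤ ex R i) (i : Fin d) :
    Real.log (sg (ex R) i) - Real.log (sg (ex S) i) ≤ lg R - lg S := by
  have e : ∀ y : Fin d → ℕ, Real.log (sg y i) = ∑ j ∈ univ.erase i, Real.log ((y j : ℝ) + 1) :=
    fun y => by
      rw [sg, Nat.cast_prod, Real.log_prod fun j _ => by positivity]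
      simp
  rw [e, e, lg, lg, ← sum_sub_distrib, ← sum_sub_distrib]
  refine sum_le_sum_of_subset_of_nonneg (erase_subset _ _) fun j _ _ => sub_nonneg.2 ?_
  exact Real.log_le_log (by positivity) (by have := h j; gcongr)

theorem sStep (hA : SPrA) (hG : SGeoA) (hb : SBet) (hs : SSlope) (h1 : SGood) (h2 : SCross)
    (h3 : SSeed) (h4 : SWsum) (h5 : SPotA) : SStep := by
  intro d T M N p p' Ω Φ ⟨hd, hp', hT, hM, h25, _⟩ hp hΦ S R vS hSR hN hD
  obtain ⟨K, hK⟩ : ∃ K : ℝ, K = ((M : ℝ) + 1) ^ (d - 1) := ⟨_, rfl⟩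
  have K1 : 1 ≤ K := hK ▸ one_le_pow₀ (by simp)
  have hst : (sst d M : ℝ) = 200 * K := by rw [sst, hK]; push_cast; rfl
  rw [← hK] at h25
  have e1 : 1 - p = Real.exp (-p') := by rw [hp]; ring
  have p0 : 0 ≤ p := by
    rw [hp, sub_nonneg]; exact Real.exp_le_one_iff.2 (by linarith)
  have pp : p ≤ p' := by have := Real.add_one_le_exp (-p'); linarith
  have ps : p' ≤ 1 / 2 := by nlinarith
  have p1 : p ≤ 1 := by linarith
  have s0 : 0 < p' * (200 * K) := by positivity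
  have s1 : p' * (200 * K) ≤ 2 / 5 := by nlinarith
  obtain ⟨c, hc⟩ : ∃ c, c = Real.log (2 / (p' * (200 * K))) / 2 := ⟨_, rfl⟩
  have ec : Real.exp (2 * c) = 2 / (p' * (200 * K)) := by
    rw [hc, mul_div_cancel₀ _ two_ne_zero, Real.exp_log (by positivity)]
  have c0 : 0 ≤ c := by
    rw [hc]
    refine div_nonneg (Real.log_nonneg ?_) two_pos.le
    rw [le_div_iff₀ s0]; linarith
  have hGt : ∀ k : ℝ, Gt d M p' k = gf (p' * (k + 200 * K)) := fun k => by rw [Gt, hst]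
  have z0 : ∀ k : ℕ, 0 < p' * (k + 200 * K) := fun k => by positivity
  have G0 : ∀ k : ℕ, 0 ≤ Gt d M p' k := fun k => hGt k ▸ (hb.2 _ (z0 k)).2.1
  have G1 : ∀ k : ℕ, Gt d M p' k ≤ Real.log (1 + 1 / (p' * (k + 200 * K))) / 2 := fun k =>
    hGt k ▸ (hb.2 _ (z0 k)).2.2.1
  have Gc : ∀ k : ℕ, Gt d M p' k ≤ c := fun k => by
    refine (G1 k).trans ?_
    rw [hc]
    have a : 1 / (p' * (k + 200 * K)) ≤ 1 / (p' * (200 * K)) := by gcongr; simp
    have b : 1 ≤ 1 / (p' * (200 * K)) := by rw [le_div_iff₀ s0]; linarith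
    have e : 2 / (p' * (200 * K)) = 1 / (p' * (200 * K)) + 1 / (p' * (200 * K)) := by ring
    gcongr
    linarith
  have Gm : ∀ k k' : ℕ, k ≤ k' → Gt d M p' k' ≤ Gt d M p' k ∧ Gt d M p' k - Gt d M p' k' ≤
      Real.log (p' * (k' + 200 * K)) - Real.log (p' * (k + 200 * K)) := fun k k' h => by
    rw [hGt, hGt]
    exact hs.2 _ _ (z0 k) (by gcongr)
  obtain ⟨-, hex, hdel, -, -⟩ := (hG d).2.2.2.1 S R vS hSR
  obtain ⟨b, hbd⟩ : ∃ b : Fin d → ℝ, ∀ i, b i = Real.exp (-Gt d M p' (sg (ex R) i)) :=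
    ⟨_, fun _ => rfl⟩
  have b01 : ∀ i, 0 < b i ∧ b i ≤ 1 := fun i => by
    rw [hbd]
    exact ⟨Real.exp_pos _, Real.exp_le_one_iff.2 (neg_nonpos.2 (G0 _))⟩
  have bi : ∀ i, (b i)⁻¹ = Real.exp (Gt d M p' (sg (ex R) i)) := fun i => by
    rw [hbd, Real.exp_neg, inv_inv]
  have C := h2 d Ω p p0 (pp.trans ps) T S R b hSR b01 fun s J => by
    rw [hbd, hGt, (hb.2 _ (z0 _)).1]
    refine h1 d Ω p p0 p1 R s _ ?_ (sub_le_self _ (Real.exp_pos _).le) J
    rw [e1, ← Real.exp_nat_mul]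
    gcongr
    nlinarith
  have eps : 0 ≤ epsMax d T N p' := by
    have a : 0 ≤ Real.log (2 * T + 2) := Real.log_nonneg (by have : (0 : ℝ) ≤ T := T.cast_nonneg; linarith)
    have a' : 0 ≤ Real.log (2 * N + 1) := Real.log_nonneg (by simp)
    have a'' : 0 ≤ Real.log 2 := Real.log_nonneg (by norm_num)
    unfold epsMax eta theta
    positivity
  have TK : 808 * (T : ℝ) ^ (d - 1) ≤ K := by
    have a : (808 * (T : ℝ)) ^ (d - 1) ≤ K := by
      rw [hK]; gcongr; linarith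
    rw [mul_pow] at a
    refine le_trans ?_ a
    gcongr
    exact le_self_pow₀ (by norm_num) (by omega)
  have W := h4 d T (2 * T + 1) S R (fun P => Pr Ω p (ISp P)) b c (p' * (2 * N + 1) ^ (d - 1)) p'
    vS hSR hD hp' b01 (fun i => by rw [bi]; exact Real.exp_le_exp.2 (Gc _))
    (fun i => by
      have a : (1 : ℝ) ≤ sg (ex R) i := by exact_mod_cast sg_pos_Step _ i
      rw [bi, ← Real.exp_nat_mul]
      refine (Real.exp_le_exp.2 (show _ ≤ Real.log (1 + 1 / (p' * (sg (ex R) i + 200 * K))) by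
        have := G1 (sg (ex R) i); push_cast; linarith)).trans ?_
      rw [Real.exp_log (by positivity)]
      gcongr
      linarith)
    (fun i => by
      have : sg (ex R) i ≤ (2 * N + 1) ^ (d - 1) :=
        sg_le_Step _ i _ fun j => by have := ex_le_Step R j; omega
      gcongr
      exact_mod_cast this)
    fun P _ hP => by
      refine ⟨(hA _ Ω p p0 p1).1 _, ?_⟩
      refine ((h3 d Ω p p0 p1 P ⟨0, by omega⟩ c c0).2 ?_).trans (by gcongr)
      have a : (sg (ex P) ⟨0, by omega⟩ : ℝ) ≤ (T : ℝ) ^ (d - 1) := by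
        exact_mod_cast sg_le_Step _ _ T fun j => by have := ex_le_Step P j; omega
      have e3 : Real.exp 1 ≤ 3 := Real.exp_one_lt_d9.le.trans (by norm_num)
      rw [ec, ← mul_div_assoc, div_le_iff₀ s0]
      calc _ ≤ 3 * 3 * p' * (K / 808) * 2 := by gcongr; linarith
        _ ≤ _ := by nlinarith
  have Pb : ∏ s : Sd d, b s.1 ^ (R s - S s).toNat =
      Real.exp (-∑ i, ((ex R i - ex S i : ℕ) : ℝ) * Gt d M p' (sg (ex R) i)) := by
    rw [Fintype.prod_prod_type, ← sum_neg_distrib, Real.exp_sum]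
    refine prod_congr rfl fun i _ => ?_
    rw [Fintype.prod_bool, ← pow_add, ← hdel, hbd, ← Real.exp_nat_mul, mul_neg]
  have Ph := ((h5 d fun k : ℕ => Gt d M p' k).2 Φ c hΦ (fun k k' h => (Gm k k' h).1)
    fun k => ⟨G0 k, Gc k⟩).1 (ex S) (ex R) hex
  have L0 : 0 ≤ lg R - lg S := by
    rw [lg, lg, ← sum_sub_distrib]
    exact sum_nonneg fun j _ => sub_nonneg.2 (Real.log_le_log (by positivity)
      (by have := hex j; gcongr))
  have D1 : ∀ i, Gt d M p' (sg (ex S) i) - Gt d M p' (sg (ex R) i) ≤ lg R - lg S := fun i => by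
    have a : sg (ex S) i ≤ sg (ex R) i := prod_le_prod' fun j _ => Nat.succ_le_succ (hex j)
    have a1 : (1 : ℝ) ≤ sg (ex S) i := by exact_mod_cast sg_pos_Step _ i
    have a2 : (sg (ex S) i : ℝ) ≤ sg (ex R) i := by exact_mod_cast a
    refine (Gm _ _ a).2.trans (le_trans ?_ (log_sg_Step S R hex i))
    rw [← Real.log_div (z0 _).ne' (z0 _).ne', ← Real.log_div (by linarith) (by linarith)]
    refine Real.log_le_log (div_pos (z0 _) (z0 _)) ?_
    rw [mul_div_mul_left _ _ hp'.ne', div_le_div_iff₀ (by linarith) (by linarith)]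
    nlinarith
  have D2 : ∑ i, ((ex R i - ex S i : ℕ) : ℝ) ≤ 2 * T + 1 := by
    have : ∑ i, (ex R i - ex S i) + psi S = psi R := by
      rw [psi, psi, ← sum_add_distrib]
      exact sum_congr rfl fun i _ => Nat.sub_add_cancel (hex i)
    have : ∑ i, (ex R i - ex S i) ≤ 2 * T + 1 := by omega
    exact_mod_cast this
  have D3 : ∑ i, ((ex R i - ex S i : ℕ) : ℝ) * Gt d M p' (sg (ex S) i) -
      ∑ i, ((ex R i - ex S i : ℕ) : ℝ) * Gt d M p' (sg (ex R) i) ≤ (2 * T + 1) * (lg R - lg S) := by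
    rw [← sum_sub_distrib]
    calc _ ≤ ∑ i, ((ex R i - ex S i : ℕ) : ℝ) * (lg R - lg S) := sum_le_sum fun i _ => by
          rw [← mul_sub]; exact mul_le_mul_of_nonneg_left (D1 i) (Nat.cast_nonneg _)
      _ ≤ _ := by rw [← sum_mul]; gcongr
  refine C.trans ?_
  rw [Pb, ← Real.exp_add]
  refine Real.exp_le_exp.2 ?_
  push_cast at W
  rw [theta]
  nlinarith

end Pool.Agent.MP_6d294b_pr
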