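import Pool.Agent.MP_6d294b_pr.PBK
import Pool.Agent.MP_6d294b_pr.PBet
import Pool.Agent.MP_6d294b_pr.PChain
import Pool.Agent.MP_6d294b_pr.PCrit
import Pool.Agent.MP_6d294b_pr.PCross
import Pool.Agent.MP_6d294b_pr.PFinal
import Pool.Agent.MP_6d294b_pr.PGeoA
import Pool.Agent.MP_6d294b_pr.PGeoB
import Pool.Agent.MP_6d294b_pr.PGood
import Pool.Agent.MP_6d294b_pr.PInd
import Pool.Agent.MP_6d294b_pr.PInt
import Pool.Agent.MP_6d294b_pr.PMerge
import Pool.Agent.MP_6d294b_pr.PPar
import Pool.Agent.MP_6d294b_pr.PPerc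
import Pool.Agent.MP_6d294b_pr.PPotA
import Pool.Agent.MP_6d294b_pr.PPotB
import Pool.Agent.MP_6d294b_pr.PPrA
import Pool.Agent.MP_6d294b_pr.PPrB
import Pool.Agent.MP_6d294b_pr.PRect
import Pool.Agent.MP_6d294b_pr.PSeed
import Pool.Agent.MP_6d294b_pr.PSlope
import Pool.Agent.MP_6d294b_pr.PStep
import Pool.Agent.MP_6d294b_pr.PWsum

namespace Pool.Agent.MP_6d294b_pr

theorem final_All : SFinal := by
  have hA := sPrA
  have hP := sPrB hA
  have hBK := sBK hA
  have hG := sGeoA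
  have hB := sGeoB hG
  have hb := sBet
  have hs := sSlope hb
  have hGood := sGood hA hP hB hb
  have hCross := sCross hA hBK hG
  have hSeed := sSeed hA hG hB
  have hStep := sStep hA hG hb hs hGood hCross hSeed (sWsum hG) sPotA
  have hMerge := sMerge hG hb hs hSeed sPotA
  have hInd := sInd hA hBK hG hB (sChain hG) hStep hMerge
  have hCrit := sCrit hG hb hs sPotA sPotB hInd
  have hInt := sInt hb hs
  exact sFinal hA hP hInt (sPerc hA hG hB (sRect hG) hCrit hInt sPar)

end Pool.Agent.MP_6d294b_pr
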