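import Pool.Agent.MP_6d294b_pr.FStm
import Pool.Agent.MP_6d294b_pr.PBet
import Pool.Agent.MP_6d294b_pr.PSlope

open Finset

namespace Pool.Agent.MP_6d294b_pr

lemma Th_FCost {η : ℝ} (hη : 0 ≤ η) (F F' : ℝ) (hF : 0 < F) (h : F ≤ F') :
    F ≤ Th η F ∧ Th η F ≤ 21 / 20 * F ∧ Th η F * F' ≤ Th η F' * F := by
  unfold Th
  have a1 : 0 ≤ min (η * Real.exp (3 * F / 2)) (1 / 20) := le_min (by positivity) (by norm_num)
  have a2 : min (η * Real.exp (3 * F / 2)) (1 / 20) ≤ 1 / 20 := min_le_right _ _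
  have a3 : min (η * Real.exp (3 * F / 2)) (1 / 20) ≤ min (η * Real.exp (3 * F' / 2)) (1 / 20) :=
    min_le_min_right _ (mul_le_mul_of_nonneg_left (Real.exp_le_exp.2 (by linarith)) hη)
  have a4 : 0 ≤ F * F' := mul_nonneg hF.le (hF.le.trans h)
  refine ⟨by nlinarith, by nlinarith, ?_⟩
  nlinarith [mul_le_mul_of_nonneg_left a3 a4]

lemma Th_mono_FCost {η : ℝ} (hη : 0 ≤ η) {F F' : ℝ} (hF : 0 < F) (h : F ≤ F') :
    Th η F ≤ Th η F' := by
  obtain ⟨a1, -, a3⟩ := Th_FCost hη F F' hF h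
  have a4 : Th η F * F ≤ Th η F * F' := mul_le_mul_of_nonneg_left h (hF.le.trans a1)
  exact le_of_mul_le_mul_right (a4.trans a3) hF

lemma anti_FCost {z z' : ℝ} (hz : 0 < z) (h : z ≤ z') : gf z' ≤ gf z :=
  ((sSlope sBet).2 z z' hz h).1

theorem tCost (h1 : TNf) : TCost := by
  classical
  intro d q v η hq hv hqv hη
  have hm := (h1 q hq).1
  have hv' : (1 : ℝ) ≤ v := by exact_mod_cast hv
  have hth : ∀ a b : ℕ, a ≤ b → th q v a + ((b - a : ℕ) : ℝ) ≤ th q v b := by
    intro a b hab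
    unfold th
    have : (mq q a : ℝ) ≤ mq q b := by exact_mod_cast hm hab
    rw [Nat.cast_sub hab]
    linarith
  have hthv : ∀ a : ℕ, (v : ℝ) ≤ th q v a := by
    intro a
    unfold th
    have : (0 : ℝ) ≤ a := Nat.cast_nonneg _
    have : (0 : ℝ) ≤ mq q a := Nat.cast_nonneg _
    linarith
  have hz0 : 0 < (q * v) ^ (d - 1) := by positivity
  have hz1 : (q * v) ^ (d - 1) ≤ 1 := pow_le_one₀ (by positivity) hqv
  have hlow : ∀ (y : Fin d → ℕ) (i : Fin d), (q * v) ^ (d - 1) ≤ Fc q v y i := by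
    intro y i
    unfold Fc
    rw [mul_pow]
    refine mul_le_mul_of_nonneg_left ?_ (by positivity)
    have e : (v : ℝ) ^ (d - 1) = ∏ _j ∈ univ.erase i, (v : ℝ) := by
      rw [Finset.prod_const, Finset.card_erase_of_mem (Finset.mem_univ i), Finset.card_univ,
        Fintype.card_fin]
    rw [e]
    exact Finset.prod_le_prod (fun _ _ => by linarith) fun j _ => hthv _
  have hmono : ∀ i : Fin d, Monotone fun y : Fin d → ℕ => Fc q v y i := by
    intro i y y' h
    unfold Fc
    refine mul_le_mul_of_nonneg_left ?_ (by positivity)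
    refine Finset.prod_le_prod (fun j _ => by linarith [hthv (y j)]) fun j _ => ?_
    have := hth _ _ (h j)
    have : (0 : ℝ) ≤ ((y' j - y j : ℕ) : ℝ) := Nat.cast_nonneg _
    linarith
  refine ⟨hth, Th_FCost hη, fun i => ⟨hmono i, fun y y' h => ?_⟩, fun y i => ?_, ?_, ?_⟩
  · have a1 := hz0.trans_le (hlow y i)
    exact anti_FCost (a1.trans_le (Th_FCost hη _ _ a1 le_rfl).1) (Th_mono_FCost hη a1 (hmono i h))
  · have a1 := hz0.trans_le (hlow y i)
    have a2 := (Th_FCost hη _ _ a1 le_rfl).1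
    refine ⟨hlow y i, (sBet.2 _ (a1.trans_le a2)).2.1, anti_FCost a1 a2,
      (sBet.2 _ a1).2.2.1.trans ?_⟩
    unfold cz
    refine div_le_div_of_nonneg_right (Real.log_le_log (by positivity) ?_) (by norm_num)
    have b1 : 1 / Fc q v y i ≤ 1 / (q * v) ^ (d - 1) := one_div_le_one_div_of_le hz0 (hlow y i)
    have b2 : 1 ≤ 1 / (q * v) ^ (d - 1) := by
      rw [le_div_iff₀ hz0]
      linarith
    have b3 : 2 / (q * v) ^ (d - 1) = 1 / (q * v) ^ (d - 1) + 1 / (q * v) ^ (d - 1) := by ring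
    linarith
  · refine div_nonneg (Real.log_nonneg ?_) (by norm_num)
    rw [le_div_iff₀ hz0]
    linarith
  · unfold cz
    rw [mul_div_cancel₀ _ (two_ne_zero), Real.exp_log (by positivity)]

theorem tDom (hg : TG) (h1 : TNf) : TDom := by
  obtain ⟨m, m1, -, -, -, m5, -⟩ := hg
  intro B η ρ F F' hF hFF hB hBη hρ hηρ
  have hη : 0 ≤ η := by linarith
  have a1 := (Th_FCost hη F F hF le_rfl).1
  have a2 := (Th_FCost hη F F hF le_rfl).2.1
  have a3 : 0 < Th η F := hF.trans_le a1
  refine (anti_FCost a3 (Th_mono_FCost hη hF hFF)).trans ?_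
  have hBρ : 0 ≤ B * ρ := mul_nonneg hB hρ
  by_cases hk : η * Real.exp (3 * F / 2) ≤ 1 / 20
  · have e : F - Th η F = - (F * (η * Real.exp (3 * F / 2))) := by
      unfold Th
      rw [min_eq_left hk]
      ring
    have b1 := m1 _ F a3 hF
    rw [e] at b1
    have b2 : Real.exp (- (21 * F / 10)) / 2 ≤ - m (Th η F) := by
      refine le_trans ?_ (m5 _ a3)
      exact div_le_div_of_nonneg_right (Real.exp_le_exp.2 (by linarith)) (by norm_num)
    have b3 := mul_le_mul_of_nonneg_right b2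
      (show 0 ≤ F * (η * Real.exp (3 * F / 2)) by positivity)
    have b4 : Real.exp (- (21 * F / 10)) * Real.exp (3 * F / 2) =
        Real.exp (2 * F / 5) * Real.exp (- F) := by
      rw [← Real.exp_add, ← Real.exp_add]
      congr 1
      ring
    have b5 : 1 + F ≤ 5 / 2 * Real.exp (2 * F / 5) := by
      linarith [Real.add_one_le_exp (2 * F / 5)]
    have b6 : B * (1 + F) ≤ η / 2 * Real.exp (2 * F / 5) := by
      have c1 := mul_le_mul_of_nonneg_left b5 hB
      have c2 := mul_le_mul_of_nonneg_right hBη (Real.exp_pos (2 * F / 5)).le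
      linarith
    have b7 := mul_le_mul_of_nonneg_right b6 (show 0 ≤ F * Real.exp (- F) by positivity)
    have b8 : Real.exp (- (21 * F / 10)) / 2 * (F * (η * Real.exp (3 * F / 2))) =
        η / 2 * Real.exp (2 * F / 5) * (F * Real.exp (- F)) := by
      linear_combination (F * η / 2) * b4
    nlinarith
  · have b1 := anti_FCost hF a1
    have b2 : Real.exp (- (F / 2)) ≤ ρ := by
      refine le_of_pow_le_pow_left₀ (n := 3) (by norm_num) hρ ?_
      have c1 : Real.exp (- (F / 2)) ^ 3 * Real.exp (3 * F / 2) = 1 := by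
        rw [← Real.exp_nat_mul, ← Real.exp_add]
        push_cast
        rw [show 3 * - (F / 2) + 3 * F / 2 = 0 by ring, Real.exp_zero]
      have c2 := mul_le_mul_of_nonneg_right hηρ (Real.exp_pos (3 * F / 2)).le
      refine le_of_mul_le_mul_right ?_ (Real.exp_pos (3 * F / 2))
      linarith [not_le.1 hk]
    have b3 : F * (1 + F) ≤ 16 * Real.exp (F / 2) := by
      have c1 := Real.add_one_le_exp (F / 4)
      have c2 : Real.exp (F / 2) = Real.exp (F / 4) ^ 2 := by
        rw [← Real.exp_nat_mul]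
        congr 1
        push_cast
        ring
      have c3 : (F / 4 + 1) ^ 2 ≤ Real.exp (F / 4) ^ 2 := pow_le_pow_left₀ (by positivity) c1 2
      rw [c2]
      nlinarith
    have b4 : Real.exp (F / 2) * Real.exp (- F) = Real.exp (- (F / 2)) := by
      rw [← Real.exp_add]
      congr 1
      ring
    have b5 := mul_le_mul_of_nonneg_right b3 (Real.exp_pos (- F)).le
    have b6 : F * (1 + F) * Real.exp (- F) ≤ 16 * ρ := by nlinarith
    have b7 := mul_le_mul_of_nonneg_left b6 hB
    nlinarith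

end Pool.Agent.MP_6d294b_pr
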