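import Pool.Agent.MP_6d294b_pr.FStm
import Pool.Agent.MP_6d294b_pr.PBet
import Pool.Agent.MP_6d294b_pr.PPrA

open Finset

namespace Pool.Agent.MP_6d294b_pr

lemma side_FCr2 {d : ℕ} (S R : Bx d) (Y : Finset ((Sd d × ℤ) × Pt d)) (s : Sd d) (b : ℤ → ℝ)
    (b₀ : ℝ) (h0 : 0 < b₀) (h1 : Y.Nonempty → b₀ ≤ 1)
    (hb : ∀ j ∈ Ioo (S s) (R s), b₀ ≤ b j) :
    ∏ j ∈ JY S R Y s, b j ≤ (∏ j ∈ Ioo (S s) (R s), b j) * b₀⁻¹ ^ (2 * Y.card) := by
  classical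
  have hsub : JY S R Y s ⊆ Ioo (S s) (R s) := Finset.filter_subset _ _
  have a1 : Ioo (S s) (R s) \ JY S R Y s ⊆
      Y.image (fun y => kap s y.2) ∪ Y.image (fun y => kap s y.2 - 1) := by
    intro j hj
    obtain ⟨b1, b2⟩ := Finset.mem_sdiff.1 hj
    by_contra hc
    refine b2 (Finset.mem_filter.2 ⟨b1, fun y hy => ⟨fun e => hc ?_, fun e => hc ?_⟩⟩)
    · exact Finset.mem_union_left _ (Finset.mem_image.2 ⟨y, hy, e⟩)
    · exact Finset.mem_union_right _ (Finset.mem_image.2 ⟨y, hy, by omega⟩)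
  have a2 : (Ioo (S s) (R s) \ JY S R Y s).card ≤ 2 * Y.card := by
    have b1 := (Finset.card_le_card a1).trans (Finset.card_union_le _ _)
    have b2 := Finset.card_image_le (s := Y) (f := fun y => kap s y.2)
    have b3 := Finset.card_image_le (s := Y) (f := fun y => kap s y.2 - 1)
    omega
  have a3 : b₀ ^ (2 * Y.card) ≤ b₀ ^ (Ioo (S s) (R s) \ JY S R Y s).card := by
    rcases Y.eq_empty_or_nonempty with hY | hY
    · rw [hY, Finset.card_empty] at a2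
      rw [hY, Finset.card_empty, Nat.le_zero.1 a2]
    · exact pow_le_pow_of_le_one h0.le (h1 hY) a2
  have a4 : b₀ ^ (Ioo (S s) (R s) \ JY S R Y s).card ≤
      ∏ j ∈ Ioo (S s) (R s) \ JY S R Y s, b j := by
    rw [← Finset.prod_const]
    exact Finset.prod_le_prod (fun _ _ => h0.le) fun j hj => hb j (Finset.mem_sdiff.1 hj).1
  have a5 : 0 ≤ ∏ j ∈ JY S R Y s, b j :=
    Finset.prod_nonneg fun j hj => h0.le.trans (hb j (hsub hj))
  rw [inv_pow, ← div_eq_mul_inv, le_div_iff₀ (pow_pos h0 _), ← Finset.prod_sdiff hsub, mul_comm]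
  exact mul_le_mul_of_nonneg_right (a3.trans a4) a5

theorem tCr2 (h2 : TTrick) (h3 : TCr2a) (h4 : TCr2b) : TCr2 := by
  classical
  intro d Ω p hp0 hp2 S R C D u b₀ hL hb0 hu hmono
  have hp1 : p ≤ 1 := by linarith
  set J : Finset (Sd d × ℤ) := ((univ : Finset (Sd d)).sigma fun s => Ioc (S s) (R s)).map
    (Equiv.sigmaEquivProd _ _).toEmbedding with hJ
  set I : Finset ((Sd d × ℤ) × Pt d) := (J.sigma fun k => D k.1 k.2 \ C k.1 k.2).map
    (Equiv.sigmaEquivProd _ _).toEmbedding with hI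
  have memI : ∀ y : (Sd d × ℤ) × Pt d, y ∈ I ↔
      S y.1.1 < y.1.2 ∧ y.1.2 ≤ R y.1.1 ∧ y.2 ∈ D y.1.1 y.1.2 \ C y.1.1 y.1.2 := by
    rintro ⟨⟨s, j⟩, x⟩
    simp only [hI, hJ, Finset.mem_map_equiv, Finset.mem_sigma, Equiv.sigmaEquivProd_symm_apply,
      Finset.mem_univ, true_and, Finset.mem_Ioc, and_assoc]
  set w : (Sd d × ℤ) × Pt d → ℝ := fun y =>
    2 * p * (1 - p) ^ (C y.1.1 y.1.2).card * b₀⁻¹ ^ (4 * d) with hw
  have hw0 : ∀ y, 0 ≤ w y := by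
    intro y
    have : 0 ≤ 1 - p := by linarith
    simp only [hw]
    positivity
  have hsum : ∑ y ∈ I, w y = ∑ s : Sd d, ∑ j ∈ Ioc (S s) (R s),
      ((D s j \ C s j).card : ℝ) * (2 * p * (1 - p) ^ (C s j).card * b₀⁻¹ ^ (4 * d)) := by
    rw [hI, Finset.sum_map, Finset.sum_sigma, hJ, Finset.sum_map, Finset.sum_sigma]
    refine Finset.sum_congr rfl fun s _ => Finset.sum_congr rfl fun j _ => ?_
    simp [hw]
  set P : ℝ := ∏ s : Sd d, ∏ j ∈ Ioo (S s) (R s), bet (u s (j + 1)) with hP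
  have hb : ∀ s, ∀ j ∈ Ioo (S s) (R s), b₀ ≤ bet (u s (j + 1)) := by
    intro s j hj
    obtain ⟨a1, a2⟩ := Finset.mem_Ioo.1 hj
    exact (hu s (j + 1) (by omega) (by omega)).2.2.2
  have hP0 : 0 ≤ P :=
    Finset.prod_nonneg fun s _ => Finset.prod_nonneg fun j hj => hb0.le.trans (hb s j hj)
  set 𝒴 : Finset (Finset ((Sd d × ℤ) × Pt d)) := I.powerset.filter fun Y =>
    Set.InjOn Prod.fst (Y : Set ((Sd d × ℤ) × Pt d)) ∧
      Set.InjOn Prod.snd (Y : Set ((Sd d × ℤ) × Pt d)) with h𝒴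
  have term : ∀ Y ∈ 𝒴, Pr Ω p (fun A => Y.image Prod.snd ⊆ A ∧
      EY C S R Y (A \ Y.image Prod.snd)) ≤ P * ∏ y ∈ Y, w y := by
    intro Y hY
    obtain ⟨a1, a2, a3⟩ := Finset.mem_filter.1 hY
    have a4 : ∀ y ∈ Y, S y.1.1 < y.1.2 ∧ y.1.2 ≤ R y.1.1 ∧
        y.2 ∈ D y.1.1 y.1.2 \ C y.1.1 y.1.2 :=
      fun y hy => (memI y).1 (Finset.mem_powerset.1 a1 hy)
    have b1 := (h2.1 _ Ω p hp0 hp2).1 (Y.image Prod.snd) (EY C S R Y)
    rw [Finset.card_image_of_injOn a3] at b1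
    have b2 := h4 d Ω p hp0 hp2 S R C D u Y hL
      (fun s j c1 c2 => ⟨(hu s j c1 c2).1, (hu s j c1 c2).2.1, (hu s j c1 c2).2.2.1⟩) hmono
      (fun y hy => ⟨(a4 y hy).1, (a4 y hy).2.1,
        (hL.1 _ _ (a4 y hy).1 (a4 y hy).2.1).2.2 _ (Finset.mem_sdiff.1 (a4 y hy).2.2).1⟩) a2
    have b3 : Y.Nonempty → b₀ ≤ 1 := by
      rintro ⟨y, hy⟩
      obtain ⟨-, c1, c2, c3⟩ := hu _ _ (a4 y hy).1 (a4 y hy).2.1
      exact c3.trans (sBet.1 _ c1.le c2).2.1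
    have b4 : ∏ s : Sd d, ∏ j ∈ JY S R Y s, bet (u s (j + 1)) ≤
        P * (b₀⁻¹ ^ (4 * d)) ^ Y.card := by
      calc ∏ s : Sd d, ∏ j ∈ JY S R Y s, bet (u s (j + 1))
          ≤ ∏ s : Sd d, ((∏ j ∈ Ioo (S s) (R s), bet (u s (j + 1))) * b₀⁻¹ ^ (2 * Y.card)) :=
            Finset.prod_le_prod (fun s _ => Finset.prod_nonneg fun j hj =>
              hb0.le.trans (hb s j (Finset.filter_subset _ _ hj)))
              fun s _ => side_FCr2 S R Y s (fun j => bet (u s (j + 1))) b₀ hb0 b3 (hb s)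
        _ = P * (b₀⁻¹ ^ (4 * d)) ^ Y.card := by
            rw [Finset.prod_mul_distrib, Finset.prod_const, ← pow_mul, ← pow_mul]
            congr 2
            simp only [Finset.card_univ, Fintype.card_prod, Fintype.card_fin, Fintype.card_bool]
            ring
    have b5 : 0 ≤ ∏ y ∈ Y, (1 - p) ^ (C y.1.1 y.1.2).card :=
      Finset.prod_nonneg fun _ _ => pow_nonneg (by linarith) _
    have b6 := b2.trans (mul_le_mul_of_nonneg_left b4 b5)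
    refine b1.trans ((mul_le_mul_of_nonneg_left b6 (by positivity)).trans (le_of_eq ?_))
    simp only [hw]
    rw [Finset.prod_mul_distrib, Finset.prod_mul_distrib, Finset.prod_const, Finset.prod_const]
    ring
  calc Pr Ω p (fun A => ∀ s, NG (D s) (Ioo (S s) (R s)) A)
      ≤ Pr Ω p (fun A => ∃ Y ∈ 𝒴, Y.image Prod.snd ⊆ A ∧ EY C S R Y (A \ Y.image Prod.snd)) := by
        refine mono_PrA Ω hp0 hp1 _ _ fun A _ hA => ?_
        obtain ⟨Y, a1, a2, a3, a4⟩ := h3 d Ω S R C D A hL hA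
        refine ⟨Y, Finset.mem_filter.2 ⟨Finset.mem_powerset.2 fun y hy => (memI y).2
          ⟨(a1 y hy).1, (a1 y hy).2.1, (a1 y hy).2.2.1⟩, a2, a3⟩, fun x hx => ?_, a4⟩
        obtain ⟨y, hy, rfl⟩ := Finset.mem_image.1 hx
        exact (a1 y hy).2.2.2
    _ ≤ ∑ Y ∈ 𝒴, Pr Ω p (fun A => Y.image Prod.snd ⊆ A ∧ EY C S R Y (A \ Y.image Prod.snd)) :=
        union_PrA Ω hp0 hp1 𝒴 _
    _ ≤ ∑ Y ∈ 𝒴, P * ∏ y ∈ Y, w y := Finset.sum_le_sum term
    _ ≤ ∑ Y ∈ I.powerset, P * ∏ y ∈ Y, w y :=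
        Finset.sum_le_sum_of_subset_of_nonneg (Finset.filter_subset _ _)
          fun Y _ _ => mul_nonneg hP0 (Finset.prod_nonneg fun y _ => hw0 y)
    _ ≤ P * Real.exp (∑ y ∈ I, w y) := by
        rw [← Finset.mul_sum]
        exact mul_le_mul_of_nonneg_left (h2.2.2 _ I w fun y _ => hw0 y) hP0
    _ = _ := by rw [hsum]

end Pool.Agent.MP_6d294b_pr
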