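import Pool.Agent.MP_6d294b_pr.FStm

open Finset

namespace Pool.Agent.MP_6d294b_pr

theorem tCr2a : TCr2a := by
  classical
  intro d Ω S R C D A hL hN
  obtain ⟨H, hH⟩ : ∃ H : Sd d × ℤ → Prop, ∀ l, H l ↔ S l.1 < l.2 ∧ l.2 ≤ R l.1 ∧
      (∀ x ∈ A, x ∉ C l.1 l.2) ∧ ∃ x ∈ A, x ∈ D l.1 l.2 := ⟨_, fun _ => Iff.rfl⟩
  have h1 : ∀ l : Sd d × ℤ, ∃ x : Pt d, H l → x ∈ A ∧ x ∈ D l.1 l.2 := fun l => by
    by_cases h : H l
    · obtain ⟨x, hx⟩ := ((hH l).1 h).2.2.2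
      exact ⟨x, fun _ => hx⟩
    · exact ⟨0, fun h' => absurd h' h⟩
  choose x hx using h1
  have h2 : ∀ z : {z // z ∈ A.filter fun z => ∃ l, H l ∧ x l = z}, ∃ l, H l ∧ x l = z.1 :=
    fun z => (mem_filter.1 z.2).2
  choose L hL1 hL2 using h2
  obtain ⟨Y, hY⟩ : ∃ Y : Finset ((Sd d × ℤ) × Pt d), ∀ y, y ∈ Y ↔ ∃ z, (L z, z.1) = y :=
    ⟨univ.image fun z => (L z, z.1), fun y => by simp only [mem_image, mem_univ, true_and]⟩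
  refine ⟨Y, fun y hy => ?_, fun y hy y' hy' e => ?_, fun y hy y' hy' e => ?_,
    fun y hy a ha => ?_, fun s j hj => ?_⟩
  · obtain ⟨z, rfl⟩ := (hY y).1 hy
    have a := (hH _).1 (hL1 z)
    have b := hx _ (hL1 z)
    rw [hL2] at b
    exact ⟨a.1, a.2.1, mem_sdiff.2 ⟨b.2, a.2.2.1 _ b.1⟩, b.1⟩
  · obtain ⟨z, rfl⟩ := (hY y).1 hy
    obtain ⟨z', rfl⟩ := (hY y').1 hy'
    have e' : L z = L z' := e
    rw [← hL2 z, ← hL2 z', e']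
  · obtain ⟨z, rfl⟩ := (hY y).1 hy
    obtain ⟨z', rfl⟩ := (hY y').1 hy'
    rw [Subtype.ext e]
  · obtain ⟨z, rfl⟩ := (hY y).1 hy
    exact ((hH _).1 (hL1 z)).2.2.1 a (mem_sdiff.1 ha).1
  · simp only [JY, mem_filter] at hj
    have hI := mem_Ioo.1 hj.1
    have key : ∀ i, S s < i → i ≤ R s → (∀ y ∈ Y, kap s y.2 ≠ i) → (∃ a ∈ A, a ∈ D s i) →
        ∃ a ∈ A \ Y.image Prod.snd, a ∈ C s i := fun i i1 i2 i3 i4 => by
      by_cases h : ∀ a ∈ A, a ∉ C s i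
      · have a : H (s, i) := (hH _).2 ⟨i1, i2, h, i4⟩
        have b := hx _ a
        exact absurd ((hL.1 s i i1 i2).2.2 _ b.2)
          (i3 _ ((hY _).2 ⟨⟨x (s, i), mem_filter.2 ⟨b.1, _, a, rfl⟩⟩, rfl⟩))
      · push Not at h
        obtain ⟨a, a1, a2⟩ := h
        refine ⟨a, mem_sdiff.2 ⟨a1, fun c => ?_⟩, a2⟩
        obtain ⟨y, y1, rfl⟩ := mem_image.1 c
        exact i3 y y1 ((hL.1 s i i1 i2).2.1 _ a2)
    rcases hN s j hj.1 with h | h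
    · exact .inl (key j hI.1 hI.2.le (fun y hy => (hj.2 y hy).1) h)
    · exact .inr (key (j + 1) (by omega) (by omega) (fun y hy => (hj.2 y hy).2) h)

end Pool.Agent.MP_6d294b_pr
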