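import Pool.Agent.MP_6d294b_pr.FStm

open Finset

namespace Pool.Agent.MP_6d294b_pr

lemma mem_JY_FCr2b {d : ℕ} {S R : Bx d} {Y : Finset ((Sd d × ℤ) × Pt d)} {s : Sd d} {j : ℤ} :
    j ∈ JY S R Y s ↔ (S s < j ∧ j < R s) ∧ ∀ y ∈ Y, kap s y.2 ≠ j ∧ kap s y.2 ≠ j + 1 := by
  unfold JY
  rw [mem_filter, mem_Ioo]

lemma near_FCr2b {d : ℕ} {S R : Bx d} {Y : Finset ((Sd d × ℤ) × Pt d)} {s : Sd d} {j : ℤ}
    (h : j ∈ JY S R Y s ∨ j - 1 ∈ JY S R Y s) :
    S s < j ∧ j ≤ R s ∧ ∀ y ∈ Y, kap s y.2 ≠ j := by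
  rcases h with h | h
  · obtain ⟨⟨a, b⟩, c⟩ := mem_JY_FCr2b.1 h
    exact ⟨a, b.le, fun y hy => (c y hy).1⟩
  · obtain ⟨⟨a, b⟩, c⟩ := mem_JY_FCr2b.1 h
    exact ⟨by omega, by omega, fun y hy => by have := (c y hy).2; omega⟩

lemma ex_sdiff_FCr2b {α : Type} [DecidableEq α] {A B Z : Finset α} (h : Disjoint B Z) :
    (∃ x ∈ A, x ∈ B) ↔ ∃ x ∈ A \ Z, x ∈ B :=
  ⟨fun ⟨x, a, b⟩ => ⟨x, mem_sdiff.2 ⟨a, disjoint_left.1 h b⟩, b⟩,
    fun ⟨x, a, b⟩ => ⟨x, (mem_sdiff.1 a).1, b⟩⟩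

theorem tCr2b (h1 : TLine) (h2 : TTrick) : TCr2b := by
  classical
  intro d Ω p hp0 hp1 S R C D u Y hL hu hmono hY hinj
  have hbet : ∀ s, 0 ≤ ∏ j ∈ JY S R Y s, bet (u s (j + 1)) := by
    intro s
    refine prod_nonneg fun j hj => ?_
    obtain ⟨a, b, -⟩ := near_FCr2b (j := j + 1) (Or.inr (by simpa using hj))
    have := (hu s (j + 1) a b).2.1
    unfold bet
    positivity
  have key : ∀ L : Finset (Sd d),
      Pr Ω p (fun A => (∀ y ∈ Y, ∀ x ∈ A, x ∉ C y.1.1 y.1.2) ∧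
        ∀ s ∈ L, NG (C s) (JY S R Y s) A) ≤
      (∏ y ∈ Y, (1 - p) ^ (C y.1.1 y.1.2).card) *
        ∏ s ∈ L, ∏ j ∈ JY S R Y s, bet (u s (j + 1)) := by
    intro L
    induction L using Finset.induction_on with
    | empty =>
      have e : (fun A : Finset (Pt d) => (∀ y ∈ Y, ∀ x ∈ A, x ∉ C y.1.1 y.1.2) ∧
          ∀ s ∈ (∅ : Finset (Sd d)), NG (C s) (JY S R Y s) A) =
          fun A => ∀ x ∈ A, x ∉ Y.biUnion fun y => C y.1.1 y.1.2 := by
        funext A
        apply propext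
        simp only [notMem_empty, false_imp_iff, implies_true, and_true, mem_biUnion, not_exists,
          not_and]
        exact ⟨fun h x hx y hy => h y hy x hx, fun h y hy x hx => h x hx y hy⟩
      rw [e, prod_empty, mul_one, prod_pow_eq_pow_sum, ← card_biUnion]
      · refine (h2.1 _ Ω p hp0 hp1).2 _ (biUnion_subset.2 fun y hy => ?_)
        exact (hL.1 _ _ (hY y hy).1 (hY y hy).2.1).1
      · intro y hy y' hy' hne
        exact hL.2 _ _ _ _ (hY y hy).1 (hY y hy).2.1 (hY y' hy').1 (hY y' hy').2.1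
          fun h => hne (hinj hy hy' h)
    | insert s L hs ih =>
      have e : (fun A : Finset (Pt d) => (∀ y ∈ Y, ∀ x ∈ A, x ∉ C y.1.1 y.1.2) ∧
          ∀ t ∈ insert s L, NG (C t) (JY S R Y t) A) =
          fun A => ((∀ y ∈ Y, ∀ x ∈ A, x ∉ C y.1.1 y.1.2) ∧
            ∀ t ∈ L, NG (C t) (JY S R Y t) A) ∧ NG (C s) (JY S R Y s) A := by
        funext A
        apply propext
        rw [forall_mem_insert]
        tauto
      rw [e, prod_insert hs, mul_comm (∏ j ∈ JY S R Y s, bet (u s (j + 1))), ← mul_assoc]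
      refine le_trans (h1 _ Ω p hp0 (by linarith) (C s) (u s) (JY S R Y s) _ ?_ ?_ ?_ ?_)
        (mul_le_mul_of_nonneg_right ih (hbet s))
      · intro i j hi hj hne
        obtain ⟨a, b, -⟩ := near_FCr2b hi
        obtain ⟨a', b', -⟩ := near_FCr2b hj
        exact hL.2 _ _ _ _ a b a' b' fun h => hne (Prod.ext_iff.1 h).2
      · intro j hj
        obtain ⟨a, b, -⟩ := near_FCr2b hj
        exact hu s j a b
      · intro j hj
        obtain ⟨⟨a, b⟩, -⟩ := mem_JY_FCr2b.1 hj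
        exact hmono s j a b
      · intro j hj A
        obtain ⟨a, b, c⟩ := near_FCr2b hj
        refine and_congr (forall₂_congr fun y hy => ?_) (forall₂_congr fun t ht => ?_)
        · have hd : Disjoint (C y.1.1 y.1.2) (C s j) :=
            hL.2 _ _ _ _ (hY y hy).1 (hY y hy).2.1 a b fun h => c y hy (by
              obtain ⟨e1, e2⟩ := Prod.ext_iff.1 h
              have e3 := (hY y hy).2.2
              simp only at e1 e2
              rw [← e1, ← e2, e3])
          exact ⟨fun h x hx => h x (mem_sdiff.1 hx).1,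
            fun h x hx hx' => h x (mem_sdiff.2 ⟨hx, disjoint_left.1 hd hx'⟩) hx'⟩
        · have hd : ∀ i, (i ∈ JY S R Y t ∨ i - 1 ∈ JY S R Y t) → Disjoint (C t i) (C s j) := by
            intro i hi
            obtain ⟨a', b', -⟩ := near_FCr2b hi
            exact hL.2 _ _ _ _ a' b' a b fun h => hs (by
              have e1 := (Prod.ext_iff.1 h).1
              simp only at e1
              exact e1 ▸ ht)
          refine forall₂_congr fun i hi => or_congr (ex_sdiff_FCr2b (hd i (Or.inl hi)))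
            (ex_sdiff_FCr2b (hd (i + 1) (Or.inr (by simpa using hi))))
  have e : EY C S R Y = fun A => (∀ y ∈ Y, ∀ x ∈ A, x ∉ C y.1.1 y.1.2) ∧
      ∀ s ∈ (univ : Finset (Sd d)), NG (C s) (JY S R Y s) A := by
    funext A
    simp only [EY, mem_univ, true_imp_iff]
  rw [e]
  exact key univ

end Pool.Agent.MP_6d294b_pr
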