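import Pool.Agent.MP_6d294b_pr.FStm
import Pool.Agent.MP_6d294b_pr.PGeoA

open Finset

namespace Pool.Agent.MP_6d294b_pr

variable {d : ℕ}

lemma nf_mono_FCrit (h9 : TNf) {q : ℝ} (hq : 0 < q) {S R : Bx d} (hS : Val S) (h : S ≤ R) :
    NF q S ≤ NF q R :=
  sum_le_sum fun i _ => (h9 q hq).2.1 (((sGeoA d).2.2.2.1 S R hS h).2.1 i)

lemma ex_pt_FCrit (x : Pt d) : ex (ptB x) = 0 := by
  funext i
  simp [ex, ptB, kap]

lemma p_bd_FCrit {q : ℝ} (hq : 0 < q) (hq1 : q ≤ 1 / 2000) (hd : 2 ≤ d) :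
    0 ≤ 1 - Real.exp (- q ^ (d - 1)) ∧ 1 - Real.exp (- q ^ (d - 1)) ≤ 1 / 2 := by
  have h1 : 0 < q ^ (d - 1) := by positivity
  have h2 : q ^ (d - 1) ≤ q := pow_le_of_le_one hq.le (by linarith) (by omega)
  have h3 : Real.exp (- q ^ (d - 1)) ≤ 1 := Real.exp_le_one_iff.2 (by linarith)
  have h4 := Real.add_one_le_exp (- q ^ (d - 1))
  constructor <;> linarith

theorem tCrit (h1 : TD1) (h2 : TD2) (h3 : TX) (h4 : TInd) (h5 : TPotA) (h6 : TLow) (h7 : TSplit)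
    (h8 : TPar) (h9 : TNf) (h10 : TCost) : TCrit := by
  intro d κ y₀ hd hκ hy0 hy1
  obtain ⟨C1, hC1, H1⟩ := h1 d κ hκ
  obtain ⟨A, C2, hA, hC2, H2⟩ := h2 d y₀ hy0 hy1
  obtain ⟨A', hA', H6⟩ := h6 d
  set C : ℝ := max C1 C2 with hC
  have hCa : C1 ≤ C := le_max_left _ _
  have hCb : C2 ≤ C := le_max_right _ _
  have hC0 : 1 ≤ C := hC1.trans hCa
  obtain ⟨q₀, hq₀, H8⟩ := h8 d A C hd hA hC0
  have hd0 : (0 : ℝ) ≤ d := Nat.cast_nonneg d
  refine ⟨12 * d * C + 1 + d ^ 2 + d + A' * (A + 1), q₀, by positivity, hq₀, ?_⟩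
  intro q hq hqq K Y N Ω R hK hκq hY hN1 hN2 hR hΩ hψ1 hψ2
  obtain ⟨v, T, ρ, δ, X, E, hP⟩ := H8 q hq hqq N hN2
  have hP' := hP
  obtain ⟨p1, p2, p3, p4, p5, p6, p7, p8, p9, p10, p11, p12, p13, p14, p15, p16, -, -, -, -, -,
    -, -, p24⟩ := hP'
  have hv1 : 1 ≤ v := by omega
  have hv0 : (0 : ℝ) ≤ v := Nat.cast_nonneg v
  have hT0 : (0 : ℝ) ≤ T := Nat.cast_nonneg T
  have hqv : q * v ≤ 1 := by linarith [mul_nonneg hq.le hv0]
  have hsq : 0 < Real.sqrt q := Real.sqrt_pos.2 hq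
  set η : ℝ := A * Real.sqrt q with hη
  have hη0 : 0 ≤ η := by positivity
  obtain ⟨Φ, hΦ⟩ := (h5 d (cost q v η)).1
  set p : ℝ := 1 - Real.exp (- q ^ (d - 1)) with hp
  have hB : Bas d q p v η Φ := ⟨hd, hq, p1, rfl, hv1, hqv, hη0, hΦ⟩
  obtain ⟨hp0, hp1⟩ := p_bd_FCrit hq p1 hd
  set V : Bx d → ℝ := fun B => - Φ (ex B) + C * NF q B with hV
  have hcz := (h10 d q v η hq hv1 hqv hη0).2.2.2.2.1
  have g1 : ∀ S R : Bx d, Val S → S ≤ R → psi R ≤ 2 * N → psi R ≤ K + T →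
      Pr Ω p (Chn T (Gd K Y) S R) ≤ Real.exp (V R - V S + X) := by
    intro S R hS hSR a1 a2
    have b1 : (psi R : ℝ) ≤ 2 * N := by exact_mod_cast a1
    have b2 : (psi R : ℝ) ≤ K + T := by exact_mod_cast a2
    have b3 : q * (psi R + v + 1) ≤ κ := by
      have := mul_le_mul_of_nonneg_left b2 hq.le
      linarith
    have b4 : q ^ 2 * (psi R + 1) ≤ 1 := by
      have := mul_le_mul_of_nonneg_left b1 (sq_nonneg q)
      linarith
    refine (H1 q p v T η Φ Ω _ S R hB p3 hS hSR b3 b4).trans (Real.exp_le_exp.2 ?_)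
    have b5 := nf_mono_FCrit h9 hq hS hSR
    have b6 := mul_le_mul_of_nonneg_right hCa (sub_nonneg.2 b5)
    simp only [hV]
    linarith
  have g2 : ∀ S R : Bx d, Val S → S ≤ R → psi R ≤ 2 * N → Full Ω R → (∀ i, Y ≤ ex S i + 1) →
      Pr Ω p (Chn T (Gd K Y) S R) ≤ Real.exp (V R - V S + X) := by
    intro S R hS hSR a1 a2 a3
    have b1 : ∀ i, y₀ ≤ q * (ex S i + 1) := by
      intro i
      have : (Y : ℝ) ≤ ex S i + 1 := by exact_mod_cast a3 i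
      exact hY.trans (mul_le_mul_of_nonneg_left this hq.le)
    refine (H2 q p v T N η ρ Φ Ω _ S R hB le_rfl p8 p9 p6 p10 p11 hS hSR a1 a2 b1).trans
      (Real.exp_le_exp.2 ?_)
    have b5 := nf_mono_FCrit h9 hq hS hSR
    have b6 := mul_le_mul_of_nonneg_right hCb (sub_nonneg.2 b5)
    simp only [hV]
    linarith
  have g3 := h3 d Ω p hp0 hp1 T K Y N V X p12 g1 g2
  have g4 : ∀ x : Pt d, 0 ≤ V (ptB x) := by
    intro x
    have a1 : 0 ≤ NF q (ptB x) := sum_nonneg fun i _ => ((h9 q hq).2.2.2.1 _).1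
    simp only [hV, ex_pt_FCrit, hΦ.1]
    have := mul_nonneg (by linarith : 0 ≤ C) a1
    linarith
  have g5 := h4 d Ω p hp0 hp1 T K Y N V _ E hK (by rw [p15]; linarith) g3 g4
    (fun Q P a1 a2 a3 a4 a5 a6 a7 a8 =>
      h7 d A C q p N v T K Y η ρ δ X E Φ Ω (by linarith) hB hP Q P a1 a2 a3 a4 a5 a6 a7 a8)
    R hR hψ2 hΩ
  refine g5.trans (Real.exp_le_exp.2 ?_)
  have k1 := H6 q p v N η Φ hB (by linarith [mul_nonneg hq.le hT0]) p24 hN1 (ex R) hψ1 hψ2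
  set r : ℝ := 1 / Real.sqrt q with hr
  have hr0 : 0 < r := by positivity
  have hr1 : Real.sqrt q * r = 1 := by rw [hr]; field_simp
  have k2 : NF q R ≤ 12 * d * r := by
    calc NF q R ≤ ∑ _i : Fin d, 12 / Real.sqrt q :=
          sum_le_sum fun i _ => ((h9 q hq).2.2.2.1 _).2.2
      _ = 12 * d * r := by
          rw [sum_const, card_univ, Fintype.card_fin, nsmul_eq_mul, hr]
          ring
  have k3 : (T : ℝ) + 1 ≤ r := by
    rw [hr, le_div_iff₀ hsq]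
    exact p6
  have k4 : ((v : ℝ) + 1) * (1 + Real.log (1 / q)) ≤ r := by
    rw [hr, le_div_iff₀ hsq]
    exact p7
  have k5 : η / q = A * r := by
    have : Real.sqrt q * Real.sqrt q = q := Real.mul_self_sqrt hq.le
    rw [hη, hr, div_eq_iff hq.ne']
    field_simp
    nlinarith
  have k6 : (12 * d * C + 1 + d ^ 2 + d + A' * (A + 1)) / Real.sqrt q =
      (12 * d * C + 1 + d ^ 2 + d + A' * (A + 1)) * r := by rw [hr]; ring
  have k7 := mul_le_mul_of_nonneg_left k2 (by linarith : 0 ≤ C)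
  have k8 := mul_le_mul_of_nonneg_left k4 (sq_nonneg (d : ℝ))
  have k9 : (d : ℝ) ≤ d * r := le_mul_of_one_le_right hd0 (by linarith)
  rw [k5] at k1
  rw [k6]
  simp only [hV]
  linarith

end Pool.Agent.MP_6d294b_pr
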