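import Pool.Agent.MP_6d294b_pr.FStm
import Pool.Agent.MP_6d294b_pr.PPrA
import Pool.Agent.MP_6d294b_pr.PGeoA
import Pool.Agent.MP_6d294b_pr.PGeoB
import Pool.Agent.MP_6d294b_pr.PBet
import Pool.Agent.MP_6d294b_pr.PSlope
import Pool.Agent.MP_6d294b_pr.PSeed
import Pool.Agent.MP_6d294b_pr.PMerge

open Finset

namespace Pool.Agent.MP_6d294b_pr

theorem biU_FD1 {ι β : Type} {inst : DecidableEq β} (I : Finset ι) (t : ι → Finset β) (f : β → ℝ)
    (hf : ∀ x, 0 ≤ f x) : ∑ x ∈ I.biUnion t, f x ≤ ∑ i ∈ I, ∑ x ∈ t i, f x := by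
  classical
  induction I using Finset.induction_on with
  | empty => simp
  | insert a I ha ih =>
    rw [biUnion_insert, sum_insert ha]
    have h1 := sum_union_inter (s₁ := t a) (s₂ := I.biUnion t) (f := f)
    have h2 : 0 ≤ ∑ x ∈ t a ∩ I.biUnion t, f x := sum_nonneg fun x _ => hf x
    linarith

theorem pp_FD1 {d : ℕ} {q p : ℝ} (hd : 2 ≤ d) (hq : 0 < q) (hq1 : q ≤ 1 / 2000)
    (hp : p = 1 - Real.exp (- q ^ (d - 1))) : 0 ≤ p ∧ p ≤ q ^ (d - 1) ∧ p ≤ 1 / 2 := by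
  have h0 : 0 < q ^ (d - 1) := pow_pos hq _
  have h1 : Real.exp (- q ^ (d - 1)) ≤ 1 := Real.exp_le_one_iff.2 (by linarith)
  have h2 := Real.add_one_le_exp (- q ^ (d - 1))
  have h3 : q ^ (d - 1) ≤ q ^ 1 := pow_le_pow_of_le_one hq.le (by linarith) (by omega)
  rw [pow_one] at h3
  refine ⟨by linarith, by linarith, by linarith⟩

theorem exmono_FD1 {d : ℕ} {S R : Bx d} (hS : Val S) (h : S ≤ R) : ex S ≤ ex R :=
  ((sGeoA d).2.2.2.1 S R hS h).2.1

theorem exle_FD1 {d : ℕ} (R : Bx d) (i : Fin d) : ex R i ≤ psi R :=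
  single_le_sum (f := ex R) (fun _ _ => Nat.zero_le _) (mem_univ i)

theorem e3_FD1 : 3 * Real.exp 1 * Real.exp 2 ≤ 62 := by
  have h1 := Real.exp_one_lt_d9
  have h2 : Real.exp 2 = Real.exp 1 * Real.exp 1 := by rw [← Real.exp_add]; norm_num
  have h3 := Real.exp_pos 1
  have h4 : Real.exp 1 * Real.exp 1 ≤ 7.4 := by nlinarith
  rw [h2]
  nlinarith

theorem seed_FD1 (h13 : TCost) {d : ℕ} {q p : ℝ} {v T : ℕ} {η : ℝ} {Φ : (Fin d → ℕ) → ℝ}
    (Ω : Finset (Pt d)) (hB : Bas d q p v η Φ) (hT : 8000 * T ≤ v) (P : Bx d) (hP : psi P < T) :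
    0 ≤ Pr Ω p (ISp P) ∧
      Pr Ω p (ISp P) * Real.exp ((cz d q v + 1) * psi P) ≤ q ^ (d - 1) * (1 / 4) ^ psi P := by
  obtain ⟨hd, hq, hq1, hp, hv, hqv, hη, -⟩ := hB
  obtain ⟨p0, p1, p2⟩ := pp_FD1 hd hq hq1 hp
  obtain ⟨-, -, -, -, c0, c1⟩ := h13 d q v η hq hv hqv hη
  refine ⟨nonneg_PrA Ω p0 (by linarith) _, ?_⟩
  have hs := (sSeed sPrA sGeoA (sGeoB sGeoA) d Ω p p0 (by linarith) P ⟨0, by omega⟩
    (cz d q v + 1) (by linarith)).2 ?_
  · exact hs.trans (mul_le_mul_of_nonneg_right p1 (by positivity))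
  have a1 : sg (ex P) ⟨0, by omega⟩ ≤ T ^ (d - 1) :=
    (sg_le_Merge P _).trans (Nat.pow_le_pow_left hP _)
  have a2 : 8000 * T ^ (d - 1) ≤ v ^ (d - 1) := by
    refine le_trans ?_ (Nat.pow_le_pow_left hT _)
    rw [mul_pow]
    exact Nat.mul_le_mul_right _ (Nat.le_self_pow (by omega) _)
  have a3 : (8000 : ℝ) * sg (ex P) ⟨0, by omega⟩ ≤ (v : ℝ) ^ (d - 1) := by
    exact_mod_cast (Nat.mul_le_mul_left 8000 a1).trans a2
  have hv' : (0 : ℝ) < v := by exact_mod_cast hv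
  have a4 : (0 : ℝ) < (v : ℝ) ^ (d - 1) := pow_pos hv' _
  have a5 : 0 < q ^ (d - 1) := pow_pos hq _
  have a6 : Real.exp (2 * (cz d q v + 1)) = 2 / (q * v) ^ (d - 1) * Real.exp 2 := by
    rw [← c1, ← Real.exp_add]; ring_nf
  have a7 : p * (sg (ex P) ⟨0, by omega⟩ : ℝ) * (2 / (q * v) ^ (d - 1)) ≤ 2 / 8000 := by
    rw [mul_pow, ← mul_div_assoc, div_le_div_iff₀ (mul_pos a5 a4) (by norm_num)]
    have := mul_le_mul p1 a3 (by positivity) a5.le
    linarith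
  have a8 := mul_le_mul e3_FD1 a7 (by positivity) (by norm_num)
  rw [a6]
  calc _ = 3 * Real.exp 1 * Real.exp 2 *
        (p * (sg (ex P) ⟨0, by omega⟩ : ℝ) * (2 / (q * v) ^ (d - 1))) := by ring
    _ ≤ _ := a8.trans (by norm_num)

theorem cell_FD1 (h11 : TWs1) (h12 : TNf) (h13 : TCost) {d : ℕ} {κ q p : ℝ} {v T : ℕ} {η : ℝ}
    {Φ : (Fin d → ℕ) → ℝ} (Ω : Finset (Pt d)) (hκ : 1 ≤ κ) (hB : Bas d q p v η Φ)
    (hT : 8000 * T ≤ v) (R z o : Bx d) (hk : q * (psi R + v + 1) ≤ κ) (hz : Val z) (hzR : z ≤ R)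
    (hzo : z ≤ o) (ho : ∀ s, o s ≤ z s + mq q (ex z s.1))
    (hex : ∀ i, ex o i ≤ ex z i + 2 * mq q (ex z i)) :
    ∑ u ∈ adm1 T R z o, Pr Ω p (ISp u.1) *
        ∏ s : Sd d, (Real.exp (- gf (Fc q v (ex z) s.1)))⁻¹ ^ u.2 s ≤
      2 ^ (3 * d + 4) * d ^ 2 * (2 * d + 5) ^ d * (2 * (1 + κ)) ^ 2 *
        ((κ + 4 * κ * (1 + κ)) ^ (d - 1) + 1) := by
  have hs := seed_FD1 h13 Ω hB hT
  obtain ⟨hd, hq, hq1, hp, hv, hqv, hη, -⟩ := hB
  obtain ⟨-, -, -, c2, c0, c1⟩ := h13 d q v η hq hv hqv hη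
  obtain ⟨-, -, n1, -⟩ := h12 q hq
  have hv' : (1 : ℝ) ≤ v := by exact_mod_cast hv
  have hF : ∀ i, 0 < Fc q v (ex z) i := fun i =>
    lt_of_lt_of_le (pow_pos (mul_pos hq (by linarith)) _) (c2 _ i).1
  have hy : ∀ i, q * ((ex z i : ℝ) + v + 1) ≤ κ := by
    intro i
    have : (ex z i : ℝ) ≤ psi R := by exact_mod_cast (exmono_FD1 hz hzR i).trans (exle_FD1 R i)
    exact le_trans (mul_le_mul_of_nonneg_left (by linarith) hq.le) hk
  have hy1 : ∀ i, q * ((ex z i : ℝ) + 1) ≤ κ := fun i =>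
    le_trans (mul_le_mul_of_nonneg_left (by linarith) hq.le) (hy i)
  have hm : ∀ i, (mq q (ex z i) : ℝ) ≤ 2 * (1 + κ) * Real.sqrt ((ex z i : ℝ) + 1) := by
    intro i
    have h1 := n1 (ex z i)
    have h2 := mul_le_mul_of_nonneg_left (hy1 i) (Real.sqrt_nonneg ((ex z i : ℝ) + 1))
    nlinarith
  have hth : ∀ i, (ex z i : ℝ) + 1 ≤ th q v (ex z i) := by
    intro i
    have : (0 : ℝ) ≤ mq q (ex z i) := Nat.cast_nonneg _
    unfold th
    linarith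
  refine h11 d T R z o (fun P => Pr Ω p (ISp P)) (fun i => Real.exp (- gf (Fc q v (ex z) i)))
    (fun i => th q v (ex z i)) (cz d q v) _ (q ^ (d - 1)) (2 * (1 + κ))
    ((sGeoA d).2.2.2.1 z o hz hzo).1 (pow_pos hq _) (by linarith) (fun i => ?_) (fun s => ?_)
    (fun i => ?_) (fun i => ?_) (fun i => ?_) (fun i => ?_) (by positivity)
    (fun P _ hP => hs P hP)
  · have : (ex o i : ℝ) ≤ ex z i + 2 * mq q (ex z i) := by exact_mod_cast hex i
    unfold th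
    linarith
  · have h1 : ((o s - z s : ℤ) : ℝ) ≤ mq q (ex z s.1) := by
      have : o s - z s ≤ (mq q (ex z s.1) : ℤ) := by linarith [ho s]
      exact_mod_cast this
    exact h1.trans ((hm s.1).trans (mul_le_mul_of_nonneg_left (Real.sqrt_le_sqrt (hth s.1))
      (by linarith)))
  · exact ⟨Real.exp_pos _, Real.exp_le_one_iff.2 (by linarith [(sBet.2 _ (hF i)).2.1])⟩
  · rw [← Real.exp_neg, neg_neg]
    exact Real.exp_le_exp.2 (c2 _ i).2.2.2
  · have h1 := (sBet.2 _ (hF i)).2.2.1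
    have h2 : 0 < 1 + 1 / Fc q v (ex z) i := by have := hF i; positivity
    rw [← Real.exp_neg, neg_neg, ← Real.exp_nat_mul]
    refine le_trans (Real.exp_le_exp.2 ?_) (Real.exp_log h2).le
    push_cast
    linarith
  · have h1 : (univ.erase i).card = d - 1 := by
      rw [card_erase_of_mem (mem_univ i), card_univ, Fintype.card_fin]
    rw [← h1, ← prod_const, ← prod_const, ← prod_mul_distrib]
    refine prod_le_prod (fun j _ => mul_nonneg hq.le (le_trans (by positivity) (hth j))) fun j _ => ?_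
    have h2 : Real.sqrt ((ex z j : ℝ) + 1) ≤ (ex z j : ℝ) + 1 := by
      rw [Real.sqrt_le_left (by positivity)]
      have : (0 : ℝ) ≤ ex z j := Nat.cast_nonneg _
      nlinarith
    have h3 : (mq q (ex z j) : ℝ) ≤ 2 * (1 + κ) * ((ex z j : ℝ) + 1) :=
      (hm j).trans (mul_le_mul_of_nonneg_left h2 (by linarith))
    have h4 := mul_le_mul_of_nonneg_left h3 hq.le
    have h5 := mul_le_mul_of_nonneg_left (hy1 j) (by linarith : 0 ≤ 2 * (1 + κ))
    have h6 := hy j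
    unfold th
    nlinarith

theorem line_FD1 (h1 : TLine) (h3 : TLay) (h5 : TPathA) (h12 : TNf) (h13 : TCost) {d : ℕ}
    {q p : ℝ} {v : ℕ} {η : ℝ} {Φ : (Fin d → ℕ) → ℝ} (Ω : Finset (Pt d)) (hB : Bas d q p v η Φ)
    {S R : Bx d} (hS : Val S) (hSR : S ≤ R) {M : ℕ} {z : ℕ → Bx d} (hz : IsPath (mq q) S R M z)
    (s : Sd d) (J : Finset ℤ) :
    Pr Ω p (NG (reg (mq q) R M 0 z s) J) ≤
      ∏ j ∈ J, Real.exp (- gf (Fc q v (ex (z (tm z M s (j + 1)))) s.1)) := by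
  obtain ⟨hd, hq, hq1, hp, hv, hqv, hη, -⟩ := hB
  obtain ⟨p0, p1, p2⟩ := pp_FD1 hd hq hq1 hp
  obtain ⟨-, -, c3, c2, -, -⟩ := h13 d q v η hq hv hqv hη
  obtain ⟨z1, z2, -, z4, z5, -⟩ := h5 d (mq q) S R M z (h12 q hq).1 hS hSR hz
  have hv' : (1 : ℝ) ≤ v := by exact_mod_cast hv
  have hF : ∀ y i, 0 < Fc q v y i := fun y i =>
    lt_of_lt_of_le (pow_pos (mul_pos hq (by linarith)) _) (c2 y i).1
  have h := h1 (Pt d) Ω p p0 (by linarith) (reg (mq q) R M 0 z s)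
    (fun j => 1 - Real.exp (- Fc q v (ex (z (tm z M s j))) s.1)) J (fun _ => True)
    (fun i j _ _ hij => by
      rw [disjoint_left]
      intro x hi hj
      exact hij ((((h3 d _ s i).1 x).1 hi).1.symm.trans (((h3 d _ s j).1 x).1 hj).1))
    (fun j _ => by
      refine ⟨?_, upos_Slope (hF _ _), by linarith [Real.exp_pos (- Fc q v (ex (z (tm z M s j))) s.1)]⟩
      have hval : Val (fun t => outB (mq q) R (z (tm z M s j)) t + ((0 : ℕ) : ℤ)) :=
        ((sGeoA d).2.2.2.1 _ _ (z2 (tm z M s j)).2.2 fun t => by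
          have := (z4 (tm z M s j)).1 t
          simpa using this).1
      have e1 : (1 - p) = Real.exp (- q ^ (d - 1)) := by rw [hp]; ring
      rw [reg, (h3 d _ s j).2 hval, e1, ← Real.exp_nat_mul]
      have e2 : ((sg (ex fun t => outB (mq q) R (z (tm z M s j)) t + ((0 : ℕ) : ℤ)) s.1 : ℕ) : ℝ) ≤
          ∏ i ∈ univ.erase s.1, th q v (ex (z (tm z M s j)) i) := by
        rw [sg, Nat.cast_prod]
        refine prod_le_prod (fun _ _ => Nat.cast_nonneg _) fun i _ => ?_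
        have e3 : ((ex (fun t => outB (mq q) R (z (tm z M s j)) t + ((0 : ℕ) : ℤ)) i : ℕ) : ℝ) ≤
            ((ex (z (tm z M s j)) i + 2 * mq q (ex (z (tm z M s j)) i) + 2 * 0 : ℕ) : ℝ) :=
          Nat.cast_le.2 ((z4 (tm z M s j)).2.2.2 0 i)
        push_cast at e3 ⊢
        unfold th
        linarith
      have e4 := mul_le_mul_of_nonneg_left e2 (pow_pos hq (d - 1)).le
      have e5 : Real.exp (- Fc q v (ex (z (tm z M s j))) s.1) ≤
          Real.exp (((sg (ex fun t => outB (mq q) R (z (tm z M s j)) t + ((0 : ℕ) : ℤ)) s.1 : ℕ) : ℝ) *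
            - q ^ (d - 1)) := by
        refine Real.exp_le_exp.2 ?_
        unfold Fc
        linarith
      linarith)
    (fun j _ => by
      have e1 := (c3 s.1).1 (exmono_FD1 (z2 (tm z M s j)).2.2 (z1 (z5 s (by omega : j ≤ j + 1))))
      have e2 := Real.exp_le_exp.2 (neg_le_neg e1)
      linarith)
    (fun _ _ _ => Iff.rfl)
  rw [true_PrA, one_mul] at h
  refine le_trans (mono_PrA Ω p0 (by linarith) _ _ fun A _ hA => ⟨trivial, hA⟩) (h.trans ?_)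
  exact le_of_eq (prod_congr rfl fun j _ => (sBet.2 _ (hF _ _)).1.symm)

theorem path_FD1 (h1 : TLine) (h2 : TTrick) (h3 : TLay) (h5 : TPathA) (h7 : TPathC) (h10 : TCr1)
    (h11 : TWs1) (h12 : TNf) (h13 : TCost) {d : ℕ} {κ q p : ℝ} {v T : ℕ} {η : ℝ}
    {Φ : (Fin d → ℕ) → ℝ} (Ω : Finset (Pt d)) (hκ : 1 ≤ κ) (hB : Bas d q p v η Φ)
    (hT : 8000 * T ≤ v) {S R : Bx d} (hS : Val S) (hSR : S ≤ R) (hk : q * (psi R + v + 1) ≤ κ)
    {M : ℕ} {z : ℕ → Bx d} (hz : IsPath (mq q) S R M z) :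
    Pr Ω p (Cr1 (admP (mq q) T M R z) (reg (mq q) R M 0 z) S R) ≤
      Real.exp (Φ (ex S) - Φ (ex R) + 2 * d * cz d q v + (M + 1) *
        (2 ^ (3 * d + 4) * d ^ 2 * (2 * d + 5) ^ d * (2 * (1 + κ)) ^ 2 *
          ((κ + 4 * κ * (1 + κ)) ^ (d - 1) + 1))) := by
  have hline := line_FD1 h1 h3 h5 h12 h13 Ω hB hS hSR hz
  have hcell := fun τ => cell_FD1 h11 h12 h13 Ω hκ hB hT R (z τ) (outB (mq q) R (z τ)) hk
  obtain ⟨hd, hq, hq1, hp, hv, hqv, hη, hΦ⟩ := hB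
  obtain ⟨p0, p1, p2⟩ := pp_FD1 hd hq hq1 hp
  obtain ⟨-, -, c3, c2, c0, -⟩ := h13 d q v η hq hv hqv hη
  obtain ⟨z1, z2, -, z4, -, -, z7, -⟩ := h5 d (mq q) S R M z (h12 q hq).1 hS hSR hz
  have hv' : (1 : ℝ) ≤ v := by exact_mod_cast hv
  have hF : ∀ y i, 0 < Fc q v y i := fun y i =>
    lt_of_lt_of_le (pow_pos (mul_pos hq (by linarith)) _) (c2 y i).1
  have h := h10 d Ω p p0 p2 (admP (mq q) T M R z) (reg (mq q) R M 0 z) S R
    (fun s j => Real.exp (- gf (Fc q v (ex (z (tm z M s j))) s.1)))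
    (fun s j => ⟨Real.exp_pos _, Real.exp_le_one_iff.2 (by
      linarith [(sBet.2 _ (hF (ex (z (tm z M s j))) s.1)).2.1])⟩)
    (fun s J _ => hline s J)
  refine h.trans ?_
  rw [Real.exp_add]
  refine mul_le_mul ?_ (Real.exp_le_exp.2 ?_) (Real.exp_pos _).le (Real.exp_pos _).le
  · simp only [← Real.exp_sum]
    refine Real.exp_le_exp.2 ?_
    have e1 := h7 d (mq q) S R M z (cost q v η) Φ (h12 q hq).1 hS hSR hz hΦ.2.1 fun i => (c3 i).2
    have e2 : ∑ s : Sd d, (∑ j ∈ Ioc (S s) (R s), cost q v η (ex (z (tm z M s j))) s.1 +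
        ∑ j ∈ Ioo (S s) (R s), - gf (Fc q v (ex (z (tm z M s (j + 1)))) s.1)) ≤
        ∑ _s : Sd d, cz d q v := by
      refine sum_le_sum fun s _ => ?_
      have e3 := h2.2.1 (S s) (R s) (fun j => gf (Fc q v (ex (z (tm z M s j))) s.1)) (cz d q v) c0
        fun j _ _ => (c2 _ _).2.2.2
      have e4 : ∑ j ∈ Ioc (S s) (R s), cost q v η (ex (z (tm z M s j))) s.1 ≤
          ∑ j ∈ Ioc (S s) (R s), gf (Fc q v (ex (z (tm z M s j))) s.1) :=
        sum_le_sum fun j _ => (c2 _ _).2.2.1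
      rw [sum_neg_distrib]
      linarith
    rw [sum_add_distrib, sum_const, card_univ, Fintype.card_prod, Fintype.card_fin,
      Fintype.card_bool, nsmul_eq_mul] at e2
    push_cast at e2
    linarith
  · refine le_trans (biU_FD1 _ _ _ fun u => mul_nonneg (nonneg_PrA Ω p0 (by linarith) _)
      (prod_nonneg fun s _ => prod_nonneg fun j _ => inv_nonneg.2 (Real.exp_pos _).le)) ?_
    refine le_trans (sum_le_card_nsmul _ _ _ fun τ hτ => le_trans (sum_le_sum fun u hu => ?_)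
      (hcell τ (z2 τ).2.2 (z2 τ).2.1 (z4 τ).1 (z4 τ).2.2.1 fun i => ?_)) ?_
    · refine mul_le_mul_of_nonneg_left (prod_le_prod (fun s _ => prod_nonneg fun j _ =>
        inv_nonneg.2 (Real.exp_pos _).le) fun s _ => ?_) (nonneg_PrA Ω p0 (by linarith) _)
      have hA : Adm1 T (z τ) (outB (mq q) R (z τ)) u := by
        classical
        unfold adm1 at hu
        rw [mem_filter] at hu
        exact hu.2
      have hc : (Ioc (u.1 s - u.2 s) (u.1 s)).card = u.2 s := by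
        rw [Int.card_Ioc]; omega
      rw [← hc, ← prod_const, hc]
      refine prod_le_prod (fun j _ => inv_nonneg.2 (Real.exp_pos _).le) fun j hj => ?_
      obtain ⟨j1, j2⟩ := mem_Ioc.1 hj
      have e1 := hA.2.2.2.1 s (by omega)
      have e2 := z7 s (j + 1) τ (by have := mem_range.1 hτ; omega) (by omega)
      have e3 := (c3 s.1).1 (exmono_FD1 (z2 τ).2.2 (z1 e2))
      have e4 := ((sSlope sBet).2 _ _ (hF _ _) e3).1
      rw [← Real.exp_neg, ← Real.exp_neg]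
      exact Real.exp_le_exp.2 (by linarith)
    · simpa using (z4 τ).2.2.2 0 i
    · rw [card_range, nsmul_eq_mul]
      push_cast
      exact le_rfl

theorem tD1 (h1 : TLine) (h2 : TTrick) (h3 : TLay) (h4 : TChn) (h5 : TPathA) (h6 : TPathB)
    (h7 : TPathC) (h8 : TWord) (h9 : TExt1) (h10 : TCr1) (h11 : TWs1) (h12 : TNf) (h13 : TCost) :
    TD1 := by
  have _ := h4
  intro d κ hκ
  obtain ⟨C1, hC1⟩ : ∃ C1 : ℝ, C1 = 2 ^ (3 * d + 4) * d ^ 2 * (2 * d + 5) ^ d * (2 * (1 + κ)) ^ 2 *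
      ((κ + 4 * κ * (1 + κ)) ^ (d - 1) + 1) := ⟨_, rfl⟩
  have c0 : 0 ≤ C1 := by rw [hC1]; positivity
  have d0 : (0 : ℝ) ≤ d := Nat.cast_nonneg d
  have l0 : 0 ≤ Real.log (2 * d + 1) := Real.log_nonneg (by linarith)
  refine ⟨(Real.log (2 * d + 1) + C1 + 1) * (2 * d + 2), by nlinarith, ?_⟩
  intro q p v T η Φ Ω G S R hB hT hS hSR hk hq2
  have hpath := fun (M : ℕ) (z : ℕ → Bx d) (hz : IsPath (mq q) S R M z) =>
    path_FD1 h1 h2 h3 h5 h7 h10 h11 h12 h13 Ω hκ hB hT hS hSR hk hz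
  rw [← hC1] at hpath
  obtain ⟨hd, hq, hq1, hp, -⟩ := hB
  obtain ⟨p0, p1, p2⟩ := pp_FD1 hd hq hq1 hp
  obtain ⟨n1, n2, -, -, n5⟩ := h12 q hq
  have hN : 0 ≤ NF q R - NF q S :=
    sub_nonneg.2 (sum_le_sum fun i _ => n2 (exmono_FD1 hS hSR i))
  obtain ⟨M, hM1, hM2⟩ : ∃ M : ℕ, NF q R - NF q S + 2 * d ≤ M ∧
      (M : ℝ) ≤ NF q R - NF q S + 1 + 2 * d := by
    refine ⟨⌈NF q R - NF q S⌉₊ + 2 * d, ?_, ?_⟩
    · push_cast
      linarith [Nat.le_ceil (NF q R - NF q S)]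
    · push_cast
      linarith [Nat.ceil_lt_add_one hN]
  obtain ⟨Z, hZ1, hZ2, hZ3⟩ := h6 d (mq q) S R M
  have e1 : Pr Ω p (Chn T G S R) ≤ Pr Ω p (fun A => ∃ z ∈ Z,
      Cr1 (admP (mq q) T M R z) (reg (mq q) R M 0 z) S R A) := by
    refine mono_PrA Ω p0 (by linarith) _ _ fun A _ hA => ?_
    obtain ⟨z, hz, hc⟩ := h8 d (mq q) (Nf q) (psi R) M T G S R A (by omega) n2
      (fun y hy => n5 y (by
        have : (y : ℝ) ≤ psi R := by exact_mod_cast hy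
        exact le_trans (mul_le_mul_of_nonneg_left (by linarith) (sq_nonneg q)) hq2))
      (exle_FD1 R) hS (by rw [sum_sub_distrib]; exact hM1) hA
    exact ⟨z, hZ3 z hz, h9 d (mq q) S R M T z A n1 hS hz hc⟩
  have e2 := (sPrA (Pt d) Ω p p0 (by linarith)).2.2.2.2.1 (ℕ → Bx d) Z
    (fun z => Cr1 (admP (mq q) T M R z) (reg (mq q) R M 0 z) S R)
  have e3 := sum_le_card_nsmul Z _ _ fun z hz => hpath M z (hZ2 z hz)
  have e4 : (Z.card : ℝ) ≤ Real.exp (M * Real.log (2 * d + 1)) := by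
    rw [Real.exp_nat_mul, Real.exp_log (by linarith)]
    have : (Z.card : ℝ) ≤ (2 * d : ℝ) ^ M := by exact_mod_cast hZ1
    exact this.trans (pow_le_pow_left₀ (by linarith) (by linarith) M)
  rw [nsmul_eq_mul] at e3
  refine e1.trans (e2.trans (e3.trans ((mul_le_mul_of_nonneg_right e4 (Real.exp_pos _).le).trans ?_)))
  rw [← Real.exp_add]
  refine Real.exp_le_exp.2 ?_
  have e5 : ((M : ℝ) + 1) * (Real.log (2 * d + 1) + C1 + 1) ≤
      (NF q R - NF q S + (2 * d + 2)) * (Real.log (2 * d + 1) + C1 + 1) :=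
    mul_le_mul_of_nonneg_right (by linarith) (by linarith)
  have e6 : 0 ≤ (NF q R - NF q S) * (Real.log (2 * d + 1) + C1 + 1) * (2 * d + 1) :=
    mul_nonneg (mul_nonneg hN (by linarith)) (by linarith)
  have e7 : (0 : ℝ) ≤ M := Nat.cast_nonneg M
  nlinarith

end Pool.Agent.MP_6d294b_pr
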