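import Pool.Agent.MP_6d294b_pr.FStm
import Pool.Agent.MP_6d294b_pr.PPrA
import Pool.Agent.MP_6d294b_pr.PBet
import Pool.Agent.MP_6d294b_pr.PGeoA
import Pool.Agent.MP_6d294b_pr.PSlope

open Finset

namespace Pool.Agent.MP_6d294b_pr

theorem face_FD2 {d : ℕ} (q : ℝ) (y : Fin d → ℕ) (i : Fin d) :
    q ^ (d - 1) * (sg y i : ℝ) = ∏ j ∈ univ.erase i, q * ((y j : ℝ) + 1) := by
  rw [prod_mul_distrib, prod_const, card_erase_of_mem (mem_univ i), card_univ, Fintype.card_fin, sg]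
  push_cast
  rfl

theorem low_FD2 {d : ℕ} {q y₀ : ℝ} (h0 : 0 < y₀) (y : Fin d → ℕ) (i : Fin d)
    (h : ∀ j, y₀ ≤ q * ((y j : ℝ) + 1)) : y₀ ^ (d - 1) ≤ q ^ (d - 1) * (sg y i : ℝ) := by
  rw [face_FD2]
  have := prod_le_prod (s := univ.erase i) (f := fun _ => y₀) (fun _ _ => h0.le) fun j _ => h j
  rwa [prod_const, card_erase_of_mem (mem_univ i), card_univ, Fintype.card_fin] at this

theorem fc_FD2 {d : ℕ} {q : ℝ} (hq : 0 < q) {v : ℕ} (hv : 1 ≤ v) (y : Fin d → ℕ) (i : Fin d) :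
    q ^ (d - 1) * (sg y i : ℝ) ≤ Fc q v y i := by
  refine mul_le_mul_of_nonneg_left ?_ (by positivity)
  rw [sg]
  push_cast
  refine prod_le_prod (fun _ _ => by positivity) fun j _ => ?_
  have h1 : (1 : ℝ) ≤ v := by exact_mod_cast hv
  have h2 : (0 : ℝ) ≤ mq q (y j) := Nat.cast_nonneg _
  rw [th]
  linarith

theorem sg_mono_FD2 {d : ℕ} {y y' : Fin d → ℕ} (h : ∀ j, y j ≤ y' j) (i : Fin d) :
    sg y i ≤ sg y' i :=
  prod_le_prod' fun j _ => Nat.succ_le_succ (h j)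

theorem path_FD2 (h2 : TTrick) (h3 : TLay) (h5 : TPathA) (h7 : TPathC) (h9 : TExt2) (h10 : TCr2)
    (h12 : TNf) (h13 : TCost) (h14 : TDom) {d : ℕ} {y₀ A₀ : ℝ} (y0 : 0 < y₀) (a0 : 1 ≤ A₀)
    {q p : ℝ} {v T N M : ℕ} {η ρ : ℝ} {Φ : (Fin d → ℕ) → ℝ} {Ω : Finset (Pt d)} {S R : Bx d}
    (hF : ∀ (y y' : Fin d → ℕ) (i : Fin d),
      (∀ j, y₀ ≤ q * (y j + 1) ∧ y j ≤ 2 * N ∧ y' j ≤ y j + 2 * mq q (y j) + 2 * (T + 1)) →
      q ^ (d - 1) * ((sg y' i : ℝ) - sg y i) ≤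
        A₀ * Real.sqrt q * (q ^ (d - 1) * sg y i) * (1 + q ^ (d - 1) * sg y i))
    (hB : Bas d q p v η Φ) {B : ℝ}
    (hBd : B = 2 * A₀ * (Real.exp (-gf (y₀ ^ (d - 1))))⁻¹ ^ (4 * d) * Real.sqrt q)
    (hη : 5 * B ≤ η) (hρ : 0 ≤ ρ) (hρ' : 20 * η ≤ ρ ^ 3) (hS : Val S) (hSR : S ≤ R)
    (hN : psi R ≤ 2 * N) (hΩ : Full Ω R) (hy : ∀ i, y₀ ≤ q * (ex S i + 1)) {z : ℕ → Bx d}
    (hz : IsPath (mq q) S R M z) :
    Pr Ω p (fun A => ∀ s, NG (reg (mq q) R M (T + 1) z s) (Ioo (S s) (R s)) A) ≤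
      Real.exp (Φ (ex S) - Φ (ex R) + (2 * d * gf (y₀ ^ (d - 1)) + 32 * B * ρ * N)) := by
  obtain ⟨d2, q0, q1, hp, v1, qv, η0, hΦ⟩ := hB
  have hG := sGeoA d
  have hm := (h12 q q0).1
  obtain ⟨z1, z2, -, z4, z5, -⟩ := h5 d (mq q) S R M z hm hS hSR hz
  have p0 : 0 < q ^ (d - 1) := by positivity
  have p1 : q ^ (d - 1) ≤ q := pow_le_of_le_one q0.le (by linarith) (by omega)
  have p2 : p ≤ q ^ (d - 1) := by
    rw [hp]
    linarith [Real.add_one_le_exp (-q ^ (d - 1))]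
  have p3 : 0 ≤ p := by
    rw [hp]
    linarith [Real.exp_le_one_iff.2 (neg_nonpos.2 p0.le)]
  have F00 : 0 < y₀ ^ (d - 1) := by positivity
  have g0 : 0 ≤ gf (y₀ ^ (d - 1)) := (sBet.2 _ F00).2.1
  have B0 : 0 ≤ B := by
    rw [hBd]
    positivity
  obtain ⟨F, hFd⟩ : ∃ F : Sd d → ℤ → ℝ, ∀ s j,
      F s j = q ^ (d - 1) * (sg (ex (z (tm z M s j))) s.1 : ℝ) := ⟨_, fun _ _ => rfl⟩
  have ey : ∀ t i, y₀ ≤ q * (ex (z t) i + 1) := fun t i => by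
    have : (ex S i : ℝ) ≤ ex (z t) i := by
      exact_mod_cast (hG.2.2.2.1 S (z t) hS (z2 t).1).2.1 i
    exact (hy i).trans (by gcongr)
  have F1 : ∀ s j, y₀ ^ (d - 1) ≤ F s j := fun s j => by
    rw [hFd]
    exact low_FD2 y0 _ _ (ey _)
  have F2 : ∀ s j, 0 < F s j := fun s j => F00.trans_le (F1 s j)
  have F3 : ∀ s j, gf (F s j) ≤ gf (y₀ ^ (d - 1)) := fun s j =>
    ((sSlope sBet).2 _ _ F00 (F1 s j)).1
  have F4 : ∀ s j, (1 - p) ^ (cor M z s j).card = Real.exp (-F s j) := fun s j => by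
    rw [cor, (h3 d _ s j).2 (z2 _).2.2, hp, sub_sub_cancel, ← Real.exp_nat_mul, hFd]
    congr 1
    ring
  have F5 : ∀ s j, bet (1 - Real.exp (-F s j)) = Real.exp (-gf (F s j)) := fun s j =>
    (sBet.2 _ (F2 s j)).1.symm
  have F6 : ∀ s j, F s j ≤ F s (j + 1) := fun s j => by
    rw [hFd, hFd]
    refine mul_le_mul_of_nonneg_left ?_ p0.le
    exact_mod_cast sg_mono_FD2
      (hG.2.2.2.1 _ _ (z2 _).2.2 (z1 (z5 s (show j ≤ j + 1 by omega)))).2.1 s.1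
  have F7 : ∀ s j, ((reg (mq q) R M (T + 1) z s j \ cor M z s j).card : ℝ) *
      (2 * p * (1 - p) ^ (cor M z s j).card * (Real.exp (-gf (y₀ ^ (d - 1))))⁻¹ ^ (4 * d)) ≤
      B * F s j * (1 + F s j) * Real.exp (-F s j) := fun s j => by
    have e1 : z (tm z M s j) ≤ fun t => outB (mq q) R (z (tm z M s j)) t + ((T + 1 : ℕ) : ℤ) :=
      fun t => ((z4 _).1 t).trans (le_add_of_nonneg_right (Int.natCast_nonneg _))
    have e2 : cor M z s j ⊆ reg (mq q) R M (T + 1) z s j := fun x hx => by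
      rw [cor, (h3 d _ s j).1] at hx
      rw [reg, (h3 d _ s j).1]
      exact ⟨hx.1, fun t ht => (hx.2 t ht).trans (e1 t)⟩
    have e3 := hF (ex (z (tm z M s j)))
      (ex fun t => outB (mq q) R (z (tm z M s j)) t + ((T + 1 : ℕ) : ℤ)) s.1 fun i =>
      ⟨ey _ i, ((hG.2.2.2.1 _ R (z2 _).2.2 (z2 _).2.1).2.1 i).trans
        ((single_le_sum (f := ex R) (fun _ _ => Nat.zero_le _) (mem_univ i)).trans hN),
        (z4 _).2.2.2 (T + 1) i⟩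
    have e4 : ((reg (mq q) R M (T + 1) z s j \ cor M z s j).card : ℝ) =
        (sg (ex fun t => outB (mq q) R (z (tm z M s j)) t + ((T + 1 : ℕ) : ℤ)) s.1 : ℝ) -
          sg (ex (z (tm z M s j))) s.1 := by
      rw [card_sdiff_of_subset e2, Nat.cast_sub (card_le_card e2), reg, cor,
        (h3 d _ s j).2 (z2 _).2.2, (h3 d _ s j).2 (hG.2.2.2.1 _ _ (z2 _).2.2 e1).1]
    rw [← e4, ← hFd] at e3
    rw [F4, hBd]
    have e5 : (0 : ℝ) ≤ (reg (mq q) R M (T + 1) z s j \ cor M z s j).card := Nat.cast_nonneg _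
    have e6 := (mul_le_mul_of_nonneg_right p2 e5).trans e3
    have e7 := mul_le_mul_of_nonneg_right e6 (show 0 ≤ 2 * Real.exp (-F s j) *
      (Real.exp (-gf (y₀ ^ (d - 1))))⁻¹ ^ (4 * d) by positivity)
    linarith
  have F8 : ∀ s j, cost q v η (ex (z (tm z M s j))) s.1 ≤
      gf (F s j) - B * F s j * (1 + F s j) * Real.exp (-F s j) + 16 * B * ρ := fun s j =>
    h14 B η ρ _ _ (F2 s j) (by rw [hFd]; exact fc_FD2 q0 v1 _ _) B0 hη hρ hρ'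
  have main := h10 d Ω p p3 (by linarith) S R (cor M z) (reg (mq q) R M (T + 1) z)
    (fun s j => 1 - Real.exp (-F s j)) (Real.exp (-gf (y₀ ^ (d - 1))))
    ((h9 d _ S R M T z hm hS hSR hz).2 Ω hΩ) (Real.exp_pos _)
    (fun s j _ _ => ⟨by rw [F4], by linarith [Real.exp_lt_one_iff.2 (neg_neg_of_pos (F2 s j))],
      by linarith [Real.exp_pos (-F s j)],
      by rw [F5]; exact Real.exp_le_exp.2 (neg_le_neg (F3 s j))⟩)
    (fun s j _ _ => by linarith [Real.exp_le_exp.2 (neg_le_neg (F6 s j))])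
  refine main.trans ?_
  simp only [F5, ← Real.exp_sum]
  rw [← Real.exp_add, Real.exp_le_exp]
  have s1 : ∑ s : Sd d, (∑ j ∈ Ioc (S s) (R s), gf (F s j) - gf (y₀ ^ (d - 1))) ≤
      ∑ s : Sd d, ∑ j ∈ Ioo (S s) (R s), gf (F s (j + 1)) :=
    sum_le_sum fun s _ => h2.2.1 _ _ (fun j => gf (F s j)) _ g0 fun j _ _ => F3 s j
  have s2 := sum_le_sum (s := (univ : Finset (Sd d))) fun s _ =>
    sum_le_sum (s := Ioc (S s) (R s)) fun j _ => F7 s j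
  have s3 := sum_le_sum (s := (univ : Finset (Sd d))) fun s _ =>
    sum_le_sum (s := Ioc (S s) (R s)) fun j _ => F8 s j
  have s4 := h7 d (mq q) S R M z (cost q v η) Φ hm hS hSR hz hΦ.2.1
    fun i => ((h13 d q v η q0 v1 qv η0).2.2.1 i).2
  have s5 : ((∑ s : Sd d, (R s - S s).toNat : ℕ) : ℝ) ≤ 2 * N := by
    have := (hG.2.2.2.1 S R hS hSR).2.2.2.1
    exact_mod_cast (show ∑ s : Sd d, (R s - S s).toNat ≤ 2 * N by omega)
  have s6 := mul_le_mul_of_nonneg_right s5 (show 0 ≤ 16 * B * ρ by positivity)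
  simp only [sum_add_distrib, sum_sub_distrib, sum_const, Int.card_Ioc, nsmul_eq_mul,
    ← sum_mul, card_univ, Fintype.card_prod, Fintype.card_fin, Fintype.card_bool] at s1 s3
  simp only [sum_neg_distrib]
  push_cast at s1 s6
  simp only [sum_mul] at s3 s6
  linarith

theorem tD2 (h2 : TTrick) (h3 : TLay) (h4 : TChn) (h5 : TPathA) (h6 : TPathB) (h7 : TPathC) (h8 : TWord) (h9 : TExt2) (h10 : TCr2) (h11 : TFrame) (h12 : TNf) (h13 : TCost) (h14 : TDom) : TD2 := by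
  intro d y₀ y0 y1
  by_cases d2 : 2 ≤ d
  swap
  · exact ⟨1, 1, le_rfl, le_rfl, fun q p v T N η ρ Φ Ω G S R hB => absurd hB.1 d2⟩
  obtain ⟨A₀, a0, hF⟩ := h11 d y₀ d2 y0 y1
  have g0 : 0 ≤ gf (y₀ ^ (d - 1)) := (sBet.2 _ (by positivity)).2.1
  have k1 : 1 ≤ (Real.exp (-gf (y₀ ^ (d - 1))))⁻¹ ^ (4 * d) := by
    rw [Real.exp_neg, inv_inv]
    exact one_le_pow₀ (Real.one_le_exp g0)
  obtain ⟨κ, hκ⟩ : ∃ κ, κ = (Real.exp (-gf (y₀ ^ (d - 1))))⁻¹ ^ (4 * d) := ⟨_, rfl⟩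
  rw [← hκ] at k1
  have d0 : (0 : ℝ) ≤ d := Nat.cast_nonneg d
  have l0 : 0 ≤ Real.log (2 * d + 1) := Real.log_nonneg (by linarith)
  have a1 : A₀ ≤ 32 * (2 * A₀ * κ) := by nlinarith
  have c0 : 0 ≤ 2 * d * gf (y₀ ^ (d - 1)) := by positivity
  refine ⟨32 * (2 * A₀ * κ), (Real.log (2 * d + 1) + 1) * (2 * d + 2) + 2 * d * gf (y₀ ^ (d - 1)),
    a0.trans a1, by nlinarith, ?_⟩
  intro q p v T N η ρ Φ Ω G S R hB hη hρ hρ' hT hA hq hS hSR hN hΩ hy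
  have q0 := hB.2.1
  have hG := sGeoA d
  obtain ⟨hm, hNf, -, -, hst⟩ := h12 q q0
  have r0 : 0 ≤ Real.sqrt q := Real.sqrt_nonneg q
  have Δ1 : NF q R - NF q S = ∑ i, (Nf q (ex R i) - Nf q (ex S i)) := by
    rw [NF, NF, sum_sub_distrib]
  have Δ0 : 0 ≤ NF q R - NF q S := by
    rw [Δ1]
    exact sum_nonneg fun i _ => sub_nonneg.2 (hNf ((hG.2.2.2.1 S R hS hSR).2.1 i))
  obtain ⟨M, hM⟩ : ∃ M, M = ⌈NF q R - NF q S⌉₊ + 2 * d := ⟨_, rfl⟩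
  have M1 : NF q R - NF q S + 2 * d ≤ M := by
    rw [hM]
    push_cast
    linarith [Nat.le_ceil (NF q R - NF q S)]
  have M2 : (M : ℝ) ≤ NF q R - NF q S + 2 * d + 1 := by
    rw [hM]
    push_cast
    linarith [Nat.ceil_lt_add_one Δ0]
  obtain ⟨Z, Z1, Z2, Z3⟩ := h6 d (mq q) S R M
  have p0 : 0 < q ^ (d - 1) := by positivity
  have p3 : 0 ≤ p := by
    rw [hB.2.2.2.1]
    linarith [Real.exp_le_one_iff.2 (neg_nonpos.2 p0.le)]
  have p4 : p ≤ 1 := by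
    rw [hB.2.2.2.1]
    linarith [Real.exp_pos (-q ^ (d - 1))]
  obtain ⟨-, -, hmono, -, hun, -⟩ := sPrA (Pt d) Ω p p3 p4
  have b0 : 0 ≤ 2 * A₀ * κ * Real.sqrt q := by positivity
  have e1 : Pr Ω p (Chn T G S R) ≤ Pr Ω p (fun A => ∃ z ∈ Z,
      ∀ s, NG (reg (mq q) R M (T + 1) z s) (Ioo (S s) (R s)) A) := by
    refine hmono _ _ fun A _ hA' => ?_
    obtain ⟨z, hz, hc⟩ := h8 d (mq q) (Nf q) (2 * N) M T G S R A (by omega) hNf
      (fun y hy' => hst y (le_trans (by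
        have : (y : ℝ) ≤ 2 * N := by exact_mod_cast hy'
        gcongr) hq))
      (fun i => (single_le_sum (f := ex R) (fun _ _ => Nat.zero_le _) (mem_univ i)).trans hN) hS
      (by rw [← Δ1]; exact M1) hA'
    exact ⟨z, Z3 z hz, (h9 d _ S R M T z hm hS hSR hz).1 A hc⟩
  have e2 := sum_le_card_nsmul Z _ _ fun z hz => path_FD2 h2 h3 h5 h7 h9 h10 h12 h13 h14 y0 a0
    (fun y y' i h => hF q T N y y' i q0 hT (le_trans (by gcongr) hA) h) hB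
    (B := 2 * A₀ * κ * Real.sqrt q) (by rw [hκ]) (by linarith) hρ hρ' hS hSR hN hΩ hy (Z2 z hz)
  have e3 : (Z.card : ℝ) ≤ Real.exp (M * Real.log (2 * d + 1)) := by
    rw [Real.exp_nat_mul, Real.exp_log (by linarith)]
    have : (Z.card : ℝ) ≤ (2 * d) ^ M := by exact_mod_cast Z1
    exact this.trans (by gcongr; linarith)
  refine e1.trans ((hun _ Z _).trans (e2.trans ?_))
  rw [nsmul_eq_mul]
  refine (mul_le_mul_of_nonneg_right e3 (Real.exp_pos _).le).trans ?_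
  rw [← Real.exp_add, Real.exp_le_exp]
  have e4 := mul_le_mul_of_nonneg_right M2 l0
  have e5 : 0 ≤ (Real.log (2 * d + 1) * (2 * d + 1) + (2 * d + 2) + 2 * d * gf (y₀ ^ (d - 1))) *
      (NF q R - NF q S) := by positivity
  nlinarith

end Pool.Agent.MP_6d294b_pr
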