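import Pool.Agent.MP_6d294b_pr.FStm
import Pool.Agent.MP_6d294b_pr.PFinal
import Pool.Agent.MP_6d294b_pr.PPrA
import Pool.Agent.MP_6d294b_pr.PPrB
import Pool.Agent.MP_6d294b_pr.PInt
import Pool.Agent.MP_6d294b_pr.PBet
import Pool.Agent.MP_6d294b_pr.PSlope

open Finset

namespace Pool.Agent.MP_6d294b_pr

theorem tFinal (h5 : TPerc) : TFinal := by
  classical
  have hP : SPrB := sPrB sPrA
  have h3 : SInt := sInt sBet (sSlope sBet)
  intro d hd
  obtain ⟨C₀, q₀, hC₀, hq₀, h5⟩ := h5 d hd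
  have hlam := (h3 d hd).1
  set la : ℝ := lam d with hla
  have hla0 : 0 < la := by linarith
  set C' : ℝ := la * (72 * C₀ + 1) with hC'
  have hC'0 : 0 < C' := by positivity
  obtain ⟨n₀, hn₀⟩ := large_Final 1 (40000 + la / q₀ + la + (2 * C' / la) ^ 2) one_pos
  refine ⟨C' + la ^ 2, n₀, fun n hn => ?_⟩
  obtain ⟨hK, -⟩ := hn₀ n hn
  have hsq : 0 ≤ (2 * C' / la) ^ 2 := sq_nonneg _
  set L : ℝ := Real.log n with hL
  have hlq : 0 < la / q₀ := by positivity
  have hL4 : 40000 ≤ L := by linarith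
  have hL0 : 0 < L := by linarith
  have hn0 : (0 : ℝ) < n := by
    rcases Nat.eq_zero_or_pos n with h | h
    · rw [h] at hL
      simp at hL
      linarith
    · exact_mod_cast h
  set r : ℝ := Real.sqrt L with hr
  have hr0 : 0 < r := Real.sqrt_pos.2 hL0
  have hrr : L = r ^ 2 := (Real.sq_sqrt hL0.le).symm
  have hr1 : 1 ≤ r := Real.one_le_sqrt.2 (by linarith)
  have hL32 : L ^ (3 / 2 : ℝ) = r ^ 3 := by
    rw [hr, Real.sqrt_eq_rpow, ← Real.rpow_natCast, ← Real.rpow_mul hL0.le]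
    norm_num
  have hl3 : 2 * C' / la ≤ r := by
    refine le_of_sq_le_sq ?_ hr0.le
    rw [← hrr]
    linarith
  set x : ℝ := C' / (la * r) with hx
  have hx0 : 0 < x := by positivity
  have hx1 : x ≤ 1 / 2 := by
    rw [hx, div_le_iff₀ (by positivity)]
    rw [div_le_iff₀ hla0] at hl3
    linarith
  set q : ℝ := la / L * (1 - x) with hq
  have hq0 : 0 < q := mul_pos (by positivity) (by linarith)
  have hqu : q ≤ la / L := by
    have : 0 < la / L := by positivity
    exact mul_le_of_le_one_right this.le (by linarith)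
  have hql : 1 / (80 * L) ≤ q := by
    have a1 : 1 / 40 / L ≤ la / L := div_le_div_of_nonneg_right hlam hL0.le
    have a2 : 1 / (80 * L) = 1 / 40 / L * (1 / 2) := by field_simp; norm_num
    rw [a2]
    exact mul_le_mul a1 (by linarith) (by norm_num) (by positivity)
  have hqinv : 1 / q ≤ 80 * L := by
    rw [div_le_iff₀ hq0]
    rw [div_le_iff₀ (by positivity)] at hql
    linarith
  have hqq : q ≤ q₀ := by
    refine hqu.trans ?_
    rw [div_le_iff₀ hL0]
    have a1 : la / q₀ ≤ L := by linarith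
    rw [div_le_iff₀ hq₀] at a1
    linarith
  have hq1 : q ≤ 1 := by
    refine hqu.trans ?_
    rw [div_le_one hL0]
    linarith
  have hnq : 1 / q ^ 2 + 1 ≤ n := by
    have a1 : 1 / q ^ 2 ≤ (80 * L) ^ 2 := by
      rw [← one_div_pow]
      exact pow_le_pow_left₀ (by positivity) hqinv 2
    have a2 : L ^ 3 / (Nat.factorial 3 : ℝ) ≤ Real.exp L := Real.pow_div_factorial_le_exp L hL0.le 3
    have a3 : Real.exp L = n := Real.exp_log hn0
    have a4 : (Nat.factorial 3 : ℝ) = 6 := by norm_num [Nat.factorial]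
    rw [a3, a4] at a2
    have a5 : 40000 * L ^ 2 ≤ L ^ 3 := by
      rw [pow_succ' L 2]
      exact mul_le_mul_of_nonneg_right hL4 (sq_nonneg L)
    have a6 : 1 ≤ L ^ 2 := one_le_pow₀ (by linarith)
    have a7 : (80 * L) ^ 2 = 6400 * L ^ 2 := by ring
    linarith
  have hb := h5 q hq0 hqq n hnq
  have hexp : d * L - d * la / q + C₀ / Real.sqrt q ≤ -1 := by
    have hs0 : 0 < Real.sqrt q := Real.sqrt_pos.2 hq0
    have a3 : 1 / Real.sqrt q ≤ 9 * r := by
      refine le_of_sq_le_sq ?_ (by positivity)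
      rw [one_div_pow, Real.sq_sqrt hq0.le, mul_pow, ← hrr]
      linarith
    have a4 : C₀ / Real.sqrt q ≤ 72 * C₀ * r := by
      have b2 := mul_le_mul_of_nonneg_left a3 hC₀.le
      have e : C₀ / Real.sqrt q = C₀ * (1 / Real.sqrt q) := by ring
      have b3 : 0 ≤ C₀ * r := by positivity
      rw [e]
      linarith
    have a5 : L * (1 + x) ≤ la / q := by
      rw [le_div_iff₀ hq0, hq]
      have e : L * (1 + x) * (la / L * (1 - x)) = la * (1 - x ^ 2) := by field_simp; ring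
      rw [e]
      exact mul_le_of_le_one_right hla0.le (by linarith [sq_nonneg x])
    have a6 : L * x = (72 * C₀ + 1) * r := by
      rw [hx, hrr, hC']
      field_simp
    have hd1 : (1 : ℝ) ≤ d := by exact_mod_cast (by omega : 1 ≤ d)
    have a8 : L * x ≤ la / q - L := by linarith
    have a9 : L * x ≤ d * (la / q - L) := by
      have : 0 ≤ L * x := by positivity
      exact a8.trans (le_mul_of_one_le_left (this.trans a8) hd1)
    have e : (d : ℝ) * la / q = d * (la / q) := mul_div_assoc _ _ _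
    have e2 : (72 * C₀ + 1) * r = 72 * C₀ * r + r := by ring
    have e3 : (d : ℝ) * (la / q - L) = d * (la / q) - d * L := by ring
    rw [e]
    linarith
  set p₀ : ℝ := 1 - Real.exp (- q ^ (d - 1)) with hp₀
  have hp1 : p₀ ≤ 1 := by
    rw [hp₀]
    linarith [Real.exp_pos (- q ^ (d - 1))]
  have hhalf : Pr (univ : Finset (Fin d → Fin n)) p₀ (Perc d n) < 1 / 2 := by
    refine lt_of_le_of_lt (hb.trans (Real.exp_le_exp.2 hexp)) ?_
    linarith [Real.exp_neg_one_lt_d9]
  have hinf : p₀ ≤ sInf {p : ℝ | 0 ≤ p ∧ p ≤ 1 ∧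
      (1 / 2 : ℝ) ≤ Pr (univ : Finset (Fin d → Fin n)) p (Perc d n)} := by
    refine le_csInf ⟨1, zero_le_one, le_rfl, by linarith [one_Final d n]⟩ ?_
    rintro p ⟨b1, b2, b3⟩
    by_contra hlt
    have := (hP _ (univ : Finset (Fin d → Fin n)) p b1 b2).2.2.2 _ (incr_Final d n) p₀
      (not_le.1 hlt).le hp1
    linarith
  have hqq0 : 0 ≤ q - q ^ 2 := sub_nonneg.2 (pow_le_of_le_one hq0.le hq1 (by norm_num))
  have hroot : q - q ^ 2 ≤ (sInf {p : ℝ | 0 ≤ p ∧ p ≤ 1 ∧
      (1 / 2 : ℝ) ≤ Pr (univ : Finset (Fin d → Fin n)) p (Perc d n)}) ^ (1 / ((d : ℝ) - 1)) := by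
    have a1 := (root_Final (d - 1) (by omega) q hq0 hq1).trans hinf
    have a2 : ((d : ℝ) - 1) = ((d - 1 : ℕ) : ℝ) := by
      rw [Nat.cast_sub (by omega)]
      simp
    have a3 := Real.rpow_le_rpow (pow_nonneg hqq0 _) a1
      (show (0 : ℝ) ≤ ((d - 1 : ℕ) : ℝ)⁻¹ by positivity)
    rw [Real.pow_rpow_inv_natCast hqq0 (by omega)] at a3
    rw [a2, one_div (((d - 1 : ℕ) : ℝ))]
    exact a3
  rw [hL32]
  have f1 : la / L - q = C' / r ^ 3 := by
    rw [hq, hx, hrr]
    field_simp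
    ring
  have f2 : q ^ 2 ≤ la ^ 2 / r ^ 3 := by
    have g1 : q ^ 2 ≤ (la / L) ^ 2 := pow_le_pow_left₀ hq0.le hqu 2
    refine g1.trans ?_
    rw [hrr, div_pow, div_le_div_iff₀ (by positivity) (by positivity)]
    have g3 : r ^ 3 ≤ (r ^ 2) ^ 2 := by
      rw [← pow_mul]
      exact pow_le_pow_right₀ hr1 (by norm_num)
    exact mul_le_mul_of_nonneg_left g3 (sq_nonneg la)
  have f3 : (C' + la ^ 2) / r ^ 3 = C' / r ^ 3 + la ^ 2 / r ^ 3 := by ring
  rw [f3]
  linarith

end Pool.Agent.MP_6d294b_pr
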