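import Pool.Agent.MP_6d294b_pr.FStm
import Pool.Agent.MP_6d294b_pr.PSlope

open Finset

namespace Pool.Agent.MP_6d294b_pr

lemma exp_FG {z : ℝ} (hz : 0 < z) :
    Real.exp (- z) = (1 - Real.exp (- z)) * (yy_Slope z * (yy_Slope z - 1)) := by
  have hu := uu_Slope hz
  linear_combination - hu

lemma low_FG {z : ℝ} (hz : 0 < z) : Real.exp (- (2 * z)) / 2 ≤ - mm_Slope z := by
  have hy := ygt_Slope hz
  have hu := uu_Slope hz
  have hp := upos_Slope hz
  have he := exp_FG hz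
  have e2 : Real.exp (- (2 * z)) = Real.exp (- z) ^ 2 := by
    rw [← Real.exp_nat_mul]; congr 1; push_cast; ring
  have h0 := Real.exp_pos (- z)
  unfold mm_Slope
  rw [e2, neg_neg]
  generalize yy_Slope z = y at *
  generalize Real.exp (- z) = E at *
  have h1 : (1 - E) * y ≤ 1 := by
    have := mul_nonneg hp.le (sq_nonneg (y - 1))
    nlinarith
  have h2 : E ≤ y - 1 := by
    have := mul_le_mul_of_nonneg_right h1 (by linarith : 0 ≤ y - 1)
    nlinarith
  have h3 : E ^ 2 ≤ (y - 1) ^ 2 := pow_le_pow_left₀ h0.le h2 2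
  rw [div_le_div_iff₀ (by norm_num) (by linarith)]
  have h4 := mul_le_mul_of_nonneg_right h3 (by linarith : 0 ≤ 2 * y - 1)
  nlinarith [sq_nonneg (y - 1)]

lemma upp_FG {z : ℝ} (hz : 0 < z) :
    z * (- mm_Slope z) ≤ 2 * (1 + z) * Real.exp (- (2 * z)) := by
  have hy := ygt_Slope hz
  have hu := uu_Slope hz
  have hp := upos_Slope hz
  have he := exp_FG hz
  have e2 : Real.exp (- (2 * z)) = Real.exp (- z) ^ 2 := by
    rw [← Real.exp_nat_mul]; congr 1; push_cast; ring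
  have h0 := Real.exp_pos (- z)
  have hz1 : (1 + z) * Real.exp (- z) ≤ 1 := by
    have h1 := mul_le_mul_of_nonneg_right (Real.add_one_le_exp z) h0.le
    rw [← Real.exp_add, add_neg_cancel, Real.exp_zero] at h1
    linarith
  unfold mm_Slope
  rw [e2, neg_neg]
  generalize yy_Slope z = y at *
  generalize Real.exp (- z) = E at *
  have h1 : 1 ≤ (1 - E) * y ^ 2 := by
    have := mul_nonneg hp.le (by linarith : 0 ≤ y - 1)
    nlinarith
  have h2 : (1 - E) * (y - 1) ^ 2 ≤ E ^ 2 := by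
    have h3 := mul_le_mul_of_nonneg_left h1 (mul_nonneg hp.le (sq_nonneg (y - 1)))
    have h4 : E ^ 2 = ((1 - E) * (y * (y - 1))) ^ 2 := by rw [← he]
    rw [h4]
    nlinarith
  have h3 : (y - 1) ^ 2 * (y + 1) / (2 * y - 1) ≤ 2 * (y - 1) ^ 2 := by
    rw [div_le_iff₀ (by linarith)]
    have := mul_nonneg (sq_nonneg (y - 1)) (by linarith : 0 ≤ y - 1)
    nlinarith
  have h4 : z ≤ (1 + z) * (1 - E) := by linarith
  have h5 := mul_le_mul_of_nonneg_left h3 hz.le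
  have h6 := mul_le_mul_of_nonneg_right h4 (sq_nonneg (y - 1))
  have h7 := mul_le_mul_of_nonneg_left h2 (by linarith : 0 ≤ 1 + z)
  nlinarith

lemma zx_FG {a b : ℝ} (ha : 0 < a) (hab : a ≤ b) :
    b * (1 / (Real.exp b - 1)) ≤ a * (1 / (Real.exp a - 1)) := by
  have hb : 0 < b := lt_of_lt_of_le ha hab
  have h1 := convexOn_exp.2 (Set.mem_univ b) (Set.mem_univ 0)
    (by positivity : 0 ≤ a / b) (sub_nonneg.2 ((div_le_one hb).2 hab)) (by ring)
  simp only [smul_eq_mul, mul_zero, add_zero, Real.exp_zero, mul_one] at h1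
  rw [div_mul_cancel₀ _ hb.ne'] at h1
  rw [mul_one_div, mul_one_div, div_le_div_iff₀ (epos_Slope hb) (epos_Slope ha)]
  have h2 := mul_le_mul_of_nonneg_left h1 hb.le
  have h3 : b * (a / b * Real.exp b + (1 - a / b)) = a * Real.exp b + b - a := by
    field_simp; ring
  rw [h3] at h2
  linarith

/-- the remaining factor -/
noncomputable def hh_FG (s : ℝ) : ℝ := s * (s / (1 + 2 * s)) ^ 2 * ((2 + s) ^ 2 / (1 + s))

lemma hmono_FG {s t : ℝ} (hs : 0 ≤ s) (hst : s ≤ t) : hh_FG s ≤ hh_FG t := by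
  have ht : 0 ≤ t := le_trans hs hst
  have h1 : s / (1 + 2 * s) ≤ t / (1 + 2 * t) := by
    rw [div_le_div_iff₀ (by positivity) (by positivity)]
    nlinarith
  have h2 : (2 + s) ^ 2 / (1 + s) ≤ (2 + t) ^ 2 / (1 + t) := by
    rw [div_le_div_iff₀ (by positivity) (by positivity)]
    have h3 : 0 ≤ (t - s) * (s + t + s * t) := mul_nonneg (by linarith) (by positivity)
    nlinarith
  unfold hh_FG
  gcongr

lemma zm_FG {z : ℝ} (hz : 0 < z) :
    z * mm_Slope z ^ 2 = z * (1 / (Real.exp z - 1)) * hh_FG (yy_Slope z - 1) := by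
  have hy := ygt_Slope hz
  rw [← ysq_Slope hz]
  unfold mm_Slope hh_FG
  generalize yy_Slope z = y at *
  have e1 : 1 + 2 * (y - 1) = 2 * y - 1 := by ring
  have e2 : 1 + (y - 1) = y := by ring
  rw [e1, e2]
  have h1 : 2 * y - 1 ≠ 0 := by linarith
  have h2 : y ≠ 0 := by linarith
  obtain ⟨w, hw⟩ : ∃ w, w = 2 * y - 1 := ⟨_, rfl⟩
  rw [← hw] at h1 ⊢
  field_simp
  ring

lemma anti_FG {a b : ℝ} (ha : 0 < a) (hab : a ≤ b) :
    b * mm_Slope b ^ 2 ≤ a * mm_Slope a ^ 2 := by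
  have hb : 0 < b := lt_of_lt_of_le ha hab
  have hya := ygt_Slope ha
  have hyb := ygt_Slope hb
  rw [zm_FG ha, zm_FG hb]
  have h1 := hmono_FG (s := yy_Slope b - 1) (t := yy_Slope a - 1) (by linarith)
    (by linarith [yanti_Slope ha hab])
  have h2 : 0 ≤ hh_FG (yy_Slope b - 1) := by
    have : 0 ≤ yy_Slope b - 1 := by linarith
    unfold hh_FG
    positivity
  have h3 := epos_Slope ha
  exact mul_le_mul (zx_FG ha hab) h1 h2 (by positivity)

lemma dmono_FG {v w : ℝ} (hv : 0 < v) (h : v ≤ w) :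
    mm_Slope (v ^ 2) * (2 * v) ≤ mm_Slope (w ^ 2) * (2 * w) := by
  have hw : 0 < w := lt_of_lt_of_le hv h
  have h1 := anti_FG (a := v ^ 2) (b := w ^ 2) (by positivity) (pow_le_pow_left₀ hv.le h 2)
  have h2 := mneg_Slope (z := v ^ 2) (by positivity)
  have h3 : (w * (- mm_Slope (w ^ 2))) ^ 2 ≤ (v * (- mm_Slope (v ^ 2))) ^ 2 := by
    rw [mul_pow, mul_pow, neg_sq, neg_sq]; exact h1
  have h4 := le_of_sq_le_sq h3 (mul_nonneg hv.le (by linarith))
  linarith

lemma supp_FG {W w : ℝ} (hW : 0 < W) (hw : 0 < w) :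
    gf (W ^ 2) + mm_Slope (W ^ 2) * (2 * W) * (w - W) ≤ gf (w ^ 2) := by
  have hd : ∀ x : ℝ, 0 < x →
      HasDerivAt (fun x : ℝ => gf (x ^ 2)) (mm_Slope (x ^ 2) * (2 * x)) x := by
    intro x hx
    have h1 : HasDerivAt (fun x : ℝ => x ^ 2) (2 * x) x := by simpa using hasDerivAt_pow 2 x
    exact HasDerivAt.comp (h := fun x : ℝ => x ^ 2) x (gdiff_Slope (by positivity)) h1
  rcases lt_trichotomy W w with h | h | h
  · obtain ⟨c, h1, _, h3⟩ := mvt_Slope hd hW h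
    have h5 := mul_le_mul_of_nonneg_right (dmono_FG hW h1.le) (by linarith : 0 ≤ w - W)
    linarith
  · subst h; simp
  · obtain ⟨c, h1, h2, h3⟩ := mvt_Slope hd hw h
    have h5 := mul_le_mul_of_nonneg_right (dmono_FG (lt_trans hw h1) h2.le)
      (by linarith : 0 ≤ W - w)
    linarith

lemma far_FG {Z z z' : ℝ} (h0 : 0 < z') (h1 : z' ≤ 9 / 8 * z) (h2 : 2 * z ≤ Z) :
    gf Z + mm_Slope Z * (z - Z) ≤ gf z' := by
  have hz : 0 < z := by linarith
  have hZ : 0 < Z := by linarith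
  have h3 := supp_FG (Real.sqrt_pos.2 hZ) (Real.sqrt_pos.2 h0)
  have eZ := Real.sq_sqrt hZ.le
  have ez := Real.sq_sqrt h0.le
  rw [eZ, ez] at h3
  have h4 : (2 * (Real.sqrt Z * Real.sqrt z')) ^ 2 ≤ (Z + z) ^ 2 := by
    rw [mul_pow, mul_pow, eZ, ez]
    have h5 : 0 ≤ (Z - 2 * z) * (2 * Z - z) := mul_nonneg (by linarith) (by linarith)
    have h6 := mul_le_mul_of_nonneg_left h1 hZ.le
    nlinarith
  have h5 := le_of_sq_le_sq h4 (by linarith)
  have h6 : 2 * Real.sqrt Z * (Real.sqrt z' - Real.sqrt Z) ≤ z - Z := by nlinarith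
  have h7 := mul_le_mul_of_nonpos_left h6 (mneg_Slope hZ)
  linarith

theorem tG : TG :=
  ⟨mm_Slope, fun _ _ hz hz' => supp_Slope hz hz', fun _ _ hz h => mmono_Slope hz h,
    fun _ hz => mneg_Slope hz, fun _ hz h => mupp_Slope hz h, fun _ hz => low_FG hz,
    fun _ hz => upp_FG hz, fun _ _ _ h0 h1 h2 => far_FG h0 h1 h2⟩

end Pool.Agent.MP_6d294b_pr
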