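import Pool.Agent.MP_6d294b_pr.FStm

open Finset

namespace Pool.Agent.MP_6d294b_pr

theorem gf_FGain (hg : TG) {z w : ℝ} (hz : 0 < z) (hz1 : z ≤ 21 / 125) (hw : 321 / 320 * z ≤ w) :
    gf w + 1 / 3000 ≤ gf z := by
  obtain ⟨m, m1, -, m3, m4, -⟩ := hg
  have h0 : 0 < 321 / 320 * z := by positivity
  have hw0 : 0 < w := h0.trans_le hw
  have a1 := m1 w _ hw0 h0
  have a2 := mul_nonneg_of_nonpos_of_nonpos (m3 w hw0) (sub_nonpos.2 hw)
  have a3 := m1 _ z h0 hz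
  have a4 := m4 _ h0 (by linarith)
  linarith

theorem tGain (hg : TG) (h1 : TNf) (h2 : TCost) : TGain := by
  intro d q v η a t j₁ j₂ hq hv hqv hη hj ha1 ha2 hvt hqt i y₁ y₂ hy h12 ha
  obtain ⟨c1, c2, -, c4, -⟩ := h2 d q v η hq hv hqv hη
  have t1 : (1 : ℝ) ≤ t := by exact_mod_cast (by omega : 1 ≤ t)
  have v1 : (1 : ℝ) ≤ v := by exact_mod_cast hv
  have vt : (v : ℝ) ≤ 300 * t := by exact_mod_cast hvt
  have p0 : ∀ y : ℕ, 0 ≤ th q v y := fun y => by unfold th; positivity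
  have mono : ∀ x y : ℕ, x ≤ y → th q v x ≤ th q v y := fun x y h =>
    (le_add_of_nonneg_right (Nat.cast_nonneg _)).trans (c1 x y h)
  have ht : th q v t ≤ 320 * t := by
    have b1 := (h1 q hq).2.2.1 t
    have b2 : Real.sqrt ((t : ℝ) + 1) ≤ 2 * t := Real.sqrt_le_iff.2 ⟨by positivity, by nlinarith⟩
    have b3 : 1 + q * ((t : ℝ) + 1) ≤ 2 := by nlinarith
    have b4 : 2 * Real.sqrt ((t : ℝ) + 1) * (1 + q * ((t : ℝ) + 1)) ≤ 2 * (2 * t) * 2 := by gcongr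
    unfold th
    linarith
  have yt : ∀ k, y₁ k < t := fun k =>
    (single_le_sum (f := y₁) (fun _ _ => Nat.zero_le _) (mem_univ k)).trans_lt hy
  have b1 : ∀ k, th q v (y₁ k) ≤ 320 * t := fun k => (mono _ _ (yt k).le).trans ht
  obtain ⟨j, hji, hj2⟩ : ∃ j, j ≠ i ∧ 2 * t ≤ y₂ j := by
    by_cases h : j₁ = i
    · exact ⟨j₂, fun e => hj (h.trans e.symm), ha2.trans (ha j₂)⟩
    · exact ⟨j₁, h, ha1.trans (ha j₁)⟩
  have hm : j ∈ univ.erase i := mem_erase.2 ⟨hji, mem_univ j⟩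
  have hc : (univ.erase i).card = d - 1 := by simp
  have hd : d - 1 ≠ 0 := hc ▸ card_ne_zero_of_mem hm
  have b2 : 321 / 320 * th q v (y₁ j) ≤ th q v (y₂ j) := by
    have e1 := c1 _ _ (h12 j)
    have e2 : (t : ℝ) ≤ ((y₂ j - y₁ j : ℕ) : ℝ) := by
      have := yt j
      exact_mod_cast (by omega : t ≤ y₂ j - y₁ j)
    have e3 := b1 j
    linarith
  have b3 : 321 / 320 * Fc q v y₁ i ≤ Fc q v y₂ i := by
    unfold Fc
    rw [← mul_prod_erase _ _ hm, ← mul_prod_erase _ (fun k => th q v (y₂ k)) hm, mul_left_comm,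
      ← mul_assoc (321 / 320)]
    refine mul_le_mul_of_nonneg_left (mul_le_mul b2 (prod_le_prod (fun k _ => p0 _)
      fun k _ => mono _ _ (h12 k)) (prod_nonneg fun k _ => p0 _) (p0 _)) (by positivity)
  have b4 : Fc q v y₁ i ≤ 4 / 25 := by
    have e1 : ∏ k ∈ univ.erase i, th q v (y₁ k) ≤ ∏ _k ∈ univ.erase i, 320 * (t : ℝ) :=
      prod_le_prod (fun k _ => p0 _) fun k _ => b1 k
    rw [prod_const, hc] at e1
    have e2 : (q * (320 * t)) ^ (d - 1) ≤ q * (320 * t) :=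
      pow_le_of_le_one (by positivity) (by linarith) hd
    rw [mul_pow] at e2
    have e3 := mul_le_mul_of_nonneg_left e1 (pow_nonneg hq.le (d - 1))
    unfold Fc
    linarith
  have f0 : 0 < Fc q v y₁ i := lt_of_lt_of_le (by positivity) (c4 y₁ i).1
  obtain ⟨g1, g2, g3⟩ := c2 (Fc q v y₁ i) (Fc q v y₂ i) f0 (by linarith)
  refine gf_FGain hg (f0.trans_le g1) (by linarith) (le_of_mul_le_mul_right ?_ f0)
  have := mul_le_mul_of_nonneg_left b3 (f0.le.trans g1)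
  linarith

end Pool.Agent.MP_6d294b_pr
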