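import Pool.Agent.MP_6d294b_pr.FStm
import Pool.Agent.MP_6d294b_pr.PInd
import Pool.Agent.MP_6d294b_pr.PGeoA
import Pool.Agent.MP_6d294b_pr.PGeoB
import Pool.Agent.MP_6d294b_pr.PPrA
import Pool.Agent.MP_6d294b_pr.PBK

open Finset

namespace Pool.Agent.MP_6d294b_pr

theorem isp_incr_FInd {d : ℕ} (K Y : ℕ) (R : Bx d) : Incr (ISp2 K Y R) := by
  rintro A A' h ⟨B, h1, h2⟩
  exact ⟨B, h1.trans h, h2⟩

theorem full_FInd {d : ℕ} {Ω : Finset (Pt d)} {S R : Bx d} (h : Full Ω R) (hS : S ≤ R) :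
    Full Ω S := fun x hx => h x fun s => (hx s).trans (hS s)

theorem tInd (h1 : TSp) (h4 : TChn) : TInd := by
  classical
  intro d Ω p p0 p1 T K Y N V X E hK hE hX hpt hM
  have hA := sPrA
  have hBK := sBK sPrA
  have hG := sGeoA
  have hB := sGeoB sGeoA
  obtain ⟨a1, -, a3, a4, a5, -⟩ := hA (Pt d) Ω p p0 (by linarith)
  obtain ⟨c1, -, c3⟩ := h4 d T
  suffices h : ∀ n, ∀ R : Bx d, psi R < n → Val R → psi R ≤ 2 * N → Full Ω R →
      Pr Ω p (ISp2 K Y R) ≤ Real.exp (V R + E) from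
    fun R => h _ R (Nat.lt_succ_self _)
  intro n
  induction n with
  | zero => exact fun R h => absurd h (Nat.not_lt_zero _)
  | succ n ih =>
  intro R hn hR hRN hF
  obtain ⟨X₁, hX₁⟩ : ∃ X : Finset (Bx d), X = (boxes R).filter fun S => Val S ∧ S ≤ R ∧
    0 ≤ V S := ⟨_, rfl⟩
  obtain ⟨X₂, hX₂⟩ : ∃ X : Finset (Bx d × Bx d), X = (boxes R ×ˢ boxes R).filter fun z =>
    Val z.1 ∧ Val z.2 ∧ z.1 ⊔ z.2 ≤ R ∧ gap z.1 z.2 ≤ 2 ∧ T ≤ psi z.2 ∧ psi z.2 ≤ psi z.1 ∧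
      psi z.1 < psi (z.1 ⊔ z.2) := ⟨_, rfl⟩
  have hincl : Pr Ω p (ISp2 K Y R) ≤ Pr Ω p fun A => (∃ S ∈ X₁, Chn T (Gd K Y) S R A) ∨
      ∃ z ∈ X₂, BoxInd (ISp2 K Y z.1)
        (BoxInd (ISp2 K Y z.2) (Chn T (Gd K Y) (z.1 ⊔ z.2) R)) A := by
    refine a3 _ _ ?_
    rintro A - ⟨A', hA', hsp⟩
    rcases c3 K Y A' R hK hsp with ⟨x, g⟩ |
      ⟨Q, P, B₁, B₂, C, g1, g2, g3, g4, g5, g6, g7, g8, g9, g11⟩
    · have hv := ((hG d).1 _ _ (Span.pt x)).1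
      have g6 := ((c1 _ _ _).2 _ g).1
      refine Or.inl ⟨ptB x, ?_, (c1 _ _ _).1 _ _ hA' g⟩
      rw [hX₁, mem_filter]
      exact ⟨((hG d).2.2.2.1 _ R hv g6).2.2.2.2, hv, g6, hpt x⟩
    · have hv := ((hG d).1 _ _ ((h1 d K Y _ _).1 g7)).1
      have hv' := ((hG d).1 _ _ ((h1 d K Y _ _).1 g8)).1
      have g10 := ((c1 _ _ _).2 _ g9).1
      refine Or.inr ⟨(Q, P), ?_, B₁, B₂ ∪ C, g1.trans hA', (union_subset g2 g3).trans hA',
        disjoint_union_right.2 ⟨g4, g5⟩, ⟨B₁, Subset.refl _, g7⟩, B₂, C, subset_union_left,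
        subset_union_right, g6, ⟨B₂, Subset.refl _, g8⟩, g9⟩
      rw [hX₂, mem_filter, mem_product]
      exact ⟨⟨((hG d).2.2.2.1 Q R hv (le_sup_left.trans g10)).2.2.2.2,
        ((hG d).2.2.2.1 P R hv' (le_sup_right.trans g10)).2.2.2.2⟩, hv, hv', g10, g11⟩
  obtain ⟨b, hb⟩ : ∃ b, b = Real.exp (V R + X) := ⟨_, rfl⟩
  have hb0 : 0 ≤ b := hb ▸ (Real.exp_pos _).le
  have t1 : ∀ S ∈ X₁, Pr Ω p (Chn T (Gd K Y) S R) ≤ b := by
    intro S hS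
    rw [hX₁, mem_filter] at hS
    obtain ⟨-, g1, g2, g3⟩ := hS
    refine (hX S R g1 g2 hRN hF).trans ?_
    rw [hb, Real.exp_le_exp]
    linarith
  have t2 : ∀ z ∈ X₂, Pr Ω p (BoxInd (ISp2 K Y z.1)
      (BoxInd (ISp2 K Y z.2) (Chn T (Gd K Y) (z.1 ⊔ z.2) R))) ≤ b := by
    rintro ⟨Q, P⟩ hz
    rw [hX₂, mem_filter] at hz
    obtain ⟨-, g1, g2, g3, g4, g5, g6, g7⟩ := hz
    simp only at g1 g2 g3 g4 g5 g6 g7 ⊢
    obtain ⟨v1, -⟩ := (hG d).2.2.2.1 Q (Q ⊔ P) g1 le_sup_left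
    have v4 := ((hG d).2.2.2.1 _ R v1 g3).2.2.2.1
    have iQ := ih Q (by omega) g1 (by omega) (full_FInd hF (le_sup_left.trans g3))
    have iP := ih P (by omega) g2 (by omega) (full_FInd hF (le_sup_right.trans g3))
    have m := hM Q P g1 g2 g4 g5 g6 (by omega) iQ iP
    refine (bk_Ind hA hBK Ω p0 p1 (isp_incr_FInd K Y Q) (box_incr_Ind _ _)).trans
      ((mul_le_mul_of_nonneg_left
        (bk_Ind hA hBK Ω p0 p1 (isp_incr_FInd K Y P) (c1 _ _ _).1) (a1 _)).trans ?_)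
    rw [← mul_assoc]
    refine (mul_le_mul m (hX _ R v1 g3 hRN hF) (a1 _) (Real.exp_pos _).le).trans (le_of_eq ?_)
    rw [hb, ← Real.exp_add]
    congr 1
    ring
  have e1 := (hB d).1 R (2 * N + 1) fun i => by have := ex_le_Ind R i; omega
  have k1 : (X₁.card : ℝ) ≤ (2 * N + 1 : ℝ) ^ (4 * d) := by
    have e2 : X₁.card ≤ (2 * N + 1) ^ (4 * d) := by
      rw [hX₁]
      exact ((card_filter_le _ _).trans e1).trans
        (Nat.pow_le_pow_right (by omega) (by omega))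
    exact_mod_cast e2
  have k2 : (X₂.card : ℝ) ≤ (2 * N + 1 : ℝ) ^ (4 * d) := by
    have e2 : X₂.card ≤ (2 * N + 1) ^ (4 * d) := by
      rw [hX₂, show 4 * d = 2 * d + 2 * d by ring, pow_add]
      refine (card_filter_le _ _).trans ?_
      rw [card_product]
      exact Nat.mul_le_mul e1 e1
    exact_mod_cast e2
  have u1 := (a5 _ X₁ fun S => Chn T (Gd K Y) S R).trans (sum_le_card_nsmul _ _ _ t1)
  have u2 := (a5 _ X₂ fun z => BoxInd (ISp2 K Y z.1)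
    (BoxInd (ISp2 K Y z.2) (Chn T (Gd K Y) (z.1 ⊔ z.2) R))).trans (sum_le_card_nsmul _ _ _ t2)
  rw [nsmul_eq_mul] at u1 u2
  have u4 := mul_le_mul_of_nonneg_right k1 hb0
  have u5 := mul_le_mul_of_nonneg_right k2 hb0
  have u6 : (2 * N + 1 : ℝ) ^ (4 * d) * b =
      Real.exp (V R + X + 4 * d * Real.log (2 * N + 1)) := by
    rw [Real.exp_add, ← hb, show (4 * d : ℝ) = ((4 * d : ℕ) : ℝ) by push_cast; ring,
      Real.exp_nat_mul, Real.exp_log (by positivity), mul_comm]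
  have u7 : 2 * Real.exp (V R + X + 4 * d * Real.log (2 * N + 1)) ≤ Real.exp (V R + E) := by
    have w1 : (2 : ℝ) ≤ Real.exp 1 := by
      have := Real.add_one_le_exp 1
      linarith
    refine (mul_le_mul_of_nonneg_right w1 (Real.exp_pos _).le).trans ?_
    rw [← Real.exp_add, Real.exp_le_exp]
    linarith
  refine (hincl.trans (a4 _ _)).trans ?_
  linarith

end Pool.Agent.MP_6d294b_pr
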