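import Pool.Agent.MP_6d294b_pr.FStm
import Pool.Agent.MP_6d294b_pr.PPrA
import Pool.Agent.MP_6d294b_pr.PPrB
import Pool.Agent.MP_6d294b_pr.PBet

open Finset

namespace Pool.Agent.MP_6d294b_pr

lemma ratio_FLine {a b : ℝ} (ha : 0 < a) (hab : a ≤ b) (hb : b ≤ 1) :
    a * bet b ≤ b * bet a := by
  have hb0 : 0 < b := lt_of_lt_of_le ha hab
  have h1 : 0 ≤ b * (4 - 3 * b) := mul_nonneg hb0.le (by linarith)
  have h2 : 0 ≤ a * (4 - 3 * a) := mul_nonneg ha.le (by linarith)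
  have h3 : a * Real.sqrt (b * (4 - 3 * b)) ≤ b * Real.sqrt (a * (4 - 3 * a)) := by
    rw [← sq_le_sq₀ (mul_nonneg ha.le (Real.sqrt_nonneg _))
      (mul_nonneg hb0.le (Real.sqrt_nonneg _)), mul_pow, mul_pow, Real.sq_sqrt h1,
      Real.sq_sqrt h2]
    have h4 : 0 ≤ a * b * (b - a) := mul_nonneg (mul_nonneg ha.le hb0.le) (by linarith)
    nlinarith
  unfold bet
  nlinarith

lemma step_FLine {a b k e x y q : ℝ} (ha : 0 < a) (hab : a ≤ b) (hb : b ≤ 1)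
    (hak : a ≤ k) (hk : a * bet b ≤ b * k) (he : 1 - b ≤ e) (hy : 0 ≤ y)
    (hq : q ≤ a) (hx : x = k * y) :
    (1 - e) * x + e * (q * y) ≤ bet b * x := by
  have hb0 : 0 < b := lt_of_lt_of_le ha hab
  obtain ⟨h1, h2, h3⟩ := sBet.1 b hb0.le hb
  have hβ : 0 < bet b := lt_of_lt_of_le hb0 h1
  have h4 : b * k + (1 - b) * a ≤ bet b * k := by
    have h5 : bet b * (b * k + (1 - b) * a) ≤ bet b * (bet b * k) := by
      have h6 : (1 - b) * (a * bet b) ≤ (1 - b) * (b * k) :=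
        mul_le_mul_of_nonneg_left hk (by linarith)
      have h7 : bet b * (bet b * k) = bet b ^ 2 * k := by ring
      rw [h7, h3]
      nlinarith
    exact le_of_mul_le_mul_left h5 hβ
  have he0 : 0 ≤ e := by linarith
  have h8 : (1 - e) * k + e * q ≤ bet b * k := by
    have h9 : e * q ≤ e * a := mul_le_mul_of_nonneg_left hq he0
    have h10 : (1 - b) * (k - a) ≤ e * (k - a) := mul_le_mul_of_nonneg_right he (by linarith)
    nlinarith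
  have h11 := mul_le_mul_of_nonneg_right h8 hy
  rw [hx]
  nlinarith

lemma occ_FLine {α : Type} [DecidableEq α] {X Y : Finset α} (h : Disjoint Y X) (A : Finset α) :
    (∃ x ∈ A, x ∈ Y) ↔ (∃ x ∈ A \ X, x ∈ Y) := by
  constructor
  · rintro ⟨x, hx, hy⟩
    exact ⟨x, mem_sdiff.2 ⟨hx, disjoint_left.1 h hy⟩, hy⟩
  · rintro ⟨x, hx, hy⟩
    exact ⟨x, (mem_sdiff.1 hx).1, hy⟩

lemma occI_FLine {α : Type} [DecidableEq α] (X A : Finset α) :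
    (∃ x ∈ A, x ∈ X) ↔ (∃ x ∈ A ∩ X, x ∈ X) := by
  constructor
  · rintro ⟨x, hx, hy⟩
    exact ⟨x, mem_inter.2 ⟨hx, hy⟩, hy⟩
  · rintro ⟨x, hx, hy⟩
    exact ⟨x, (mem_inter.1 hx).1, hy⟩

lemma ng_FLine {α : Type} [DecidableEq α] {C : ℤ → Finset α} {J : Finset ℤ} {X : Finset α}
    (h : ∀ i ∈ J, Disjoint (C i) X ∧ Disjoint (C (i + 1)) X) (A : Finset α) :
    NG C J A ↔ NG C J (A \ X) := by
  unfold NG
  refine forall_congr' fun i => forall_congr' fun hi => ?_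
  rw [occ_FLine (h i hi).1 A, occ_FLine (h i hi).2 A]

lemma occP_FLine {α : Type} [DecidableEq α] (Ω : Finset α) {p : ℝ} (p0 : 0 ≤ p) (p1 : p ≤ 1)
    (X : Finset α) : Pr Ω p (fun A => ∃ x ∈ A, x ∈ X) ≤ 1 - (1 - p) ^ X.card := by
  obtain ⟨a0, a1, a2, a3, -, -⟩ := sPrA α Ω p p0 p1
  obtain ⟨b1, b2, b3, -⟩ := sPrB sPrA α Ω p p0 p1
  have h1 := b3 X
  have h2 := b2 (fun A => A ∩ X = ∅)
  have h3 := a2 (fun A => ∃ x ∈ A, x ∈ X) (fun A => ¬ A ∩ X = ∅) (by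
    rintro A - ⟨x, hx, hy⟩ h
    have : x ∈ A ∩ X := mem_inter.2 ⟨hx, hy⟩
    rw [h] at this
    exact notMem_empty x this)
  linarith

theorem tLine : TLine := by
  intro α _ Ω p p0 p1 C u J G
  obtain ⟨a0, a1, a2, a3, -, -⟩ := sPrA α Ω p p0 p1
  obtain ⟨b1, b2, b3, -⟩ := sPrB sPrA α Ω p p0 p1
  induction J using Finset.strongInduction with
  | H J ih =>
  intro hd hu hm hG
  rcases J.eq_empty_or_nonempty with rfl | hne
  · simp only [prod_empty, mul_one]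
    exact a2 _ _ fun A _ h => h.1
  obtain ⟨j, hj, hmax⟩ : ∃ j ∈ J, ∀ i ∈ J, i ≤ j :=
    ⟨J.max' hne, J.max'_mem hne, fun i hi => J.le_max' i hi⟩
  have sub : ∀ K, K ⊂ J → Pr Ω p (fun A => G A ∧ NG C K A) ≤
      Pr Ω p G * ∏ i ∈ K, bet (u (i + 1)) := by
    intro K hK
    have hs : ∀ i, (i ∈ K ∨ i - 1 ∈ K) → (i ∈ J ∨ i - 1 ∈ J) := fun i hi =>
      hi.imp (fun h => hK.1 h) (fun h => hK.1 h)
    exact ih K hK (fun i l hi hl => hd i l (hs i hi) (hs l hl)) (fun i hi => hu i (hs i hi))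
      (fun i hi => hm i (hK.1 hi)) (fun i hi => hG i (hs i hi))
  have hj1 : j + 1 ∈ J ∨ j + 1 - 1 ∈ J := Or.inr (by simpa using hj)
  have hj0 : j ∈ J ∨ j - 1 ∈ J := Or.inl hj
  have s1 : J.erase j ⊂ J := erase_ssubset hj
  have s2 : (J.erase j).erase (j - 1) ⊂ J := lt_of_le_of_lt (erase_subset _ _) s1
  have mem1 : ∀ i ∈ J, i + 1 ∈ J ∨ i + 1 - 1 ∈ J := fun i hi => Or.inr (by simpa using hi)
  have d1 : ∀ i ∈ J.erase j, Disjoint (C i) (C (j + 1)) ∧ Disjoint (C (i + 1)) (C (j + 1)) := by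
    intro i hi
    obtain ⟨h1, h2⟩ := mem_erase.1 hi
    have := hmax i h2
    exact ⟨hd _ _ (Or.inl h2) hj1 (by omega), hd _ _ (mem1 i h2) hj1 (by omega)⟩
  have d2 : ∀ i ∈ (J.erase j).erase (j - 1),
      Disjoint (C i) (C j) ∧ Disjoint (C (i + 1)) (C j) := by
    intro i hi
    obtain ⟨h0, hi'⟩ := mem_erase.1 hi
    obtain ⟨h1, h2⟩ := mem_erase.1 hi'
    exact ⟨hd _ _ (Or.inl h2) hj0 h1, hd _ _ (mem1 i h2) hj0 (by omega)⟩
  have d3 : Disjoint (C j) (C (j + 1)) := hd _ _ hj0 hj1 (by omega)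
  have i1 := b1 (C (j + 1)) (fun A => ∃ x ∈ A, x ∈ C (j + 1))
    (fun A => G A ∧ NG C (J.erase j) A) (occI_FLine _)
    (fun A => and_congr (hG _ hj1 A) (ng_FLine d1 A))
  have i2 := b1 (C (j + 1)) (fun A => ¬ ∃ x ∈ A, x ∈ C (j + 1))
    (fun A => (∃ x ∈ A, x ∈ C j) ∧ G A ∧ NG C ((J.erase j).erase (j - 1)) A)
    (fun A => not_congr (occI_FLine _ A))
    (fun A => and_congr (occ_FLine d3 A) (and_congr (hG _ hj1 A)
      (ng_FLine (fun i hi => d1 i (erase_subset _ _ hi)) A)))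
  have i3 := b1 (C j) (fun A => ∃ x ∈ A, x ∈ C j)
    (fun A => G A ∧ NG C ((J.erase j).erase (j - 1)) A) (occI_FLine _)
    (fun A => and_congr (hG _ hj0 A) (ng_FLine d2 A))
  have c1 := b2 (fun A => ∃ x ∈ A, x ∈ C (j + 1))
  have un := a3 (fun A => (∃ x ∈ A, x ∈ C (j + 1)) ∧ G A ∧ NG C (J.erase j) A)
    (fun A => (¬ ∃ x ∈ A, x ∈ C (j + 1)) ∧
      (∃ x ∈ A, x ∈ C j) ∧ G A ∧ NG C ((J.erase j).erase (j - 1)) A)
  have mo := a2 (fun A => G A ∧ NG C J A)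
    (fun A => ((∃ x ∈ A, x ∈ C (j + 1)) ∧ G A ∧ NG C (J.erase j) A) ∨
      ((¬ ∃ x ∈ A, x ∈ C (j + 1)) ∧
      (∃ x ∈ A, x ∈ C j) ∧ G A ∧ NG C ((J.erase j).erase (j - 1)) A)) (by
    rintro A - ⟨hg, hn⟩
    by_cases h : ∃ x ∈ A, x ∈ C (j + 1)
    · exact Or.inl ⟨h, hg, fun i hi => hn i (s1.1 hi)⟩
    · exact Or.inr ⟨h, (hn j hj).resolve_right h, hg, fun i hi => hn i (s2.1 hi)⟩)
  rw [i1, i2, i3, c1] at un
  have o1 := occP_FLine Ω p0 p1 (C (j + 1))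
  have o0 := occP_FLine Ω p0 p1 (C j)
  obtain ⟨u1, u2, u3⟩ := hu _ hj1
  obtain ⟨v1, v2, v3⟩ := hu _ hj0
  have hab := hm j hj
  have hP : ∀ K, K ⊆ J → 0 ≤ Pr Ω p G * ∏ i ∈ K, bet (u (i + 1)) := by
    intro K hK
    refine mul_nonneg (a0 _) (prod_nonneg fun i hi => ?_)
    obtain ⟨-, w2, w3⟩ := hu _ (mem1 i (hK hi))
    exact w2.le.trans (sBet.1 _ w2.le w3).1
  have key : ∃ k, u j ≤ k ∧ u j * bet (u (j + 1)) ≤ u (j + 1) * k ∧
      Pr Ω p G * ∏ i ∈ J.erase j, bet (u (i + 1)) =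
        k * (Pr Ω p G * ∏ i ∈ (J.erase j).erase (j - 1), bet (u (i + 1))) := by
    by_cases h : j - 1 ∈ J.erase j
    · refine ⟨bet (u j), (sBet.1 _ v2.le v3).1, ratio_FLine v2 hab u3, ?_⟩
      rw [← mul_prod_erase _ _ h, sub_add_cancel]
      ring
    · refine ⟨1, v3, ?_, ?_⟩
      · have := (sBet.1 _ u2.le u3).2.1
        nlinarith
      · rw [erase_eq_of_notMem h, one_mul]
  obtain ⟨k, k1, k2, k3⟩ := key
  have fin := step_FLine (e := 1 - Pr Ω p (fun A => ∃ x ∈ A, x ∈ C (j + 1)))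
    (q := Pr Ω p (fun A => ∃ x ∈ A, x ∈ C j)) v2 hab u3 k1 k2 (by linarith) (hP _ s2.1)
    (by linarith) k3
  have t1 := mul_le_mul_of_nonneg_left (sub _ s1) (a0 (fun A => ∃ x ∈ A, x ∈ C (j + 1)))
  have t2 := mul_le_mul_of_nonneg_left
    (mul_le_mul_of_nonneg_left (sub _ s2) (a0 (fun A => ∃ x ∈ A, x ∈ C j)))
    (sub_nonneg.2 (a1 (fun A => ∃ x ∈ A, x ∈ C (j + 1))))
  rw [← mul_prod_erase _ _ hj]
  have e1 : Pr Ω p G * (bet (u (j + 1)) * ∏ i ∈ J.erase j, bet (u (i + 1))) =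
      bet (u (j + 1)) * (Pr Ω p G * ∏ i ∈ J.erase j, bet (u (i + 1))) := by ring
  rw [e1]
  rw [sub_sub_cancel] at fin
  linarith

end Pool.Agent.MP_6d294b_pr
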