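import Pool.Agent.MP_6d294b_pr.FStm
import Pool.Agent.MP_6d294b_pr.PInt
import Pool.Agent.MP_6d294b_pr.PBet
import Pool.Agent.MP_6d294b_pr.PSlope

open Finset

namespace Pool.Agent.MP_6d294b_pr

theorem int_FLow (j : ℕ) {q : ℝ} (v N : ℕ) (hq : 0 < q) (hq1 : q ≤ 1 / 2000)
    (hu : q * (v + 1) ≤ 1) (hN : ((j + 2 : ℕ) : ℝ) * Real.log (1 / q) ≤ q * N) :
    ((j + 2 : ℕ) : ℝ) * lam (j + 2) / q -
        ((j + 2 : ℕ) : ℝ) ^ 2 * (v + 1) * (1 + Real.log (1 / q)) - ((j + 2 : ℕ) : ℝ) ≤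
      ∑ t ∈ range N, gf ((q * (((t : ℝ) + 1 + ((j + 2 : ℕ) : ℝ) * v) / ((j + 2 : ℕ) : ℝ))) ^ (j + 1)) := by
  have hb := sBet
  have hs := sSlope hb
  have e : j + 2 - 1 = j + 1 := rfl
  unfold lam
  rw [e]
  have hj : (0 : ℝ) ≤ j := Nat.cast_nonneg j
  have hv : (0 : ℝ) ≤ v := Nat.cast_nonneg v
  set D : ℝ := ((j + 2 : ℕ) : ℝ) with hD
  have hD2 : D = j + 2 := by rw [hD]; push_cast; ring
  have hD0 : 0 < D := by rw [hD2]; positivity
  set B : ℝ := Real.log (1 / q) with hBd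
  have hB : 1 ≤ B := by
    rw [hBd, Real.le_log_iff_exp_le (by positivity), le_div_iff₀ hq]
    have := Real.exp_one_lt_d9
    nlinarith
  set a : ℝ := q * ((1 + D * v) / D) with ha
  have ha0 : 0 < a := by positivity
  have hau : a ≤ q * (v + 1) := by
    have : (1 + D * v) / D ≤ v + 1 := by rw [div_le_iff₀ hD0]; nlinarith
    exact mul_le_mul_of_nonneg_left this hq.le
  have hc : 0 < q / D := by positivity
  have hN' : B ≤ q / D * N := by
    rw [div_mul_eq_mul_div, le_div_iff₀ hD0]; linarith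
  have h1 := sum_Int hs (j + 1) N ha0 hc
  have h2 : ∑ t ∈ range N, gf ((a + q / D * t) ^ (j + 1)) =
      ∑ t ∈ range N, gf ((q * (((t : ℝ) + 1 + D * v) / D)) ^ (j + 1)) := by
    refine sum_congr rfl fun t _ => ?_
    congr 2
    rw [ha]; field_simp; ring
  rw [← h2]
  refine le_trans ?_ h1
  rw [inv_div]
  have hb1 : B ≤ a + q / D * N := by linarith
  have s1 := split_Int hb hs j ha0.le (b := a + q / D * N) (by linarith)
  have s2 := split_Int hb hs j (a := 0) (b := q * (v + 1)) le_rfl (by positivity)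
  have s3 := split_Int hb hs j ha0.le hau
  have s4 := split_Int hb hs j (a := B) (by linarith) hb1
  have p3 := partnn_Int hb (j + 1) ha0 hau
  have p4 := partnn_Int hb (j + 1) (a := B) (by linarith) hb1
  have t1 := head_Int hb hs j hq (u := q * (v + 1)) (by nlinarith) hu
  have t2 := tail_Int hb hs j hB
  rw [← hD2, ← hBd] at t1
  have t3 : Real.exp (- B ^ (j + 1)) ≤ q := by
    have b1 : B ≤ B ^ (j + 1) := le_self_pow₀ hB (Nat.succ_ne_zero j)
    have b2 : Real.exp (- B) = q := by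
      rw [hBd, one_div, Real.log_inv, neg_neg, Real.exp_log hq]
    rw [← b2]
    exact Real.exp_le_exp.2 (by linarith)
  have k : (∫ z in Set.Ioi (0 : ℝ), gf (z ^ (j + 1))) - D * (q * (v + 1)) * (1 + B) - q ≤
      ∫ z in a..a + q / D * N, gf (z ^ (j + 1)) := by linarith
  refine le_trans (le_of_eq ?_) (mul_le_mul_of_nonneg_left k (by positivity))
  field_simp

theorem tLow (hg : TG) (h1 : TPotB) (h2 : TStepH) (h3 : TSumL) : TLow := by
  intro d
  by_cases hd : 2 ≤ d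
  swap
  · exact ⟨0, le_rfl, fun q p v N η Φ hB => absurd hB.1 hd⟩
  obtain ⟨m, hm⟩ := hg
  obtain ⟨A2, hA2, h2⟩ := h2 d hd
  obtain ⟨A3, hA3, h3⟩ := h3 d (by omega)
  refine ⟨A2 * A3, mul_nonneg hA2 hA3, fun q p v N η Φ hB hu h160 hN y hy1 hy2 => ?_⟩
  obtain ⟨-, hq, hq1, -, hv, hqv, hη, hΦ⟩ := hB
  have hv0 : (0 : ℝ) < v := by exact_mod_cast hv
  have hd0 : (0 : ℝ) < d := by exact_mod_cast (by omega : 0 < d)
  obtain ⟨hDd, hP⟩ := h1 d v (by omega) hv0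
  have hp : 0 < q ^ (d - 1) := pow_pos hq _
  have a1 := hP (cost q v η) Φ (fun k => gf (q ^ (d - 1) * k))
    (fun k => q ^ (d - 1) * m (q ^ (d - 1) * k)) (fun t => A2 * ell d q v η t) (2 * N) hΦ
    (fun z z' hz hzz => mul_le_mul_of_nonneg_left
      (hm.2.1 _ _ (mul_pos hp hz) (mul_le_mul_of_nonneg_left hzz hp.le)) hp.le)
    (fun z hz => mul_nonpos_of_nonneg_of_nonpos hp.le (hm.2.2.1 _ (mul_pos hp hz)))
    (fun y i hy => h2 m q v N η hm hq hv hqv hη h160 y i hy) y hy2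
  rw [sum_sub_distrib, ← mul_sum] at a1
  have a2 := (h3 q v (∑ k, y k) η hq (by linarith) hv hη).2
  have a3 := mul_le_mul_of_nonneg_left a2 hA2
  have hpos : ∀ t : ℕ, 0 < q ^ (d - 1) * Dd d v t := fun t =>
    mul_pos hp (lt_of_lt_of_le (by positivity) (hDd t).1)
  have a4 : ∑ t ∈ range N, gf (q ^ (d - 1) * Dd d v t) ≤
      ∑ t ∈ range (∑ k, y k), gf (q ^ (d - 1) * Dd d v t) :=
    sum_le_sum_of_subset_of_nonneg (range_subset_range.2 hy1)
      fun t _ _ => (sBet.2 _ (hpos t)).2.1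
  have a5 : ∑ t ∈ range N, gf ((q * (((t : ℝ) + 1 + d * v) / d)) ^ (d - 1)) ≤
      ∑ t ∈ range N, gf (q ^ (d - 1) * Dd d v t) := by
    refine sum_le_sum fun t _ => ((sSlope sBet).2 _ _ (hpos t) ?_).1
    rw [mul_pow]
    exact mul_le_mul_of_nonneg_left (hDd t).2 hp.le
  obtain ⟨j, rfl⟩ : ∃ j, d = j + 2 := ⟨d - 2, by omega⟩
  have a6 := int_FLow j v N hq hq1 hu hN
  have e : j + 2 - 1 = j + 1 := rfl
  rw [e] at a1 a4 a5
  rw [mul_assoc A2]
  linarith

end Pool.Agent.MP_6d294b_pr
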