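import Pool.Agent.MP_6d294b_pr.FStm
import Pool.Agent.MP_6d294b_pr.PSeed
import Pool.Agent.MP_6d294b_pr.PPrA
import Pool.Agent.MP_6d294b_pr.PGeoA
import Pool.Agent.MP_6d294b_pr.PGeoB

open Finset

namespace Pool.Agent.MP_6d294b_pr

theorem exp3_FNeedle : Real.exp 1 * Real.exp 2 ≤ 25 := by
  have h := Real.exp_one_lt_d9
  have h0 := Real.exp_pos 1
  have e : Real.exp 2 = Real.exp 1 * Real.exp 1 := by rw [← Real.exp_add]; norm_num
  have h1 : Real.exp 1 ≤ 2.8 := by linarith
  have h2 : Real.exp 1 * Real.exp 1 ≤ 2.8 * 2.8 := mul_le_mul h1 h1 h0.le (by norm_num)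
  rw [e]
  nlinarith

theorem slack_FNeedle {m : ℝ → ℝ} (hm : Slp m) {F κ Z : ℝ} (hF : 0 < F) (hF5 : F ≤ 1 / 5)
    (hκ0 : 0 ≤ κ) (hκ1 : κ ≤ 1) (hZ : F * (1 + κ) ≤ Z) : gf Z ≤ gf F - κ / 8 := by
  obtain ⟨m1, -, m3, m4, -⟩ := hm
  have hz : 0 < F * (1 + κ) := by positivity
  have hZ0 : 0 < Z := lt_of_lt_of_le hz hZ
  have a1 := m1 Z (F * (1 + κ)) hZ0 hz
  have a2 := m3 Z hZ0
  have a3 : 0 ≤ m Z * (F * (1 + κ) - Z) := mul_nonneg_of_nonpos_of_nonpos a2 (by linarith)
  have a4 := m1 (F * (1 + κ)) F hz hF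
  have a5 := m4 (F * (1 + κ)) hz (by nlinarith)
  have a6 := m3 (F * (1 + κ)) hz
  set w := m (F * (1 + κ)) with hw
  have a7 : 1 / 8 ≤ - (F * w) := by
    have b1 : 0 ≤ - (F * w) := by nlinarith
    nlinarith
  have a8 : w * (F - F * (1 + κ)) = κ * (- (F * w)) := by ring
  have a9 : κ * (1 / 8) ≤ κ * (- (F * w)) := mul_le_mul_of_nonneg_left a7 hκ0
  linarith

theorem face_FNeedle {d : ℕ} {q : ℝ} {v : ℕ} (hq : 0 < q) (hv : 1 ≤ v) (a : Fin d → ℕ)
    {i j : Fin d} (hij : i ≠ j) {κ : ℝ} (hκ0 : 0 ≤ κ) (hκ : κ * ((a j : ℝ) + 1) ≤ v - 1) :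
    q ^ (d - 1) * sg a i * (1 + κ) ≤ Fc q v a i := by
  have hj : j ∈ univ.erase i := Finset.mem_erase.2 ⟨hij.symm, Finset.mem_univ j⟩
  have hv' : (1 : ℝ) ≤ v := by exact_mod_cast hv
  have hth : ∀ y : ℕ, (y : ℝ) + v ≤ th q v y := by
    intro y
    unfold th
    have : (0 : ℝ) ≤ mq q y := Nat.cast_nonneg _
    linarith
  unfold Fc sg
  rw [mul_assoc]
  refine mul_le_mul_of_nonneg_left ?_ (by positivity)
  push_cast
  rw [← Finset.mul_prod_erase _ _ hj, ← Finset.mul_prod_erase _ (fun k => th q v (a k)) hj]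
  have b1 : ∏ k ∈ (univ.erase i).erase j, ((a k : ℝ) + 1) ≤
      ∏ k ∈ (univ.erase i).erase j, th q v (a k) :=
    Finset.prod_le_prod (fun k _ => by positivity) fun k _ => by linarith [hth (a k)]
  have b2 : ((a j : ℝ) + 1) * (1 + κ) ≤ th q v (a j) := by nlinarith [hth (a j)]
  have b3 : 0 ≤ ∏ k ∈ (univ.erase i).erase j, ((a k : ℝ) + 1) :=
    Finset.prod_nonneg fun k _ => by positivity
  calc ((a j : ℝ) + 1) * (∏ k ∈ (univ.erase i).erase j, ((a k : ℝ) + 1)) * (1 + κ)
      = (((a j : ℝ) + 1) * (1 + κ)) * ∏ k ∈ (univ.erase i).erase j, ((a k : ℝ) + 1) := by ring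
    _ ≤ _ := mul_le_mul b2 b1 b3 (le_trans (by positivity) b2)

theorem tNeedle (hg : TG) (h1 : TCost) (h2 : TPotA) (h3 : TDir) : TNeedle := by
  intro d q p v N η δ Φ Ω R hB
  obtain ⟨hd, hq, hq1, hp, hv, hqv, hη, hΦ⟩ := hB
  obtain ⟨m, hm⟩ := hg
  obtain ⟨-, -, c3, c4, c5, c6⟩ := h1 d q v η hq hv hqv hη
  obtain ⟨pA, pB, -⟩ := (h2 d (cost q v η)).2 Φ (cz d q v) hΦ (fun i => (c3 i).2)
    (fun y i => ⟨(c4 y i).2.1, (c4 y i).2.2.1.trans (c4 y i).2.2.2⟩) c5
  have hp' : 0 < q ^ (d - 1) := by positivity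
  have hv0 : (0 : ℝ) < v := by exact_mod_cast hv
  constructor
  · intro i hi
    have he := Real.exp_pos (- q ^ (d - 1))
    have hp0 : 0 ≤ p := by
      have : Real.exp (- q ^ (d - 1)) ≤ 1 := Real.exp_le_one_iff.2 (by linarith)
      linarith
    have hp1 : p ≤ 1 := by linarith
    have hpp : p ≤ q ^ (d - 1) := by
      have := Real.add_one_le_exp (- q ^ (d - 1))
      linarith
    have hS := (sSeed sPrA sGeoA (sGeoB sGeoA) d Ω p hp0 hp1 R i (cz d q v + 1)
      (by linarith)).1 ?_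
    · refine hS.trans (Real.exp_le_exp.2 ?_)
      have a1 : Φ (ex R) ≤ (psi R : ℝ) * cz d q v := pB (ex R)
      linarith
    · have hi' : (100 : ℝ) * sg (ex R) i ≤ (v : ℝ) ^ (d - 1) := by exact_mod_cast hi
      have e1 : Real.exp (- (2 * (cz d q v + 1))) = (q * v) ^ (d - 1) / (2 * Real.exp 2) := by
        rw [Real.exp_neg, show 2 * (cz d q v + 1) = 2 * cz d q v + 2 by ring, Real.exp_add, c6]
        field_simp
      rw [e1, le_div_iff₀ (by positivity), mul_pow]
      have a1 : p * sg (ex R) i ≤ q ^ (d - 1) * ((v : ℝ) ^ (d - 1) / 100) :=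
        mul_le_mul hpp (by linarith) (Nat.cast_nonneg _) hp'.le
      have a2 : 0 ≤ p * sg (ex R) i := by positivity
      have a3 := exp3_FNeedle
      calc 2 * Real.exp 1 * p * sg (ex R) i * (2 * Real.exp 2)
          = 4 * (Real.exp 1 * Real.exp 2) * (p * sg (ex R) i) := by ring
        _ ≤ 4 * 25 * (q ^ (d - 1) * ((v : ℝ) ^ (d - 1) / 100)) :=
          mul_le_mul (by linarith) a1 a2 (by norm_num)
        _ = _ := by ring
  · intro i j hij hmax hδ hv2 hlong hvb hcz hqN hN
    set a := ex R with ha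
    set b : ℝ := (a j : ℝ) + 1 with hb
    have hb0 : 0 < b := by positivity
    have hv2' : (2 : ℝ) ≤ v := by exact_mod_cast hv2
    have hvb' : (v : ℝ) ≤ 100 * b := by rw [hb]; exact_mod_cast hvb
    have hai : (a i : ℝ) ≤ 2 * N := by
      have b1 : a i ≤ psi R := Finset.single_le_sum (f := ex R) (fun _ _ => Nat.zero_le _)
        (Finset.mem_univ i)
      exact_mod_cast b1.trans hN
    have hqb : q * b ≤ 1 / 5 := by
      have b1 : δ * (25 * (q * b) ^ 2) ≤ δ * 1 := by
        have b2 : 25 * q ^ 2 * (δ * b ^ 2) ≤ 25 * q ^ 2 * (2 * N + 1) :=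
          mul_le_mul_of_nonneg_left (by linarith) (by positivity)
        nlinarith
      have b3 := le_of_mul_le_mul_left b1 hδ
      have b4 : 0 < q * b := by positivity
      nlinarith
    have hsg : (sg a i : ℝ) ≤ b ^ (d - 1) := by
      unfold sg
      push_cast
      have b1 : ∏ k ∈ univ.erase i, ((a k : ℝ) + 1) ≤ ∏ _k ∈ univ.erase i, b :=
        Finset.prod_le_prod (fun k _ => by positivity) fun k hk => by
          have : (a k : ℝ) ≤ a j := by exact_mod_cast hmax k (Finset.mem_erase.1 hk).1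
          linarith
      rw [Finset.prod_const, Finset.card_erase_of_mem (Finset.mem_univ i), Finset.card_univ,
        Fintype.card_fin] at b1
      exact b1
    have hsg0 : (0 : ℝ) < sg a i := by
      unfold sg
      push_cast
      exact Finset.prod_pos fun k _ => by positivity
    set F : ℝ := q ^ (d - 1) * sg a i with hF
    have hF0 : 0 < F := by positivity
    have hF5 : F ≤ 1 / 5 := by
      have b1 : F ≤ (q * b) ^ (d - 1) := by
        rw [mul_pow]; exact mul_le_mul_of_nonneg_left hsg hp'.le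
      have b2 : (q * b) ^ (d - 1) ≤ q * b :=
        pow_le_of_le_one (by positivity) (by linarith) (by omega)
      linarith
    set κ : ℝ := min ((v - 1) / b) 1 with hκ
    have hκ0 : 0 ≤ κ := le_min (div_nonneg (by linarith) hb0.le) zero_le_one
    have hκ1 : κ ≤ 1 := min_le_right _ _
    have hκb : κ * b ≤ v - 1 := (le_div_iff₀ hb0).1 (min_le_left _ _)
    have hκv : v / 100 ≤ κ * b := by
      rcases le_total ((v - 1) / b) 1 with h | h
      · rw [hκ, min_eq_left h, div_mul_cancel₀ _ hb0.ne']; linarith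
      · rw [hκ, min_eq_right h]; linarith
    have hcost : cost q v η a i ≤ gf F - κ / 8 :=
      (c4 a i).2.2.1.trans (slack_FNeedle hm hF0 hF5 hκ0 hκ1 (face_FNeedle hq hv a hij hκ0 hκb))
    have hc0 : 0 ≤ cost q v η a i := (c4 a i).2.1
    have hle : Function.update a i 0 ≤ a := by
      intro k
      by_cases hk : k = i
      · subst hk; simp
      · simp [Function.update_of_ne hk]
    have hce : cost q v η (Function.update a i 0) i = cost q v η a i := by
      unfold cost Fc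
      congr 3
      exact Finset.prod_congr rfl fun k hk => by
        rw [Function.update_of_ne (Finset.mem_erase.1 hk).1]
    have d1 := pA _ _ hle
    rw [Finset.sum_eq_single i (fun k _ hk => by simp [Function.update_of_ne hk])
      (fun h => absurd (Finset.mem_univ i) h), hce] at d1
    simp only [Function.update_self, Nat.sub_zero] at d1
    have d2 := pB (Function.update a i 0)
    have d3 : ((∑ k, Function.update a i 0 k : ℕ) : ℝ) ≤ d * b := by
      have b1 : ∑ k, Function.update a i 0 k ≤ ∑ _k : Fin d, a j :=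
        Finset.sum_le_sum fun k _ => by
          by_cases hk : k = i
          · subst hk; simp
          · rw [Function.update_of_ne hk]; exact hmax k hk
      rw [Finset.sum_const, Finset.card_univ, Fintype.card_fin, smul_eq_mul] at b1
      have b2 : ((∑ k, Function.update a i 0 k : ℕ) : ℝ) ≤ d * (a j : ℝ) := by exact_mod_cast b1
      have b3 : (0 : ℝ) ≤ d := Nat.cast_nonneg d
      nlinarith
    have d4 : Φ (Function.update a i 0) ≤ d * b * cz d q v :=
      d2.trans (mul_le_mul_of_nonneg_right d3 c5)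
    have d5 : d * b * cz d q v ≤ ((a i : ℝ) + 1) * (κ / 8) := by
      have b1 : b * (800 * d * cz d q v) ≤ b * (δ * v) := mul_le_mul_of_nonneg_left hcz hb0.le
      have b2 : δ * b * (v / 100) ≤ δ * b * (κ * b) :=
        mul_le_mul_of_nonneg_left hκv (by positivity)
      have b3 : δ * b ^ 2 * κ ≤ ((a i : ℝ) + 1) * κ := mul_le_mul_of_nonneg_right hlong hκ0
      nlinarith
    have d6 : ((a i : ℝ) + 1) * cost q v η a i ≤ ((a i : ℝ) + 1) * (gf F - κ / 8) :=
      mul_le_mul_of_nonneg_left hcost (by positivity)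
    refine ((h3 d Ω p (q ^ (d - 1)) hp'.le hp).1 R i F hF0 le_rfl).trans (Real.exp_le_exp.2 ?_)
    rw [← ha]
    nlinarith

end Pool.Agent.MP_6d294b_pr
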