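import Pool.Agent.MP_6d294b_pr.FStm

open Finset

namespace Pool.Agent.MP_6d294b_pr

theorem cz_FPar (d v : ℕ) (hd : 2 ≤ d) {q y : ℝ} (hq : 0 < q) (hv : 1 ≤ (v : ℝ)) (hqv : q * v ≤ 1)
    (hy : 1 ≤ y) (hl : Real.log (1 / q) ≤ 24 * y) :
    0 ≤ cz d q v ∧ cz d q v ≤ 13 * d * y := by
  have hd2 : (2 : ℝ) ≤ d := by exact_mod_cast hd
  have h0 : 0 < q * v := by positivity
  have hq1 : q ≤ q * v := le_mul_of_one_le_right hq.le hv
  have h1 : (q * v) ^ (d - 1) ≤ 1 := pow_le_one₀ h0.le hqv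
  have h2 : q ^ d ≤ (q * v) ^ (d - 1) :=
    (pow_le_pow_of_le_one hq.le (hq1.trans hqv) (Nat.sub_le d 1)).trans
      (pow_le_pow_left₀ hq.le hq1 _)
  unfold cz
  constructor
  · refine div_nonneg (Real.log_nonneg ?_) (by norm_num)
    rw [le_div_iff₀ (by positivity)]
    linarith
  · have h3 : Real.log (2 / (q * v) ^ (d - 1)) ≤ Real.log (2 * (1 / q) ^ d) := by
      refine Real.log_le_log (by positivity) ?_
      rw [one_div, inv_pow, ← div_eq_mul_inv]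
      exact div_le_div_of_nonneg_left (by norm_num) (by positivity) h2
    rw [Real.log_mul (by norm_num) (by positivity), Real.log_pow] at h3
    have h4 : Real.log 2 ≤ 1 := by
      have := Real.log_le_sub_one_of_pos (x := 2) (by norm_num)
      linarith
    have h5 : (d : ℝ) * Real.log (1 / q) ≤ d * (24 * y) := by gcongr
    nlinarith

theorem main_FPar (d : ℕ) (A C : ℝ) (hd : 2 ≤ d) (hA : 1 ≤ A) (hC : 1 ≤ C) (y : ℝ)
    (ha : 1800000 * (338 * d + 4 * (C + 26 * d ^ 2 + 48 * d * A * (20 * A + 1)) + 2) ≤ y)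
    (hb : 10400 * d ^ 2 * (288000 * d * C) ^ 2 ≤ y) (N : ℕ)
    (hN : 1 / y ^ 24 * N ≤ 2 * d * Real.log (1 / (1 / y ^ 24))) :
    ∃ (v T : ℕ) (ρ δ X E : ℝ), Par2 d A C (1 / y ^ 24) N v T ρ δ X E := by
  have hd2 : (2 : ℝ) ≤ d := by exact_mod_cast hd
  obtain ⟨K1, hK1⟩ : ∃ K1, K1 = C + 26 * d ^ 2 + 48 * d * A * (20 * A + 1) := ⟨_, rfl⟩
  obtain ⟨g, hg⟩ : ∃ g, g = 288000 * d * C := ⟨_, rfl⟩
  rw [← hK1] at ha
  rw [← hg] at hb
  have hdA : (d : ℝ) * A ≤ d * A * (20 * A + 1) :=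
    le_mul_of_one_le_right (by positivity) (by linarith)
  have hdA0 : (0 : ℝ) ≤ d * A := by positivity
  have hd0 : (0 : ℝ) ≤ (d : ℝ) ^ 2 := by positivity
  have hK0 : 48 * (d * A) ≤ K1 := by rw [hK1]; nlinarith
  have hy1 : 1800000 * d ≤ y := by nlinarith
  have hy2 : 1800000 ≤ y := by linarith
  have hy : 1 ≤ y := by linarith
  have hy0 : 0 < y := by linarith
  have hp : ∀ m n : ℕ, m ≤ n → y ^ m ≤ y ^ n := fun m n h => pow_le_pow_right₀ hy h
  have hp1 : ∀ n : ℕ, 1 ≤ n → y ≤ y ^ n := fun n h => by simpa using hp 1 n h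
  have hs : ∀ (c : ℝ) (m n : ℕ), c ≤ y → m < n → c * y ^ m ≤ y ^ n := by
    intro c m n hc h
    calc c * y ^ m ≤ y * y ^ m := by gcongr
      _ = y ^ (m + 1) := by ring
      _ ≤ _ := hp _ _ h
  have hg1 : 1 ≤ g := by
    have : (1 : ℝ) ≤ d * C := one_le_mul_of_one_le_of_one_le (by linarith) hC
    rw [hg]; nlinarith
  have hg2 : g ≤ g ^ 2 := le_self_pow₀ hg1 (by norm_num)
  have hg3 : 10400 * g ^ 2 ≤ y := by
    have : 1 * g ^ 2 ≤ d ^ 2 * g ^ 2 := by gcongr; nlinarith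
    linarith
  have hsq : Real.sqrt (1 / y ^ 24) = 1 / y ^ 12 := by
    rw [show 1 / y ^ 24 = (1 / y ^ 12) ^ 2 by field_simp, Real.sqrt_sq (by positivity)]
  have hly : Real.log y ≤ y := (Real.log_le_sub_one_of_pos hy0).trans (by linarith)
  have hl0 : 0 ≤ Real.log y := Real.log_nonneg hy
  have hl : Real.log (1 / (1 / y ^ 24)) = 24 * Real.log y := by
    rw [one_div_one_div, Real.log_pow]; norm_num
  have hN0 : (0 : ℝ) ≤ N := Nat.cast_nonneg N
  have hN1 : (N : ℝ) ≤ 48 * d * y ^ 25 := by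
    rw [hl, one_div, inv_mul_le_iff₀ (by positivity)] at hN
    calc (N : ℝ) ≤ y ^ 24 * (2 * d * (24 * Real.log y)) := hN
      _ ≤ y ^ 24 * (2 * d * (24 * y)) := by gcongr
      _ = _ := by ring
  have hN2 : 2 * (N : ℝ) + 1 ≤ 97 * d * y ^ 25 := by
    have : 1 ≤ d * y ^ 25 := one_le_mul_of_one_le_of_one_le (by linarith) (one_le_pow₀ hy)
    linarith
  have hN3 : 2 * (N : ℝ) + 1 ≤ y ^ 26 := hN2.trans (hs _ _ _ (by linarith) (by norm_num))
  have hlN : Real.log (2 * (N : ℝ) + 1) ≤ 26 * y := by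
    have := Real.log_le_log (by positivity) hN3
    rw [Real.log_pow] at this
    push_cast at this
    linarith
  have hlN0 : 0 ≤ Real.log (2 * (N : ℝ) + 1) := Real.log_nonneg (by linarith)
  obtain ⟨v, hv1, hv2⟩ : ∃ v : ℕ, y ^ 10 ≤ v ∧ (v : ℝ) ≤ 2 * y ^ 10 :=
    ⟨⌈y ^ 10⌉₊, Nat.le_ceil _, by
      have := Nat.ceil_lt_add_one (show 0 ≤ y ^ 10 by positivity)
      have := hp1 10 (by norm_num)
      linarith⟩
  have h10 := hp1 10 (by norm_num)
  have h9 := hp1 9 (by norm_num)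
  obtain ⟨T, hT1, hT2⟩ : ∃ T : ℕ, 8000 * T ≤ v ∧ v < 8000 * (T + 1) := ⟨v / 8000, by omega, by omega⟩
  have hT3 : 8000 * (T : ℝ) ≤ v := by exact_mod_cast hT1
  have hT4 : (v : ℝ) < 8000 * (T + 1) := by exact_mod_cast hT2
  have hT0 : (0 : ℝ) ≤ T := Nat.cast_nonneg T
  have hdiv : ∀ (a : ℝ) (n : ℕ), a ≤ y ^ n → 1 / y ^ n * a ≤ 1 := by
    intro a n h
    rw [one_div, inv_mul_le_iff₀ (by positivity), mul_one]
    exact h
  have hqv : 1 / y ^ 24 * (14 * v) ≤ 1 :=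
    hdiv _ _ ((by linarith : 14 * (v : ℝ) ≤ 28 * y ^ 10).trans
      (hs _ _ _ (by linarith) (by norm_num)))
  have hq0 : 0 < 1 / y ^ 24 := by positivity
  obtain ⟨c0, c1⟩ := cz_FPar d v hd hq0 (by linarith) (by
    have : 0 ≤ 1 / y ^ 24 * v := by positivity
    linarith) hy (by rw [hl]; linarith)
  obtain ⟨z, hz⟩ : ∃ z, z = cz d (1 / y ^ 24) v := ⟨_, rfl⟩
  obtain ⟨w, hw⟩ : ∃ w, w = A * (1 / y ^ 12) * ((20 * A + 1) / y ^ 4) * N := ⟨_, rfl⟩
  have hw0 : 0 ≤ w := by rw [hw]; positivity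
  have hw1 : w ≤ 48 * d * A * (20 * A + 1) * y ^ 9 := by
    rw [hw]
    calc A * (1 / y ^ 12) * ((20 * A + 1) / y ^ 4) * N
        ≤ A * (1 / y ^ 12) * ((20 * A + 1) / y ^ 4) * (48 * d * y ^ 25) := by gcongr
      _ = _ := by field_simp
  rw [← hz] at c0 c1
  have hdy : (d : ℝ) * y ≤ d * y ^ 9 := by gcongr
  have hdz0 : 0 ≤ (d : ℝ) * z := by positivity
  have hX : C + 2 * d * z + w ≤ K1 * y ^ 9 := by
    have e1 : C * 1 ≤ C * y ^ 9 := by gcongr; linarith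
    have e2 : (d : ℝ) * z ≤ d * (13 * d * y ^ 9) := by gcongr; nlinarith
    rw [hK1]; nlinarith
  have hL : 6 * d * Real.log (2 * (N : ℝ) + 1) ≤ 156 * (d * y ^ 9) := by
    have : (d : ℝ) * Real.log (2 * (N : ℝ) + 1) ≤ d * (26 * y ^ 9) := by gcongr; linarith
    linarith
  have hL0 : 0 ≤ 6 * d * Real.log (2 * (N : ℝ) + 1) := by positivity
  have hE : 1800000 * (2 * z + 2 * (2 * (C + 2 * d * z + w) +
      6 * d * Real.log (2 * (N : ℝ) + 1) + 1)) ≤ y ^ 10 := by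
    have := hs _ 9 10 ha (by norm_num)
    linarith
  refine ⟨v, T, (20 * A + 1) / y ^ 4, 1 / g ^ 2, C + 2 * d * z + w,
    2 * (C + 2 * d * z + w) + 6 * d * Real.log (2 * (N : ℝ) + 1) + 1, ?_⟩
  unfold Par2
  rw [hsq, hl, ← hz, ← hw, ← hg]
  refine ⟨?_, ?_, hT1, by linarith, ?_, ?_, ?_, by positivity, ?_, ?_, ?_, by linarith,
    by linarith, by linarith, rfl, by linarith, by linarith, by positivity, ?_, ?_, ?_, ?_, ?_, ?_⟩
  · exact one_div_le_one_div_of_le (by norm_num) (by have := hp1 24 (by norm_num); linarith)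
  · have : (0 : ℝ) < T := by linarith
    exact_mod_cast this
  · exact hdiv _ _ ((by linarith : (T : ℝ) + v + 1 ≤ 5 * y ^ 10).trans
      (hs _ _ _ (by linarith) (by norm_num)))
  · rw [mul_comm]
    exact hdiv _ _ ((by linarith : (T : ℝ) + 1 ≤ 3 * y ^ 10).trans
      (hs _ _ _ (by linarith) (by norm_num)))
  · rw [mul_comm]
    refine hdiv _ _ (le_trans ?_ (hs 75 11 12 (by linarith) (by norm_num)))
    calc ((v : ℝ) + 1) * (1 + 24 * Real.log y) ≤ (3 * y ^ 10) * (25 * y) := by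
          gcongr <;> linarith
      _ = _ := by ring
  · rw [div_pow, ← pow_mul, mul_one_div, ← mul_div_assoc]
    gcongr
    have := le_self_pow₀ (show 1 ≤ 20 * A + 1 by linarith) (show 3 ≠ 0 by norm_num)
    linarith
  · rw [mul_comm A, mul_assoc]
    refine hdiv _ _ (le_trans ?_ (hs (98 * (d * A)) 1 12 (by nlinarith) (by norm_num)))
    have e1 : 1 / y ^ 24 * (2 * (N : ℝ) + 1) ≤ 97 * (d * y) := by
      rw [one_div, inv_mul_le_iff₀ (by positivity)]
      exact hN2.trans_eq (by ring)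
    have e2 : 1 ≤ d * y := one_le_mul_of_one_le_of_one_le (by linarith) hy
    calc A * (1 + 1 / y ^ 24 * (2 * (N : ℝ) + 1)) ≤ A * (98 * (d * y)) := by gcongr; linarith
      _ = _ := by ring
  · rw [div_pow, one_pow, ← pow_mul]
    exact hdiv _ _ (hN3.trans (hp _ _ (by norm_num)))
  · rw [show 1 / g ^ 2 = (1 / g) ^ 2 by field_simp, Real.sqrt_sq (by positivity)]
    exact le_of_eq (by field_simp)
  · rw [one_div, le_inv_mul_iff₀ (by positivity)]
    refine le_trans ?_ ((hs _ 1 10 hb (by norm_num)).trans hv1)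
    calc g ^ 2 * (800 * d * z) ≤ g ^ 2 * (800 * d * (13 * d * y)) := by gcongr
      _ = _ := by ring
  · rw [div_pow, one_pow, ← pow_mul, le_div_iff₀ (by positivity)]
    have e1 := hdiv (25 * g ^ 2 * y ^ 26) (24 * 2) (hs _ _ _ (by nlinarith) (by norm_num))
    calc 25 * (1 / y ^ (24 * 2)) * (2 * (N : ℝ) + 1) * g ^ 2
        ≤ 25 * (1 / y ^ (24 * 2)) * y ^ 26 * g ^ 2 := by gcongr
      _ = 1 / y ^ (24 * 2) * (25 * g ^ 2 * y ^ 26) := by ring
      _ ≤ 1 := e1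
  · have : 300 * (144000 * d * C) ^ 2 = 75 * g ^ 2 := by rw [hg]; ring
    rw [this]; nlinarith
  · have : 288000000 * d * C = 1000 * g := by rw [hg]; ring
    rw [this, mul_comm]
    exact hdiv _ _ (by have := hp1 12 (by norm_num); nlinarith)
  · have e1 : 1 / Real.sqrt v ≤ 1 / y ^ 5 :=
      one_div_le_one_div_of_le (by positivity) (Real.le_sqrt_of_sq_le (by
        rw [← pow_mul]; exact hv1))
    have e2 : Real.sqrt (2 * N + v) ≤ 2 * y ^ 13 := by
      refine Real.sqrt_le_iff.2 ⟨by positivity, ?_⟩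
      have := hp 10 26 (by norm_num)
      have e : (2 * y ^ 13) ^ 2 = 4 * y ^ 26 := by ring
      have : 0 ≤ y ^ 26 := by positivity
      linarith
    have e3 : 1 / y ^ 24 * Real.sqrt (2 * N + v) ≤ 2 * (1 / y ^ 5) := by
      rw [one_div, inv_mul_le_iff₀ (by positivity)]
      have := hp 13 19 (by norm_num)
      have e : y ^ 24 * (2 * (1 / y ^ 5)) = 2 * y ^ 19 := by field_simp
      linarith
    have e4 := hdiv (480 * d) 5 (by have := hp1 5 (by norm_num); linarith)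
    calc 160 * d * (1 / Real.sqrt v + 1 / y ^ 24 * Real.sqrt (2 * N + v))
        ≤ 160 * d * (3 * (1 / y ^ 5)) := by gcongr; linarith
      _ = 1 / y ^ 5 * (480 * d) := by ring
      _ ≤ 1 := e4

theorem tPar : TPar := by
  intro d A C hd hA hC
  obtain ⟨Y, hY⟩ : ∃ Y : ℝ, Y = 1800000 * (338 * d + 4 * (C + 26 * d ^ 2 +
    48 * d * A * (20 * A + 1)) + 2) + 10400 * d ^ 2 * (288000 * d * C) ^ 2 := ⟨_, rfl⟩
  have h1 : (0 : ℝ) < 1800000 * (338 * d + 4 * (C + 26 * d ^ 2 +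
    48 * d * A * (20 * A + 1)) + 2) := by positivity
  have h2 : (0 : ℝ) ≤ 10400 * d ^ 2 * (288000 * d * C) ^ 2 := by positivity
  have hY0 : 0 < Y := by linarith
  refine ⟨1 / Y ^ 24, by positivity, fun q hq hq0 N hN => ?_⟩
  obtain ⟨y, hy0, hy⟩ : ∃ y : ℝ, 0 < y ∧ y ^ 24 = 1 / q :=
    ⟨(1 / q) ^ ((24 : ℕ) : ℝ)⁻¹, by positivity,
      Real.rpow_inv_natCast_pow (by positivity) (by norm_num)⟩
  have e : q = 1 / y ^ 24 := by rw [hy, one_div_one_div]
  subst e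
  have hle : Y ≤ y := (pow_le_pow_iff_left₀ hY0.le hy0.le (by norm_num)).1
    ((one_div_le_one_div (by positivity) (by positivity)).1 hq0)
  exact main_FPar d A C hd hA hC y (by linarith) (by linarith) N hN

end Pool.Agent.MP_6d294b_pr
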