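import Pool.Agent.MP_6d294b_pr.FStm
import Pool.Agent.MP_6d294b_pr.PPerc
import Pool.Agent.MP_6d294b_pr.PPrA
import Pool.Agent.MP_6d294b_pr.PGeoA
import Pool.Agent.MP_6d294b_pr.PGeoB
import Pool.Agent.MP_6d294b_pr.PRect
import Pool.Agent.MP_6d294b_pr.PBet
import Pool.Agent.MP_6d294b_pr.PSlope
import Pool.Agent.MP_6d294b_pr.PInt

open Finset

namespace Pool.Agent.MP_6d294b_pr

lemma full_FPerc {d n : ℕ} {R : Bx d} (h : R ≤ cube d n) :
    Full ((univ : Finset (Fin d → Fin n)).image (emb d n)) R := by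
  classical
  intro x hx
  have key : ∀ i, 0 ≤ x i ∧ x i < n := fun i => by
    have a1 := (hx (i, true)).trans (h (i, true))
    have a2 := (hx (i, false)).trans (h (i, false))
    simp only [kap, cube, if_true, Bool.false_eq_true, if_false] at a1 a2
    omega
  refine mem_image.2 ⟨fun i => ⟨(x i).toNat, by have := key i; omega⟩, mem_univ _, ?_⟩
  funext i
  have := key i
  simp only [emb]
  omega

lemma union_FPerc {d n D : ℕ} (hn : 0 < n) (Ω : Finset (Pt d)) {p b : ℝ} (hp0 : 0 ≤ p)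
    (hp1 : p ≤ 1) (X : Finset (Bx d)) (hX : ∀ S ∈ X, Val S ∧ S ≤ cube d n ∧ psi S ≤ D)
    (E : Bx d → Finset (Pt d) → Prop) (hE : ∀ S ∈ X, Pr Ω p (E S) ≤ Real.exp b) :
    Pr Ω p (fun A => ∃ S ∈ X, E S A) ≤
      Real.exp (d * Real.log n + d * Real.log (D + 1) + b) := by
  classical
  have hn0 : (0 : ℝ) < n := by exact_mod_cast hn
  have hcard := (sGeoB sGeoA d).2.2.1 n D X hX
  refine ((sPrA _ Ω p hp0 hp1).2.2.2.2.1 _ X E).trans ((sum_le_sum hE).trans ?_)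
  rw [sum_const, nsmul_eq_mul, Real.exp_add, Real.exp_add, Real.exp_nat_mul, Real.exp_nat_mul,
    Real.exp_log hn0, Real.exp_log (by positivity)]
  refine mul_le_mul_of_nonneg_right ?_ (Real.exp_pos _).le
  exact_mod_cast hcard

lemma log_FPerc {q : ℝ} (hq : 0 < q) : Real.log (1 / q) ≤ 2 / Real.sqrt q := by
  have h0 : 0 < Real.sqrt q := Real.sqrt_pos.2 hq
  have h1 : 1 / q = (1 / Real.sqrt q) ^ 2 := by rw [one_div_pow, Real.sq_sqrt hq.le]
  have h2 := Real.log_le_sub_one_of_pos (one_div_pos.2 h0)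
  rw [h1, Real.log_pow]
  push_cast
  have : 2 / Real.sqrt q = 2 * (1 / Real.sqrt q) := by ring
  linarith

theorem tPerc (h1 : TSp) (h2 : TDir) (h3 : TCrit) (h4 : TG) : TPerc := by
  classical
  intro d hd
  obtain ⟨m, hm⟩ := h4
  have hg : 0 < gf 1 := by
    have a1 := hm.1 2 1 two_pos one_pos
    have a2 := hm.2.2.2.2.1 2 two_pos
    have a3 := (sBet.2 2 two_pos).2.1
    have a4 : 0 < - m 2 := lt_of_lt_of_le (by positivity) a2
    have a5 : m 2 * (1 - 2) = - m 2 := by ring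
    rw [a5] at a1
    exact lt_of_lt_of_le (add_pos_of_nonneg_of_pos a3 a4) a1
  have hlam : 0 < lam d := lt_of_lt_of_le (by norm_num) (sInt sBet (sSlope sBet) d hd).1
  have hd2 : (2 : ℝ) ≤ d := by exact_mod_cast hd
  have hd0 : (0 : ℝ) < d := by linarith
  obtain ⟨K₀, hK₀⟩ : ∃ K₀ : ℝ, K₀ = d ^ 2 * lam d / gf 1 + d := ⟨_, rfl⟩
  have hK1 : (d : ℝ) ≤ K₀ := by
    rw [hK₀]
    exact le_add_of_nonneg_left (by positivity)
  obtain ⟨W, hW⟩ : ∃ W : ℝ, W = (2 * (K₀ + 2) + 1) ^ (d - 2) := ⟨_, rfl⟩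
  have hW1 : 1 ≤ W := hW ▸ one_le_pow₀ (by linarith)
  have hy0 : 0 < 1 / (2 * W) := by positivity
  have hy1 : 1 / (2 * W) ≤ 1 / 2 := one_div_le_one_div_of_le two_pos (by linarith)
  obtain ⟨C, q₁, hC, hq₁, h3⟩ := h3 d (K₀ + 2) (1 / (2 * W)) hd (by linarith) hy0 (by linarith)
  refine ⟨C + 6 * d + d * (2 * (K₀ + 2) + 2) + 1, min q₁ (min (1 / (2 * W)) (1 / (4 * d) ^ 2)),
    by have : 0 < K₀ := by linarith
       positivity,
    lt_min hq₁ (lt_min hy0 (by positivity)), fun q hq hq' n hn => ?_⟩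
  have hqa : q ≤ q₁ := hq'.trans (min_le_left _ _)
  have hqb : q ≤ 1 / (2 * W) := hq'.trans ((min_le_right _ _).trans (min_le_left _ _))
  have hqc : q ≤ 1 / (4 * d) ^ 2 := hq'.trans ((min_le_right _ _).trans (min_le_right _ _))
  have hs0 : 0 < Real.sqrt q := Real.sqrt_pos.2 hq
  have hss : Real.sqrt q * Real.sqrt q = q := Real.mul_self_sqrt hq.le
  have hs1 : 4 * d * Real.sqrt q ≤ 1 := by
    have a1 : Real.sqrt q ≤ 1 / (4 * d) := by
      rw [← one_div_pow] at hqc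
      exact Real.sqrt_le_iff.2 ⟨by positivity, hqc⟩
    rwa [le_div_iff₀ (by positivity), mul_comm] at a1
  have hs2 : Real.sqrt q ≤ 1 / 8 := by
    have := mul_le_mul_of_nonneg_right hd2 hs0.le
    linarith
  have hq3 : q ≤ 1 / 3 := by
    have := mul_le_mul hs2 hs2 hs0.le (by norm_num)
    linarith
  have hq4 : 3 ≤ 1 / q := by
    rw [le_div_iff₀ hq]
    linarith
  obtain ⟨s, hs⟩ : ∃ s : ℝ, s = 1 / Real.sqrt q := ⟨_, rfl⟩
  have hs3 : 1 ≤ s := by
    rw [hs, le_div_iff₀ hs0]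
    linarith
  have hl2 : Real.log (1 / q) ≤ 2 * s := (log_FPerc hq).trans (le_of_eq (by rw [hs]; ring))
  have hl3 : Real.log (1 / q) * Real.sqrt q ≤ 2 := (le_div_iff₀ hs0).1 (log_FPerc hq)
  have hl1 : 1 ≤ Real.log (1 / q) := by
    rw [Real.le_log_iff_exp_le (by positivity)]
    linarith [Real.exp_one_lt_d9]
  have ceil : ∀ a : ℝ, 0 < a → ∃ M : ℕ, 1 ≤ M ∧ a ≤ q * M ∧ q * M ≤ a + q := fun a ha => by
    refine ⟨⌈a / q⌉₊, Nat.ceil_pos.2 (by positivity), ?_, ?_⟩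
    · have := Nat.le_ceil (a / q)
      rwa [div_le_iff₀ hq, mul_comm] at this
    · have := mul_le_mul_of_nonneg_left (Nat.ceil_lt_add_one (a := a / q) (by positivity)).le hq.le
      rwa [mul_add, mul_div_cancel₀ _ hq.ne', mul_one] at this
  obtain ⟨K, k1, k2, k3⟩ := ceil K₀ (by linarith)
  obtain ⟨Y, -, y2, y3⟩ := ceil _ hy0
  obtain ⟨N, n1, n2, n3⟩ := ceil (d * Real.log (1 / q)) (by positivity)
  have n4 : q * N ≤ 2 * d * Real.log (1 / q) := by
    have := mul_le_mul_of_nonneg_left hl1 hd0.le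
    linarith
  have n5 : (N : ℝ) ≤ 1 / q ^ 2 := by
    rw [le_div_iff₀ (by positivity)]
    have a1 : 2 * d * Real.log (1 / q) * q ≤ 1 := by
      have a2 := mul_le_mul_of_nonneg_left hl3 (show 0 ≤ 2 * d * Real.sqrt q by positivity)
      calc 2 * d * Real.log (1 / q) * q
          = 2 * d * Real.sqrt q * (Real.log (1 / q) * Real.sqrt q) := by
            linear_combination (-(2 * d * Real.log (1 / q))) * hss
        _ ≤ 1 := by linarith
    have a3 := mul_le_mul_of_nonneg_right n4 hq.le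
    calc (N : ℝ) * q ^ 2 = q * N * q := by ring
      _ ≤ 1 := a3.trans a1
  have hNn : N + 1 ≤ n := by
    have : (N : ℝ) + 1 ≤ n := by linarith
    exact_mod_cast this
  have k4 : q * (2 * K + 1) ≤ 2 * (K₀ + 2) + 1 := by linarith
  have hYK : d * Y ≤ K := by
    have a0 := mul_le_mul_of_nonneg_left (show q * Y ≤ 1 by linarith) hd0.le
    have a1 : q * ((d : ℝ) * Y) ≤ q * K := by linarith
    exact_mod_cast le_of_mul_le_mul_left a1 hq
  have hthin : q ^ (d - 1) * ((Y : ℝ) * (2 * K + 1) ^ (d - 2)) ≤ 1 := by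
    have a1 : (q * (2 * K + 1)) ^ (d - 2) ≤ W := hW ▸ pow_le_pow_left₀ (by positivity) k4 _
    have a2 : q * Y ≤ 1 / W := by
      have : 1 / W = 1 / (2 * W) + 1 / (2 * W) := by
        field_simp
        norm_num
      linarith
    have a3 := mul_le_mul a2 a1 (by positivity) (by positivity)
    rw [one_div_mul_cancel (by positivity)] at a3
    rw [show d - 1 = d - 2 + 1 by omega, pow_succ]
    rw [mul_pow] at a3
    linarith
  set p : ℝ := 1 - Real.exp (- q ^ (d - 1)) with hp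
  have hp0 : 0 ≤ p := by
    rw [hp, sub_nonneg]
    exact Real.exp_le_one_iff.2 (by have := pow_pos hq (d - 1); linarith)
  have hp1 : p ≤ 1 := by
    rw [hp]
    linarith [Real.exp_pos (- q ^ (d - 1))]
  set X₁ : Finset (Bx d) := (boxes (cube d n)).filter fun R =>
    Val R ∧ R ≤ cube d n ∧ N ≤ psi R ∧ psi R ≤ 2 * N with hX₁
  set X₂ : Finset (Bx d) := (boxes (cube d n)).filter fun R =>
    Val R ∧ R ≤ cube d n ∧ K ≤ psi R ∧ psi R ≤ 2 * K ∧ ∃ i, ex R i + 1 < Y with hX₂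
  set Ω : Finset (Pt d) := (univ : Finset (Fin d → Fin n)).image (emb d n) with hΩ
  have b1 := union_FPerc (n := n) (D := 2 * N) (by omega) Ω hp0 hp1 X₁
    (fun S hS => by
      obtain ⟨-, a1, a2, -, a4⟩ := mem_filter.1 hS
      exact ⟨a1, a2, a4⟩) (ISp2 K Y)
    (fun S hS => by
      obtain ⟨-, a1, a2, a3, a4⟩ := mem_filter.1 hS
      exact h3 q hq hqa K Y N Ω S k1 (by linarith) y2 n2 n4 a1 (full_FPerc a2) a3 a4)
  have b2 := union_FPerc (n := n) (D := 2 * K) (by omega) Ω hp0 hp1 X₂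
    (fun S hS => by
      obtain ⟨-, a1, a2, -, a4, -⟩ := mem_filter.1 hS
      exact ⟨a1, a2, a4⟩) ISp
    (fun S hS => by
      obtain ⟨-, -, -, a3, a4, i, a5⟩ := mem_filter.1 hS
      exact (h2 d Ω p _ (pow_pos hq (d - 1)).le hp).2 S K Y i hd a3 a4 a5 hYK hthin)
  have step : Pr (univ : Finset (Fin d → Fin n)) p (Perc d n) ≤
      Pr Ω p (fun A => ∃ S ∈ X₁, ISp2 K Y S A) + Pr Ω p (fun A => ∃ S ∈ X₂, ISp S A) := by
    refine le_trans ?_ ((sPrA _ Ω p hp0 hp1).2.2.2.1 _ _)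
    rw [hΩ, ← image_Perc univ (emb d n) (emb_inj_Perc d n) p]
    refine (sPrA _ _ p hp0 hp1).2.2.1 _ _ fun A _ hP => ?_
    obtain ⟨R, a1, a2, a3, a4, B, a5, a6⟩ := sRect sGeoA d n N (by omega) n1 hNn A hP
    rcases (h1 d K Y B R).2 k1 a6 with g | ⟨B', R', g1, g2, g3, g4⟩
    · exact Or.inl ⟨R, mem_filter.2
        ⟨((sGeoA d).2.2.2.1 R _ a1 a2).2.2.2.2, a1, a2, a3, a4⟩, B, a5, g⟩
    · have g5 := ((sGeoA d).1 B' R' g2).1
      exact Or.inr ⟨R', mem_filter.2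
        ⟨((sGeoA d).2.2.2.1 R' _ g5 (g3.trans a2)).2.2.2.2, g5, g3.trans a2, g4⟩,
        B', g1.trans a5, g2⟩
  have f1 : Real.log (((2 * N : ℕ) : ℝ) + 1) ≤ 6 * s := by
    have g1 : (((2 * N : ℕ) : ℝ) + 1) ≤ (1 / q) ^ 3 := by
      have g2 : (N : ℝ) ≤ (1 / q) ^ 2 := by rwa [one_div_pow]
      have g3 := mul_le_mul_of_nonneg_left hq4 (sq_nonneg (1 / q))
      have g4 : 1 ≤ (1 / q) ^ 2 := one_le_pow₀ (by linarith)
      rw [pow_succ (1 / q) 2]
      push_cast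
      linarith
    have := Real.log_le_log (by positivity) g1
    rw [Real.log_pow] at this
    push_cast at this ⊢
    linarith
  have f2 : Real.log (((2 * K : ℕ) : ℝ) + 1) ≤ (2 * (K₀ + 2) + 2) * s := by
    have g1 : (((2 * K : ℕ) : ℝ) + 1) ≤ (2 * (K₀ + 2) + 1) * (1 / q) := by
      rw [mul_one_div, le_div_iff₀ hq]
      push_cast
      linarith
    have g2 := Real.log_le_log (by positivity) g1
    rw [Real.log_mul (by linarith) (by positivity)] at g2
    have g3 := Real.log_le_sub_one_of_pos (show 0 < 2 * (K₀ + 2) + 1 by linarith)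
    have g4 := mul_le_mul_of_nonneg_left hs3 (show 0 ≤ 2 * (K₀ + 2) by linarith)
    linarith
  have f3 : d * lam d / q ≤ gf 1 * K / d := by
    rw [div_le_div_iff₀ hq hd0]
    have g1 : d ^ 2 * lam d / gf 1 ≤ q * K := by linarith
    rw [div_le_iff₀ hg] at g1
    linarith
  have f4 := mul_le_mul_of_nonneg_left f1 hd0.le
  have f5 := mul_le_mul_of_nonneg_left f2 hd0.le
  have f6 : 0 ≤ d * ((2 * (K₀ + 2) + 2) * s) := by
    have : 0 < K₀ := by linarith
    positivity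
  have f7 : 0 ≤ C * s := by positivity
  have f8 : 0 ≤ d * (6 * s) := by positivity
  have e1 : ∀ c : ℝ, c / Real.sqrt q = c * s := fun c => by rw [hs, mul_one_div]
  rw [e1] at b1 ⊢
  obtain ⟨Z, hZ⟩ : ∃ Z : ℝ, Z = d * Real.log n - d * lam d / q +
    (C + 6 * d + d * (2 * (K₀ + 2) + 2)) * s := ⟨_, rfl⟩
  have c1 := b1.trans (Real.exp_le_exp.2 (show _ ≤ Z by linarith))
  have c2 := b2.trans (Real.exp_le_exp.2 (show _ ≤ Z by linarith))
  have c3 : 2 ≤ Real.exp s := by linarith [Real.add_one_le_exp s]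
  rw [show d * Real.log n - d * lam d / q + (C + 6 * d + d * (2 * (K₀ + 2) + 2) + 1) * s =
    Z + s by rw [hZ]; ring, Real.exp_add]
  have c4 := mul_le_mul_of_nonneg_left c3 (Real.exp_pos Z).le
  linarith

end Pool.Agent.MP_6d294b_pr
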