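import Pool.Agent.MP_6d294b_pr.FStm
import Pool.Agent.MP_6d294b_pr.PPrA
import Pool.Agent.MP_6d294b_pr.PGeoA

open Finset

namespace Pool.Agent.MP_6d294b_pr

/-- the two longest sides of a box that is not a seed -/
lemma two_FSplit {d v : ℕ} (hd : 2 ≤ d) (y : Fin d → ℕ) (h : ∀ i, ¬ 100 * sg y i ≤ v ^ (d - 1)) :
    ∃ j₁ j₂ : Fin d, j₁ ≠ j₂ ∧ (∀ k, y k ≤ y j₁) ∧ (∀ k, k ≠ j₁ → y k ≤ y j₂) ∧
      v < 100 * (y j₂ + 1) := by
  obtain ⟨j₁, -, h1⟩ := Finset.exists_max_image (univ : Finset (Fin d)) y ⟨⟨0, by omega⟩, mem_univ _⟩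
  have hc : (univ.erase j₁).card = d - 1 := by simp
  obtain ⟨j₂, h2, h3⟩ := Finset.exists_max_image (univ.erase j₁) y (card_pos.1 (by omega))
  refine ⟨j₁, j₂, (ne_of_mem_erase h2).symm, fun k => h1 k (mem_univ _),
    fun k hk => h3 k (mem_erase.2 ⟨hk, mem_univ _⟩), ?_⟩
  have h4 : sg y j₁ ≤ (y j₂ + 1) ^ (d - 1) := by
    rw [← hc]
    exact Finset.prod_le_pow_card _ _ _ fun k hk => Nat.succ_le_succ (h3 k hk)
  have h5 : 100 ≤ 100 ^ (d - 1) := Nat.le_self_pow (by omega) 100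
  by_contra h6
  refine h j₁ (le_trans ?_ (Nat.pow_le_pow_left (not_lt.1 h6) _))
  rw [mul_pow]
  exact Nat.mul_le_mul h5 h4

lemma one_FSplit {d C δ a₁ a₂ t : ℝ} (h0 : 0 ≤ d * C) (hδ : 0 < δ) (ha : 0 ≤ a₂) (ht : 0 ≤ t)
    (h1 : 288000 * d * C * Real.sqrt δ ≤ 1) (h2 : a₁ + 1 ≤ δ * (a₂ + 1) ^ 2) (h3 : a₂ + 1 ≤ 4 * t) :
    C * (d * (12 * Real.sqrt (a₁ + 1))) ≤ t / 6000 := by
  have h4 : Real.sqrt (a₁ + 1) ≤ Real.sqrt δ * (4 * t) := by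
    refine (Real.sqrt_le_sqrt h2).trans ?_
    rw [Real.sqrt_mul hδ.le, Real.sqrt_sq (by linarith)]
    exact mul_le_mul_of_nonneg_left h3 (Real.sqrt_nonneg _)
  have h5 := mul_le_mul_of_nonneg_left h4 h0
  have h6 := mul_le_mul_of_nonneg_right h1 ht
  linarith

lemma sec_FSplit {d C t : ℝ} (h0 : 0 ≤ d * C) (ht : 1 ≤ t) (h1 : (144000 * d * C) ^ 2 ≤ t) :
    C * (d * (12 * Real.sqrt (t + 1))) ≤ t / 6000 := by
  have h2 : Real.sqrt t * Real.sqrt t = t := Real.mul_self_sqrt (by linarith)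
  have h3 : Real.sqrt (t + 1) ≤ 2 * Real.sqrt t :=
    Real.sqrt_le_iff.2 ⟨by positivity, by nlinarith⟩
  have h4 : 144000 * d * C ≤ Real.sqrt t := Real.le_sqrt_of_sq_le h1
  have h5 := mul_le_mul_of_nonneg_left h3 h0
  have h6 := mul_le_mul_of_nonneg_right h4 (Real.sqrt_nonneg t)
  linarith

lemma thr_FSplit {d C t q : ℝ} (hq : 0 < q) (ht : 1 ≤ 4000 * q * t)
    (h1 : 288000000 * d * C * Real.sqrt q ≤ 1) :
    C * (d * (12 / Real.sqrt q)) ≤ t / 6000 := by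
  have hs : 0 < Real.sqrt q := Real.sqrt_pos.2 hq
  have h2 : Real.sqrt q * Real.sqrt q = q := Real.mul_self_sqrt hq.le
  have h3 : C * (d * (12 / Real.sqrt q)) = 12 * (d * C * Real.sqrt q) / q := by
    rw [eq_div_iff hq.ne']
    nth_rewrite 2 [← h2]
    field_simp
  rw [h3, div_le_div_iff₀ hq (by norm_num)]
  linarith

theorem tSplit (h1 : TSp) (h2 : TNf) (h3 : TCost) (h4 : TPotA) (h5 : TGain) (h6 : TNeedle) :
    TSplit := by
  intro d A C q p N v T K Y η ρ δ X E Φ Ω hC hB hPar Q P hQ hP hgap hT hPQ hN hfQ hfP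
  obtain ⟨hd, hq, hq1, hp, hv1, hqv, hη, hΦ⟩ := id hB
  obtain ⟨-, hT1, hTv, hqv14, -, -, -, -, -, -, -, hX, -, -, hE, hcT, hcv, hδ, hδC, hδv, hδN, hCv,
    hCq, -⟩ := hPar
  have hp0 : 0 ≤ p := by
    have := Real.exp_le_one_iff.2 (neg_nonpos.2 (pow_pos hq (d - 1)).le)
    linarith
  have hp1 : p ≤ 1 := by linarith [Real.exp_pos (- q ^ (d - 1))]
  obtain ⟨pr0, -, prm, -⟩ := sPrA (Pt d) Ω p hp0 hp1
  have hsp : ∀ R : Bx d, Pr Ω p (ISp2 K Y R) ≤ Pr Ω p (ISp R) := fun R =>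
    prm _ _ fun B _ ⟨W, a, b⟩ => ⟨W, a, (h1 d K Y W R).1 b⟩
  have comb : ∀ α β : ℝ, Pr Ω p (ISp2 K Y Q) ≤ Real.exp α → Pr Ω p (ISp2 K Y P) ≤ Real.exp β →
      α + β ≤ - Φ (ex (Q ⊔ P)) + C * NF q (Q ⊔ P) →
      Pr Ω p (ISp2 K Y Q) * Pr Ω p (ISp2 K Y P) ≤
        Real.exp (- Φ (ex (Q ⊔ P)) + C * NF q (Q ⊔ P)) := fun α β a b c =>
    (mul_le_mul a b (pr0 _) (Real.exp_pos _).le).trans
      (by rw [← Real.exp_add]; exact Real.exp_le_exp.2 c)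
  obtain ⟨-, -, -, g4, g5⟩ := sGeoA d
  obtain ⟨-, eQ, -, sQ, -⟩ := g4 Q (Q ⊔ P) hQ le_sup_left
  obtain ⟨-, eP, -⟩ := g4 P (Q ⊔ P) hP le_sup_right
  obtain ⟨-, nm, -, nb, -⟩ := h2 q hq
  obtain ⟨-, -, c3, c4, c5, -⟩ := h3 d q v η hq hv1 hqv hη
  have pot := fun (t : ℕ) (γ : ℝ) => ((h4 d (cost q v η)).2 Φ (cz d q v) hΦ (fun i => (c3 i).2)
    (fun y i => ⟨(c4 y i).2.1, (c4 y i).2.2.1.trans (c4 y i).2.2.2⟩) c5).2.2
    (ex Q) (ex P) (ex (Q ⊔ P)) t γ eQ eP ((g5 Q P hQ hP).1.trans hgap)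
  have nQ : C * NF q Q ≤ C * NF q (Q ⊔ P) :=
    mul_le_mul_of_nonneg_left (sum_le_sum fun i _ => nm (eQ i)) hC
  have nP : C * NF q P ≤ C * NF q (Q ⊔ P) :=
    mul_le_mul_of_nonneg_left (sum_le_sum fun i _ => nm (eP i)) hC
  have p0 := pot 0 0 le_rfl (Nat.zero_le _) fun i y₁ y₂ h => absurd h (Nat.not_lt_zero _)
  have hE0 : 0 ≤ E := by
    have : 0 ≤ Real.log (2 * N + 1) := Real.log_nonneg (by linarith [Nat.cast_nonneg (α := ℝ) N])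
    rw [hE]
    positivity
  have hTP : (T : ℝ) ≤ psi P := by exact_mod_cast hT
  have hPQ' : (psi P : ℝ) ≤ psi Q := by exact_mod_cast hPQ
  by_cases sP : ∃ i, 100 * sg (ex P) i ≤ v ^ (d - 1)
  · obtain ⟨i, hi⟩ := sP
    exact comb _ _ hfQ ((hsp P).trans ((h6 d q p v N η δ Φ Ω P hB).1 i hi)) (by linarith)
  by_cases sQ' : ∃ i, 100 * sg (ex Q) i ≤ v ^ (d - 1)
  · obtain ⟨i, hi⟩ := sQ'
    exact comb _ _ ((hsp Q).trans ((h6 d q p v N η δ Φ Ω Q hB).1 i hi)) hfP (by linarith)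
  obtain ⟨j₁, j₂, hj, m1, m2, m3⟩ := two_FSplit hd (ex Q) (not_exists.1 sQ')
  obtain ⟨-, k₂, -, -, -, m4⟩ := two_FSplit hd (ex P) (not_exists.1 sP)
  have lP : ∀ i, ex P i ≤ psi P := fun i =>
    Finset.single_le_sum (f := ex P) (fun _ _ => Nat.zero_le _) (mem_univ i)
  have m5 := lP k₂
  have m6 := m1 j₂
  obtain ⟨F, f1, f2⟩ : ∃ F : ℕ, 2000 * q * F ≤ 1 ∧ 1 ≤ 4000 * q * F := by
    have hx : (1 : ℝ) ≤ 1 / (2000 * q) := by
      rw [le_div_iff₀ (by positivity)]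
      linarith
    have a1 := Nat.floor_le (zero_le_one.trans hx)
    have a2 := Nat.lt_floor_add_one (1 / (2000 * q))
    have a3 : (1 : ℝ) ≤ ⌊1 / (2000 * q)⌋₊ := by exact_mod_cast (Nat.one_le_floor_iff _).2 hx
    refine ⟨⌊1 / (2000 * q)⌋₊, ?_, ?_⟩
    · rw [le_div_iff₀ (by positivity)] at a1
      linarith
    · rw [div_lt_iff₀ (by positivity)] at a2
      nlinarith
  have f3 : v ≤ 300 * F := by
    have : q * v ≤ q * (300 * F) := by linarith [mul_nonneg hq.le (Nat.cast_nonneg (α := ℝ) F)]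
    exact_mod_cast le_of_mul_le_mul_left this hq
  obtain ⟨t, t1, t2, t3, t4⟩ : ∃ t : ℕ, t ≤ ex Q j₂ / 2 ∧ t ≤ psi P ∧ t ≤ F ∧
      (t = ex Q j₂ / 2 ∨ t = psi P ∨ t = F) :=
    ⟨min (ex Q j₂ / 2) (min (psi P) F), by omega, by omega, by omega, by omega⟩
  have tv : v ≤ 300 * t := by omega
  have tv' : (v : ℝ) ≤ 300 * t := by exact_mod_cast tv
  have tq : 2000 * q * t ≤ 1 :=
    le_trans (mul_le_mul_of_nonneg_left (by exact_mod_cast t3) (by positivity)) f1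
  have p1 := pot t (1 / 3000) (by norm_num) t2
    (h5 d q v η (ex Q) t j₁ j₂ hq hv1 hqv hη hj (by omega) (by omega) tv tq)
  by_cases nd : δ * ((ex Q j₂ : ℝ) + 1) ^ 2 ≤ ex Q j₁ + 1
  · exact comb _ _ ((hsp Q).trans ((h6 d q p v N η δ Φ Ω Q hB).2 j₁ j₂ hj m2 hδ (by omega) nd
      m3.le hδv hδN (by omega))) hfP (by linarith)
  have key : ∀ B : ℝ, (∀ i, Nf q (ex Q i) ≤ B ∨ Nf q (ex P i) ≤ B) → C * (d * B) ≤ t / 6000 →
      C * NF q Q + C * NF q P - C * NF q (Q ⊔ P) ≤ t / 6000 := fun B hb h => by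
    have a : ∑ i, (Nf q (ex Q i) + Nf q (ex P i) - Nf q (ex (Q ⊔ P) i)) ≤ ∑ _i : Fin d, B :=
      sum_le_sum fun i _ => by
        rcases hb i with e | e
        · linarith [nm (eP i)]
        · linarith [nm (eQ i)]
    rw [sum_sub_distrib, sum_add_distrib, sum_const, card_univ, Fintype.card_fin, nsmul_eq_mul] at a
    have := mul_le_mul_of_nonneg_left a hC
    unfold NF
    linarith
  have hdC : (0 : ℝ) ≤ d * C := by positivity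
  have sq : ∀ a b : ℕ, a ≤ b → Nf q a ≤ 12 * Real.sqrt ((b : ℝ) + 1) := fun a b h =>
    (nm h).trans (nb b).2.1
  refine comb _ _ hfQ hfP ?_
  have fin : C * NF q Q + C * NF q P - C * NF q (Q ⊔ P) ≤ t / 6000 := by
    rcases t4 with e | e | e
    · refine key _ (fun i => Or.inl (sq _ _ (m1 i))) (one_FSplit hdC hδ (Nat.cast_nonneg _)
        (Nat.cast_nonneg _) hδC (not_le.1 nd).le ?_)
      exact_mod_cast (by omega : ex Q j₂ + 1 ≤ 4 * t)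
    · refine key _ (fun i => Or.inr (sq _ t (e ▸ lP i))) (sec_FSplit hdC ?_ (by linarith))
      exact_mod_cast (by omega : 1 ≤ t)
    · exact key _ (fun i => Or.inl (nb _).2.2) (thr_FSplit hq (e ▸ f2) hCq)
  linarith

end Pool.Agent.MP_6d294b_pr
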