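import Pool.Agent.MP_6d294b_pr.FStm
import Pool.Agent.MP_6d294b_pr.PGeoA
import Pool.Agent.MP_6d294b_pr.PGeoB
import Pool.Agent.MP_6d294b_pr.PPrA
import Pool.Agent.MP_6d294b_pr.PBK
import Pool.Agent.MP_6d294b_pr.PInd

open Finset

namespace Pool.Agent.MP_6d294b_pr

theorem tX (h4 : TChn) : TX := by
  classical
  intro d Ω p p0 p1 T K Y N V X hX h1 h2 S R hS hSR hR hF
  obtain ⟨c1, c2, -⟩ := h4 d T
  obtain ⟨a1, -, a3, -, a5, -⟩ := sPrA (Pt d) Ω p p0 (by linarith)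
  have n1 : (1 : ℝ) ≤ 2 * N + 1 := by linarith [Nat.cast_nonneg (α := ℝ) N]
  have l0 : 0 ≤ 2 * d * Real.log (2 * N + 1) := mul_nonneg (by positivity) (Real.log_nonneg n1)
  have w : Real.exp (V R - V S + X) ≤
      Real.exp (V R - V S + (2 * X + 2 * d * Real.log (2 * N + 1))) :=
    Real.exp_le_exp.2 (by linarith)
  by_cases k1 : psi R ≤ K + T
  · exact (h1 S R hS hSR hR k1).trans w
  by_cases k2 : K ≤ psi S
  · by_cases g : Gd K Y S
    · exact (h2 S R hS hSR hR hF (g.resolve_left (by omega))).trans w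
    · refine (a3 _ (fun _ => False) fun A _ h => g ((c1 _ S R).2 A h).2).trans ?_
      simp only [Pr, if_false, sum_const_zero]
      positivity
  set I := (boxes R).filter fun S' => S ≤ S' ∧ S' ≤ R ∧ K ≤ psi S' ∧ psi S' ≤ K + T ∧ Gd K Y S'
  refine (a3 _ (fun A => ∃ S' ∈ I, BoxInd (Chn T (Gd K Y) S S') (Chn T (Gd K Y) S' R) A)
    fun A _ h => ?_).trans ((a5 _ I _).trans ((sum_le_card_nsmul _ _
      (Real.exp (V R - V S + 2 * X)) fun S' hS' => ?_).trans ?_))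
  · obtain ⟨S', B, C, b1, b2, b3, b4, b5, b6, b7⟩ := c2 _ S R A K h hS (by omega) (by omega)
    have e1 := ((c1 _ S S').2 B b4).1
    have e2 := (c1 _ S' R).2 C b5
    exact ⟨S', mem_filter.2 ⟨((sGeoA d).2.2.2.1 _ _ ((sGeoA d).2.2.2.1 _ _ hS e1).1 e2.1).2.2.2.2,
      e1, e2.1, b6, b7, e2.2⟩, B, C, b1, b2, b3, b4, b5⟩
  · obtain ⟨-, e1, e2, e3, e4, e5⟩ := mem_filter.1 hS'
    have v := ((sGeoA d).2.2.2.1 _ _ hS e1).1
    have := ((sGeoA d).2.2.2.1 _ _ v e2).2.2.2.1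
    refine (bk_Ind sPrA (sBK sPrA) Ω p0 p1 (c1 _ S S').1 (c1 _ S' R).1).trans
      ((mul_le_mul (h1 S S' hS e1 (by omega) e4) (h2 S' R v e2 hR hF (e5.resolve_left (by omega)))
        (a1 _) (Real.exp_nonneg _)).trans (le_of_eq ?_))
    rw [← Real.exp_add]
    congr 1
    ring
  · have c : (I.card : ℝ) ≤ (2 * N + 1) ^ (2 * d) := by
      exact_mod_cast (card_filter_le _ _).trans ((sGeoB sGeoA d).1 R (2 * N + 1) fun i => by
        have := ex_le_Ind R i
        omega)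
    rw [nsmul_eq_mul, ← add_assoc, Real.exp_add _ (2 * d * _), mul_comm (Real.exp _),
      show (2 * d : ℝ) = ((2 * d : ℕ) : ℝ) by push_cast; ring, Real.exp_nat_mul,
      Real.exp_log (by linarith)]
    exact mul_le_mul_of_nonneg_right c (Real.exp_nonneg _)

end Pool.Agent.MP_6d294b_pr
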