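import Pool.Agent.MP_6d294b_pr.FChn
import Pool.Agent.MP_6d294b_pr.FCost
import Pool.Agent.MP_6d294b_pr.FCr1
import Pool.Agent.MP_6d294b_pr.FCr2
import Pool.Agent.MP_6d294b_pr.FCr2a
import Pool.Agent.MP_6d294b_pr.FCr2b
import Pool.Agent.MP_6d294b_pr.FCrit
import Pool.Agent.MP_6d294b_pr.FD1
import Pool.Agent.MP_6d294b_pr.FD2
import Pool.Agent.MP_6d294b_pr.FExt1
import Pool.Agent.MP_6d294b_pr.FExt2
import Pool.Agent.MP_6d294b_pr.FFinal
import Pool.Agent.MP_6d294b_pr.FFrame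
import Pool.Agent.MP_6d294b_pr.FG
import Pool.Agent.MP_6d294b_pr.FGain
import Pool.Agent.MP_6d294b_pr.FInd
import Pool.Agent.MP_6d294b_pr.FLine
import Pool.Agent.MP_6d294b_pr.FLow
import Pool.Agent.MP_6d294b_pr.FNeedle
import Pool.Agent.MP_6d294b_pr.FNf
import Pool.Agent.MP_6d294b_pr.FPar
import Pool.Agent.MP_6d294b_pr.FPathA
import Pool.Agent.MP_6d294b_pr.FPathB
import Pool.Agent.MP_6d294b_pr.FPathC
import Pool.Agent.MP_6d294b_pr.FPerc
import Pool.Agent.MP_6d294b_pr.FPotA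
import Pool.Agent.MP_6d294b_pr.FPotB
import Pool.Agent.MP_6d294b_pr.FSp
import Pool.Agent.MP_6d294b_pr.FSplit
import Pool.Agent.MP_6d294b_pr.FStepH
import Pool.Agent.MP_6d294b_pr.FSumL
import Pool.Agent.MP_6d294b_pr.FTrick
import Pool.Agent.MP_6d294b_pr.FWord
import Pool.Agent.MP_6d294b_pr.FWsum
import Pool.Agent.MP_6d294b_pr.FX

namespace Pool.Agent.MP_6d294b_pr

theorem final_FAll : TFinal := by
  have hChn := tChn tSp
  have hCost := tCost tNf
  have hPC := tPathC tPathA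
  have hW := tWord hChn
  have hD1 := tD1 tLine tTrick tLay hChn tPathA tPathB hPC hW (tExt1 tLay hChn tPathA) tCr1 tWs1
    tNf hCost
  have hCr2 := tCr2 tTrick tCr2a (tCr2b tLine tTrick)
  have hD2 := tD2 tTrick tLay hChn tPathA tPathB hPC hW (tExt2 tLay hChn tPathA) hCr2
    (tFrame tNf) tNf hCost (tDom tG tNf)
  have hLow := tLow tG tPotB (tStepH tNf hCost tPotB) tSumL
  have hSplit := tSplit tSp tNf hCost tPotA (tGain tG tNf hCost) (tNeedle tG hCost tPotA tDir)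
  have hCrit := tCrit hD1 hD2 (tX hChn) (tInd tSp hChn) tPotA hLow hSplit tPar tNf hCost
  exact tFinal (tPerc tSp tDir hCrit tG)

end Pool.Agent.MP_6d294b_pr
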