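import Pool.Agent.MP_6d294b_pr.FStm

open Finset

namespace Pool.Agent.MP_6d294b_pr

lemma eps_FFrame {q y₀ a a' m T : ℝ} (hq : 0 < q) (h0 : 0 < y₀) (h1 : y₀ ≤ 1) (ha : 0 < a)
    (hT0 : 0 ≤ T) (hT : T * Real.sqrt q ≤ 1) (hX : y₀ ≤ q * a)
    (hm : m ≤ 2 * Real.sqrt a * (1 + q * a)) (h : a' ≤ a + 2 * m + 2 * T) :
    a' ≤ a * (1 + 6 * Real.sqrt q * (1 + q * a) / y₀) := by
  have s1 : Real.sqrt q * Real.sqrt q = q := Real.mul_self_sqrt hq.le
  have s2 : Real.sqrt a * Real.sqrt a = a := Real.mul_self_sqrt ha.le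
  have s3 : 0 < Real.sqrt q := Real.sqrt_pos.2 hq
  have s4 : 0 < Real.sqrt a := Real.sqrt_pos.2 ha
  have b1 : y₀ ≤ Real.sqrt q * Real.sqrt a := by
    refine le_of_sq_le_sq ?_ (by positivity)
    rw [mul_pow, Real.sq_sqrt hq.le, Real.sq_sqrt ha.le]
    nlinarith
  have hqa : 0 < q * a := by positivity
  have b2 : m * y₀ ≤ 2 * (a * Real.sqrt q * (1 + q * a)) := by
    have c1 := mul_le_mul_of_nonneg_right hm h0.le
    have c2 := mul_le_mul_of_nonneg_left b1
      (show 0 ≤ 2 * Real.sqrt a * (1 + q * a) by positivity)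
    have c3 : 2 * Real.sqrt a * (1 + q * a) * (Real.sqrt q * Real.sqrt a) =
        2 * (a * Real.sqrt q * (1 + q * a)) := by
      linear_combination (2 * (1 + q * a) * Real.sqrt q) * s2
    linarith
  have b3 : T * y₀ ≤ a * Real.sqrt q * (1 + q * a) := by
    have c1 := mul_le_mul_of_nonneg_left hX hT0
    have c2 := mul_le_mul_of_nonneg_right hT (show 0 ≤ Real.sqrt q * a by positivity)
    have c3 : T * Real.sqrt q * (Real.sqrt q * a) = T * (q * a) := by
      linear_combination (T * a) * s1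
    have c4 : 0 ≤ a * Real.sqrt q * (q * a) := by positivity
    nlinarith
  have e : a * (1 + 6 * Real.sqrt q * (1 + q * a) / y₀) =
      a + 6 * (a * Real.sqrt q * (1 + q * a)) / y₀ := by ring
  have b4 : 2 * m + 2 * T ≤ 6 * (a * Real.sqrt q * (1 + q * a)) / y₀ := by
    rw [le_div_iff₀ h0]
    linarith
  linarith

lemma prod_FFrame {ι : Type} (I : Finset ι) (ε : ι → ℝ) (h0 : ∀ j ∈ I, 0 ≤ ε j)
    (h1 : ∑ j ∈ I, ε j ≤ 1 / 2) : ∏ j ∈ I, (1 + ε j) ≤ 1 + 2 * ∑ j ∈ I, ε j := by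
  have a0 : 0 ≤ ∑ j ∈ I, ε j := Finset.sum_nonneg h0
  have a1 : ∏ j ∈ I, (1 + ε j) ≤ Real.exp (∑ j ∈ I, ε j) := by
    rw [Real.exp_sum]
    exact Finset.prod_le_prod (fun j hj => by linarith [h0 j hj])
      fun j _ => by linarith [Real.add_one_le_exp (ε j)]
  refine a1.trans ((Real.exp_bound_div_one_sub_of_interval a0 (by linarith)).trans ?_)
  rw [div_le_iff₀ (by linarith)]
  nlinarith

theorem tFrame (h1 : TNf) : TFrame := by
  classical
  intro d y₀ hd h0 hy1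
  have hd2 : (2 : ℝ) ≤ d := by exact_mod_cast hd
  have hp0 : 0 < y₀ ^ (d - 2) := pow_pos h0 _
  have hp1 : y₀ ^ (d - 2) ≤ 1 := pow_le_one₀ h0.le hy1
  have hA : 12 * d / y₀ ≤ 12 * d / (y₀ * y₀ ^ (d - 2)) :=
    div_le_div_of_nonneg_left (by positivity) (by positivity) (by nlinarith)
  refine ⟨12 * d / (y₀ * y₀ ^ (d - 2)), le_trans ?_ hA, fun q T N y y' i hq hT hN hy => ?_⟩
  · rw [le_div_iff₀ h0]
    linarith
  have hs : 0 < Real.sqrt q := Real.sqrt_pos.2 hq
  have hcard : (univ.erase i).card = d - 1 := by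
    rw [Finset.card_erase_of_mem (Finset.mem_univ i), Finset.card_univ, Fintype.card_fin]
  have hcard' : ((univ.erase i).card : ℝ) ≤ d := by
    rw [hcard]
    exact_mod_cast Nat.sub_le d 1
  set ε : Fin d → ℝ := fun j => 6 * Real.sqrt q * (1 + q * ((y j : ℝ) + 1)) / y₀ with hε
  have hε0 : ∀ j, 0 ≤ ε j := fun j => by simp only [hε]; positivity
  set F : ℝ := q ^ (d - 1) * sg y i with hF
  have hF1 : F = ∏ j ∈ univ.erase i, q * ((y j : ℝ) + 1) := by
    rw [Finset.prod_mul_distrib, Finset.prod_const, hcard, hF]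
    unfold sg
    push_cast
    rfl
  have hF0 : 0 ≤ F := by positivity
  have a1 : ∀ j, (y' j : ℝ) + 1 ≤ ((y j : ℝ) + 1) * (1 + ε j) := by
    intro j
    obtain ⟨b1, -, b3⟩ := hy j
    have b4 : (y' j : ℝ) ≤ y j + 2 * mq q (y j) + 2 * (T + 1) := by exact_mod_cast b3
    exact eps_FFrame (T := T + 1) hq h0 hy1 (by positivity) (by positivity) hT b1
      ((h1 q hq).2.2.1 (y j)) (by linarith)
  have a2 : ∑ j ∈ univ.erase i, ε j ≤ 1 / 2 := by
    have b1 : ∀ j ∈ univ.erase i, ε j ≤ 6 * Real.sqrt q * (1 + q * (2 * N + 1)) / y₀ := by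
      intro j _
      have : (y j : ℝ) ≤ 2 * N := by exact_mod_cast (hy j).2.1
      simp only [hε]
      gcongr
    have b2 := Finset.sum_le_card_nsmul _ _ _ b1
    rw [nsmul_eq_mul] at b2
    have b3 := mul_le_mul_of_nonneg_right hcard'
      (show 0 ≤ 6 * Real.sqrt q * (1 + q * (2 * N + 1)) / y₀ by positivity)
    have b4 := mul_le_mul_of_nonneg_right hA
      (show 0 ≤ Real.sqrt q * (1 + q * (2 * N + 1)) by positivity)
    have e : d * (6 * Real.sqrt q * (1 + q * (2 * N + 1)) / y₀) =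
        12 * d / y₀ * (Real.sqrt q * (1 + q * (2 * N + 1))) / 2 := by ring
    rw [mul_assoc] at hN
    linarith
  have a3 : ∀ j ∈ univ.erase i, ε j ≤ 6 * Real.sqrt q * (1 + F) / (y₀ * y₀ ^ (d - 2)) := by
    intro j hj
    have b1 : y₀ ^ (d - 2) ≤ ∏ k ∈ (univ.erase i).erase j, q * ((y k : ℝ) + 1) := by
      have e : y₀ ^ (d - 2) = ∏ _k ∈ (univ.erase i).erase j, y₀ := by
        rw [Finset.prod_const, Finset.card_erase_of_mem hj, hcard]
        rfl
      rw [e]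
      exact Finset.prod_le_prod (fun _ _ => h0.le) fun k _ => (hy k).1
    have b2 : q * ((y j : ℝ) + 1) * y₀ ^ (d - 2) ≤ F := by
      rw [hF1, ← Finset.mul_prod_erase _ _ hj]
      exact mul_le_mul_of_nonneg_left b1 (by positivity)
    simp only [hε]
    rw [div_le_div_iff₀ h0 (by positivity)]
    have b3 : (1 + q * ((y j : ℝ) + 1)) * y₀ ^ (d - 2) ≤ 1 + F := by linarith
    have b4 := mul_le_mul_of_nonneg_left b3 (show 0 ≤ 6 * Real.sqrt q * y₀ by positivity)
    linarith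
  have a4 : 2 * ∑ j ∈ univ.erase i, ε j ≤
      12 * d / (y₀ * y₀ ^ (d - 2)) * Real.sqrt q * (1 + F) := by
    have b2 := Finset.sum_le_card_nsmul _ _ _ a3
    rw [nsmul_eq_mul] at b2
    have b3 := mul_le_mul_of_nonneg_right hcard'
      (show 0 ≤ 6 * Real.sqrt q * (1 + F) / (y₀ * y₀ ^ (d - 2)) by positivity)
    have e : 12 * d / (y₀ * y₀ ^ (d - 2)) * Real.sqrt q * (1 + F) =
        2 * (d * (6 * Real.sqrt q * (1 + F) / (y₀ * y₀ ^ (d - 2)))) := by ring
    linarith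
  have a5 : (sg y' i : ℝ) ≤ sg y i * ∏ j ∈ univ.erase i, (1 + ε j) := by
    unfold sg
    push_cast
    rw [← Finset.prod_mul_distrib]
    exact Finset.prod_le_prod (fun j _ => by positivity) fun j _ => a1 j
  have a6 := (prod_FFrame _ ε (fun j _ => hε0 j) a2).trans (add_le_add_right a4 1)
  have a7 := mul_le_mul_of_nonneg_left a6 hF0
  have a8 := mul_le_mul_of_nonneg_left a5 (pow_pos hq (d - 1)).le
  rw [← mul_assoc, ← hF] at a8
  rw [mul_sub, ← hF]
  linarith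

end Pool.Agent.MP_6d294b_pr
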