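import Pool.Agent.MP_6d294b_pr.Stm2

open Finset

namespace Pool.Agent.MP_6d294b_pr

variable {D d : ℕ}

theorem mem_JT_RAbsR {F : Fr D d} {S B : Bx D} {U : Finset (Rc D d)} {s : Sd D} {j : ℤ} :
    j ∈ JT F S B U s ↔ (S s < j ∧ j ≤ B s) ∧
      ∀ u ∈ U, ¬ (F.pr u.1 s - u.2.1 s < j ∧ j ≤ F.pr u.1 s) := by
  simp only [JT, mem_filter, mem_Ioc]

theorem oc_mono_RAbsR {F : Fr D d} {h : ℤ} {R R' : Bx D} {s : Sd D} {j : ℤ}
    {W : Finset (Pt d)} (hR : R ≤ R') (hW : Oc F h R s j W) : Oc F h R' s j W := by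
  obtain ⟨x, hx, h1, h2, h3, h4⟩ := hW
  exact ⟨x, hx, h1, h2, fun t => (h3 t).trans (hR t), h4⟩

theorem adm_mono_RAbsR {F : Fr D d} {a b T : ℕ} {S B B' : Bx D} (h : B ≤ B')
    (hψ : psi B ≤ psi B') {u : Rc D d} (hu : Adm2 F a b T S B u) : Adm2 F a b T S B' u := by
  obtain ⟨h1, h2, h3, h4, h5, h6, h7⟩ := hu
  refine ⟨h1, h2, h3.trans h, h4, h5, h6, fun e => ?_⟩
  obtain ⟨k1, k2, k3, k4⟩ := h7 e
  exact ⟨k1, k2, k3, by omega⟩

theorem rAbsR (hO : SOld) : RAbsR := by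
  classical
  intro D d F a b T S B C w u hS hSB hC he hu hw hd
  have hG : SGeoA := hO.2.2.2.1
  obtain ⟨U, v, W, c1, c2, c3, c4, c5⟩ := hC
  have hB : Val B := ((hG D).2.2.2.1 S B hS hSB).1
  have hψ : psi B ≤ psi (B ⊔ F.pr u.1) := by
    have := ((hG D).2.2.2.1 B (B ⊔ F.pr u.1) hB le_sup_left).2.2.2.1
    omega
  have hsup : ∀ s, (B ⊔ F.pr u.1) s = max (B s) (F.pr u.1 s) := fun s => rfl
  have hnew : u ∉ U := by
    intro h
    obtain ⟨s, hs⟩ := hu.2.2.2.2.1
    have a1 : F.pr u.1 s ≤ B s := (c1 _ h).1.2.2.1 s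
    have a2 := he s
    omega
  have hv : ∀ x ∈ U, (if x = u then w else v x) = v x := fun x hx =>
    if_neg fun h : x = u => hnew (h ▸ hx)
  refine ⟨insert u U, fun x => if x = u then w else v x, W, ?_, fun s => ?_, ?_, c4, ?_⟩
  · intro x hx
    rcases mem_insert.1 hx with rfl | hx
    · simp only [if_true]
      exact ⟨hu, subset_union_right, hw⟩
    · simp only [hv x hx]
      exact ⟨adm_mono_RAbsR le_sup_left hψ (c1 x hx).1, (c1 x hx).2.1.trans subset_union_left,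
        (c1 x hx).2.2⟩
  · refine ⟨(c2 s).1.trans subset_union_left, ?_⟩
    have e : JT F S (B ⊔ F.pr u.1) (insert u U) s = JT F S B U s := by
      ext j
      simp only [mem_JT_RAbsR, forall_mem_insert, hsup]
      have := he s
      constructor
      · rintro ⟨h1, h2, h3⟩
        exact ⟨by omega, h3⟩
      · rintro ⟨h1, h3⟩
        exact ⟨by omega, by omega, h3⟩
    rw [e]
    intro j hj
    rcases (c2 s).2 j hj with h | ⟨h, h'⟩
    · exact Or.inl (oc_mono_RAbsR le_sup_left h)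
    · exact Or.inr ⟨h, oc_mono_RAbsR le_sup_left h'⟩
  · intro x hx y hy hxy
    rcases mem_insert.1 hx with e1 | g1 <;> rcases mem_insert.1 hy with e2 | g2
    · exact absurd (e1.trans e2.symm) hxy
    · simp only [hv y g2, e1, if_true]
      exact hd.mono_right (c1 y g2).2.1
    · simp only [hv x g1, e2, if_true]
      exact (hd.mono_right (c1 x g1).2.1).symm
    · simp only [hv x g1, hv y g2]
      exact c3 x g1 y g2 hxy
  · intro x hx s
    rcases mem_insert.1 hx with rfl | hx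
    · simp only [if_true]
      exact hd.mono_right (c2 s).1
    · simp only [hv x hx]
      exact c5 x hx s

end Pool.Agent.MP_6d294b_pr
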