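import Pool.Agent.MP_6d294b_pr.Stm2

open Finset

namespace Pool.Agent.MP_6d294b_pr

theorem psi_mono_RAbsS {D : ℕ} {B B' : Bx D} (h : B ≤ B') : psi B ≤ psi B' :=
  Finset.sum_le_sum fun i _ => Int.toNat_le_toNat (add_le_add (h (i, true)) (h (i, false)))

theorem oc_mono_RAbsS {D d : ℕ} {F : Fr D d} {h : ℤ} {B B' : Bx D} {s : Sd D} {j : ℤ}
    {W W' : Finset (Pt d)} (hB : B ≤ B') (hW : W ⊆ W') (H : Oc F h B s j W) :
    Oc F h B' s j W' := by
  obtain ⟨x, h1, h2, h3, h4, h5⟩ := H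
  exact ⟨x, hW h1, h2, h3, fun t => (h4 t).trans (hB t), h5⟩

theorem mem_JT_RAbsS {D d : ℕ} {F : Fr D d} {S B : Bx D} {U : Finset (Rc D d)} {s : Sd D}
    {j : ℤ} : j ∈ JT F S B U s ↔ (S s < j ∧ j ≤ B s) ∧
      ∀ u ∈ U, ¬ (F.pr u.1 s - u.2.1 s < j ∧ j ≤ F.pr u.1 s) := by
  simp only [JT, mem_filter, mem_Ioc]

theorem rAbsS (hO : SOld) : RAbsS := by
  classical
  intro D d F a b T S B C x s _ hSB hC hx hR h1 h2
  obtain ⟨U, w, W, c1, c2, c3, c4, c5⟩ := hC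
  have hB : B ≤ B ⊔ ptB (F.pp x) := le_sup_left
  have hin : InB (F.pp x) (B ⊔ ptB (F.pp x)) := fun t =>
    (le_sup_right : ptB (F.pp x) ≤ B ⊔ ptB (F.pp x)) t
  have hv : ∀ t, (B ⊔ ptB (F.pp x)) t = max (B t) (kap t (F.pp x)) := fun t => rfl
  have hW : ∀ t, W t ⊆ Function.update W s (insert x (W s)) t := fun t => by
    by_cases ht : t = s
    · rw [ht, Function.update_self]
      exact subset_insert _ _
    · rw [Function.update_of_ne ht]
  have hW' : ∀ t y, y ∈ Function.update W s (insert x (W s)) t → y ∈ W t ∨ (y = x ∧ t = s) := by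
    intro t y hy
    by_cases ht : t = s
    · rw [ht, Function.update_self, mem_insert] at hy
      rcases hy with hy | hy
      · exact Or.inr ⟨hy, ht⟩
      · exact Or.inl (ht ▸ hy)
    · rw [Function.update_of_ne ht] at hy
      exact Or.inl hy
  have hxs : x ∈ Function.update W s (insert x (W s)) s := by
    rw [Function.update_self]
    exact mem_insert_self _ _
  refine ⟨U, w, Function.update W s (insert x (W s)), fun u hu => ?_, fun t => ⟨fun y hy => ?_,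
    fun j hj => ?_⟩, c3, fun t t' htt => ?_, fun u hu t => ?_⟩
  · obtain ⟨⟨a1, a2, a3, a4, a5, a6, a7⟩, b1, b2⟩ := c1 u hu
    refine ⟨⟨a1, a2, a3.trans hB, a4, a5, a6, fun h => ?_⟩, b1.trans (subset_insert _ _), b2⟩
    obtain ⟨e1, e2, e3, e4⟩ := a7 h
    exact ⟨e1, e2, e3, e4.trans (Nat.add_le_add_right (psi_mono_RAbsS hB) _)⟩
  · rcases hW' t y hy with h | h
    · exact mem_insert_of_mem ((c2 t).1 h)
    · exact h.1 ▸ mem_insert_self _ _
  · obtain ⟨⟨j1, j2⟩, j3⟩ := mem_JT_RAbsS.1 hj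
    by_cases hjB : j ≤ B t
    · rcases (c2 t).2 j (mem_JT_RAbsS.2 ⟨⟨j1, hjB⟩, j3⟩) with h | ⟨h, h'⟩
      · exact Or.inl (oc_mono_RAbsS hB (hW t) h)
      · obtain ⟨⟨k1, k2⟩, k3⟩ := mem_JT_RAbsS.1 h
        exact Or.inr ⟨mem_JT_RAbsS.2 ⟨⟨k1, k2.trans (hB t)⟩, k3⟩, oc_mono_RAbsS hB (hW t) h'⟩
    · rw [hv, le_max_iff] at j2
      have j4 := j2.resolve_left hjB
      obtain rfl : t = s := by_contra fun ht => hjB (j4.trans (h1 t ht))
      by_cases hjx : kap t (F.pp x) = j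
      · exact Or.inl ⟨x, hxs, hR, by rcases h2 with h | h <;> omega, hin, hjx⟩
      · have h3 : F.lev (ptB x) ≤ 0 ∧ kap t (F.pp x) = j + 1 ∧ B t < j := by
          rcases h2 with h | h <;> omega
        refine Or.inr ⟨mem_JT_RAbsS.2 ⟨⟨by omega, h3.2.1 ▸ hin t⟩, fun u hu h => ?_⟩,
          x, hxs, hR, h3.1, hin, h3.2.1⟩
        have h4 : F.pr u.1 t ≤ B t := (c1 u hu).1.2.2.1 t
        omega
  · refine disjoint_left.2 fun y hy hy' => ?_
    rcases hW' t y hy with h | h <;> rcases hW' t' y hy' with h' | h'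
    · exact disjoint_left.1 (c4 t t' htt) h h'
    · exact hx (h'.1 ▸ (c2 t).1 h)
    · exact hx (h.1 ▸ (c2 t').1 h')
    · exact htt (h.2.trans h'.2.symm)
  · refine disjoint_left.2 fun y hy hy' => ?_
    rcases hW' t y hy' with h | h
    · exact disjoint_left.1 (c5 u hu t) hy h
    · exact hx (h.1 ▸ (c1 u hu).2.1 hy)

end Pool.Agent.MP_6d294b_pr
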