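import Pool.Agent.MP_6d294b_pr.Stm2

open Finset

namespace Pool.Agent.MP_6d294b_pr

theorem mono_RAdd {d : ℕ} {x : Pt d} {Q P : Bx d} (h : InB x Q) (hle : Q ≤ P) : InB x P :=
  fun s => (h s).trans (hle s)

theorem sub_RAdd {D d : ℕ} {F : Fr D d} {a b T : ℕ} {S B : Bx D} {A C : Finset (Pt d)} {P : Bx d}
    {I J : Finset (Finset (Pt d) × Bx d)} (h : Stx F a b T S A P B C I) (hJ : J ⊆ I) :
    Stx F a b T S A P B C J :=
  ⟨h.1, h.2.1, h.2.2.1, h.2.2.2.1, fun u hu => h.2.2.2.2.1 u (hJ hu),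
    fun u hu v hv => h.2.2.2.2.2 u (hJ hu) v (hJ hv)⟩

theorem side_RAdd {D : ℕ} {x y : Pt D} {B : Bx D} {s : Sd D} (hy : InB y B) (hx : ¬ InB x B)
    (h1 : kap s x = kap s y + 1) (h2 : ∀ j, j ≠ s.1 → x j = y j) :
    (∀ s', s' ≠ s → kap s' x ≤ B s') ∧ kap s x = B s + 1 := by
  have key : ∀ s', s' ≠ s → kap s' x ≤ B s' := by
    intro s' hs
    have := hy s'
    by_cases e : s'.1 = s.1
    · obtain ⟨i, c⟩ := s
      obtain ⟨i', c'⟩ := s'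
      simp only at e
      subst e
      cases c <;> cases c' <;> simp [kap] at hs h1 this ⊢ <;> omega
    · have := h2 _ e
      unfold kap at *
      rw [this]
      assumption
  refine ⟨key, ?_⟩
  have := hy s
  by_contra hne
  refine hx fun s' => ?_
  by_cases e : s' = s
  · rw [e]
    omega
  · exact key s' e

theorem rAdd (hO : SOld) (hG : RGeo) (hS : RAbsS) (hN : RNew) : RAdd := by
  classical
  intro D d F a b T S A K P v hVS hab hReg hK hSt hthr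
  obtain ⟨B, C, I, hx, hcov⟩ := hSt
  obtain ⟨g1, g2, -, g4, -, -, -, g8, -, -, -, g12, -⟩ := hG.1 d
  obtain ⟨g1', -, -, -, g5', -, -, -, g9', -⟩ := hG.1 D
  obtain ⟨-, l2, l3, -, l5, -, l7, -, -, -, -, -, l13, -, l15, -, -, l18⟩ := hG.2.2.2.2.1 D d F
  obtain ⟨o1, -, -, -, o5⟩ := hO.2.2.2.1 d
  by_cases hv : InB (F.pp v) B
  · refine ⟨B, C, I, hx, fun x h => ?_⟩
    rcases mem_insert.1 h with rfl | h
    · exact Or.inl hv
    · exact hcov x h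
  have hreg : ∀ u ∈ K, F.Reg (ptB u) := fun u hu => (l15 _ _ (hK u hu)).2 hReg
  have hin : ∀ u ∈ K, ∀ u' ∈ K, dst u v = 1 → dst u' v = 1 → InB (F.pp u) B → InB (F.pp u') B →
      u = u' := by
    intro u hu u' hu' d1 d2 i1 i2
    by_contra hne
    have := g8 (F.lift B) u u' v hne d1 d2 ((l13 B _).2 ⟨i1, hreg u hu⟩)
      ((l13 B _).2 ⟨i2, hreg u' hu'⟩)
    exact hv ((l13 B (ptB v)).1 this).1
  by_cases hA : ∃ u ∈ K, ∃ u' ∈ K, dst u v = 1 ∧ dst u' v = 1 ∧ ¬ InB (F.pp u) B ∧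
      ¬ InB (F.pp u') B ∧ u ≠ u'
  · obtain ⟨u1, h1, u2, h2, d1, d2, n1, n2, hne⟩ := hA
    obtain ⟨w1, hw1, i1⟩ := (hcov u1 h1).resolve_left n1
    obtain ⟨w2, hw2, i2⟩ := (hcov u2 h2).resolve_left n2
    by_cases e : w1 = w2
    · subst e
      refine ⟨B, C, I, hx, fun x h => ?_⟩
      rcases mem_insert.1 h with rfl | h
      · exact Or.inr ⟨w1, hw1, g8 _ u1 u2 _ hne d1 d2 i1 i2⟩
      · exact hcov x h
    obtain ⟨a1, a2, a3, a4, a5, a6⟩ := hx.2.2.2.2.1 w1 hw1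
    obtain ⟨b1, b2, b3, b4, -, b6⟩ := hx.2.2.2.2.1 w2 hw2
    have hgap : gap w1.2 w2.2 ≤ 2 := by
      have := g4 _ _ _ _ i1 i2
      have := g2 u1 v u2
      have := g1 v u2
      omega
    have hpsi : psi (w1.2 ⊔ w2.2) ≤ a + b := by
      have := (o5 _ _ (o1 _ _ a3).1 (o1 _ _ b3).1).2
      have := a6.1
      have := b6.1
      omega
    obtain ⟨B', C', I', s1, s2, s3, s4⟩ := hN D d F a b T S B A C (w1.1 ∪ w2.1) P (w1.2 ⊔ w2.2)
      ((I.erase w1).erase w2) hVS hReg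
      (sub_RAdd hx ((erase_subset _ _).trans (erase_subset _ _))) (union_subset a1 b1)
      (disjoint_union_left.2 ⟨a2, b2⟩)
      (fun u hu => by
        obtain ⟨c2, hu⟩ := mem_erase.1 hu
        obtain ⟨c1, hu⟩ := mem_erase.1 hu
        exact disjoint_union_left.2 ⟨hx.2.2.2.2.2 w1 hw1 u hu c1.symm,
          hx.2.2.2.2.2 w2 hw2 u hu c2.symm⟩)
      (Span.merge a3 b3 (hx.2.2.2.2.2 w1 hw1 w2 hw2 e) hgap) (sup_le a4 b4)
      ((g5' _ _ _ _ le_rfl (l5 _ _ le_sup_left)).trans a5) hpsi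
    refine ⟨B', C', I', s1, fun x h => ?_⟩
    rcases mem_insert.1 h with rfl | h
    · exact s4 _ (g8 _ u1 u2 _ hne d1 d2 (mono_RAdd i1 le_sup_left) (mono_RAdd i2 le_sup_right))
    rcases hcov x h with c | ⟨u, hu, c⟩
    · exact Or.inl (mono_RAdd c s2)
    by_cases c1 : u = w1
    · exact s4 _ (mono_RAdd (c1 ▸ c) le_sup_left)
    by_cases c2 : u = w2
    · exact s4 _ (mono_RAdd (c2 ▸ c) le_sup_right)
    exact Or.inr ⟨u, s3 (mem_erase.2 ⟨c2, mem_erase.2 ⟨c1, hu⟩⟩), c⟩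
  have hout : ∀ u ∈ K, ∀ u' ∈ K, dst u v = 1 → dst u' v = 1 → ¬ InB (F.pp u) B →
      ¬ InB (F.pp u') B → u = u' := by
    intro u hu u' hu' d1 d2 i1 i2
    by_contra hne
    exact hA ⟨u, hu, u', hu', d1, d2, i1, i2, hne⟩
  have hlev : F.lev (ptB v) = 0 := by
    by_contra hne
    have h3 : 2 < nb v K := by
      unfold Fr.thr at hthr
      rw [if_neg hne] at hthr
      exact hthr
    obtain ⟨x, y, z, hx', hy', hz', n1, n2, n3⟩ := two_lt_card_iff.1 h3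
    obtain ⟨x1, x2⟩ := mem_filter.1 hx'
    obtain ⟨y1, y2⟩ := mem_filter.1 hy'
    obtain ⟨z1, z2⟩ := mem_filter.1 hz'
    by_cases cx : InB (F.pp x) B <;> by_cases cy : InB (F.pp y) B <;> by_cases cz : InB (F.pp z) B
    · exact n1 (hin x x1 y y1 x2 y2 cx cy)
    · exact n1 (hin x x1 y y1 x2 y2 cx cy)
    · exact n2 (hin x x1 z z1 x2 z2 cx cz)
    · exact n3 (hout y y1 z z1 y2 z2 cy cz)
    · exact n3 (hin y y1 z z1 y2 z2 cy cz)
    · exact n2 (hout x x1 z z1 x2 z2 cx cz)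
    · exact n1 (hout x x1 y y1 x2 y2 cx cy)
    · exact n1 (hout x x1 y y1 x2 y2 cx cy)
  obtain ⟨u0, k0, u, k1, d0, d1, i0, n1⟩ : ∃ u0 ∈ K, ∃ u ∈ K, dst u0 v = 1 ∧ dst u v = 1 ∧
      InB (F.pp u0) B ∧ ¬ InB (F.pp u) B := by
    obtain ⟨x, hx', y, hy', n⟩ := one_lt_card.1 (lt_of_lt_of_le (by norm_num) ((l2 v).trans hthr))
    obtain ⟨x1, x2⟩ := mem_filter.1 hx'
    obtain ⟨y1, y2⟩ := mem_filter.1 hy'
    by_cases cx : InB (F.pp x) B <;> by_cases cy : InB (F.pp y) B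
    · exact (n (hin x x1 y y1 x2 y2 cx cy)).elim
    · exact ⟨x, x1, y, y1, x2, y2, cx, cy⟩
    · exact ⟨y, y1, x, x1, y2, x2, cy, cx⟩
    · exact (n (hout x x1 y y1 x2 y2 cx cy)).elim
  obtain ⟨w, hw, iw⟩ := (hcov u k1).resolve_left n1
  obtain ⟨a1, a2, a3, -, -, -, a6, a7⟩ := hx.2.2.2.2.1 w hw
  have hl1 : F.lev (ptB u) ≤ 1 := by
    have := (l18 u v d1).1
    omega
  have hp0 : psi w.2 = 0 := a7 ((l15 (ptB u) _ iw).1.trans hl1)
  have ew : w.2 = ptB u := (g12 _ _).2.2 iw hp0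
  have epp : F.pp u = F.pp v := (l18 u v d1).2.resolve_right fun c => a6 (by rw [ew, c.2, hlev])
  have huw : u ∈ w.1 := by
    obtain ⟨-, c1, c2, -⟩ := o1 _ _ a3
    obtain ⟨x, hx'⟩ := card_pos.1 (by omega : 0 < w.1.card)
    have e := ew.symm.trans ((g12 _ _).2.2 (c1 x hx') hp0)
    have : u = x := funext fun i => by simpa [ptB, kap] using congrFun e (i, true)
    rwa [this]
  have hd : dst (F.pp v) (F.pp u0) = 1 := by
    rcases (l18 u0 v d0).2 with c | c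
    · exact (hv (c ▸ i0)).elim
    · rw [g1', c.1]
  obtain ⟨s, s1, s2⟩ := g9' _ _ hd
  obtain ⟨t1, t2⟩ := side_RAdd i0 hv s1 s2
  rw [← epp] at t1 t2
  have hc := hS D d F a b T S B C u s hVS hx.1 hx.2.2.2.1 (disjoint_left.1 a2 huw) (hreg u k1) t1
    (Or.inl ⟨hl1, t2⟩)
  refine ⟨B ⊔ ptB (F.pp u), insert u C, I.erase w, ⟨hx.1.trans le_sup_left,
    sup_le hx.2.1 (l7 u P (hK u k1)), insert_subset (a1 huw) hx.2.2.1, hc, fun z hz => ?_,
    fun z hz z' hz' => hx.2.2.2.2.2 z (mem_of_mem_erase hz) z' (mem_of_mem_erase hz')⟩,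
    fun x h => ?_⟩
  · obtain ⟨c, hz⟩ := mem_erase.1 hz
    obtain ⟨b1, b2, b3, b4, b5, b6⟩ := hx.2.2.2.2.1 z hz
    exact ⟨b1, disjoint_insert_right.2 ⟨disjoint_left.1 (hx.2.2.2.2.2 w hw z hz c.symm) huw, b2⟩,
      b3, b4, (g5' _ _ _ _ le_sup_left le_rfl).trans b5, b6⟩
  · rcases mem_insert.1 h with rfl | h
    · exact Or.inl (mono_RAdd (Q := ptB (F.pp u)) (epp ▸ fun _ => le_rfl) le_sup_right)
    rcases hcov x h with c | ⟨z, hz, c⟩
    · exact Or.inl (mono_RAdd c le_sup_left)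
    by_cases e : z = w
    · rw [e, ew] at c
      exact Or.inl (mono_RAdd (l3 u ▸ l7 x _ c) le_sup_right)
    · exact Or.inr ⟨z, mem_erase.2 ⟨e, hz⟩, c⟩

end Pool.Agent.MP_6d294b_pr
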