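import Pool.Agent.MP_6d294b_pr.Stm2

open Finset

namespace Pool.Agent.MP_6d294b_pr

variable {D d : ℕ}

/-- the two ways in which the chain can start -/
def Start_RChain (F : Fr D d) (T : ℕ) (ρ : ℤ) (S : Bx D) (A₀ : Finset (Pt d)) : Prop :=
  (IFl F S A₀ ∧ ((psi S : ℤ) ≤ ρ ∨ psi S = 0) ∧ ρ ≤ psi S + T) ∨
  ∃ (Q Q' : Bx D) (A₁ A₂ : Finset (Pt d)), A₁ ⊆ A₀ ∧ A₂ ⊆ A₀ ∧ Disjoint A₁ A₂ ∧ IFl F Q A₁ ∧
    IFl F Q' A₂ ∧ Val Q ∧ Val Q' ∧ S = Q ⊔ Q' ∧ gap Q Q' ≤ 2 ∧ T ≤ psi Q' ∧ psi Q' ≤ psi Q ∧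
    psi Q < psi (Q ⊔ Q') ∧ ρ < psi (Q ⊔ Q')

def Out_RChain (F : Fr D d) (a b T : ℕ) (ρ : ℤ) (A K : Finset (Pt d)) (P : Bx d) : Prop :=
  ∃ (S : Bx D) (A₀ A' : Finset (Pt d)), A₀ ⊆ A ∧ A' ⊆ A ∧ Disjoint A₀ A' ∧ Val S ∧
    Sta F a b T S A' K P ∧ Start_RChain F T ρ S A₀

theorem triv_RChain (F : Fr D d) (a b T : ℕ) {K : Finset (Pt d)} {P : Bx d}
    (h : ∀ x ∈ K, InB x P) : Sta F a b T (F.pr P) ∅ K P := by
  refine ⟨F.pr P, ∅, ∅, ⟨le_rfl, le_rfl, Subset.rfl, ⟨∅, fun _ => ∅, fun _ => ∅, ?_, ?_, ?_, ?_, ?_⟩,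
    ?_, ?_⟩, fun x hx => Or.inl fun s => h x hx (F.io s.1, s.2)⟩
  · intro u hu
    exact absurd hu (notMem_empty u)
  · intro s
    refine ⟨Subset.rfl, fun j hj => ?_⟩
    unfold JT at hj
    have := mem_Ioc.1 (mem_filter.1 hj).1
    omega
  · intro u hu
    exact absurd hu (notMem_empty u)
  · intro s t _
    exact disjoint_empty_left _
  · intro u hu
    exact absurd hu (notMem_empty u)
  · intro u hu
    exact absurd hu (notMem_empty u)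
  · intro u hu
    exact absurd hu (notMem_empty u)

theorem merge_RChain (hO : SOld) (hG : RGeo) (hMe : RMer) (F : Fr D d) (a b T : ℕ) (ρ : ℤ)
    {A B K L : Finset (Pt d)} {Q P : Bx d} {x y : Pt d} (h1 : Fill F.thr A K Q)
    (h2 : Fill F.thr B L P) (hd : Disjoint A B) (hx : x ∈ K) (hy : y ∈ L) (hxy : dst x y ≤ 2)
    (ih : F.Reg Q → ρ < psi (F.pr Q) → Out_RChain F a b T ρ A K Q)
    (hle : psi (F.pr P) ≤ psi (F.pr Q)) (hR : F.Reg (Q ⊔ P)) (hρ : ρ < psi (F.pr (Q ⊔ P))) :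
    Out_RChain F a b T ρ (A ∪ B) (K ∪ L) (Q ⊔ P) := by
  obtain ⟨hGap, hFill, -, -, hL, -⟩ := hG
  obtain ⟨-, l2, -, l4, -, l6, -, l8, -, -, -, -, -, -, l15, -⟩ := hL D d F
  obtain ⟨-, -, -, hA, -⟩ := hO
  obtain ⟨f1, f2, -, f4, f5, -⟩ := hFill d F.thr l2 A K Q h1
  obtain ⟨g1, -, -, g4, -⟩ := hFill d F.thr l2 B L P h2
  obtain ⟨-, -, -, k4, -⟩ := hFill d F.thr l2 _ _ _ (Fill.merge h1 h2 hd hx hy hxy)
  have vQ : Val (F.pr Q) := l6 Q ((hA d).1 A Q f1).1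
  have vP : Val (F.pr P) := l6 P ((hA d).1 B P g1).1
  have rQ : F.Reg Q := (l15 Q _ le_sup_left).2 hR
  have rP : F.Reg P := (l15 P _ le_sup_right).2 hR
  have iQ : IFl F (F.pr Q) A := ⟨A, K, Q, Subset.rfl, h1, rQ, rfl⟩
  have iP : IFl F (F.pr P) B := ⟨B, L, P, Subset.rfl, h2, rP, rfl⟩
  have hg : gap (F.pr Q) (F.pr P) ≤ 2 :=
    (l8 Q P).trans (((hGap d).2.2.2.1 Q P x y (f4 x hx) (g4 y hy)).trans hxy)
  have htop : ∀ s, ∃ z ∈ K, kap s z = Q s := fun s => by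
    obtain ⟨z, hz, e⟩ := f5 s
    exact ⟨z, f2 hz, e⟩
  have hpsi := (hGap D).2.2.2.2.2.2.2.2.2.2.2.2.1 (F.pr Q) (F.pr P) vQ
  by_cases hs : T ≤ psi (F.pr P) ∧ psi (F.pr Q) < psi (F.pr Q ⊔ F.pr P)
  · refine ⟨F.pr (Q ⊔ P), A ∪ B, ∅, Subset.rfl, empty_subset _, disjoint_empty_right _,
      ((hA D).2.2.2.1 _ _ vQ (l4 Q P ▸ le_sup_left)).1, triv_RChain F a b T k4,
      Or.inr ⟨F.pr Q, F.pr P, A, B, subset_union_left, subset_union_right, hd, iQ, iP, vQ, vP,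
        l4 Q P, hg, hs.1, hle, hs.2, l4 Q P ▸ hρ⟩⟩
  · have hor : psi (F.pr P) < T ∨ F.pr P ≤ F.pr Q := by
      by_cases h : psi (F.pr P) < T
      · exact Or.inl h
      · refine Or.inr fun s => ?_
        have h0 : ∑ s, (F.pr P s - F.pr Q s).toNat = 0 := by omega
        exact sub_nonpos.1 (Int.toNat_eq_zero.1 (sum_eq_zero_iff.1 h0 s (mem_univ s)))
    by_cases hq : ρ < psi (F.pr Q)
    · obtain ⟨S, A₀, A', a1, a2, a3, a4, a5, a6⟩ := ih rQ hq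
      exact ⟨S, A₀, A' ∪ B, a1.trans subset_union_left, union_subset_union_left a2,
        disjoint_union_right.2 ⟨a3, hd.mono_left a1⟩, a4,
        hMe D d F a b T S A' K B L Q P x y a4 hR htop a5 h2 (hd.mono_left a2) hx hy hxy hle hor, a6⟩
    · refine ⟨F.pr Q, A, ∅ ∪ B, subset_union_left, by rw [empty_union]; exact subset_union_right,
        by rw [empty_union]; exact hd, vQ,
        hMe D d F a b T _ ∅ K B L Q P x y vQ hR htop (triv_RChain F a b T f4) h2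
          (disjoint_empty_left _) hx hy hxy hle hor, Or.inl ⟨iQ, Or.inl (by omega), ?_⟩⟩
      rw [l4] at hρ
      rcases hor with h | h
      · have := ((hA D).2.2.2.2 _ _ vQ vP).2
        omega
      · rw [sup_eq_left.2 h] at hρ
        exact absurd hρ hq

theorem out_RChain (hO : SOld) (hG : RGeo) (hAd : RAdd) (hMe : RMer) (F : Fr D d) (a b T : ℕ)
    (hab : a ≤ b) (ρ : ℤ) {A K : Finset (Pt d)} {P : Bx d} (h : Fill F.thr A K P) :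
    F.Reg P → ρ < psi (F.pr P) → Out_RChain F a b T ρ A K P := by
  have hGap := hG.1
  have hFill := hG.2.1
  obtain ⟨-, l2, l3, -, -, l6, -⟩ := hG.2.2.2.2.1 D d F
  induction h with
  | pt x =>
    intro hR hρ
    obtain ⟨f1, -, -, f4, -⟩ := hFill d F.thr l2 _ _ _ (Fill.pt x)
    have h0 : psi (F.pr (ptB x)) = 0 := by
      rw [l3]
      exact (hGap D).2.2.2.2.2.2.2.2.2.2.1 _
    refine ⟨F.pr (ptB x), {x}, ∅, Subset.rfl, empty_subset _, disjoint_empty_right _,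
      l6 _ ((hO.2.2.2.1 d).1 _ _ f1).1, triv_RChain F a b T f4,
      Or.inl ⟨⟨{x}, {x}, ptB x, Subset.rfl, Fill.pt x, hR, rfl⟩, Or.inr h0, by omega⟩⟩
  | @merge A B K L Q P x y h1 h2 hd hx hy hxy ih1 ih2 =>
    intro hR hρ
    rcases le_total (psi (F.pr P)) (psi (F.pr Q)) with hle | hle
    · exact merge_RChain hO hG hMe F a b T ρ h1 h2 hd hx hy hxy ih1 hle hR hρ
    · rw [sup_comm] at hR hρ
      rw [union_comm A, union_comm K, sup_comm]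
      exact merge_RChain hO hG hMe F a b T ρ h2 h1 hd.symm hy hx
        (by rw [(hGap d).1]; exact hxy) ih2 hle hR hρ
  | @add A K P v h1 hv ih =>
    intro hR hρ
    obtain ⟨S, A₀, A', a1, a2, a3, a4, a5, a6⟩ := ih hR hρ
    exact ⟨S, A₀, A', a1, a2, a3, a4,
      hAd D d F a b T S A' K P v a4 hab hR (hFill d F.thr l2 _ _ _ h1).2.2.2.1 a5 hv, a6⟩

theorem rChain (hO : SOld) (hG : RGeo) (hAd : RAdd) (hMe : RMer) (hE : REnd) : RChain := by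
  intro D d F a b T A K P h hR hab hT
  obtain ⟨S, A₀, A', a1, a2, a3, a4, ⟨B, C, I, hx, hK⟩, a6⟩ :=
    out_RChain hO hG hAd hMe F a b T hab ((psi (F.pr P) : ℤ) - T) h hR (by omega)
  obtain ⟨-, f2, -, -, f5, -⟩ := hG.2.1 d F.thr (hG.2.2.2.2.1 D d F).2.1 A K P h
  have htop := (hE D d F a b T S B A' C K P I hx hK).2 fun s => by
    obtain ⟨z, hz, e⟩ := f5 s
    exact ⟨z, f2 hz, e⟩
  obtain ⟨b1, b2, b3, b4, -⟩ := hx
  have hd : Disjoint A₀ C := a3.mono_right b3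
  rcases a6 with ⟨c1, c2, c3⟩ | ⟨Q, Q', A₁, A₂, c1, c2, c3, c4, c5, c6, c7, rfl, c9, c10, c11, c12, c13⟩
  · exact Or.inl ⟨S, B, A₀, C, a1, b3.trans a2, hd, c1, b4, a4, b1, b2, htop, by omega, by omega⟩
  · exact Or.inr ⟨Q, Q', B, A₁, A₂, C, c1.trans a1, c2.trans a1, b3.trans a2, c3, hd.mono_left c1,
      hd.mono_left c2, c4, c5, b4, c6, c7, b1, b2, htop, c9, c10, c11, c12, by omega⟩

end Pool.Agent.MP_6d294b_pr
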