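import Pool.Agent.MP_6d294b_pr.Stm2

open Finset

namespace Pool.Agent.MP_6d294b_pr

theorem lg_le_RCrit {d N : ℕ} (R : Bx d) (h : psi R ≤ 2 * N) :
    lg R ≤ d * Real.log (2 * N + 1) := by
  unfold lg
  have h1 : ∀ i ∈ (univ : Finset (Fin d)),
      Real.log ((ex R i : ℝ) + 1) ≤ Real.log (2 * N + 1) := by
    intro i _
    have h2 : ex R i ≤ psi R := single_le_sum (f := ex R) (fun _ _ => Nat.zero_le _) (mem_univ i)
    have h3 : ((ex R i : ℕ) : ℝ) ≤ ((2 * N : ℕ) : ℝ) := Nat.cast_le.2 (h2.trans h)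
    push_cast at h3
    exact Real.log_le_log (by positivity) (by linarith)
  refine (sum_le_card_nsmul _ _ _ h1).trans_eq ?_
  rw [card_univ, Fintype.card_fin, nsmul_eq_mul]

theorem rCrit (hO : SOld) (hG : RGeo) (hN : RAna) (hI : RInd) : RCrit := by
  intro D d
  have _ := hG
  obtain ⟨C₀, h7⟩ := hI D d
  refine ⟨C₀, fun π hC hP F hF Ω R hR hN1 hN2 => ?_⟩
  obtain ⟨-, -, -, -, -, -, -, h5, h6⟩ := hO
  obtain ⟨Φ, hΦ⟩ := (h5 D fun k : ℕ => π.co D d k).1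
  obtain ⟨m, m1, m2, m3, -⟩ := (hN.2.1 (d - D + 1) (by omega)).1
  obtain ⟨-, -, -, -, -, -, -, -, -, -, -, e1, e2, e3, -, -, e4, -, -, e5, -⟩ := hN.2.2 D d π hP
  have hp' : 0 < π.p := hP.2.2.1
  have hs0 : (0 : ℝ) < π.ss D := by exact_mod_cast (by omega : 0 < π.ss D)
  have pos : ∀ z : ℝ, 0 ≤ z → 0 < π.p * (z + π.ss D) := fun z hz => by positivity
  have a1 := h6 D (π.co D d) (fun z => π.p * m (π.p * (z + π.ss D))) Φ
    (by have := hP.1; omega) hΦ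
    (fun z z' hz hz' => by
      have := m1 _ _ (pos z hz) (pos z' hz')
      unfold Pm.co
      linarith)
    (fun z z' hz hz' => mul_le_mul_of_nonneg_left
      (m2 _ _ (pos z hz) (mul_le_mul_of_nonneg_left (by linarith) hp'.le)) hp'.le)
    (fun z hz => mul_nonpos_of_nonneg_of_nonpos hp'.le (m3 _ (pos z hz))) (ex R)
  have a2 : ∑ t ∈ range π.N, π.co D d ((((t : ℝ) + D + 1) / D) ^ (D - 1))
      ≤ ∑ t ∈ range (∑ i, ex R i), π.co D d ((((t : ℝ) + D + 1) / D) ^ (D - 1)) :=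
    sum_le_sum_of_subset_of_nonneg (range_subset_range.2 hN1)
      fun t _ _ => (e5 _ (by positivity)).1
  refine (h7 π hC hP F hF Ω Φ hΦ R hR hN2).trans (Real.exp_le_exp.2 ?_)
  have b1 : ((psi R : ℕ) : ℝ) ≤ ((2 * π.N : ℕ) : ℝ) := Nat.cast_le.2 hN2
  push_cast at b1
  have b2 := mul_le_mul_of_nonneg_left b1 (add_nonneg e1 e2)
  have b3 := mul_le_mul_of_nonneg_left (lg_le_RCrit R hN2) e3
  unfold Pm.eps
  linarith

end Pool.Agent.MP_6d294b_pr
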