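import Pool.Agent.MP_6d294b_pr.Stm2

open Finset

namespace Pool.Agent.MP_6d294b_pr

lemma card_JT_RCrossB {D d : ℕ} (F : Fr D d) (S B : Bx D) (U : Finset (Rc D d)) (s : Sd D) :
    (B s - S s).toNat ≤ (JT F S B U s).card + ∑ u ∈ U, u.2.1 s := by
  classical
  have h : Finset.Ioc (S s) (B s) ⊆ JT F S B U s ∪
      U.biUnion (fun u => Finset.Ioc (F.pr u.1 s - u.2.1 s) (F.pr u.1 s)) := by
    intro j hj
    by_cases hc : ∀ u ∈ U, ¬ (F.pr u.1 s - u.2.1 s < j ∧ j ≤ F.pr u.1 s)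
    · exact mem_union_left _ (by unfold JT; exact mem_filter.2 ⟨hj, hc⟩)
    · push Not at hc
      obtain ⟨u, hu, h1, h2⟩ := hc
      exact mem_union_right _ (mem_biUnion.2 ⟨u, hu, mem_Ioc.2 ⟨h1, h2⟩⟩)
  have h2 := (card_le_card h).trans (card_union_le _ _)
  rw [Int.card_Ioc] at h2
  refine h2.trans (Nat.add_le_add_left (card_biUnion_le.trans (le_of_eq ?_)) _)
  refine sum_congr rfl fun u _ => ?_
  rw [Int.card_Ioc]
  simp

lemma pow_JT_RCrossB {D d : ℕ} (F : Fr D d) (S B : Bx D) (U : Finset (Rc D d)) (s : Sd D) {b : ℝ}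
    (h0 : 0 < b) (h1 : b ≤ 1) :
    b ^ (JT F S B U s).card ≤ b ^ (B s - S s).toNat * ∏ u ∈ U, b⁻¹ ^ u.2.1 s := by
  rw [Finset.prod_pow_eq_pow_sum, inv_pow, ← div_eq_mul_inv, le_div_iff₀ (by positivity), ← pow_add]
  exact pow_le_pow_of_le_one h0.le h1 (card_JT_RCrossB F S B U s)

theorem rCrossB (hO : SOld) (hG : RGeo) : RCrossB := by
  classical
  obtain ⟨hA, -, hBK, -⟩ := hO
  obtain ⟨-, -, -, -, -, hL, -⟩ := hG
  intro D d F Ω p p0 p1 a b T S B β hS hSB hb hgood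
  obtain ⟨a1, -, a3, -, a5, -⟩ := hA (Pt d) Ω p p0 (by linarith)
  let E : Finset (Rc D d) → Rc D d ⊕ Sd D → Finset (Pt d) → Prop := fun U =>
    Sum.elim (fun u => WE F u) (fun s => GdR F B s (JT F S B U s))
  have hE : ∀ U k, Incr (E U k) := by
    rintro U (u | s) A A' hAB h
    · obtain ⟨C, hC, hs⟩ := h
      exact ⟨C, hC.trans hAB, hs⟩
    · intro j hj
      rcases h j hj with ⟨x, hx, h⟩ | ⟨h1, x, hx, h⟩
      · exact Or.inl ⟨x, hAB hx, h⟩
      · exact Or.inr ⟨h1, x, hAB hx, h⟩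
  have step1 := a3 (Crs F a b T S B) (fun A => ∃ U ∈ (admS F a b T S B).powerset,
      ∃ w : Rc D d ⊕ Sd D → Finset (Pt d), (∀ k ∈ U.disjSum univ, w k ⊆ A ∧ E U k (w k)) ∧
        ∀ k ∈ U.disjSum univ, ∀ l ∈ U.disjSum univ, k ≠ l → Disjoint (w k) (w l)) (by
    rintro A - ⟨U, w, W, h1, h2, h3, h4, h5⟩
    refine ⟨U, mem_powerset.2 fun u hu => ?_, Sum.elim w W, ?_, ?_⟩
    · exact ((hL D d F).2.2.1 a b T S B hS hSB u).2 (h1 u hu).1
    · rintro (u | s) hk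
      · have hu : u ∈ U := by simpa using hk
        exact ⟨(h1 u hu).2.1, w u, Subset.rfl, (h1 u hu).2.2⟩
      · exact h2 s
    · rintro (u | s) hk (v | t) hl hne
      · exact h3 u (by simpa using hk) v (by simpa using hl) (fun h => hne (by rw [h]))
      · exact h5 u (by simpa using hk) t
      · exact (h5 v (by simpa using hl) s).symm
      · exact h4 s t (fun h => hne (by rw [h])))
  refine step1.trans ((a5 _ _ _).trans ?_)
  have wn : ∀ u : Rc D d, 0 ≤ Pr Ω p (WE F u) * ∏ s : Sd D, (β s.1)⁻¹ ^ u.2.1 s := fun u =>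
    mul_nonneg (a1 _) (prod_nonneg fun s _ => pow_nonneg (inv_nonneg.2 (hb _).1.le) _)
  have pn : 0 ≤ ∏ s : Sd D, β s.1 ^ (B s - S s).toNat :=
    prod_nonneg fun s _ => pow_nonneg (hb _).1.le _
  calc _ ≤ ∑ U ∈ (admS F a b T S B).powerset, (∏ s : Sd D, β s.1 ^ (B s - S s).toNat) *
        ∏ u ∈ U, (Pr Ω p (WE F u) * ∏ s : Sd D, (β s.1)⁻¹ ^ u.2.1 s) := by
        refine sum_le_sum fun U _ => ?_
        refine (hBK (Pt d) Ω p p0 p1 _ (U.disjSum univ) (E U) (fun k _ => hE U k)).trans ?_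
        rw [Finset.prod_disjSum, prod_mul_distrib, prod_comm, mul_left_comm, ← prod_mul_distrib]
        refine mul_le_mul_of_nonneg_left ?_ (prod_nonneg fun u _ => a1 _)
        refine prod_le_prod (fun s _ => a1 _) fun s _ => ?_
        exact (hgood s _).trans (pow_JT_RCrossB F S B U s (hb _).1 (hb _).2)
    _ = (∏ s : Sd D, β s.1 ^ (B s - S s).toNat) *
        ∏ u ∈ admS F a b T S B, (1 + Pr Ω p (WE F u) * ∏ s : Sd D, (β s.1)⁻¹ ^ u.2.1 s) := by
        rw [← mul_sum, Finset.prod_one_add]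
    _ ≤ _ := by
        refine mul_le_mul_of_nonneg_left ?_ pn
        rw [Real.exp_sum]
        refine prod_le_prod (fun u _ => add_nonneg zero_le_one (wn u)) fun u _ => ?_
        rw [add_comm]; exact Real.add_one_le_exp _

end Pool.Agent.MP_6d294b_pr
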