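import Pool.Agent.MP_6d294b_pr.Stm2

open Finset

namespace Pool.Agent.MP_6d294b_pr

lemma card_JT_RCrossC {D d : ℕ} (F : Fr D d) (S B : Bx D) (U : Finset (Rc D d)) (s : Sd D) :
    (B s - S s).toNat ≤ (JT F S B U s).card + ∑ u ∈ U, u.2.1 s := by
  classical
  have h : Finset.Ioc (S s) (B s) ⊆ JT F S B U s ∪
      U.biUnion (fun u => Finset.Ioc (F.pr u.1 s - u.2.1 s) (F.pr u.1 s)) := by
    intro j hj
    by_cases hc : ∀ u ∈ U, ¬ (F.pr u.1 s - u.2.1 s < j ∧ j ≤ F.pr u.1 s)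
    · exact mem_union_left _ (by unfold JT; exact mem_filter.2 ⟨hj, hc⟩)
    · push Not at hc
      obtain ⟨u, hu, h1, h2⟩ := hc
      exact mem_union_right _ (mem_biUnion.2 ⟨u, hu, mem_Ioc.2 ⟨h1, h2⟩⟩)
  have h2 := (card_le_card h).trans (card_union_le _ _)
  rw [Int.card_Ioc] at h2
  refine h2.trans (Nat.add_le_add_left (card_biUnion_le.trans (le_of_eq ?_)) _)
  refine sum_congr rfl fun u _ => ?_
  rw [Int.card_Ioc]
  simp

lemma gd_RCrossC {D d : ℕ} (F : Fr D d) (B : Bx D) (s : Sd D) (J : Finset ℤ)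
    (W X : Finset (Pt d))
    (hX : ∀ y ∈ W, F.Reg (ptB y) → F.lev (ptB y) ≤ 1 → InB (F.pp y) B → y ∈ X)
    (h : GdR F B s J W) : J.card ≤ 2 * (W ∩ X).card := by
  have h1 : J ⊆ (W ∩ X).image (fun y => kap s (F.pp y)) ∪
      (W ∩ X).image (fun y => kap s (F.pp y) - 1) := by
    intro j hj
    rcases h j hj with ⟨y, hy, a1, a2, a3, a4⟩ | ⟨-, y, hy, a1, a2, a3, a4⟩
    · exact mem_union_left _ (mem_image.2 ⟨y, mem_inter.2 ⟨hy, hX y hy a1 a2 a3⟩, a4⟩)
    · exact mem_union_right _ (mem_image.2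
        ⟨y, mem_inter.2 ⟨hy, hX y hy a1 (by omega) a3⟩, by omega⟩)
  have h2 := (card_le_card h1).trans (card_union_le _ _)
  have h3 := card_image_le (s := W ∩ X) (f := fun y => kap s (F.pp y))
  have h4 := card_image_le (s := W ∩ X) (f := fun y => kap s (F.pp y) - 1)
  omega

lemma num_RCrossC (c m n : ℕ) {p x K : ℝ} (p0 : 0 ≤ p) (hx : 1 ≤ x) (hn : n ≤ 2 * m)
    (hc : (c : ℝ) ≤ K) : (c.choose m : ℝ) * p ^ m ≤ x⁻¹ ^ n * Real.exp (K * p * x ^ 2) := by
  have x0 : 0 < x := by linarith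
  have h1 : (c.choose m : ℝ) ≤ (c : ℝ) ^ m / m.factorial := Nat.choose_le_pow_div m c
  have h2 := Real.pow_div_factorial_le_exp (c * p * x ^ 2) (by positivity) m
  have h3 : Real.exp (c * p * x ^ 2) ≤ Real.exp (K * p * x ^ 2) :=
    Real.exp_le_exp.2 (by gcongr)
  have h4 : x⁻¹ ^ (2 * m) ≤ x⁻¹ ^ n :=
    pow_le_pow_of_le_one (by positivity) (inv_le_one_of_one_le₀ hx) hn
  calc _ ≤ (c : ℝ) ^ m / m.factorial * p ^ m := by gcongr
    _ = x⁻¹ ^ (2 * m) * ((c * p * x ^ 2) ^ m / m.factorial) := by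
      rw [mul_pow, mul_pow, ← pow_mul, inv_pow]; field_simp
    _ ≤ _ := mul_le_mul h4 (h2.trans h3) (by positivity) (by positivity)

theorem rCrossC (hO : SOld) (hG : RGeo) : RCrossC := by
  classical
  intro D d F Ω p p0 p1 a b T S B x hS hSB hx
  obtain ⟨hA, -, hBK, hGA, -⟩ := hO
  obtain ⟨-, -, -, -, -, hLB, -, hBox, -⟩ := hG
  obtain ⟨a1, -, a3, -, a5, a6⟩ := hA (Pt d) Ω p p0 (by linarith)
  have x0 : 0 < x := by linarith
  obtain ⟨X, hX1, hX2⟩ : ∃ X : Finset (Pt d), (X.card : ℝ) ≤ (d + 1) * volB B ∧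
      ∀ y ∈ Ω, F.Reg (ptB y) → F.lev (ptB y) ≤ 1 → InB (F.pp y) B → y ∈ X := by
    obtain ⟨Xp, h1, h2⟩ := ((hBox D).2.2.2.1 B).2.2.1
    refine ⟨Ω.filter fun y => F.Reg (ptB y) ∧ F.lev (ptB y) ≤ 1 ∧ InB (F.pp y) B, ?_,
      fun y hy b1 b2 b3 => mem_filter.2 ⟨hy, b1, b2, b3⟩⟩
    have h3 := ((hLB D d F).2.2.2.2
      (Ω.filter fun y => F.Reg (ptB y) ∧ F.lev (ptB y) ≤ 1 ∧ InB (F.pp y) B) Xp
      fun y hy => ⟨(mem_filter.1 hy).2.1, (h2 _).2 (mem_filter.1 hy).2.2.2⟩).2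
      fun y hy => (mem_filter.1 hy).2.2.1
    have h4 := h3.trans (Nat.mul_le_mul (show d - D + 1 ≤ d + 1 by omega) h1)
    exact_mod_cast h4
  let E : Finset (Rc D d) → Rc D d ⊕ Unit → Finset (Pt d) → Prop := fun U =>
    Sum.elim (fun u => WE F u) fun _ A => (∑ s, (JT F S B U s).card + 1) / 2 ≤ (A ∩ X).card
  have hE : ∀ U k, Incr (E U k) := by
    rintro U (u | s) A A' hAB h
    · obtain ⟨C, hC, hs⟩ := h
      exact ⟨C, hC.trans hAB, hs⟩
    · exact le_trans h (card_le_card (inter_subset_inter_right hAB))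
  have step1 := a3 (Crs F a b T S B) (fun A => ∃ U ∈ (admS F a b T S B).powerset,
      ∃ w : Rc D d ⊕ Unit → Finset (Pt d), (∀ k ∈ U.disjSum univ, w k ⊆ A ∧ E U k (w k)) ∧
        ∀ k ∈ U.disjSum univ, ∀ l ∈ U.disjSum univ, k ≠ l → Disjoint (w k) (w l)) (by
    rintro A hA ⟨U, w, W, h1, h2, h3, h4, h5⟩
    refine ⟨U, mem_powerset.2 fun u hu => ((hLB D d F).2.2.1 a b T S B hS hSB u).2 (h1 u hu).1,
      Sum.elim w fun _ => univ.biUnion W, ?_, ?_⟩
    · rintro (u | s) hk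
      · have hu : u ∈ U := by simpa using hk
        exact ⟨(h1 u hu).2.1, w u, Subset.rfl, (h1 u hu).2.2⟩
      · refine ⟨biUnion_subset.2 fun s _ => (h2 s).1, ?_⟩
        show (∑ s, (JT F S B U s).card + 1) / 2 ≤ (univ.biUnion W ∩ X).card
        rw [biUnion_inter, card_biUnion fun s _ t _ hne =>
          (h4 s t hne).mono inter_subset_left inter_subset_left]
        have := sum_le_sum (s := univ) fun s _ => gd_RCrossC F B s _ (W s) X
          (fun y hy => hX2 y (hA ((h2 s).1 hy))) (h2 s).2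
        rw [← mul_sum] at this
        omega
    · rintro (u | s) hk (v | t) hl hne
      · exact h3 u (by simpa using hk) v (by simpa using hl) (fun h => hne (by rw [h]))
      · exact (disjoint_biUnion_right _ _ _).2 fun t _ => h5 u (by simpa using hk) t
      · exact (disjoint_biUnion_left _ _ _).2 fun t _ => (h5 v (by simpa using hl) t).symm
      · exact absurd rfl hne)
  refine step1.trans ((a5 _ _ _).trans ?_)
  have wn : ∀ u : Rc D d, 0 ≤ Pr Ω p (WE F u) * x ^ (∑ s, u.2.1 s) := fun u =>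
    mul_nonneg (a1 _) (by positivity)
  calc _ ≤ ∑ U ∈ (admS F a b T S B).powerset,
        (x⁻¹ ^ (psi B - psi S) * Real.exp ((d + 1) * volB B * p * x ^ 2)) *
        ∏ u ∈ U, (Pr Ω p (WE F u) * x ^ (∑ s, u.2.1 s)) := by
        refine sum_le_sum fun U _ => ?_
        refine (hBK (Pt d) Ω p p0 p1 _ (U.disjSum univ) (E U) (fun k _ => hE U k)).trans ?_
        rw [Finset.prod_disjSum, prod_mul_distrib, mul_left_comm, Fintype.prod_unique]
        refine mul_le_mul_of_nonneg_left ?_ (prod_nonneg fun u _ => a1 _)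
        refine ((a6 X _).trans (num_RCrossC X.card _ (∑ s, (JT F S B U s).card) p0 hx
          (by omega) hX1)).trans ?_
        rw [mul_right_comm (x⁻¹ ^ (psi B - psi S))]
        refine mul_le_mul_of_nonneg_right ?_ (Real.exp_pos _).le
        have e1 := ((hGA D).2.2.2.1 S B hS hSB).2.2.2.1
        have e2 := sum_le_sum (s := univ) fun s _ => card_JT_RCrossC F S B U s
        rw [sum_add_distrib, sum_comm] at e2
        rw [Finset.prod_pow_eq_pow_sum, ← div_le_iff₀ (by positivity), div_eq_mul_inv, ← inv_pow,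
          ← pow_add]
        exact pow_le_pow_of_le_one (by positivity) (inv_le_one_of_one_le₀ hx) (by omega)
    _ = (x⁻¹ ^ (psi B - psi S) * Real.exp ((d + 1) * volB B * p * x ^ 2)) *
        ∏ u ∈ admS F a b T S B, (1 + Pr Ω p (WE F u) * x ^ (∑ s, u.2.1 s)) := by
        rw [← mul_sum, Finset.prod_one_add]
    _ ≤ _ := by
        rw [Real.exp_add, ← mul_assoc]
        refine mul_le_mul_of_nonneg_left ?_ (by positivity)
        rw [Real.exp_sum]
        refine prod_le_prod (fun u _ => add_nonneg zero_le_one (wn u)) fun u _ => ?_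
        rw [add_comm]; exact Real.add_one_le_exp _

end Pool.Agent.MP_6d294b_pr
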