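import Pool.Agent.MP_6d294b_pr.Stm2

open Finset

namespace Pool.Agent.MP_6d294b_pr

theorem rDrop (hN : RAna) (hI : RInt) (hP : RPar) (hC : RCrit) : RDrop := by
  intro d r hr hd
  have e1 : d - (d - r + 2) + 1 = r - 1 := by omega
  have e2 : d - r + 1 = d - r + 2 - 1 := by omega
  have D2 : 2 ≤ d - r + 2 := by omega
  have Dd : d - r + 2 ≤ d := by omega
  unfold lamk
  rw [e2]
  generalize d - r + 2 = D at *
  obtain ⟨C0, hC⟩ := hC D d
  obtain ⟨C', q0, C'p, q0p, hP⟩ := hP D d (max C0 1) D2 Dd (le_max_right _ _)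
  refine ⟨C' + D ^ 2 * (4 + 2 * C') + D, by positivity, q0, q0p, fun q qp hq k k1 k2 => ?_⟩
  obtain ⟨π, B, pk, pC, pp, hpar, n1, n2, y1, B1, B2, B3, y2, y3⟩ := hP q qp hq k k1 k2
  refine ⟨π.N, n1, n2, fun F hF Ω R hR r1 r2 => ?_⟩
  have h1 := hC π (pC ▸ le_max_left _ _) hpar F (hF.trans pk.symm) Ω R hR r1 r2
  have G1 : 1 ≤ π.G := hpar.2.2.2.2.2.2.2.2.1
  have hs : ((π.ss D : ℕ) : ℝ) ≤ ((π.G * (π.M + 1) : ℕ) : ℝ) ^ (D - 1) := by
    have : π.ss D ≤ (π.G * (π.M + 1)) ^ (D - 1) := by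
      unfold Pm.ss
      rw [mul_pow]
      exact Nat.mul_le_mul_right _ (Nat.le_self_pow (by omega) _)
    exact_mod_cast this
  have h2 := hI D (gk (r - 1)) D2
    (fun z z' hz hz' => ((hN.2.1 (r - 1) (by omega)).2 z z' hz hz').1)
    (fun z hz => ((hN.1 (r - 1) (by omega)).2 z hz).2) q B (π.ss D) (π.G * (π.M + 1)) π.N qp y1 B1
    B2 (Nat.cast_nonneg _) hs
  unfold Pm.pb Pm.co at h1
  rw [pp, e1] at h1
  refine h1.trans (Real.exp_le_exp.2 ?_)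
  have l1 : 1 ≤ Real.log (1 / q) := B3 ▸ one_le_pow₀ B1
  have ex : Real.exp (-B ^ (D - 1)) = q := by
    rw [B3, Real.exp_neg, Real.exp_log (by positivity)]; simp
  rw [ex] at h2
  beta_reduce
  generalize Real.log (1 / q) = l at *
  generalize ((π.G * (π.M + 1) : ℕ) : ℝ) = Y at *
  generalize ∫ z in Set.Ioi (0 : ℝ), gk (r - 1) (z ^ (D - 1)) = lam at *
  have q1 : q ≤ 1 := by
    have : (1 : ℝ) / q ≤ 1 / q ^ 2 := n1.trans n2
    rw [div_le_div_iff₀ qp (by positivity)] at this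
    nlinarith
  have sp := Real.sqrt_pos.2 qp
  have s1 : Real.sqrt q ≤ 1 := Real.sqrt_le_one.2 q1
  have lp : 0 < l := by linarith
  have a1 : l ≤ l ^ 6 / Real.sqrt q := by
    rw [le_div_iff₀ sp]
    exact (mul_le_of_le_one_right lp.le s1).trans (le_self_pow₀ l1 (by norm_num))
  have a2 : C' * l ^ 3 / Real.sqrt q ≤ C' * (l ^ 6 / Real.sqrt q) := by
    rw [mul_div_assoc]
    gcongr
    norm_num
  have a3 : (2 + Y) * (1 + l) ≤ (4 + 2 * C') * (l ^ 6 / Real.sqrt q) := by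
    calc (2 + Y) * (1 + l) ≤ (2 + C' * l ^ 5 / Real.sqrt q) * (2 * l) := by
          gcongr; linarith
      _ = 4 * l + 2 * C' * (l ^ 6 / Real.sqrt q) := by ring
      _ ≤ _ := by linarith
  have a4 : (D : ℝ) ≤ D * (l ^ 6 / Real.sqrt q) :=
    le_mul_of_one_le_right (Nat.cast_nonneg _) (l1.trans a1)
  have a5 := mul_le_mul_of_nonneg_left a3 (sq_nonneg (D : ℝ))
  have e3 : D / q * (lam - D * (q * (2 + Y)) * (1 + l) - q)
      = D * lam / q - D ^ 2 * ((2 + Y) * (1 + l)) - D := by field_simp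
  rw [e3] at h2
  have e4 : (C' + D ^ 2 * (4 + 2 * C') + D) * l ^ 6 / Real.sqrt q = C' * (l ^ 6 / Real.sqrt q)
      + D ^ 2 * ((4 + 2 * C') * (l ^ 6 / Real.sqrt q)) + D * (l ^ 6 / Real.sqrt q) := by ring
  rw [e4]
  linarith

end Pool.Agent.MP_6d294b_pr
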