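import Pool.Agent.MP_6d294b_pr.Stm2

open Finset

namespace Pool.Agent.MP_6d294b_pr

theorem rEnd (_hO : SOld) (hG : RGeo) : REnd := by
  intro D d F a b T S B A C K P I hS hK
  obtain ⟨hGap, -, -, -, hL, -⟩ := hG
  obtain ⟨-, -, -, -, -, g6, g7, -⟩ := hGap D
  obtain ⟨-, -, -, -, -, -, l7, -, -, l10, -⟩ := hL D d F
  have h1 : ∀ x ∈ K, gap B (ptB (F.pp x)) ≤ a + 1 := by
    intro x hx
    rcases hK x hx with h | ⟨u, hu, h⟩
    · rw [g7, sum_eq_zero fun s _ => Int.toNat_eq_zero.2 (sub_nonpos.2 (h s))]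
      exact Nat.zero_le _
    · obtain ⟨-, -, -, -, k1, k2, -⟩ := hS.2.2.2.2.1 u hu
      have e1 := g6 B (F.pr u.2) (F.pp x) (F.pp x) (l7 x u.2 h)
      have e2 : dst (F.pp x) (F.pp x) = 0 := by simp [dst]
      have e3 := l10 u.2
      omega
  refine ⟨h1, fun hz s => ?_⟩
  obtain ⟨z, zK, e⟩ := hz (F.io s.1, s.2)
  have e1 : F.pr P s = kap s (F.pp z) := e.symm
  have e2 := h1 z zK
  rw [g7] at e2
  have e3 : (kap s (F.pp z) - B s).toNat ≤ ∑ s, (kap s (F.pp z) - B s).toNat :=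
    single_le_sum (f := fun s => (kap s (F.pp z) - B s).toNat) (fun _ _ => Nat.zero_le _)
      (mem_univ s)
  omega

end Pool.Agent.MP_6d294b_pr
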