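import Pool.Agent.MP_6d294b_pr.Stm2

open Finset

namespace Pool.Agent.MP_6d294b_pr

variable {d D : ℕ}

/-- the points of a box -/
noncomputable def pts_RGood (R : Bx d) : Finset (Pt d) :=
  Fintype.piFinset fun i => Finset.Icc (- R (i, false)) (R (i, true))

theorem mem_pts_RGood {R : Bx d} {x : Pt d} (h : InB x R) : x ∈ pts_RGood R := by
  simp only [pts_RGood, Fintype.mem_piFinset, mem_Icc]
  refine fun i => ⟨?_, ?_⟩
  · have := h (i, false)
    simp only [kap] at this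
    simp at this
    omega
  · have := h (i, true)
    simpa [kap] using this

open Classical in
/-- the points of one layer up to a given level -/
noncomputable def lay_RGood (F : Fr D d) (h : ℤ) (R : Bx D) (s : Sd D) (j : ℤ) :
    Finset (Pt d) :=
  (pts_RGood (F.lift R)).filter fun x =>
    F.Reg (ptB x) ∧ F.lev (ptB x) ≤ h ∧ InB (F.pp x) R ∧ kap s (F.pp x) = j

theorem mem_lay_RGood (hA : RLiftA) {F : Fr D d} {h : ℤ} {R : Bx D} {s : Sd D} {j : ℤ}
    {x : Pt d} : x ∈ lay_RGood F h R s j ↔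
      F.Reg (ptB x) ∧ F.lev (ptB x) ≤ h ∧ InB (F.pp x) R ∧ kap s (F.pp x) = j := by
  classical
  obtain ⟨-, -, a3, -, -, -, -, -, -, -, -, -, a13, -⟩ := hA D d F
  rw [lay_RGood, mem_filter]
  refine ⟨fun h => h.2, fun h => ⟨mem_pts_RGood ?_, h⟩⟩
  exact (a13 R (ptB x)).2 ⟨by rw [a3]; exact h.2.2.1, h.1⟩

theorem oc_inter_RGood (hA : RLiftA) (F : Fr D d) {h : ℤ} (hh : h ≤ 1) (R : Bx D) (s : Sd D)
    (j : ℤ) (A : Finset (Pt d)) : Oc F h R s j A ↔ Oc F h R s j (A ∩ lay_RGood F 1 R s j) :=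
  ⟨fun ⟨x, h1, h2⟩ => ⟨x, mem_inter.2 ⟨h1, (mem_lay_RGood hA).2
      ⟨h2.1, h2.2.1.trans hh, h2.2.2⟩⟩, h2⟩,
    fun ⟨x, h1, h2⟩ => ⟨x, (mem_inter.1 h1).1, h2⟩⟩

theorem oc_sdiff_RGood (hA : RLiftA) (F : Fr D d) (h : ℤ) (R : Bx D) (s : Sd D) {j k : ℤ}
    (hj : j ≠ k) (A : Finset (Pt d)) :
    Oc F h R s j A ↔ Oc F h R s j (A \ lay_RGood F 1 R s k) :=
  ⟨fun ⟨x, h1, h2⟩ => ⟨x, mem_sdiff.2 ⟨h1, fun h3 =>
      hj (h2.2.2.2.symm.trans ((mem_lay_RGood hA).1 h3).2.2.2)⟩, h2⟩,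
    fun ⟨x, h1, h2⟩ => ⟨x, (mem_sdiff.1 h1).1, h2⟩⟩

theorem gd_sdiff_RGood (hA : RLiftA) (F : Fr D d) (R : Bx D) (s : Sd D) {J : Finset ℤ} {k : ℤ}
    (h : k ∉ J) (A : Finset (Pt d)) :
    GdR F R s J A ↔ GdR F R s J (A \ lay_RGood F 1 R s k) := by
  refine forall₂_congr fun j hj => or_congr
    (oc_sdiff_RGood hA F 1 R s (ne_of_mem_of_not_mem hj h) A)
    (and_congr_right fun h1 => oc_sdiff_RGood hA F 0 R s (ne_of_mem_of_not_mem h1 h) A)

theorem rGood (hO : SOld) (hG : RGeo) (hb : RBet) : RGood := by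
  classical
  obtain ⟨hA, hP, -, -, hB, -⟩ := hO
  obtain ⟨-, -, -, -, hLA, hLB, -⟩ := hG
  intro D d F Ω p p0 p1 R s u hu u1 J
  obtain ⟨a0, a1, a2, a3, -, -⟩ := hA (Pt d) Ω p p0 p1
  obtain ⟨b1, b2, b3, -⟩ := hP (Pt d) Ω p p0 p1
  have u0 : 0 ≤ u := le_trans (sub_nonneg.2 (pow_le_one₀ (by linarith) (by linarith))) hu
  obtain ⟨c1, -, c3⟩ := (hb (d - D + 1) (by omega)).1 u u0 u1
  generalize betk (d - D + 1) u = β at c1 c3 ⊢
  have c0 : 0 ≤ β := u0.trans c1
  have occ : ∀ (h j : ℤ) (n : ℕ), (lay_RGood F h R s j).card ≤ n →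
      Pr Ω p (Oc F h R s j) ≤ 1 - (1 - p) ^ n := fun h j n h4 => by
    have h1 := b3 (lay_RGood F h R s j)
    have h2 := b2 fun A => A ∩ lay_RGood F h R s j = ∅
    have h3 := a2 (Oc F h R s j) (fun A => ¬ A ∩ lay_RGood F h R s j = ∅)
      fun A _ ⟨x, h1, h2⟩ e => notMem_empty x (e ▸ mem_inter.2 ⟨h1, (mem_lay_RGood hLA).2 h2⟩)
    have h5 : (1 - p) ^ n ≤ (1 - p) ^ (lay_RGood F h R s j).card :=
      pow_le_pow_of_le_one (by linarith) (by linarith) h4
    linarith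
  have cnt : ∀ h j : ℤ, ((lay_RGood F h R s j).image F.pp).card ≤ sg (ex R) s.1 := fun h j =>
    (hB D).2.2.2.2 R s j _ fun y hy => by
      obtain ⟨x, hx, rfl⟩ := mem_image.1 hy
      exact ((mem_lay_RGood hLA).1 hx).2.2
  have cnt2 := fun h j : ℤ => (hLB D d F).2.2.2.2 (lay_RGood F h R s j)
    ((lay_RGood F h R s j).image F.pp)
    fun x hx => ⟨((mem_lay_RGood hLA).1 hx).1, mem_image_of_mem _ hx⟩
  have occ0 : ∀ j, Pr Ω p (Oc F 0 R s j) ≤ u := fun j =>
    (occ 0 j _ (((cnt2 0 j).1 fun x hx => ((mem_lay_RGood hLA).1 hx).2.1).trans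
      (cnt 0 j))).trans hu
  have occ1 : ∀ j, Pr Ω p (Oc F 1 R s j) ≤ 1 - (1 - u) ^ (d - D + 1) := fun j => by
    refine (occ 1 j _ (((cnt2 1 j).2 fun x hx => ((mem_lay_RGood hLA).1 hx).2.1).trans
      (Nat.mul_le_mul_left _ (cnt 1 j)))).trans ?_
    rw [mul_comm, pow_mul]
    exact sub_le_sub_left (pow_le_pow_left₀ (by linarith) (by linarith) _) _
  have t0 : 0 ≤ (1 - u) ^ (d - D + 1) := pow_nonneg (by linarith) _
  have t1 : u = 0 → (1 - u) ^ (d - D + 1) = 1 := fun h => by simp [h]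
  generalize (1 - u) ^ (d - D + 1) = t at c3 occ1 t0 t1
  have wβ : 1 - t ≤ β := by
    by_contra hlt
    have h1 : β < 1 - t := not_le.1 hlt
    have h2 : β ≤ 0 := by
      by_contra h3
      have h4 := mul_lt_mul_of_pos_right h1 (not_le.1 h3)
      have h5 := mul_nonneg t0 u0
      nlinarith
    have h3 := t1 (by linarith)
    linarith
  induction J using Finset.strongInduction with
  | H J ih =>
    rcases J.eq_empty_or_nonempty with rfl | hJ
    · simpa using a1 _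
    have j0 := J.min'_mem hJ
    have jm : ∀ j ∈ J, J.min' hJ ≤ j := fun j hj => J.min'_le j hj
    generalize J.min' hJ = k at j0 jm
    have g1 : ∀ A, GdR F R s J A → GdR F R s (J.erase k) A := fun A h j hj =>
      (h j (mem_of_mem_erase hj)).imp_right fun h1 =>
        ⟨mem_erase.2 ⟨by have := jm j (mem_of_mem_erase hj); omega, h1.1⟩, h1.2⟩
    have e1 := b1 (lay_RGood F 1 R s k) (Oc F 1 R s k) (GdR F R s (J.erase k))
      (oc_inter_RGood hLA F le_rfl R s k) (gd_sdiff_RGood hLA F R s (notMem_erase k J))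
    have i1 := ih (J.erase k) (erase_ssubset j0)
    have n1 := card_erase_add_one j0
    have o1 := occ1 k
    have o0 := a0 (Oc F 1 R s k)
    by_cases hk : k + 1 ∈ J
    · have hk' : k + 1 ∈ J.erase k := mem_erase.2 ⟨by omega, hk⟩
      have n2 := card_erase_add_one hk'
      have i2 := ih ((J.erase k).erase (k + 1))
        ((erase_subset _ _).trans_ssubset (erase_ssubset j0))
      have e2 := b1 (lay_RGood F 1 R s (k + 1)) (Oc F 0 R s (k + 1))
        (GdR F R s ((J.erase k).erase (k + 1)))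
        (oc_inter_RGood hLA F zero_le_one R s (k + 1))
        (gd_sdiff_RGood hLA F R s (notMem_erase _ _))
      have e3 := b1 (lay_RGood F 1 R s k) (fun A => ¬ Oc F 1 R s k A)
        (fun A => Oc F 0 R s (k + 1) A ∧ GdR F R s ((J.erase k).erase (k + 1)) A)
        (fun A => not_congr (oc_inter_RGood hLA F le_rfl R s k A)) fun A =>
        and_congr (oc_sdiff_RGood hLA F 0 R s (by omega) A) (gd_sdiff_RGood hLA F R s (by simp) A)
      have h1 := a2 (GdR F R s J) (fun A => (Oc F 1 R s k A ∧ GdR F R s (J.erase k) A) ∨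
        (¬ Oc F 1 R s k A ∧ Oc F 0 R s (k + 1) A ∧ GdR F R s ((J.erase k).erase (k + 1)) A))
        fun A _ h => by
          by_cases ho : Oc F 1 R s k A
          · exact Or.inl ⟨ho, g1 A h⟩
          · refine Or.inr ⟨ho, ((h k j0).resolve_left ho).2, fun j hj => ?_⟩
            have h2 := mem_of_mem_erase hj
            exact (g1 A h j h2).imp_right fun h3 =>
              ⟨mem_erase.2 ⟨by have := (mem_erase.1 h2).1; omega, h3.1⟩, h3.2⟩
      have h2 := h1.trans (a3 _ _)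
      rw [e1, e3, e2, b2] at h2
      rw [← n2] at i1
      rw [← n1, ← n2]
      generalize ((J.erase k).erase (k + 1)).card = m at *
      have q0 : 0 ≤ β ^ m := pow_nonneg c0 m
      have q1 := mul_le_mul_of_nonneg_left i1 o0
      have q2 := mul_le_mul_of_nonneg_left (mul_le_mul (occ0 (k + 1)) i2 (a0 _) u0)
        (sub_nonneg.2 (a1 (Oc F 1 R s k)))
      have q3 := mul_le_mul_of_nonneg_right
        (mul_le_mul_of_nonneg_right o1 (sub_nonneg.2 c1)) q0
      have q4 : β ^ (m + 1 + 1) = ((1 - t) * β + t * u) * β ^ m := by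
        rw [← c3]; ring
      rw [pow_succ] at q1
      rw [q4]
      nlinarith
    · have h1 := a2 (GdR F R s J) (fun A => Oc F 1 R s k A ∧ GdR F R s (J.erase k) A)
        fun A _ h => ⟨(h k j0).resolve_right fun h1 => hk h1.1, g1 A h⟩
      rw [e1] at h1
      rw [← n1, pow_succ']
      exact h1.trans (mul_le_mul (o1.trans wβ) i1 (a0 _) c0)

end Pool.Agent.MP_6d294b_pr
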