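import Pool.Agent.MP_6d294b_pr.Stm2

/-! High records and big records with few deleted layers. -/

open Finset

namespace Pool.Agent.MP_6d294b_pr

theorem rHB (hO : SOld) (hG : RGeo) (hN : RAna) : RHB := by
  intro D d
  refine ⟨384 * Real.exp 7, fun π hC hP F hk Ω T' S B u hB hu hl => ?_⟩
  obtain ⟨n1, n2, n3, n4, -, n6, -, -, -, n10, -, -, -, -, -, -, n17, n18, -⟩ := hN.2.2 D d π hP
  obtain ⟨-, -, -, -, -, -, p7, p8, -, -, -, p12, p13, -⟩ := hP
  obtain ⟨-, -, -, -, hLA, hLB, -, hBx, hU⟩ := hG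
  obtain ⟨u1, u2, u3, -, ⟨s, -⟩, u6, u7⟩ := hu
  have n0 : π.pb ≤ 1 := by linarith
  have pr := hO.1 _ Ω π.pb n1 n0
  have c0 : 0 ≤ π.gx D + 3 := by linarith
  have s0 : (0 : ℝ) < π.ss D := by exact_mod_cast Nat.zero_lt_of_lt n17
  have key : ∀ n : ℝ, 0 ≤ n → n ≤ (2 * π.b + 1) ^ d →
      3 * Real.exp 1 * π.pb * n * Real.exp (2 * (π.gx D + 3)) ≤ 1 / 64 := fun n h0 h1 => by
    have e : 3 * Real.exp 1 * π.p * n * Real.exp (2 * (π.gx D + 3)) =
        384 * Real.exp 7 * n / π.ss D / 64 := by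
      rw [show 2 * (π.gx D + 3) = 2 * π.gx D + 6 by ring, show (7 : ℝ) = 1 + 6 by norm_num,
        Real.exp_add, Real.exp_add]
      linear_combination 3 * Real.exp 1 * n * Real.exp 6 * n6
    refine le_trans (by gcongr) (e.trans_le ?_)
    gcongr
    exact div_le_one_of_le₀ (le_trans (mul_le_mul hC h1 h0 (le_trans (by positivity) hC)) p12) s0.le
  have b1 : (1 : ℝ) ≤ 2 * π.b + 1 := by simp
  have fin : π.vol d * (1 / 4) ^ π.a ≤ 1 / (2 * π.vol d ^ 2) := by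
    rw [le_div_iff₀ (by positivity)]
    have : 0 ≤ π.vol d ^ 3 * (1 / 4) ^ π.a := by positivity
    linarith
  cases h : u.2.2
  · obtain ⟨a1, a2, -⟩ := u6 h
    have a3 : π.a ≤ psi u.1 := not_lt.1 fun k => hl ⟨h, k⟩
    have a4 := (hLA D d F).2.2.2.2.2.2.2.2.2.1 u.1
    have a5 := (((hBx d).2.2.2.1 u.1).2.1 (F.io s.1)).2.1
    have a6 : sg (ex u.1) (F.io s.1) ≤ (2 * π.b + 1) ^ d := a5.trans
      ((Nat.pow_le_pow_left (by omega) _).trans (Nat.pow_le_pow_right (by omega) (Nat.sub_le d 1)))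
    have a7 := (hO.2.2.2.2.2.1 d Ω π.pb n1 n0 u.1 (F.io s.1) _ c0).2
      (key _ (Nat.cast_nonneg _) (by exact_mod_cast a6))
    have a8 : ((∑ s, u.2.1 s : ℕ) : ℝ) ≤ psi u.1 + 2 := by exact_mod_cast (by omega)
    have a9 : π.pb * Real.exp (2 * (π.gx D + 3)) ≤ 1 := by
      have := key 1 zero_le_one (one_le_pow₀ b1)
      nlinarith [mul_le_mul_of_nonneg_right (Real.one_le_exp zero_le_one)
        (mul_nonneg n1 (Real.exp_pos (2 * (π.gx D + 3))).le)]
    left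
    calc _ ≤ Pr Ω π.pb (ISp u.1) * Real.exp ((π.gx D + 3) * (psi u.1 + 2)) :=
          mul_le_mul (pr.2.2.1 _ _ fun A _ ⟨w, a, b⟩ => ⟨w, a, b.1⟩) (by gcongr)
            (Real.exp_pos _).le (pr.1 _)
      _ = Pr Ω π.pb (ISp u.1) * Real.exp ((π.gx D + 3) * psi u.1) *
          Real.exp (2 * (π.gx D + 3)) := by
          rw [mul_assoc, ← Real.exp_add]
          ring_nf
      _ ≤ π.pb * Real.exp (2 * (π.gx D + 3)) * (1 / 4) ^ psi u.1 :=
          (mul_le_mul_of_nonneg_right a7 (Real.exp_pos _).le).trans_eq (by ring)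
      _ ≤ π.vol d * (1 / 4) ^ π.a := mul_le_mul (a9.trans n10)
          (pow_le_pow_of_le_one (by norm_num) (by norm_num) a3) (by positivity) (by positivity)
      _ ≤ _ := fin
  · refine (le_or_gt (∑ s, u.2.1 s) π.b).imp (fun a1 => ?_) fun k => ⟨rfl, k⟩
    have a2 := (hU d Ω π.pb n1 n0).2 F.thr (F.lift B) π.b _ (hLA D d F).2.1 (p7.trans n18) c0
      (key _ (by positivity) (pow_le_pow_right₀ b1 (Nat.sub_le d 1)))
    have a3 := (hLB D d F).2.1 (2 * π.N + 1) B (fun i => Nat.succ_le_succ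
      ((((hBx D).2.2.2.1 B).2.1 i).2.2.trans hB)) (hk ▸ p8)
    have a4 : ((boxes (F.lift B)).card : ℝ) ≤ π.vol d := by
      rw [Pm.vol, ← hk]
      exact_mod_cast a3
    calc _ ≤ (boxes (F.lift B)).card * Real.exp (-((π.gx D + 3) * π.b)) * (1 / 4) ^ π.b *
            Real.exp ((π.gx D + 3) * π.b) :=
          mul_le_mul ((pr.2.2.1 _ _ fun A _ ⟨w, a, b⟩ => (b.2 h).elim fun K k => ⟨w, K, u.1, a, k,
            ((hLA D d F).2.2.2.2.2.2.2.2.2.2.2.2.1 B _).2 ⟨u3, u2⟩, (u7 h).1⟩).trans a2)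
            (by gcongr) (Real.exp_pos _).le (by positivity)
      _ = (boxes (F.lift B)).card * (1 / 4) ^ π.b := by
          rw [Real.exp_neg]
          field_simp
      _ ≤ π.vol d * (1 / 4) ^ π.a := mul_le_mul a4
          (pow_le_pow_of_le_one (by norm_num) (by norm_num) n18) (by positivity) (by positivity)
      _ ≤ _ := fin

end Pool.Agent.MP_6d294b_pr
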