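import Pool.Agent.MP_6d294b_pr.Stm2
import Pool.Agent.MP_6d294b_pr.PInd

open Finset

namespace Pool.Agent.MP_6d294b_pr

variable {D d : ℕ}

theorem ifl_incr_RInd (F : Fr D d) (R : Bx D) : Incr (IFl F R) := by
  rintro A A' h ⟨B, K, P, h1, h2⟩
  exact ⟨B, K, P, h1.trans h, h2⟩

theorem crs_incr_RInd (F : Fr D d) (a b T : ℕ) (S B : Bx D) : Incr (Crs F a b T S B) := by
  rintro A A' h ⟨U, w, W, h1, h2, h3⟩
  exact ⟨U, w, W, fun u hu => ⟨(h1 u hu).1, (h1 u hu).2.1.trans h, (h1 u hu).2.2⟩,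
    fun s => ⟨(h2 s).1.trans h, (h2 s).2⟩, h3⟩

theorem rInd (hO : SOld) (_hG : RGeo) (hN : RAna) (hCh : RChain) (hSe : RSeed) (hSt : RStep)
    (hMe : RMerge) : RInd := by
  classical
  obtain ⟨hA, -, hBK, hG, hB, -⟩ := hO
  intro D d
  obtain ⟨C₁, hSe⟩ := hSe D d
  obtain ⟨C₂, hSt⟩ := hSt D d
  refine ⟨max C₁ C₂, fun π hC hPar F hF Ω Φ hΦ => ?_⟩
  have hS' := hSt π ((le_max_right _ _).trans hC) hPar F hF Ω Φ hΦ
  have m0 := hSe π ((le_max_left _ _).trans hC) hPar F hF Ω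
  obtain ⟨m1', m2, m3, m4⟩ := hMe D d π hPar Φ hΦ
  obtain ⟨p0, p2, p3, gx0, gxm, -, -, -, -, v1, v2, e1, e2, hθ, -, hTM, -, hab, -⟩ :=
    hN.2.2 D d π hPar
  obtain ⟨-, -, -, -, q2, -, -, -, -, -, -, -, -, -, -, q3, q5⟩ := hPar
  have p1 : π.pb ≤ 1 / 2 := p2.trans p3
  obtain ⟨a1, -, a3, a4, a5, -⟩ := hA (Pt d) Ω π.pb p0 (by linarith)
  have L0 : 0 ≤ Real.log (π.vol d) := Real.log_nonneg v1
  have hV : Real.exp (Real.log (π.vol d)) = π.vol d := Real.exp_log (by linarith)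
  have hT : π.et1 D d * π.T = 2 * Real.log (π.vol d) + 2 * D * (π.a + 1) * π.gm + 2 := by
    have h0 : (π.T : ℝ) ≠ 0 := by positivity
    rw [Pm.et1, div_mul_cancel₀ _ h0]
  have hM : π.eps D d + π.T ≤ π.M / (12 * (π.G + 2)) := by
    rw [le_div_iff₀ (by positivity)]
    linarith
  rw [Pm.eps] at hM
  have m1 : ∀ R : Bx D, Val R → psi R ≤ 2 * π.N → (∃ i, sg (ex R) i ≤ 2 * (π.M + 1) ^ (D - 1)) →
      Pr Ω π.pb (IFl F R) ≤ Real.exp (Real.log (π.vol d) - Φ (ex R) - psi R) := by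
    intro R h1 h2 h3
    refine (m0 R h1 h2 h3).trans ?_
    rw [← hV, ← Real.exp_add, hV, Real.exp_le_exp]
    have := m1' R
    linarith
  have kb : ∀ R : Bx D, psi R ≤ 2 * π.N → ((boxes R).card : ℝ) ≤ π.vol d := by
    intro R hRN
    have e1 := (hB D).1 R (2 * π.N + 1) fun i => by have := ex_le_Ind R i; omega
    refine le_trans ?_ v2
    exact_mod_cast e1
  generalize π.et1 D d = η₁ at *
  generalize π.et2 D = η₂ at *
  generalize π.the D = θ at *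
  generalize Real.log (π.vol d) = L at *
  generalize π.vol d = V at *
  generalize π.pb = p at *
  generalize π.gx D = g at *
  generalize π.gm = g' at *
  have hc : 2 * (D : ℝ) * (π.a + 1) * g ≤ 2 * D * (π.a + 1) * g' :=
    mul_le_mul_of_nonneg_left gxm (by positivity)
  generalize π.T = T at *
  generalize π.a = a at *
  generalize π.b = b₀ at *
  generalize π.N = N at *
  suffices h : ∀ n, ∀ R : Bx D, psi R < n → Val R → psi R ≤ 2 * N →
      Pr Ω p (IFl F R) ≤ Real.exp (- Φ (ex R) + L + (η₁ + η₂) * psi R + θ * lg R) from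
    fun R => h _ R (Nat.lt_succ_self _)
  intro n
  induction n with
  | zero => exact fun R h => absurd h (Nat.not_lt_zero _)
  | succ n ih =>
  intro R hn hR hRN
  have hη : 0 ≤ η₁ + η₂ := add_nonneg e1 e2
  by_cases hseed : ∃ i, sg (ex R) i ≤ 2 * (π.M + 1) ^ (D - 1)
  · refine (m1 R hR hRN hseed).trans (Real.exp_le_exp.2 ?_)
    have b1 := mul_nonneg hη (Nat.cast_nonneg (α := ℝ) (psi R))
    have b2 := mul_nonneg hθ (lg_nonneg_Ind R)
    have b3 := Nat.cast_nonneg (α := ℝ) (psi R)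
    linarith
  push Not at hseed
  have hMR := m2 R hseed
  obtain ⟨X₁, hX₁⟩ : ∃ X : Finset (Bx D × Bx D), X = (boxes R ×ˢ boxes R).filter fun z =>
    Val z.1 ∧ z.1 ≤ z.2 ∧ z.2 ≤ R ∧ (∀ s, R s ≤ z.2 s + (a + 1)) ∧
    psi z.1 + T ≤ psi R ∧ psi R ≤ psi z.1 + (2 * T + 1) := ⟨_, rfl⟩
  obtain ⟨X₂, hX₂⟩ : ∃ X : Finset (Bx D × Bx D × Bx D),
    X = (boxes R ×ˢ boxes R ×ˢ boxes R).filter fun z =>
    Val z.1 ∧ Val z.2.1 ∧ z.1 ⊔ z.2.1 ≤ z.2.2 ∧ z.2.2 ≤ R ∧ (∀ s, R s ≤ z.2.2 s + (a + 1)) ∧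
      gap z.1 z.2.1 ≤ 2 ∧ T ≤ psi z.2.1 ∧ psi z.2.1 ≤ psi z.1 ∧
      psi z.1 < psi (z.1 ⊔ z.2.1) ∧ psi R < psi (z.1 ⊔ z.2.1) + T := ⟨_, rfl⟩
  have mono := (hG D).2.2.2.1
  have hincl : Pr Ω p (IFl F R) ≤ Pr Ω p fun A =>
      (∃ z ∈ X₁, BoxInd (IFl F z.1) (Crs F a b₀ T z.1 z.2) A) ∨
      ∃ z ∈ X₂, BoxInd (IFl F z.1)
        (BoxInd (IFl F z.2.1) (Crs F a b₀ T (z.1 ⊔ z.2.1) z.2.2)) A := by
    refine a3 _ _ ?_
    rintro A - ⟨A', K, P, hA', hsp, hreg, rfl⟩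
    rcases hCh D d F a b₀ T A' K P hsp hreg hab q2 with
      ⟨S, B, A₀, C, g1, g2, g3, g4, g5, g6, g7, g8, g9, g10, g11⟩ |
      ⟨Q, Q', B, B₁, B₂, C, g1, g2, g3, g4, g5, g6, g7, g8, g9, hv, hv', g10, g11, g12⟩
    · refine Or.inl ⟨(S, B), ?_, A₀, C, g1.trans hA', g2.trans hA', g3, g4, g5⟩
      rw [hX₁, mem_filter, mem_product]
      exact ⟨⟨(mono S _ g6 (g7.trans g8)).2.2.2.2, (mono B _ (mono S B g6 g7).1 g8).2.2.2.2⟩,
        g6, g7, g8, g9, by simp only; omega, g11⟩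
    · refine Or.inr ⟨(Q, Q', B), ?_, B₁, B₂ ∪ C, g1.trans hA', (union_subset g2 g3).trans hA',
        disjoint_union_right.2 ⟨g4, g5⟩, g7, B₂, C, subset_union_left,
        subset_union_right, g6, g8, g9⟩
      rw [hX₂, mem_filter, mem_product, mem_product]
      exact ⟨⟨(mono Q _ hv ((le_sup_left.trans g10).trans g11)).2.2.2.2,
        (mono Q' _ hv' ((le_sup_right.trans g10).trans g11)).2.2.2.2,
        (mono B _ (mono Q B hv (le_sup_left.trans g10)).1 g11).2.2.2.2⟩, hv, hv', g10, g11, g12⟩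
  obtain ⟨b, hb⟩ : ∃ b, b = Real.exp (- Φ (ex R) + L + (η₁ + η₂) * psi R + θ * lg R) := ⟨_, rfl⟩
  have hb0 : 0 ≤ b := hb ▸ (Real.exp_pos _).le
  have t1 : ∀ z ∈ X₁, Pr Ω p (BoxInd (IFl F z.1) (Crs F a b₀ T z.1 z.2)) ≤
      b * Real.exp (- (2 * L) - 1) := by
    rintro ⟨S, B⟩ hS
    rw [hX₁, mem_filter] at hS
    obtain ⟨-, g1, g2, g3, g4, g5, g6⟩ := hS
    simp only at g1 g2 g3 g4 g5 g6 ⊢
    have w1 := (mono S B g1 g2).1
    obtain ⟨-, w2, -, w3, -⟩ := mono B R w1 g3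
    refine (bk_Ind hA hBK Ω p0 p1 (ifl_incr_RInd F S) (crs_incr_RInd F a b₀ T S B)).trans
      ((mul_le_mul (ih S (by omega) g1 (by omega)) (hS' S B g1 g2 (by omega) (by omega)) (a1 _)
        (Real.exp_pos _).le).trans ?_)
    rw [hb, ← Real.exp_add, ← Real.exp_add, Real.exp_le_exp]
    have c1 : (psi S : ℝ) + T ≤ psi R := by exact_mod_cast g5
    have c2 := mul_le_mul_of_nonneg_left c1 e1
    have c3 : (psi B : ℝ) ≤ psi R := by exact_mod_cast (by omega : psi B ≤ psi R)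
    have c4 := mul_le_mul_of_nonneg_left c3 e2
    have c5 := mul_le_mul_of_nonneg_left (lg_mono_Ind w2) hθ
    have c6 := m4 B R w1 g3 g4
    linarith
  have t2 : ∀ z ∈ X₂, Pr Ω p (BoxInd (IFl F z.1)
      (BoxInd (IFl F z.2.1) (Crs F a b₀ T (z.1 ⊔ z.2.1) z.2.2))) ≤
      b * (V * Real.exp ((2 * D * (a + 1) + 2) * g' + 1 - T)) := by
    rintro ⟨Q, P, B⟩ hz
    rw [hX₂, mem_filter] at hz
    obtain ⟨-, g1, g2, g3, g3', g3'', g4, g5, g6, g7, g8⟩ := hz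
    simp only at g1 g2 g3 g3' g3'' g4 g5 g6 g7 g8 ⊢
    obtain ⟨w1, w2, -⟩ := mono Q (Q ⊔ P) g1 le_sup_left
    obtain ⟨-, w3, -⟩ := mono P (Q ⊔ P) g2 le_sup_right
    obtain ⟨w4, -, -, w5, -⟩ := mono _ B w1 g3
    obtain ⟨-, w6, -, w7, -⟩ := mono B R w4 g3'
    have iQ := ih Q (by omega) g1 (by omega)
    have iP := ih P (by omega) g2 (by omega)
    obtain ⟨n1, n2⟩ := m3 Q P g1 g2 g4
    have c1 : (T : ℝ) ≤ psi P := by exact_mod_cast g5
    have c2 : (psi P : ℝ) ≤ psi Q := by exact_mod_cast g6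
    have c3 : (psi Q : ℝ) ≤ psi (Q ⊔ P) := by exact_mod_cast g7.le
    have c4 := mul_le_mul_of_nonneg_left c3 hη
    have c5 := mul_le_mul_of_nonneg_left (c2.trans c3) hη
    have c6 := mul_le_mul_of_nonneg_left (lg_mono_Ind w2) hθ
    have c7 := mul_le_mul_of_nonneg_left (lg_mono_Ind w3) hθ
    have key : ∀ x y : ℝ, Pr Ω p (IFl F Q) ≤ Real.exp x → Pr Ω p (IFl F P) ≤ Real.exp y →
        x + y ≤ 2 * L - Φ (ex (Q ⊔ P)) + (η₁ + η₂) * psi (Q ⊔ P) + θ * lg (Q ⊔ P) + 2 * g - T →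
        Pr Ω p (BoxInd (IFl F Q) (BoxInd (IFl F P) (Crs F a b₀ T (Q ⊔ P) B))) ≤
          b * (V * Real.exp ((2 * D * (a + 1) + 2) * g' + 1 - T)) := by
      intro x y hx hy hxy
      refine (bk_Ind hA hBK Ω p0 p1 (ifl_incr_RInd F Q) (box_incr_Ind _ _)).trans
        ((mul_le_mul hx ((bk_Ind hA hBK Ω p0 p1 (ifl_incr_RInd F P)
          (crs_incr_RInd F a b₀ T _ B)).trans
          (mul_le_mul hy (hS' _ B w1 g3 (by omega) (by omega)) (a1 _) (Real.exp_pos _).le)) (a1 _)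
          (Real.exp_pos _).le).trans ?_)
      rw [hb, ← hV, ← Real.exp_add, ← Real.exp_add, ← Real.exp_add, ← Real.exp_add,
        Real.exp_le_exp]
      have d1 : (psi B : ℝ) ≤ psi R := by exact_mod_cast (by omega : psi B ≤ psi R)
      have d2 : (psi (Q ⊔ P) : ℝ) ≤ psi R := by exact_mod_cast (by omega : psi (Q ⊔ P) ≤ psi R)
      have d3 := mul_le_mul_of_nonneg_left d1 e2
      have d4 := mul_le_mul_of_nonneg_left d2 e1
      have d5 := mul_le_mul_of_nonneg_left (lg_mono_Ind w6) hθ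
      have d6 := m4 B R w4 g3' g3''
      linarith
    by_cases s1 : ∃ i, sg (ex P) i ≤ 2 * (π.M + 1) ^ (D - 1)
    · exact key _ _ iQ (m1 P g2 (by omega) s1) (by linarith)
    by_cases s2 : ∃ i, sg (ex Q) i ≤ 2 * (π.M + 1) ^ (D - 1)
    · exact key _ _ (m1 Q g1 (by omega) s2) iP (by linarith)
    push Not at s1 s2
    refine key _ _ iQ iP ?_
    have n3 := n2 s2 (m2 P s1).le
    have f1 : (psi P : ℝ) ≤ 2 * N := by exact_mod_cast (by omega : psi P ≤ 2 * N)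
    have f2 := mul_le_mul_of_nonneg_left f1 hη
    have f3 := mul_le_mul_of_nonneg_left (lg_le_Ind (by omega : psi P ≤ 2 * N)) hθ
    linarith
  have k0 := kb R hRN
  have k0' := Nat.cast_nonneg (α := ℝ) (boxes R).card
  have k1 : (X₁.card : ℝ) ≤ V ^ 2 := by
    have e3 : X₁.card ≤ (boxes R).card ^ 2 := by
      rw [hX₁, sq]
      exact (card_filter_le _ _).trans (card_product _ _).le
    refine le_trans (by exact_mod_cast e3) (pow_le_pow_left₀ k0' k0 2)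
  have k2 : (X₂.card : ℝ) ≤ V ^ 3 := by
    have e3 : X₂.card ≤ (boxes R).card ^ 3 := by
      rw [hX₂]
      refine (card_filter_le _ _).trans ?_
      rw [card_product, card_product]
      exact le_of_eq (by ring)
    refine le_trans (by exact_mod_cast e3) (pow_le_pow_left₀ k0' k0 3)
  have u1 := (a5 _ X₁ fun z => BoxInd (IFl F z.1) (Crs F a b₀ T z.1 z.2)).trans
    (sum_le_card_nsmul _ _ _ t1)
  have u2 := (a5 _ X₂ fun z => BoxInd (IFl F z.1)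
    (BoxInd (IFl F z.2.1) (Crs F a b₀ T (z.1 ⊔ z.2.1) z.2.2))).trans (sum_le_card_nsmul _ _ _ t2)
  rw [nsmul_eq_mul] at u1 u2
  have u3 : V ^ 2 * Real.exp (- (2 * L) - 1) ≤ 1 / 2 := by
    rw [← hV, ← Real.exp_nat_mul, ← Real.exp_add, show ((2 : ℕ) : ℝ) * L + (- (2 * L) - 1) = -1 by
      push_cast; ring, Real.exp_neg, one_div]
    exact inv_anti₀ (by norm_num) (by linarith [Real.add_one_le_exp 1])
  have u4 := mul_le_mul_of_nonneg_right k1 (mul_nonneg hb0 (Real.exp_pos (- (2 * L) - 1)).le)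
  have u5 := mul_le_mul_of_nonneg_right k2 (mul_nonneg hb0 (mul_nonneg (by linarith : 0 ≤ V)
    (Real.exp_pos ((2 * D * (a + 1) + 2) * g' + 1 - T)).le))
  have u6 := mul_le_mul_of_nonneg_left q5 hb0
  have u7 := mul_le_mul_of_nonneg_left u3 hb0
  rw [← hb]
  refine (hincl.trans (a4 _ _)).trans ?_
  linarith

end Pool.Agent.MP_6d294b_pr
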