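import Pool.Agent.MP_6d294b_pr.Stm2

open Finset

namespace Pool.Agent.MP_6d294b_pr

theorem inB_mono_RMer {d : ℕ} {x : Pt d} {R R' : Bx d} (h : InB x R) (hle : R ≤ R') :
    InB x R' := fun s => le_trans (h s) (hle s)

theorem stx_mono_RMer {D d : ℕ} {F : Fr D d} {a b T : ℕ} {S B : Bx D} {A A' C : Finset (Pt d)}
    {P P' : Bx d} {I I' : Finset (Finset (Pt d) × Bx d)} (h : Stx F a b T S A P B C I)
    (hA : A ⊆ A') (hP : P ≤ P') (hI : I' ⊆ I) : Stx F a b T S A' P' B C I' := by
  obtain ⟨h1, h2, h3, h4, h5, h6⟩ := h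
  refine ⟨h1, fun s => le_trans (h2 s) (hP _), h3.trans hA, h4, fun u hu => ?_,
    fun u hu v hv => h6 u (hI hu) v (hI hv)⟩
  obtain ⟨g1, g2, g3, g4, g5, g6⟩ := h5 u (hI hu)
  exact ⟨g1.trans hA, g2, g3, g4.trans hP, g5, g6⟩

theorem sum_le_RMer {D : ℕ} (a : ℕ) (X B : Bx D) (h : ∀ s, X s ≤ B s + (a + 1)) :
    ∑ s, (X s - B s).toNat ≤ 2 * D * (a + 1) := by
  have h1 : ∀ s ∈ (univ : Finset (Sd D)), (X s - B s).toNat ≤ a + 1 := by
    intro s _
    have := h s
    omega
  refine (sum_le_card_nsmul _ _ _ h1).trans ?_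
  simp [mul_comm]

theorem rMer (hO : SOld) (hG : RGeo) (hR : RAbsR) (hN : RNew) (hE : REnd) : RMer := by
  intro D d F a b T S A K A' K' Q P x y hS hReg hK hSta hFill hdis hx hy hxy hpsi hT
  obtain ⟨B, C, I, hStx, hcov⟩ := hSta
  obtain ⟨-, -, -, hGA, -⟩ := hO
  obtain ⟨hGap, hFi, -, -, hLA, -⟩ := hG
  obtain ⟨-, hthr, -, l4, l5, l6, l7, -, l9, -, -, -, -, -, l15, -⟩ := hLA D d F
  obtain ⟨hSp, -, -, hKP, -⟩ := hFi d F.thr hthr A' K' P hFill
  obtain ⟨a1, -, -, -, a5⟩ := hGA d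
  obtain ⟨-, -, -, b4, b5⟩ := hGA D
  obtain ⟨-, -, -, g4, -⟩ := hGap d
  obtain ⟨-, -, -, k4, k5, k6, -, -, -, -, k11, k12, k13, -⟩ := hGap D
  obtain ⟨e1, e2⟩ := hE D d F a b T S B A C K Q I hStx hcov
  have e2' := e2 hK
  have hVP : Val P := (a1 A' P hSp).1
  have hVp : Val (F.pr P) := l6 P hVP
  have hyP : InB y P := hKP y hy
  have hyp : InB (F.pp y) (F.pr P) := l7 y P hyP
  have hd2 : dst (F.pp x) (F.pp y) ≤ 2 := (l9 x y).trans hxy
  have hm : Stx F a b T S (A ∪ A') (Q ⊔ P) B C I :=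
    stx_mono_RMer hStx subset_union_left le_sup_left Subset.rfl
  obtain ⟨s1, s2, s3, s4, s5, s6⟩ := hStx
  have hVB : Val B := (b4 S B hS s1).1
  have hdC : Disjoint A' C := (disjoint_of_subset_left s3 hdis).symm
  have hdI : ∀ u ∈ I, Disjoint A' u.1 := fun u hu =>
    (disjoint_of_subset_left (s5 u hu).1 hdis).symm
  by_cases hb : b ≤ psi P
  · by_cases hle : F.pr P ≤ B
    · refine ⟨B, C, I, hm, fun z hz => ?_⟩
      rcases mem_union.1 hz with hz | hz
      · exact hcov z hz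
      · exact Or.inl (inB_mono_RMer (l7 z P (hKP z hz)) hle)
    · have hgap : gap B (F.pr P) ≤ a + 3 := by
        have h1 : gap B (F.pr P) ≤ gap B (ptB (F.pp y)) :=
          k5 B B _ _ le_rfl ((k12 (F.pr P) (F.pp y)).1.1 hyp)
        have h2 := k6 B (ptB (F.pp x)) (F.pp x) (F.pp y) (fun s => le_rfl)
        have h3 := k11 (F.pp x)
        have h4 := e1 x hx
        omega
      have hsum := k13 B (F.pr P) hVB
      have hup := (b5 B (F.pr P) hVB hVp).2
      have hQ : psi (F.pr Q) ≤ psi B + 2 * D * (a + 1) := by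
        have h1 := (b4 B (F.pr Q) hVB s2).2.2.2.1
        have h2 := sum_le_RMer a (F.pr Q) B e2'
        omega
      have hadm : Adm2 F a b T S (B ⊔ F.pr P)
          ((P, fun s => (F.pr P s - B s).toNat, true) : Rc D d) := by
        refine ⟨hVP, (l15 P (Q ⊔ P) le_sup_right).2 hReg, le_sup_right, fun s hs => ?_, ?_,
          fun h => absurd h (by simp), fun _ => ⟨hb, ?_, ?_, ?_⟩⟩
        · have h1 : S s ≤ B s := s1 s
          change (F.pr P s - B s).toNat ≠ 0 at hs
          change S s + ((F.pr P s - B s).toNat : ℕ) ≤ F.pr P s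
          omega
        · by_contra hne
          apply hle
          intro s
          by_contra hs
          apply hne
          refine ⟨s, ?_⟩
          change (F.pr P s - B s).toNat ≠ 0
          have hs' : ¬ F.pr P s ≤ B s := hs
          omega
        · change ∑ s, (F.pr P s - B s).toNat ≤ psi (F.pr P) + a + 3
          omega
        · rcases hT with hT | hT
          · exact Or.inr hT
          · exact Or.inl (sum_le_RMer a (F.pr P) B fun s => le_trans (hT s) (e2' s))
        · change ∑ s, (F.pr P s - B s).toNat + psi (F.pr P) ≤ psi (B ⊔ F.pr P) + 2 * D * (a + 1)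
          omega
      have hcr := hR D d F a b T S B C A' (P, fun s => (F.pr P s - B s).toNat, true) hS s1 s4
        (fun _ => rfl) hadm ⟨hSp, fun _ => ⟨K', hFill⟩⟩ hdC
      refine ⟨B ⊔ F.pr P, C ∪ A', I, ⟨s1.trans le_sup_left, ?_, union_subset_union s3 Subset.rfl,
        hcr, fun u hu => ?_, s6⟩, fun z hz => ?_⟩
      · rw [l4]
        exact sup_le_sup_right s2 _
      · obtain ⟨g1, g2, g3, g4', g5, g6⟩ := s5 u hu
        exact ⟨g1.trans subset_union_left, disjoint_union_right.2 ⟨g2, (hdI u hu).symm⟩, g3,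
          g4'.trans le_sup_left, (k5 B _ _ _ le_sup_left le_rfl).trans g5, g6⟩
      · rcases mem_union.1 hz with hz | hz
        · rcases hcov z hz with h | h
          · exact Or.inl (inB_mono_RMer h le_sup_left)
          · exact Or.inr h
        · exact Or.inl (inB_mono_RMer (l7 z P (hKP z hz)) le_sup_right)
  · rcases hcov x hx with hxB | ⟨w, hw, hxw⟩
    · obtain ⟨B', C', I', t1, t2, t3, t4⟩ := hN D d F a b T S B (A ∪ A') C A' (Q ⊔ P) P I hS hReg
        hm subset_union_right hdC hdI hSp le_sup_right ((k4 B _ _ _ hxB hyp).trans hd2)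
        (by omega)
      refine ⟨B', C', I', t1, fun z hz => ?_⟩
      rcases mem_union.1 hz with hz | hz
      · rcases hcov z hz with h | ⟨u, hu, h⟩
        · exact Or.inl (inB_mono_RMer h t2)
        · exact Or.inr ⟨u, t3 hu, h⟩
      · exact t4 z (hKP z hz)
    · obtain ⟨g1, g2, g3, g4', g5, g6⟩ := s5 w hw
      have hg : gap w.2 P ≤ 2 := (g4 _ _ _ _ hxw hyP).trans hxy
      have hSp2 : Span (w.1 ∪ A') (w.2 ⊔ P) := Span.merge g3 hSp (hdI w hw).symm hg
      have hps : psi (w.2 ⊔ P) ≤ a + b := by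
        have h1 := (a5 w.2 P (a1 _ _ g3).1 hVP).2
        have h2 := g6.1
        omega
      obtain ⟨B', C', I', t1, t2, t3, t4⟩ := hN D d F a b T S B (A ∪ A') C (w.1 ∪ A') (Q ⊔ P)
        (w.2 ⊔ P) (I.erase w) hS hReg (stx_mono_RMer hm Subset.rfl le_rfl (erase_subset _ _))
        (union_subset_union g1 Subset.rfl) (disjoint_union_left.2 ⟨g2, hdC⟩)
        (fun u hu => disjoint_union_left.2
          ⟨s6 w hw u (mem_of_mem_erase hu) (ne_of_mem_erase hu).symm,
            hdI u (mem_of_mem_erase hu)⟩)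
        hSp2 (sup_le_sup_right g4' _) ((k5 B B _ _ le_rfl (l5 _ _ le_sup_left)).trans g5) hps
      refine ⟨B', C', I', t1, fun z hz => ?_⟩
      rcases mem_union.1 hz with hz | hz
      · rcases hcov z hz with h | ⟨u, hu, h⟩
        · exact Or.inl (inB_mono_RMer h t2)
        · by_cases huw : u = w
          · subst huw
            exact t4 z (inB_mono_RMer h le_sup_left)
          · exact Or.inr ⟨u, t3 (mem_erase.2 ⟨huw, hu⟩), h⟩
      · exact t4 z (inB_mono_RMer (hKP z hz) le_sup_right)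

end Pool.Agent.MP_6d294b_pr
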