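import Pool.Agent.MP_6d294b_pr.Stm2

open Finset

namespace Pool.Agent.MP_6d294b_pr

lemma sg_pos_RMerge {d : ℕ} (y : Fin d → ℕ) (i : Fin d) : 1 ≤ sg y i :=
  Finset.prod_pos fun _ _ => Nat.succ_pos _

lemma sg_le_RMerge {d : ℕ} (R : Bx d) (i : Fin d) : sg (ex R) i ≤ (psi R + 1) ^ (d - 1) := by
  classical
  unfold sg
  have h : ∀ j ∈ univ.erase i, ex R j + 1 ≤ psi R + 1 := fun j _ =>
    Nat.succ_le_succ (Finset.single_le_sum (f := fun i => ex R i) (fun _ _ => Nat.zero_le _)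
      (Finset.mem_univ j))
  have := Finset.prod_le_pow_card _ _ _ h
  rwa [Finset.card_erase_of_mem (Finset.mem_univ i), Finset.card_univ, Fintype.card_fin] at this

theorem rMerge (hO : SOld) (hG : RGeo) (hN : RAna) : RMerge := by
  intro D d π hpar Φ hΦ
  obtain ⟨-, -, -, hA, -, -, -, h5, -⟩ := hO
  obtain ⟨-, hs, hn⟩ := hN
  obtain ⟨-, -, -, hc0, -, -, -, -, -, -, -, -, -, -, -, -, -, -, n1, n2, -⟩ := hn D d π hpar
  obtain ⟨hD, hDd, hp, -, -, -, -, -, hG1, -, hsm, -⟩ := hpar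
  obtain ⟨⟨m, hm1, -, -, hm4⟩, hs2⟩ := hs (d - D + 1) (by omega)
  have hanti : Antitone (fun k : ℕ => π.co D d k) := fun k l hkl =>
    n1 _ _ (Nat.cast_nonneg k) (by exact_mod_cast hkl)
  have hbd : ∀ k : ℕ, 0 ≤ π.co D d k ∧ π.co D d k ≤ π.gx D := fun k =>
    ⟨(n2 _ (Nat.cast_nonneg k)).1, (n2 _ (Nat.cast_nonneg k)).2.1⟩
  obtain ⟨P1, P3, P2⟩ := (h5 D (fun k : ℕ => π.co D d k)).2 Φ (π.gx D) hΦ hanti hbd
  refine ⟨fun R => by rw [mul_comm]; exact P3 (ex R), ?_, ?_, ?_⟩
  · intro R hR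
    by_contra hM
    have a1 := hR ⟨0, by omega⟩
    have a2 := sg_le_RMerge R ⟨0, by omega⟩
    have a3 : (psi R + 1) ^ (D - 1) ≤ (π.M + 1) ^ (D - 1) := Nat.pow_le_pow_left (by omega) _
    omega
  · intro Q P hQ hP hg
    have a1 : ex Q ≤ ex (Q ⊔ P) := ((hA D).2.2.2.1 Q (Q ⊔ P) hQ le_sup_left).2.1
    have a2 : ex P ≤ ex (Q ⊔ P) := ((hA D).2.2.2.1 P (Q ⊔ P) hP le_sup_right).2.1
    have a3 := ((hA D).2.2.2.2 Q P hQ hP).1.trans hg
    constructor
    · have b1 := P2 (ex Q) (ex P) (ex (Q ⊔ P)) 0 0 a1 a2 a3 le_rfl (Nat.zero_le _) ?_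
      · linarith
      · intro i k hk
        rw [zero_add, one_pow] at hk
        rw [add_zero]
        exact hanti (hk.trans (sg_pos_RMerge _ _))
    · intro hQ2 hM
      have g1 : (1 : ℝ) ≤ π.G := by exact_mod_cast hG1
      have b1 := P2 (ex Q) (ex P) (ex (Q ⊔ P)) π.M (1 / (12 * (π.G + 2))) a1 a2 a3
        (by positivity) hM ?_
      · have e : 1 / (12 * ((π.G : ℝ) + 2)) * π.M = π.M / (12 * (π.G + 2)) := by ring
        linarith
      · intro i k hk
        obtain ⟨w, hw⟩ : ∃ w : ℝ, w = ((π.M : ℝ) + 1) ^ (D - 1) := ⟨_, rfl⟩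
        have hw1 : 1 ≤ w := hw ▸ one_le_pow₀ (by linarith [(Nat.cast_nonneg π.M : (0 : ℝ) ≤ π.M)])
        have hss : (π.ss D : ℝ) = π.G * w := by
          rw [hw, Pm.ss]
          push_cast
          rfl
        have hk' : (k : ℝ) ≤ w := by
          rw [hw]
          exact_mod_cast hk
        have hi' : 2 * w ≤ (sg (ex Q) i : ℝ) := by
          rw [hw]
          exact_mod_cast (hQ2 i).le
        have k0 : (0 : ℝ) ≤ k := Nat.cast_nonneg k
        have hpw : 0 < π.p * w := by positivity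
        have c1 := n1 _ _ (by linarith) hi'
        have c2 := n1 _ _ k0 hk'
        have z1 : 0 < π.p * (w + π.ss D) := by rw [hss]; positivity
        have z2 : 0 < π.p * (2 * w + π.ss D) := by rw [hss]; positivity
        have c3 := hm1 _ _ z2 z1
        have e2 : π.p * (2 * w + π.ss D) = (π.G + 2) * (π.p * w) := by rw [hss]; ring
        have c4 := hm4 _ z2 (by
          refine le_trans ?_ hsm
          have f1 : ((d - D + 1 : ℕ) : ℝ) ≤ d + 1 := by exact_mod_cast (by omega : d - D + 1 ≤ d + 1)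
          rw [← hw, show π.p * ((π.G + 2) * w) = π.p * (2 * w + π.ss D) by rw [hss]; ring]
          gcongr)
        have c5 : m (π.p * (2 * w + π.ss D)) * (π.p * w) ≤ -(1 / (12 * (π.G + 2))) := by
          rw [← neg_div, le_div_iff₀ (by positivity)]
          have : π.p * (2 * w + π.ss D) * m (π.p * (2 * w + π.ss D)) =
              (π.G + 2) * (π.p * w) * m (π.p * (2 * w + π.ss D)) := by rw [← e2]
          linarith
        have e3 : π.p * (w + π.ss D) - π.p * (2 * w + π.ss D) = -(π.p * w) := by ring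
        rw [e3] at c3
        show π.co D d (sg (ex Q) i) + 1 / (12 * (π.G + 2)) ≤ π.co D d k
        have c6 : π.co D d (2 * w) + 1 / (12 * (π.G + 2)) ≤ π.co D d w := by
          unfold Pm.co
          linarith
        linarith
  · intro B R hB hBR hs
    obtain ⟨-, a1, a2, -⟩ := (hA D).2.2.2.1 B R hB hBR
    refine (P1 (ex B) (ex R) a1).trans (add_le_add_right ?_ _)
    have a3 : ∀ i, ((ex R i - ex B i : ℕ) : ℝ) * π.co D d (sg (ex B) i) ≤
        2 * (π.a + 1) * π.gx D := fun i => by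
      have b1 : ex R i - ex B i ≤ 2 * (π.a + 1) := by
        have := hs (i, true)
        have := hs (i, false)
        rw [a2]
        omega
      exact mul_le_mul (by exact_mod_cast b1) (hbd _).2 (hbd _).1 (by positivity)
    refine (sum_le_sum fun i _ => a3 i).trans (le_of_eq ?_)
    rw [sum_const, card_univ, Fintype.card_fin, nsmul_eq_mul]
    ring

end Pool.Agent.MP_6d294b_pr
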