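import Pool.Agent.MP_6d294b_pr.Stm2

open Finset

namespace Pool.Agent.MP_6d294b_pr

theorem opp_RNew {D : ℕ} {B : Bx D} (hB : Val B) (y : Pt D) {s s' : Sd D} (h1 : s'.1 = s.1)
    (h2 : s' ≠ s) (h : B s < kap s y) : kap s' y ≤ B s' := by
  obtain ⟨i, c⟩ := s
  obtain ⟨j, c'⟩ := s'
  obtain rfl : j = i := h1
  have := hB j
  cases c <;> cases c' <;> simp [kap] at h h2 ⊢ <;> omega

theorem rNew (hO : SOld) (hG : RGeo) (hR : RAbsR) (hS : RAbsS) : RNew := by
  classical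
  intro D d F a b T S B A C A' P P' I vS rP hx hA hC hI sp le g ps
  obtain ⟨x1, x2, x3, x4, x5, x6⟩ := hx
  obtain ⟨-, -, -, hGA, -⟩ := hO
  obtain ⟨hGap, -, -, -, hL, -⟩ := hG
  obtain ⟨-, -, l3, -, l5, l6, l7, -, -, -, -, -, -, -, l15, -⟩ := hL D d F
  obtain ⟨-, -, -, -, g5, -, -, -, -, -, g11, -, g13, -⟩ := hGap D
  obtain ⟨-, -, -, -, -, -, -, -, -, -, -, g12, -⟩ := hGap d
  obtain ⟨vP, inA, cd, -⟩ := (hGA d).1 A' P' sp
  have vB : Val B := ((hGA D).2.2.2.1 S B vS x1).1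
  have rP' : F.Reg P' := (l15 P' P le).2 rP
  by_cases hp : Pend F a P'
  · refine ⟨B, C, insert (A', P') I, ⟨x1, x2, x3, x4, fun u hu => ?_, fun u hu v hv huv => ?_⟩,
      le_rfl, subset_insert _ _, fun x hx => Or.inr ⟨_, mem_insert_self _ _, hx⟩⟩
    · rcases mem_insert.1 hu with rfl | hu
      · exact ⟨hA, hC, sp, le, g, hp⟩
      · exact x5 u hu
    · rcases mem_insert.1 hu with rfl | hu <;> rcases mem_insert.1 hv with rfl | hv
      · exact absurd rfl huv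
      · exact hI v hv
      · exact (hI u hu).symm
      · exact x6 u hu v hv huv
  by_cases hB : F.pr P' ≤ B
  · exact ⟨B, C, I, ⟨x1, x2, x3, x4, x5, x6⟩, le_rfl, Subset.rfl,
      fun x hx => Or.inl fun s => (l7 x P' hx s).trans (hB s)⟩
  suffices H : Crs F a b T S (B ⊔ F.pr P') (C ∪ A') by
    refine ⟨B ⊔ F.pr P', C ∪ A', I, ⟨x1.trans le_sup_left, sup_le x2 (l5 _ _ le),
      union_subset x3 hA, H, fun u hu => ?_, x6⟩, le_sup_left, Subset.rfl,
      fun x hx => Or.inl fun s => (l7 x P' hx s).trans (le_sup_right (a := B) s)⟩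
    obtain ⟨y1, y2, y3, y4, y5, y6⟩ := x5 u hu
    exact ⟨y1, disjoint_union_right.2 ⟨y2, (hI u hu).symm⟩, y3, y4,
      (g5 _ _ _ _ le_sup_left le_rfl).trans y5, y6⟩
  obtain ⟨s, hs⟩ : ∃ s, B s < F.pr P' s := by
    by_contra hc
    exact hB fun s => not_lt.1 fun h => hc ⟨s, h⟩
  have sm : ∑ s, (F.pr P' s - B s).toNat ≤ psi (F.pr P') + 2 := by
    have h1 := g13 B (F.pr P') vB
    have h2 := ((hGA D).2.2.2.2 B (F.pr P') vB (l6 _ vP)).2
    omega
  by_cases hc : a ≤ psi P' ∨ (F.lev P' ≤ 1 ∧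
      (1 ≤ psi P' ∨ Two fun s => (F.pr P' s - B s).toNat))
  · refine hR D d F a b T S B C A' (P', fun s => (F.pr P' s - B s).toNat, false) vS x1 x4
      (fun _ => rfl) ⟨vP, rP', le_sup_right, fun t ht => ?_, ⟨s, ?_⟩, fun _ => ⟨ps, sm, hc⟩,
        fun h => absurd h Bool.false_ne_true⟩ ⟨sp, fun h => absurd h Bool.false_ne_true⟩ hC
    · have : S t ≤ B t := x1 t
      simp only at ht ⊢
      omega
    · simp only
      omega
  have lv : F.lev P' = 0 := by
    by_contra h0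
    refine hp ⟨by omega, h0, fun h1 => ?_⟩
    by_contra h2
    exact hc (Or.inr ⟨h1, Or.inl (by omega)⟩)
  have p0 : psi P' = 0 := by
    by_contra h2
    exact hc (Or.inr ⟨by omega, Or.inl (by omega)⟩)
  have nt : ¬ Two fun s => (F.pr P' s - B s).toNat := fun h => hc (Or.inr ⟨by omega, Or.inr h⟩)
  obtain ⟨x, hx⟩ : A'.Nonempty := card_pos.1 (by omega)
  have eP := (g12 P' x).2.2 (inA x hx) p0
  have eA : A' = {x} := eq_singleton_iff_unique_mem.2 ⟨hx, fun y hy => funext fun i => by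
    simpa [ptB, kap] using
      congrFun (((g12 P' y).2.2 (inA y hy) p0).symm.trans eP) (i, true)⟩
  subst eP eA
  rw [l3] at hs sm nt ⊢
  rw [union_comm, ← insert_eq]
  have h2 := (single_le_sum (f := fun s => (ptB (F.pp x) s - B s).toNat)
    (fun _ _ => Nat.zero_le _) (mem_univ s)).trans sm
  rw [g11] at h2
  refine hS D d F a b T S B C x s vS x1 x4 (disjoint_singleton_left.1 hC) rP' (fun t ht => ?_) ?_
  · by_cases h1 : t.1 = s.1
    · exact opp_RNew vB _ h1 ht hs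
    · by_contra h3
      refine nt ⟨t, s, h1, ?_, ?_⟩ <;> simp only [ptB] at hs ⊢ <;> omega
  · simp only [ptB] at hs h2
    omega

end Pool.Agent.MP_6d294b_pr
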