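import Pool.Agent.MP_6d294b_pr.Stm2

open Finset

namespace Pool.Agent.MP_6d294b_pr

lemma log3_RNum (N : ℕ) (hN : 1 ≤ N) : 1 ≤ Real.log (2 * N + 1) := by
  have h1 : (1 : ℝ) ≤ N := by exact_mod_cast hN
  rw [Real.le_log_iff_exp_le (by linarith)]
  linarith [Real.exp_one_lt_d9]

lemma log54_RNum (x y : ℝ) (hx : 0 < x) (h : 5 * x ≤ 4 * y) :
    Real.log x + 1 / 5 ≤ Real.log y := by
  have h1 : Real.log (5 / 4 * x) ≤ Real.log y := Real.log_le_log (by linarith) (by linarith)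
  rw [Real.log_mul (by norm_num) hx.ne'] at h1
  have h2 := Real.one_sub_inv_le_log_of_pos (x := 5 / 4) (by norm_num)
  norm_num at h2
  linarith

lemma small_RNum (p X s e : ℝ) (hp : 0 < p) (he : 1 ≤ e) (hs : 1 ≤ s) (hX : s ≤ X)
    (h : 4 * e * (p * X) ≤ 1) : p ≤ 1 / 2 ∧ p * s ≤ 1 := by
  have h1 : 0 ≤ p * X := mul_nonneg hp.le (by linarith)
  have h2 : 4 * (p * X) ≤ 1 := by nlinarith
  have h3 : p * s ≤ p * X := mul_le_mul_of_nonneg_left hX hp.le
  have h4 : p * 1 ≤ p * s := mul_le_mul_of_nonneg_left hs hp.le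
  constructor <;> linarith

lemma tm_RNum (G e T M : ℝ) (hG : 0 ≤ G) (he : 0 ≤ e) (hT : 0 ≤ T)
    (h : 12 * (G + 2) * (e + T) ≤ M) : T ≤ M := by
  nlinarith [mul_nonneg hG (add_nonneg he hT)]

theorem rNum (hb : RBet) (hs : RSlope) : RNum := by
  intro D d π hπ
  obtain ⟨hD, hDd, hp, hC, hT, hN, ha, hk, hG, hab, hpG, -, -, -, -, hM, -⟩ := hπ
  have hk1 : 1 ≤ d - D + 1 := by omega
  have s1 : π.M + 1 ≤ π.ss D := by
    have a1 : π.M + 1 ≤ (π.M + 1) ^ (D - 1) := Nat.le_self_pow (by omega) _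
    exact le_trans a1 (Nat.le_mul_of_pos_left _ hG)
  have s2 : (1 : ℝ) ≤ π.ss D := by exact_mod_cast (by omega : 1 ≤ π.ss D)
  have s3 : (π.ss D : ℝ) ≤ (π.G + 2) * (π.M + 1) ^ (D - 1) := by
    unfold Pm.ss
    push_cast
    exact mul_le_mul_of_nonneg_right (by linarith) (by positivity)
  have s4 : (1 : ℝ) ≤ (d + 1) ^ 2 := one_le_pow₀ (by linarith [Nat.cast_nonneg (α := ℝ) d])
  obtain ⟨p1, p2⟩ := small_RNum π.p _ _ _ hp s4 s2 s3 hpG
  have p3 : 0 < π.p * π.ss D := mul_pos hp (by linarith)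
  have p4 : 1 ≤ 1 / (π.p * π.ss D) := by rw [le_div_iff₀ p3]; linarith
  have p5 : 2 / (π.p * π.ss D) = 2 * (1 / (π.p * π.ss D)) := by ring
  have g0 : 0 ≤ π.gx D := by
    unfold Pm.gx
    exact div_nonneg (Real.log_nonneg (by linarith)) (by norm_num)
  have g1 : π.gx D ≤ π.gm := by
    unfold Pm.gx Pm.gm
    refine div_le_div_of_nonneg_right (Real.log_le_log (by linarith) ?_) (by norm_num)
    refine div_le_div_of_nonneg_left (by norm_num) hp ?_
    have := mul_le_mul_of_nonneg_left s2 hp.le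
    linarith
  have l1 := log3_RNum π.N hN
  have l0 : 0 < Real.log (2 * π.N + 1) := by linarith
  have n0 : (0 : ℝ) ≤ π.N := Nat.cast_nonneg _
  have k0 : (0 : ℝ) ≤ π.k := Nat.cast_nonneg _
  have v1 : 1 ≤ π.vol d := by
    unfold Pm.vol
    exact one_le_pow₀ (by linarith)
  have v2 : 0 ≤ Real.log (π.vol d) := Real.log_nonneg v1
  have gm0 : 0 ≤ π.gm := le_trans g0 g1
  have C0 : 0 ≤ π.C := by linarith
  have Z0 : 0 ≤ π.Z D := by unfold Pm.Z; positivity
  have e1 : 0 ≤ π.et1 D d := by unfold Pm.et1; positivity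
  have e2 : 0 ≤ π.et2 D := by unfold Pm.et2; positivity
  have e3 : 0 ≤ π.the D := by unfold Pm.the; positivity
  have e4 : 0 ≤ π.eps D d := by unfold Pm.eps; positivity
  have tM : π.T ≤ π.M := by
    exact_mod_cast tm_RNum _ _ _ _ (Nat.cast_nonneg π.G) e4 (Nat.cast_nonneg π.T) hM
  have zpos : ∀ x : ℝ, 0 ≤ x → π.p * π.ss D ≤ π.p * (x + π.ss D) := fun x hx =>
    mul_le_mul_of_nonneg_left (by linarith) hp.le
  refine ⟨?_, ?_, p1, g0, g1, ?_, l1, ?_, ?_, v1, ?_, e1, e2, e3, e4, tM, by omega, by omega,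
    ?_, ?_, ?_, ?_, ?_⟩
  · unfold Pm.pb
    have := Real.exp_le_one_iff.2 (by linarith : - π.p ≤ 0)
    linarith
  · unfold Pm.pb
    linarith [Real.add_one_le_exp (- π.p)]
  · unfold Pm.gx
    rw [mul_div_cancel₀ _ (by norm_num : (2 : ℝ) ≠ 0), Real.exp_log (by linarith)]
    have : (π.ss D : ℝ) ≠ 0 := by linarith
    field_simp
  · unfold Pm.de; positivity
  · unfold Pm.de
    exact one_div_le_one_div_of_le (by norm_num) (by linarith)
  · unfold Pm.vol
    exact le_trans (pow_le_pow_left₀ (by linarith) (by linarith) _)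
      (pow_le_pow_right₀ (by linarith) (by omega))
  · intro x x' hx hxx
    unfold Pm.co
    exact ((hs _ hk1).2 _ _ (lt_of_lt_of_le p3 (zpos x hx))
      (mul_le_mul_of_nonneg_left (by linarith) hp.le)).1
  · intro x hx
    have z1 := zpos x hx
    have z0 := lt_of_lt_of_le p3 z1
    obtain ⟨-, b1, b2, -⟩ := (hb _ hk1).2 _ z0
    have z2 : 1 / (π.p * (x + π.ss D)) ≤ 1 / (π.p * π.ss D) := one_div_le_one_div_of_le p3 z1
    have z3 : 0 < 1 + 1 / (π.p * (x + π.ss D)) := by positivity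
    refine ⟨b1, le_trans b2 ?_, ?_⟩
    · unfold Pm.gx
      exact div_le_div_of_nonneg_right (Real.log_le_log z3 (by linarith)) (by norm_num)
    · rw [← Real.exp_nat_mul, ← Real.le_log_iff_exp_le z3]
      unfold Pm.co
      push_cast
      linarith
  · intro t ht
    have t0 : (0 : ℝ) ≤ t := Nat.cast_nonneg _
    have t1 : (t : ℝ) ≤ 2 * π.N := by exact_mod_cast ht
    have a1 : 0 ≤ Real.log (t + 1) / Real.log (2 * π.N + 1) :=
      div_nonneg (Real.log_nonneg (by linarith)) l0.le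
    have a2 : Real.log (t + 1) / Real.log (2 * π.N + 1) ≤ 1 :=
      (div_le_one l0).2 (Real.log_le_log (by linarith) (by linarith))
    unfold Pm.cs
    constructor <;> linarith
  · intro t t' ht
    have t0 : (0 : ℝ) ≤ t' := Nat.cast_nonneg _
    have t1 : (t' : ℝ) ≤ t := by exact_mod_cast ht
    have a1 : Real.log (t' + 1) / Real.log (2 * π.N + 1) ≤
        Real.log (t + 1) / Real.log (2 * π.N + 1) :=
      div_le_div_of_nonneg_right (Real.log_le_log (by linarith) (by linarith)) l0.le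
    unfold Pm.cs
    linarith
  · intro t t' ht
    have t0 : (0 : ℝ) ≤ t' := Nat.cast_nonneg _
    have t1 : 5 * ((t' : ℝ) + 1) ≤ 4 * ((t : ℝ) + 1) := by exact_mod_cast ht
    have a1 := div_le_div_of_nonneg_right (log54_RNum _ _ (by linarith) t1) l0.le
    have a2 : (Real.log (t' + 1) + 1 / 5) / Real.log (2 * π.N + 1) =
        Real.log (t' + 1) / Real.log (2 * π.N + 1) + 2 * (1 / (10 * Real.log (2 * π.N + 1))) := by
      field_simp
      ring
    unfold Pm.cs Pm.de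
    linarith

end Pool.Agent.MP_6d294b_pr
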