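import Pool.Agent.MP_6d294b_pr.Stm2

open Finset

namespace Pool.Agent.MP_6d294b_pr

theorem incr_RSeed {D d : ℕ} {F : Fr D d} {a b T : ℕ} {S B : Bx D} {C A : Finset (Pt d)}
    (h : Crs F a b T S B C) (hA : C ⊆ A) : Crs F a b T S B A := by
  obtain ⟨U, w, W, h1, h2, h3⟩ := h
  exact ⟨U, w, W, fun u hu => ⟨(h1 u hu).1, (h1 u hu).2.1.trans hA, (h1 u hu).2.2⟩,
    fun s => ⟨(h2 s).1.trans hA, (h2 s).2⟩, h3⟩

theorem chain_RSeed (hA : SGeoA) (hCh : RChain) {D d : ℕ} (F : Fr D d) {a b : ℕ} (hab : a ≤ b)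
    {R : Bx D} {A : Finset (Pt d)} (h : IFl F R A) :
    ∃ S B : Bx D, Val S ∧ S ≤ B ∧ B ≤ R ∧ psi S = 0 ∧ psi R ≤ psi B + 2 * D * (a + 1) ∧
      Crs F a b (psi R + 1) S B A := by
  obtain ⟨A', K, P, hA', hf, hr, rfl⟩ := h
  have g4 := (hA D).2.2.2.1
  rcases hCh D d F a b (psi (F.pr P) + 1) A' K P hf hr hab (by omega) with
    ⟨S, B, A₀, C, -, c2, -, -, c5, c6, c7, c8, c9, c10, -⟩ |
    ⟨Q, Q', B, A₁, A₂, C, -, -, -, -, -, -, -, -, -, -, c2, c3, c4, -, -, c5, -⟩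
  · refine ⟨S, B, c6, c7, c8, by omega, ?_, incr_RSeed c5 (c2.trans hA')⟩
    have h1 := (g4 B _ (g4 S B c6 c7).1 c8).2.2.2.1
    have h2 := sum_le_card_nsmul univ (fun s => (F.pr P s - B s).toNat) (a + 1) fun s _ => by
      have := c9 s
      omega
    rw [card_univ, Fintype.card_prod, Fintype.card_fin, Fintype.card_bool, smul_eq_mul,
      mul_comm D] at h2
    omega
  · have h1 := (g4 Q' _ c2 ((le_sup_right.trans c3).trans c4)).2.2.2.1
    omega

theorem fin_RSeed {v c e g t b s z : ℝ} {n : ℕ} (hv : 1 ≤ v) (hc : 0 ≤ c) (he : 0 ≤ e)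
    (hg : c + e ≤ g) (hb : b ≤ t) (hn : t ≤ n + s) (hs : 0 ≤ s) (hz : s ≤ z)
    (h : 4 * v ^ 3 * Real.exp (- (e * b / 2) + g * z + 1) ≤ 1) :
    v ^ 2 * ((Real.exp (c + e))⁻¹ ^ n * Real.exp (e * t / 2 + 1)) ≤ v * Real.exp (- (c * t)) := by
  rw [← Real.exp_neg, ← Real.exp_nat_mul, ← Real.exp_add]
  have h1 : (c + e) * t ≤ (c + e) * (n + s) := mul_le_mul_of_nonneg_left hn (by linarith)
  have h2 : (c + e) * s ≤ g * z := mul_le_mul hg hz hs (by linarith)
  have h3 := mul_le_mul_of_nonneg_left hb he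
  have h4 : Real.exp (n * -(c + e) + (e * t / 2 + 1)) ≤
      Real.exp (- (e * b / 2) + g * z + 1) * Real.exp (- (c * t)) := by
    rw [← Real.exp_add]
    exact Real.exp_le_exp.2 (by linarith)
  have h5 : v ^ 2 * Real.exp (- (e * b / 2) + g * z + 1) ≤ v := by
    have h6 : v ^ 2 ≤ 4 * v ^ 3 := by nlinarith [sq_nonneg v]
    have h7 := mul_le_mul_of_nonneg_right h6 (Real.exp_pos (- (e * b / 2) + g * z + 1)).le
    linarith
  calc _ ≤ v ^ 2 * (Real.exp (- (e * b / 2) + g * z + 1) * Real.exp (- (c * t))) := by gcongr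
    _ ≤ _ := by rw [← mul_assoc]; gcongr

theorem rSeed (hO : SOld) (hG : RGeo) (hN : RAna) (hCh : RChain) (hCC : RCrossC) (hW : RWL0)
    (hHB : RHB) (hSW : RSeedW) : RSeed := by
  classical
  intro D d
  obtain ⟨C₁, hHB⟩ := hHB D d
  obtain ⟨Cw, w0, hW⟩ := hW D d
  refine ⟨max C₁ (max (384 * Real.exp 7) (160 * Real.exp 6 * (d + 1 + Cw))), ?_⟩
  intro π hC hP F hk Ω
  obtain ⟨hC1, hC2⟩ := max_le_iff.1 hC
  obtain ⟨hC2, hC3⟩ := max_le_iff.1 hC2
  obtain ⟨n1, n2, n3, n4, n5, n6, n7, n8, n9, n10, n11, -, -, -, -, -, n17, n18, -, -, n21, -⟩ :=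
    hN.2.2 D d π hP
  have hP' := hP
  obtain ⟨-, p2, p3, p4, -, -, -, p8, p9, -, -, p12, -, p14, p15, -⟩ := hP'
  obtain ⟨r1, r2, r3, -, r5, -⟩ := hO.1 (Pt d) Ω π.pb n1 (by linarith)
  have hA := hO.2.2.2.1
  have g4 := (hA D).2.2.2.1
  obtain ⟨-, -, -, -, hLA, hLB, -, hBx, hU⟩ := hG
  obtain ⟨-, l2, -, -, -, -, -, -, -, l10, -, -, l13, -⟩ := hLA D d F
  obtain ⟨-, m2, -, m4, -⟩ := hLB D d F
  have x1 := fun P => ((hBx D).2.2.2.1 P).2.1
  have s0 : (0 : ℝ) < π.ss D := by exact_mod_cast (by omega : 0 < π.ss D)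
  have q1 : ∀ y : ℝ, y ≤ 2 * π.gx D + 6 → π.pb * Real.exp y ≤ 2 / π.ss D * Real.exp 6 := by
    intro y hy
    rw [← n6, mul_assoc, ← Real.exp_add]
    exact mul_le_mul n2 (Real.exp_le_exp.2 hy) (Real.exp_pos _).le p3.le
  have q2 : ∀ y n : ℝ, y ≤ 2 * π.gx D + 6 → 0 ≤ n → n ≤ 2 * π.b + 1 →
      3 * Real.exp 1 * π.pb * n ^ (d - 1) * Real.exp y ≤ 1 / 64 := by
    intro y n hy h0 hn
    have a1 : n ^ (d - 1) ≤ (2 * π.b + 1 : ℝ) ^ d := (pow_le_pow_left₀ h0 hn _).trans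
      (pow_le_pow_right₀ (le_add_of_nonneg_left (by positivity)) (Nat.sub_le _ _))
    have a2 : 384 * Real.exp 7 * n ^ (d - 1) ≤ π.ss D :=
      (mul_le_mul hC2 a1 (by positivity) (by linarith)).trans p12
    have a3 : Real.exp 7 = Real.exp 1 * Real.exp 6 := by rw [← Real.exp_add]; norm_num
    calc _ = 3 * Real.exp 1 * n ^ (d - 1) * (π.pb * Real.exp y) := by ring
      _ ≤ 3 * Real.exp 1 * n ^ (d - 1) * (2 / π.ss D * Real.exp 6) :=
        mul_le_mul_of_nonneg_left (q1 y hy) (by positivity)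
      _ = 384 * Real.exp 7 * n ^ (d - 1) / π.ss D / 64 := by rw [a3]; ring
      _ ≤ _ := div_le_div_of_nonneg_right ((div_le_one s0).2 a2) (by norm_num)
  have v1 : (((2 * π.N + 1 + F.k) ^ (2 * d) : ℕ) : ℝ) = π.vol d := by
    rw [hk, Pm.vol]; push_cast; rfl
  have v2 : (((2 * π.N + 1) ^ (2 * D) : ℕ) : ℝ) ≤ π.vol d := by push_cast; exact n11
  have key : ∀ (n : ℕ) (R : Bx D), psi R = n → Val R → psi R ≤ 2 * π.N →
      (∃ i, sg (ex R) i ≤ 2 * (π.M + 1) ^ (D - 1)) →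
      Pr Ω π.pb (IFl F R) ≤ π.vol d * Real.exp (- (π.cs D (psi R) * psi R)) := by
    intro n
    induction n using Nat.strong_induction_on with
    | _ n ih =>
    rintro R rfl hV hR ⟨i, hi⟩
    obtain ⟨c1, c2⟩ := n21 _ hR
    have e1 : ∀ j, ex R j + 1 ≤ 2 * π.N + 1 := fun j => by
      have := (x1 R j).2.2
      omega
    rcases Nat.eq_zero_or_pos (psi R) with h0 | h0
    · rw [h0]
      simpa using (r2 _).trans n10
    have t1 : (1 : ℝ) ≤ psi R := by exact_mod_cast h0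
    by_cases hb : psi R ≤ π.b
    · have hb' : (psi R : ℝ) ≤ π.b := by exact_mod_cast hb
      have a1 := (hU d Ω π.pb n1 (by linarith)).2 F.thr (F.lift R) (psi R) (π.gx D + 2) l2 h0
        (by linarith) (q2 _ _ (by linarith) (by positivity) (by linarith))
      have a2 : ((boxes (F.lift R)).card : ℝ) ≤ π.vol d :=
        v1 ▸ Nat.cast_le.2 (m2 _ R e1 (hk ▸ p8))
      refine (r3 _ _ fun A _ h => ?_).trans (a1.trans ?_)
      · obtain ⟨A', K, P, h1, h2, h3, h4⟩ := h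
        refine ⟨A', K, P, h1, h2, (l13 R P).2 ⟨h4.le, h3⟩, ?_⟩
        rw [l10 P, h4]
        omega
      · refine (mul_le_of_le_one_right (by positivity)
          (pow_le_one₀ (by norm_num) (by norm_num))).trans ?_
        gcongr
    have hb' : (π.b : ℝ) ≤ psi R := by exact_mod_cast (not_le.1 hb).le
    have ih' : ∀ R' : Bx D, Val R' → R' ≤ R → psi R' < psi R →
        Pr Ω π.pb (IFl F R') ≤ π.vol d * Real.exp (- (π.cs D (psi R') * psi R')) :=
      fun R' h1 h2 h3 => ih _ h3 R' rfl h1 (by omega) ⟨i, le_trans (prod_le_prod' fun j _ =>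
        Nat.succ_le_succ ((g4 R' R h1 h2).2.1 j)) hi⟩
    have x0 : 1 ≤ Real.exp (π.cs D (psi R) + π.de) := Real.one_le_exp (by linarith)
    have x2 : Real.exp (π.cs D (psi R) + π.de) ^ 2 = Real.exp (2 * (π.cs D (psi R) + π.de)) := by
      rw [← Real.exp_nat_mul]; norm_num
    have one : ∀ S B : Bx D, Val S → S ≤ B → B ≤ R → psi S = 0 →
        Pr Ω π.pb (Crs F π.a π.b (psi R + 1) S B) ≤ (Real.exp (π.cs D (psi R) + π.de))⁻¹ ^ psi B *
          Real.exp (π.de * psi R / 2 + 1) := by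
      intro S B h1 h2 h3 h4
      obtain ⟨-, b2, -, b4, -⟩ := g4 B R (g4 S B h1 h2).1 h3
      refine (hCC D d F Ω π.pb n1 (by linarith) _ _ _ S B _ h1 h2 x0).trans ?_
      rw [h4, Nat.sub_zero]
      refine mul_le_mul_of_nonneg_left (Real.exp_le_exp.2 ?_) (by positivity)
      have ab : (π.a : ℝ) ≤ π.b := by exact_mod_cast n18
      have a1 := hW F Ω π.pb n1 (by linarith) π.a π.b (psi R + 1) S B _ x0 (by
        rw [x2]
        exact q2 _ _ (by linarith) (by positivity) (by linarith [Nat.cast_nonneg (α := ℝ) π.b]))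
      have a2 := sum_le_card_nsmul ((admS F π.a π.b (psi R + 1) S B).filter fun u => ¬ LowR π.a u)
        (fun u => Pr Ω π.pb (WE F u) * Real.exp (π.cs D (psi R) + π.de) ^ (∑ s, u.2.1 s))
        (1 / (2 * π.vol d ^ 2)) fun u hu => by
          obtain ⟨u1, u2⟩ := mem_filter.1 hu
          have u3 := (mem_filter.1 u1).2
          rw [← Real.exp_nat_mul, mul_comm _ (_ + _)]
          rcases hHB π hC1 hP F hk Ω _ S B u (by omega) u3 u2 with h | h
          · refine le_trans (mul_le_mul_of_nonneg_left (Real.exp_le_exp.2 ?_) (r1 _)) h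
            exact mul_le_mul_of_nonneg_right (by linarith) (Nat.cast_nonneg _)
          · exact hSW D d π hP F Ω R hR ih' _ S B u h3 u3 h.1 h.2
      have a3 : (((admS F π.a π.b (psi R + 1) S B).filter fun u => ¬ LowR π.a u).card : ℝ) ≤
          2 * π.vol d ^ 2 := by
        have := Nat.cast_le (α := ℝ).2 ((card_filter_le _ fun u => ¬ LowR π.a u).trans
          (m4 π.a π.b (psi R + 1) (2 * π.N + 1) S B (by omega) (hk ▸ p8)))
        rw [Nat.cast_mul, Nat.cast_mul, v1] at this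
        have h5 := mul_le_mul_of_nonneg_left v2 (zero_le_one.trans n10)
        push_cast at this h5 ⊢
        linarith
      rw [nsmul_eq_mul] at a2
      have a4 := a2.trans ((mul_le_mul_of_nonneg_right a3 (by positivity)).trans
        (mul_one_div_cancel (by positivity)).le)
      have a5 : (volB B : ℝ) ≤ 4 * (π.M + 1) ^ (D - 1) * psi R := by
        have f1 : volB B ≤ volB R := prod_le_prod' fun j _ => Nat.succ_le_succ (b2 j)
        obtain ⟨f2, -, f3⟩ := x1 R i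
        have f4 := Nat.mul_le_mul hi (by omega : ex R i + 1 ≤ 2 * psi R)
        have f5 : volB B ≤ 4 * (π.M + 1) ^ (D - 1) * psi R := by linarith
        exact_mod_cast f5
      have a6 := q1 _ (by linarith : 2 * (π.cs D (psi R) + π.de) ≤ 2 * π.gx D + 6)
      have G0 : (0 : ℝ) < π.G := by exact_mod_cast p9
      have a7 : (d + 1 + Cw) * (volB B * (π.pb * Real.exp (2 * (π.cs D (psi R) + π.de)))) ≤
          π.de * psi R / 2 := by
        have f1 : 160 * Real.exp 6 * (d + 1 + Cw) * Real.log (2 * π.N + 1) ≤ π.G :=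
          (mul_le_mul_of_nonneg_right hC3 (by linarith)).trans p15
        calc _ ≤ (d + 1 + Cw) * (4 * (π.M + 1) ^ (D - 1) * psi R * (2 / π.ss D * Real.exp 6)) := by
              gcongr
          _ = 160 * Real.exp 6 * (d + 1 + Cw) * Real.log (2 * π.N + 1) / π.G *
              (π.de * psi R / 2) := by
              have : Real.log (2 * π.N + 1) ≠ 0 := by linarith
              rw [Pm.ss, Pm.de]
              push_cast
              field_simp
              norm_num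
          _ ≤ _ := mul_le_of_le_one_left (by positivity) ((div_le_one G0).2 f1)
      rw [← sum_filter_add_sum_filter_not _ (LowR π.a)]
      rw [x2] at a1 ⊢
      linarith
    have a1 := r3 (IFl F R) _ (fun A _ h => ?_) |>.trans (r5 _ ((boxes R ×ˢ boxes R).filter
      fun u => Val u.1 ∧ u.1 ≤ u.2 ∧ u.2 ≤ R ∧ psi u.1 = 0 ∧ psi R ≤ psi u.2 + 2 * D * (π.a + 1))
      fun u => Crs F π.a π.b (psi R + 1) u.1 u.2)
    swap
    · obtain ⟨S, B, h1, h2, h3, h4, h5, h6⟩ := chain_RSeed hA hCh F n18 h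
      exact ⟨(S, B), mem_filter.2 ⟨mem_product.2 ⟨(g4 S R h1 (h2.trans h3)).2.2.2.2,
        (g4 B R (g4 S B h1 h2).1 h3).2.2.2.2⟩, h1, h2, h3, h4, h5⟩, h6⟩
    refine a1.trans ((sum_le_card_nsmul _ _ ((Real.exp (π.cs D (psi R) + π.de))⁻¹ ^
      (psi R - 2 * D * (π.a + 1)) * Real.exp (π.de * psi R / 2 + 1)) fun u hu => ?_).trans ?_)
    · obtain ⟨h1, h2, h3, h4, h5⟩ := (mem_filter.1 hu).2
      exact (one _ _ h1 h2 h3 h4).trans (mul_le_mul_of_nonneg_right (pow_le_pow_of_le_one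
        (by positivity) (inv_le_one_of_one_le₀ x0) (by omega)) (by positivity))
    · rw [nsmul_eq_mul]
      have a2 : ((boxes R).card : ℝ) ≤ π.vol d :=
        (Nat.cast_le.2 ((hO.2.2.2.2.1 D).1 R _ e1)).trans v2
      refine le_trans (mul_le_mul_of_nonneg_right ?_ (mul_nonneg (pow_nonneg (inv_nonneg.2
        (Real.exp_pos _).le) _) (Real.exp_pos _).le))
        (fin_RSeed (g := π.gm + 3) (s := (2 * D * (π.a + 1) : ℕ)) (z := (2 * D + 1) * (π.a + 3))
          n10 (by linarith) n8.le (by linarith) hb' (by exact_mod_cast le_tsub_add)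
          (by positivity) ?_ (by rw [← mul_assoc (π.gm + 3)]; exact p14))
      · refine (Nat.cast_le.2 (card_filter_le _ _)).trans ?_
        rw [card_product, Nat.cast_mul, sq]
        gcongr
      · push_cast
        gcongr <;> linarith
  intro R hV hR hi
  refine (key _ R rfl hV hR hi).trans ?_
  have := (n21 _ hR).1
  gcongr

end Pool.Agent.MP_6d294b_pr
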