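import Pool.Agent.MP_6d294b_pr.Stm2

open Finset

namespace Pool.Agent.MP_6d294b_pr

theorem expo_RSeedW {c c' de g t e a b D : ℝ} (hc : 1 ≤ c) (hg : c + de ≤ g) (hde : 0 < de)
    (hde1 : de ≤ 1 / 10) (ht : 0 ≤ t) (ha : 0 ≤ a) (hD : 0 ≤ D) (hb : b ≤ 2 * t)
    (h : (c + 2 * de ≤ c' ∧ e ≤ t + a + 3) ∨ (c ≤ c' ∧ 4 * e ≤ t + 8 * D * (a + 1))) :
    -(c' * t) + (c + de) * e ≤ -(de * b / 2) + g * (2 * D + 1) * (a + 3) + 1 := by
  have h1 : de * b / 2 ≤ de * t := by nlinarith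
  have hg0 : 0 ≤ g := by linarith
  have h2 : 0 ≤ g * D * (a + 1) := by positivity
  have h3 : 0 ≤ g * D := by positivity
  have h4 : 0 ≤ g * (a + 3) := by positivity
  rcases h with ⟨h5, h6⟩ | ⟨h5, h6⟩
  · have a1 := mul_le_mul_of_nonneg_right h5 ht
    have a2 := mul_le_mul_of_nonneg_left h6 (show 0 ≤ c + de by linarith)
    have a3 := mul_le_mul_of_nonneg_right hg (show 0 ≤ a + 3 by linarith)
    nlinarith
  · have a1 := mul_le_mul_of_nonneg_right h5 ht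
    have a2 := mul_le_mul_of_nonneg_left h6 (show 0 ≤ c + de by linarith)
    have a3 := mul_le_mul_of_nonneg_right hg (show 0 ≤ D * (a + 1) by positivity)
    have a4 := mul_le_mul_of_nonneg_right hc ht
    have a5 := mul_le_mul_of_nonneg_right hde1 ht
    nlinarith

theorem rSeedW (hO : SOld) (hG : RGeo) (hN : RAna) : RSeedW := by
  intro D d π hP F Ω R hR hind T' S B u hBR hu hbig hb
  obtain ⟨hp0, hp1, hp2, hgx, hgm, -, -, hde, hde1, hvol, -, -, -, -, -, -, -, -, -, -, hcs1, hcs2,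
    hcs3⟩ := hN.2.2 D d π hP
  obtain ⟨-, -, -, -, -, -, -, -, -, hab, -, -, -, hpar, -⟩ := hP
  obtain ⟨hV, hReg, hle, -, -, -, h7⟩ := hu
  obtain ⟨-, he1, -, he2⟩ := h7 hbig
  have hV' : Val (F.pr u.1) := fun i => hV (F.io i)
  have hVB : Val B := ((hO.2.2.2.1 D).2.2.2.1 _ _ hV' hle).1
  have hBt : psi B ≤ psi R := by
    have := ((hO.2.2.2.1 D).2.2.2.1 _ _ hVB hBR).2.2.2.1
    omega
  have hlt : psi (F.pr u.1) < psi R := by omega
  have h1 : Pr Ω π.pb (WE F u) ≤ Pr Ω π.pb (IFl F (F.pr u.1)) := by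
    refine (hO.1 (Pt d) Ω π.pb hp0 (by linarith)).2.2.1 _ _ ?_
    rintro A - ⟨w, hw, -, h2⟩
    obtain ⟨K, hK⟩ := h2 hbig
    exact ⟨w, K, u.1, hw, hK, hReg, rfl⟩
  have h2 := h1.trans (hind _ hV' (hle.trans hBR) hlt)
  obtain ⟨c1, c2⟩ := hcs1 (psi R) hR
  have h3 := expo_RSeedW (c := π.cs D (psi R)) (c' := π.cs D (psi (F.pr u.1))) (de := π.de)
    (g := π.gm + 3) (t := psi (F.pr u.1)) (e := (∑ s, u.2.1 s : ℕ)) (a := π.a) (b := π.b)
    (D := D) (by linarith) (by linarith) hde hde1 (Nat.cast_nonneg _) (Nat.cast_nonneg _)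
    (Nat.cast_nonneg _) (by exact_mod_cast (show π.b ≤ 2 * psi (F.pr u.1) by omega)) (by
      by_cases h : 5 * (psi (F.pr u.1) + 1) ≤ 4 * (psi R + 1)
      · exact Or.inl ⟨hcs3 _ _ h, by exact_mod_cast he1⟩
      · refine Or.inr ⟨hcs2 _ _ hlt.le, ?_⟩
        have h4 : 8 * D * (π.a + 1) = 4 * (2 * D * (π.a + 1)) := by ring
        exact_mod_cast (show 4 * ∑ s, u.2.1 s ≤ psi (F.pr u.1) + 8 * D * (π.a + 1) by omega))
  refine (mul_le_mul_of_nonneg_right h2 (Real.exp_pos _).le).trans ?_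
  rw [mul_assoc, ← Real.exp_add, le_div_iff₀ (by positivity)]
  have h4 := mul_le_mul_of_nonneg_left (Real.exp_le_exp.2 h3)
    (show 0 ≤ 4 * π.vol d ^ 3 by positivity)
  have h5 := h4.trans hpar
  nlinarith [mul_nonneg (show 0 ≤ π.vol d ^ 3 by positivity) (Real.exp_pos (-(π.cs D
    (psi (F.pr u.1)) * psi (F.pr u.1)) + (π.cs D (psi R) + π.de) * (∑ s, u.2.1 s : ℕ))).le]

end Pool.Agent.MP_6d294b_pr
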