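import Pool.Agent.MP_6d294b_pr.Stm2
import Pool.Agent.MP_6d294b_pr.PStep

open Finset

namespace Pool.Agent.MP_6d294b_pr

theorem rStep (hO : SOld) (hG : RGeo) (hN : RAna) (hGo : RGood) (hCB : RCrossB) (hW : RStepW) :
    RStep := by
  have _ := hG
  intro D d
  obtain ⟨C₀, hW⟩ := hW D d
  refine ⟨C₀, fun π hC hP F hF Ω Φ hΦ S B vS hSB hB hD => ?_⟩
  obtain ⟨-, -, -, hA, -, -, -, h5, -⟩ := hO
  obtain ⟨hb, hs, hn⟩ := hN
  obtain ⟨p0, pp, ps, -, -, -, -, -, -, -, -, -, -, -, -, -, hT, -, cm, cb, -⟩ := hn D d π hP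
  have W := hW π hC hP F hF Ω S B vS hSB hB hD
  obtain ⟨h2, hd, hp', -⟩ := hP
  have s0 : (0 : ℝ) < π.ss D := by exact_mod_cast lt_of_le_of_lt (Nat.zero_le _) hT
  have z0 : ∀ k : ℕ, 0 < π.p * (k + π.ss D) := fun k => by positivity
  have k1 : 1 ≤ d - D + 1 := Nat.le_add_left _ _
  have e1 : 1 - π.pb = Real.exp (-π.p) := by rw [Pm.pb]; ring
  have G0 : ∀ k : ℕ, 0 ≤ π.co D d k := fun k => (cb k k.cast_nonneg).1
  obtain ⟨-, hex, hdel, -, -⟩ := (hA D).2.2.2.1 S B vS hSB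
  have C := hCB D d F Ω π.pb p0 (pp.trans ps) π.a π.b π.T S B
    (fun i => Real.exp (- π.co D d (sg (ex B) i))) vS hSB
    (fun i => ⟨Real.exp_pos _, Real.exp_le_one_iff.2 (neg_nonpos.2 (G0 _))⟩) fun s J => by
      rw [Pm.co, ((hb _ k1).2 _ (z0 _)).1]
      refine hGo D d F Ω π.pb p0 (by linarith) B s _ ?_ (sub_le_self _ (Real.exp_pos _).le) J
      rw [e1, ← Real.exp_nat_mul]
      gcongr
      nlinarith
  have Pb : ∏ s : Sd D, Real.exp (- π.co D d (sg (ex B) s.1)) ^ (B s - S s).toNat =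
      Real.exp (-∑ i, ((ex B i - ex S i : ℕ) : ℝ) * π.co D d (sg (ex B) i)) := by
    rw [Fintype.prod_prod_type, ← sum_neg_distrib, Real.exp_sum]
    refine prod_congr rfl fun i _ => ?_
    rw [Fintype.prod_bool, ← pow_add, ← hdel, ← Real.exp_nat_mul, mul_neg]
  have Ph := ((h5 D fun k : ℕ => π.co D d k).2 Φ (π.gx D) hΦ
    (fun k k' h => cm k k' k.cast_nonneg (by exact_mod_cast h))
    fun k => ⟨G0 k, (cb k k.cast_nonneg).2.1⟩).1 (ex S) (ex B) hex
  have L0 : 0 ≤ lg B - lg S := by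
    rw [lg, lg, ← sum_sub_distrib]
    exact sum_nonneg fun j _ => sub_nonneg.2 (Real.log_le_log (by positivity)
      (by have := hex j; gcongr))
  have kd : ((d - D + 1 : ℕ) : ℝ) + 1 ≤ d := by
    have : d - D + 1 + 1 ≤ d := by omega
    exact_mod_cast this
  have D1 : ∀ i, π.co D d (sg (ex S) i) - π.co D d (sg (ex B) i) ≤ d * (lg B - lg S) := fun i => by
    have a : sg (ex S) i ≤ sg (ex B) i := prod_le_prod' fun j _ => Nat.succ_le_succ (hex j)
    have a1 : (1 : ℝ) ≤ sg (ex S) i := by exact_mod_cast sg_pos_Step _ i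
    have a2 : (sg (ex S) i : ℝ) ≤ sg (ex B) i := by exact_mod_cast a
    have a3 : Real.log (π.p * (sg (ex B) i + π.ss D)) - Real.log (π.p * (sg (ex S) i + π.ss D)) ≤
        lg B - lg S := by
      refine le_trans ?_ (log_sg_Step S B hex i)
      rw [← Real.log_div (z0 _).ne' (z0 _).ne', ← Real.log_div (by linarith) (by linarith)]
      refine Real.log_le_log (div_pos (z0 _) (z0 _)) ?_
      rw [mul_div_mul_left _ _ hp'.ne', div_le_div_iff₀ (by linarith) (by linarith)]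
      nlinarith
    refine (((hs _ k1).2 _ _ (z0 _) (by gcongr)).2).trans ?_
    exact (mul_le_mul_of_nonneg_left a3 (by positivity)).trans (mul_le_mul_of_nonneg_right kd L0)
  have D2 : ∑ i, ((ex B i - ex S i : ℕ) : ℝ) ≤ 2 * π.T + 1 := by
    have : ∑ i, (ex B i - ex S i) + psi S = psi B := by
      rw [psi, psi, ← sum_add_distrib]
      exact sum_congr rfl fun i _ => Nat.sub_add_cancel (hex i)
    have : ∑ i, (ex B i - ex S i) ≤ 2 * π.T + 1 := by omega
    exact_mod_cast this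
  have D3 : ∑ i, ((ex B i - ex S i : ℕ) : ℝ) * π.co D d (sg (ex S) i) -
      ∑ i, ((ex B i - ex S i : ℕ) : ℝ) * π.co D d (sg (ex B) i) ≤
      (2 * π.T + 1) * (d * (lg B - lg S)) := by
    rw [← sum_sub_distrib]
    calc _ ≤ ∑ i, ((ex B i - ex S i : ℕ) : ℝ) * (d * (lg B - lg S)) := sum_le_sum fun i _ => by
          rw [← mul_sub]; exact mul_le_mul_of_nonneg_left (D1 i) (Nat.cast_nonneg _)
      _ ≤ _ := by rw [← sum_mul]; gcongr
  have Z0 : 0 ≤ π.Z D := by unfold Pm.Z; positivity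
  have Z1 : 0 ≤ (2 * (π.T : ℝ) + 1) * (d * (lg B - lg S)) * π.Z D := by positivity
  refine C.trans ?_
  rw [Pb, ← Real.exp_add]
  refine Real.exp_le_exp.2 ?_
  rw [Pm.the]
  nlinarith

end Pool.Agent.MP_6d294b_pr
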