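import Pool.Agent.MP_6d294b_pr.Stm2

open Finset

namespace Pool.Agent.MP_6d294b_pr

theorem split_RStepW {α : Type} (X : Finset α) (f : α → ℝ) (P Q : α → Prop)
    {i1 : DecidablePred fun u => P u ∧ Q u} {i2 : DecidablePred fun u => P u ∧ ¬ Q u} {c : ℝ}
    (hc : 0 ≤ c) (h : ∀ u ∈ X, ¬ P u → f u ≤ c) :
    ∑ u ∈ X, f u ≤ ∑ u ∈ X.filter (fun u => P u ∧ Q u), f u +
      ∑ u ∈ X.filter (fun u => P u ∧ ¬ Q u), f u + X.card * c := by
  rw [sum_filter, sum_filter, ← nsmul_eq_mul, ← sum_const, ← sum_add_distrib, ← sum_add_distrib]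
  refine sum_le_sum fun u hu => ?_
  by_cases hP : P u
  · by_cases hQ : Q u <;> simp [hP, hQ, hc]
  · simp [hP, h u hu hP]

theorem high_RStepW (hO : SOld) (hG : RGeo) (hN : RAna) {D d : ℕ} {π : Pm} (hP : ParR D d π)
    {F : Fr D d} {Ω : Finset (Pt d)} {S B : Bx D} {u : Rc D d} (hB : psi B ≤ 2 * π.N)
    (hu : Adm2 F π.a π.b π.T S B u) (ht : u.2.2 = true) (hb : π.b < ∑ s, u.2.1 s)
    (hSe : ∀ R : Bx D, Val R → psi R ≤ 2 * π.N → (∃ i, sg (ex R) i ≤ 2 * (π.M + 1) ^ (D - 1)) →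
      Pr Ω π.pb (IFl F R) ≤ π.vol d * Real.exp (- ((π.gx D + 1) * psi R))) :
    Pr Ω π.pb (WE F u) * Real.exp (π.gx D * (∑ s, u.2.1 s : ℕ)) ≤ 1 / (2 * π.vol d ^ 2) := by
  obtain ⟨n1, n2, n3, n4, n5, -, -, n8, n9, n10, -, -, -, -, -, n16, -⟩ := hN.2.2 D d π hP
  obtain ⟨q1, -, -, -, -, -, -, -, -, q10, -, -, -, q14, -⟩ := hP
  obtain ⟨a1, a2, a3, -, -, -, a7⟩ := hu
  obtain ⟨-, b2, b3, -⟩ := a7 ht
  have hv : Val (F.pr u.1) := (hG.2.2.2.2.1 D d F).2.2.2.2.2.1 _ a1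
  have c1 : psi (F.pr u.1) < π.T := b3.resolve_left (by omega)
  have c2 : psi (F.pr u.1) ≤ psi B := by
    have := ((hO.2.2.2.1 D).2.2.2.1 _ _ hv a3).2.2.2.1
    omega
  have c3 := hSe _ hv (c2.trans hB) ⟨⟨0, by omega⟩,
    ((((hG.2.2.2.2.2.2.2.1 D).2.2.2.1 _).2.1 _).2.1.trans
      (Nat.pow_le_pow_left (by omega) _)).trans (Nat.le_mul_of_pos_left _ two_pos)⟩
  have c4 : Pr Ω π.pb (WE F u) ≤ Pr Ω π.pb (IFl F (F.pr u.1)) :=
    (hO.1 _ Ω π.pb n1 (by linarith)).2.2.1 _ _ fun A _ ⟨w, hw, _, h⟩ => by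
      obtain ⟨K, hK⟩ := h ht
      exact ⟨w, K, u.1, hw, hK, a2, rfl⟩
  generalize psi (F.pr u.1) = t at *
  generalize ∑ s, u.2.1 s = e at *
  have d1 : (e : ℝ) ≤ t + π.a + 3 := by exact_mod_cast b2
  have d2 : (π.b : ℝ) ≤ 2 * t := by exact_mod_cast (by omega : π.b ≤ 2 * t)
  have d3 : π.gx D * e ≤ π.gx D * (t + π.a + 3) := mul_le_mul_of_nonneg_left d1 n4
  have d4 : π.gx D * (π.a + 3) ≤ (π.gm + 3) * (2 * D + 1) * (π.a + 3) :=
    mul_le_mul_of_nonneg_right ((by linarith : π.gx D ≤ π.gm + 3).trans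
      (le_mul_of_one_le_right (by linarith) (by linarith [Nat.cast_nonneg (α := ℝ) D])))
      (by positivity)
  have d5 : π.de * π.b ≤ π.b := mul_le_of_le_one_left (Nat.cast_nonneg _) (by linarith)
  have d6 : Real.exp (- ((π.gx D + 1) * t)) * Real.exp (π.gx D * e) ≤
      Real.exp (- (π.de * π.b / 2) + (π.gm + 3) * (2 * D + 1) * (π.a + 3) + 1) := by
    rw [← Real.exp_add]
    exact Real.exp_le_exp.2 (by linarith)
  have hv0 : 0 < π.vol d := by linarith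
  refine (mul_le_mul_of_nonneg_right (c4.trans c3) (Real.exp_pos _).le).trans ?_
  rw [mul_assoc, le_div_iff₀ (by positivity)]
  have d7 := mul_le_mul_of_nonneg_left d6 (by positivity : 0 ≤ 2 * π.vol d ^ 3)
  have d8 := mul_pos (by positivity : 0 < π.vol d ^ 3) (Real.exp_pos
    (- (π.de * π.b / 2) + (π.gm + 3) * (2 * D + 1) * (π.a + 3) + 1))
  linarith

theorem rStepW (hO : SOld) (hG : RGeo) (hN : RAna) (h1 : RWL1) (h2 : RWL2) (hHB : RHB)
    (hSe : RSeed) : RStepW := by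
  intro D d
  obtain ⟨C1, hC1, h1⟩ := h1 D d
  obtain ⟨C2, hC2, h2⟩ := h2 D d
  obtain ⟨CH, hHB⟩ := hHB D d
  obtain ⟨CS, hSe⟩ := hSe D d
  refine ⟨max (max CH CS) (max (C2 + d) (max (2 * C1) 1200)), fun π hC hP F hk Ω S B hS hSB hB hT => ?_⟩
  simp only [max_le_iff] at hC
  obtain ⟨⟨k1, k2⟩, k3, k4, k5⟩ := hC
  obtain ⟨n1, n2, n3, n4, -, n6, -, -, -, n10, n11, -, -, -, -, -, n17, n18, -, n20, -⟩ :=
    hN.2.2 D d π hP
  have hp : 0 < π.p := hP.2.2.1
  have hT1 : (1 : ℝ) ≤ π.T := by exact_mod_cast hP.2.2.2.2.1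
  have ha1 : (1 : ℝ) ≤ π.a := by exact_mod_cast hP.2.2.2.2.2.2.1
  have hk1 : 1 ≤ F.k := hk ▸ hP.2.2.2.2.2.2.2.1
  have q12 := hP.2.2.2.2.2.2.2.2.2.2.2.1
  have hTs : (π.T : ℝ) < π.ss D := by exact_mod_cast n17
  have hs0 : (0 : ℝ) < π.ss D := by linarith
  obtain ⟨-, g2, -, g4, -⟩ := (hO.2.2.2.1 D).2.2.2.1 S B hS hSB
  have l1 : 0 ≤ lg B - lg S := sub_nonneg.2 (sum_le_sum fun i _ =>
    Real.log_le_log (by positivity) (by exact_mod_cast Nat.succ_le_succ (g2 i)))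
  have l2 : 0 ≤ (psi B : ℝ) - psi S := sub_nonneg.2 (by exact_mod_cast (by omega : psi S ≤ psi B))
  have s1 : ∀ i, (1 : ℝ) ≤ sg (ex B) i := fun i => by
    exact_mod_cast prod_pos fun j _ => Nat.succ_pos _
  have s2 : ∀ i, π.p * sg (ex B) i ≤ π.Z D := fun i => mul_le_mul_of_nonneg_left (by
    exact_mod_cast (((hG.2.2.2.2.2.2.2.1 D).2.2.2.1 B).2.1 i).2.1.trans
      (Nat.pow_le_pow_left (by omega : psi B + 1 ≤ 2 * π.N + 1) _)) hp.le
  have hZ : 0 ≤ π.Z D := mul_nonneg hp.le (by positivity)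
  have e1 : π.pb * Real.exp (2 * π.gx D) ≤ 2 / π.ss D :=
    n6 ▸ mul_le_mul_of_nonneg_right n2 (Real.exp_pos _).le
  have e2 : (π.a : ℝ) ^ d * (2 / π.ss D) ≤ 1 / 600 := by
    have : (π.a : ℝ) ^ d ≤ (2 * π.b + 1) ^ d := pow_le_pow_left₀ (by linarith)
      (by exact_mod_cast (by omega : π.a ≤ 2 * π.b + 1)) _
    have := mul_le_mul k5 this (by positivity) (by linarith)
    rw [mul_div_assoc', div_le_iff₀ hs0]
    linarith
  have e3 : (π.a : ℝ) ^ d * (π.pb * Real.exp (2 * π.gx D)) ≤ 1 / 600 :=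
    (mul_le_mul_of_nonneg_left e1 (by positivity)).trans e2
  have x1 := fun i => n20 (sg (ex B) i) (Nat.cast_nonneg _)
  have x2 : ∀ i, (Real.exp (- π.co D d (sg (ex B) i)))⁻¹ = Real.exp (π.co D d (sg (ex B) i)) :=
    fun i => by rw [Real.exp_neg, inv_inv]
  have w2 := h2 F Ω π.pb π.p n1 (by linarith) n2 hp π.a π.b π.T (2 * π.T + 1) S B
    (fun i => Real.exp (- π.co D d (sg (ex B) i))) (π.gx D) (π.Z D) hS hSB hT n4
    (fun i => ⟨Real.exp_pos _, Real.exp_le_one_iff.2 (neg_nonpos.2 (x1 i).1)⟩)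
    (fun i => (x2 i).le.trans (Real.exp_le_exp.2 (x1 i).2.1))
    (fun i => by
      rw [x2]
      refine (x1 i).2.2.trans (add_le_add_right (one_div_le_one_div_of_le
        (mul_pos hp (by linarith [s1 i])) (mul_le_mul_of_nonneg_left (by linarith) hp.le)) _))
    s2 (by
      have f1 : (π.a : ℝ) ^ (d - 1) ≤ π.a ^ d := pow_le_pow_right₀ ha1 (by omega)
      have f2 := mul_le_mul_of_nonneg_right f1 (by positivity : 0 ≤ π.pb * Real.exp (2 * π.gx D))
      have f3 := mul_le_mul (Real.exp_one_lt_d9.le.trans (by norm_num : _ ≤ (3 : ℝ))) (f2.trans e3)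
        (by positivity) (by norm_num)
      linarith)
  have w1 := h1 F Ω π.pb n1 (by linarith) π.a π.b π.T S B
    (fun i => (Real.exp (- π.co D d (sg (ex B) i)))⁻¹) (2 * (π.p * π.Z D + 1 / π.T)) hS hSB
    (fun i => by
      simp only [x2]
      refine ⟨Real.one_le_exp (x1 i).1, ?_, ?_⟩
      · have f1 : Real.exp (π.co D d (sg (ex B) i)) ^ 2 ≤ Real.exp (2 * π.gx D) := by
          rw [← Real.exp_nat_mul]
          exact Real.exp_le_exp.2 (by push_cast; linarith [(x1 i).2.1])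
        have f2 := mul_le_mul_of_nonneg_left f1 (by positivity : 0 ≤ (π.a : ℝ) ^ d * π.pb)
        linarith
      · have f0 := s1 i
        have f5 := s2 i
        have f1 := mul_le_mul n2 (x1 i).2.2 (by positivity) hp.le
        generalize (sg (ex B) i : ℝ) = σ at f0 f1 f5 ⊢
        have f2 : π.p * (1 + 1 / (π.p * (σ + π.ss D))) = π.p + 1 / (σ + π.ss D) := by
          field_simp
        have f3 : 1 / (σ + π.ss D) ≤ 1 / π.T := one_div_le_one_div_of_le (by linarith) (by linarith)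
        have f4 : σ * (1 / (σ + π.ss D)) ≤ 1 := by
          rw [mul_one_div, div_le_one (by linarith)]; linarith
        have f6 : 0 < 1 / (σ + π.ss D) := by positivity
        rw [f2] at f1
        generalize 1 / (σ + π.ss D) = y at f1 f3 f4 f6
        have f7 := mul_le_mul_of_nonneg_left (pow_le_pow_left₀ (by positivity) f1 2)
          (by linarith : 0 ≤ σ)
        have f8 := mul_le_mul_of_nonneg_left f5 hp.le
        have f9 := mul_le_mul_of_nonneg_right f4 f6.le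
        have f10 := mul_nonneg (by linarith : 0 ≤ σ) (sq_nonneg (π.p - y))
        linarith)
  obtain ⟨-, -, r3, r4, -⟩ := hG.2.2.2.2.2.1 D d F
  have hv0 : 0 < π.vol d := by linarith
  have c1 : ((admS F π.a π.b π.T S B).card : ℝ) * (1 / (2 * π.vol d ^ 2)) ≤ 1 := by
    have f1 : ((admS F π.a π.b π.T S B).card : ℝ) ≤ 2 * π.vol d * (2 * π.N + 1) ^ (2 * D) := by
      have := r4 π.a π.b π.T (2 * π.N + 1) S B (by omega) hk1
      rw [hk] at this
      unfold Pm.vol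
      exact_mod_cast this
    have f2 := mul_le_mul_of_nonneg_left n11 (by positivity : 0 ≤ 2 * π.vol d)
    rw [mul_one_div, div_le_one (by positivity)]
    linarith
  refine (split_RStepW _ _ (LowR π.a) (fun u => Two u.2.1) (by positivity) fun u hu hL => ?_).trans
    (add_le_add (add_le_add (w2.trans ?_) (w1.trans ?_)) c1)
  · have hA := (r3 _ _ _ _ _ hS hSB u).1 hu
    have p0 := (hO.1 _ Ω π.pb n1 (by linarith)).1 (WE F u)
    have f1 : ∏ s : Sd D, (Real.exp (- π.co D d (sg (ex B) s.1)))⁻¹ ^ u.2.1 s ≤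
        Real.exp (π.gx D * (∑ s, u.2.1 s : ℕ)) := by
      rw [mul_comm, Real.exp_nat_mul, ← prod_pow_eq_pow_sum]
      exact prod_le_prod (fun s _ => by positivity) fun s _ => pow_le_pow_left₀ (by positivity)
        ((x2 _).le.trans (Real.exp_le_exp.2 (x1 _).2.1)) _
    refine (mul_le_mul_of_nonneg_left f1 p0).trans ?_
    rcases hHB π k1 hP F hk Ω π.T S B u hB hA hL with h | ⟨h, h'⟩
    · refine le_trans (mul_le_mul_of_nonneg_left (Real.exp_le_exp.2
        (mul_le_mul_of_nonneg_right (by linarith) (Nat.cast_nonneg _))) p0) h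
    · exact high_RStepW hO hG hN hP hB hA h h' (hSe π k2 hP F hk Ω)
  · push_cast
    exact mul_le_mul_of_nonneg_right (mul_le_mul_of_nonneg_right
      (mul_le_mul_of_nonneg_right (by linarith) (by linarith)) (by linarith)) l1
  · refine mul_le_mul_of_nonneg_right ?_ l2
    have := mul_le_mul_of_nonneg_right k4 (by positivity : 0 ≤ π.p * π.Z D + 1 / π.T)
    unfold Pm.et2
    linarith

end Pool.Agent.MP_6d294b_pr
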