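import Pool.Agent.MP_6d294b_pr.Stm2

open Finset

namespace Pool.Agent.MP_6d294b_pr

open Classical in
/-- small records over a fixed box -/
theorem fib_RWL0 {D d : ℕ} (X : Finset (Rc D d)) (h : Bx d → ℝ) (h0 : ∀ P, 0 ≤ h P)
    (hX : ∀ u ∈ X, u.2.2 = false ∧ ∑ s, u.2.1 s ≤ psi u.1 + 2) :
    ∑ u ∈ X, h u.1 ≤ ∑ P ∈ X.image Prod.fst, ((psi P : ℝ) + 3) ^ (2 * D) * h P := by
  rw [← Finset.sum_fiberwise_of_maps_to (s := X) (t := X.image Prod.fst) (g := Prod.fst)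
    (fun u hu => Finset.mem_image_of_mem _ hu)]
  refine Finset.sum_le_sum fun P _ => ?_
  have e1 : ∑ u ∈ X.filter (fun u => u.1 = P), h u.1 =
      ((X.filter (fun u => u.1 = P)).card : ℝ) * h P := by
    rw [Finset.sum_congr rfl (g := fun _ => h P)
      (fun u hu => by rw [(Finset.mem_filter.1 hu).2]), Finset.sum_const, nsmul_eq_mul]
  rw [e1]
  refine mul_le_mul_of_nonneg_right ?_ (h0 P)
  have hc : (X.filter (fun u => u.1 = P)).card ≤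
      (Fintype.piFinset fun _ : Sd D => Finset.range (psi P + 3)).card := by
    refine Finset.card_le_card_of_injOn (fun u => u.2.1) ?_ ?_
    · intro u hu
      have hu' := Finset.mem_filter.1 (Finset.mem_coe.1 hu)
      refine Finset.mem_coe.2 (Fintype.mem_piFinset.2 fun s => Finset.mem_range.2 ?_)
      have h1 := (hX u hu'.1).2
      have h2 : u.2.1 s ≤ ∑ s, u.2.1 s :=
        Finset.single_le_sum (f := fun s => u.2.1 s) (fun _ _ => Nat.zero_le _) (Finset.mem_univ s)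
      rw [hu'.2] at h1
      show u.2.1 s < psi P + 3
      omega
    · intro u hu v hv huv
      have hu' := Finset.mem_filter.1 (Finset.mem_coe.1 hu)
      have hv' := Finset.mem_filter.1 (Finset.mem_coe.1 hv)
      refine Prod.ext (hu'.2.trans hv'.2.symm) (Prod.ext huv ?_)
      rw [(hX u hu'.1).1, (hX v hv'.1).1]
  rw [Fintype.card_piFinset] at hc
  simp only [Finset.card_range, Finset.prod_const, Finset.card_univ, Fintype.card_prod,
    Fintype.card_fin, Fintype.card_bool] at hc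
  rw [mul_comm D 2] at hc
  exact_mod_cast hc

open Classical in
/-- sum over low boxes below a projected box -/
theorem low_RWL0 (hA : RLiftA) (hL : RLowC) (hB : RBoxC) {D d : ℕ} (F : Fr D d) (B : Bx D)
    (Y : Finset (Bx d)) (hY : ∀ P ∈ Y, Val P ∧ F.Reg P ∧ F.lev P ≤ 1 ∧ F.pr P ≤ B) :
    ∑ P ∈ Y, (1 / 2 : ℝ) ^ psi P ≤ (d + 1) * 2 ^ d * (2 ^ D * volB B) := by
  rw [← Finset.sum_fiberwise_of_maps_to (s := Y) (t := Y.image F.pr) (g := F.pr)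
    (fun u hu => Finset.mem_image_of_mem _ hu)]
  have h1 : ∀ Q ∈ Y.image F.pr, ∑ P ∈ Y.filter (fun P => F.pr P = Q), (1 / 2 : ℝ) ^ psi P ≤
      (d + 1) * 2 ^ d * (1 / 2 : ℝ) ^ psi Q := by
    intro Q _
    refine hL D d F Q (1 / 2) _ (by norm_num) le_rfl fun P hP => ?_
    have hP' := Finset.mem_filter.1 hP
    obtain ⟨a1, a2, a3, _⟩ := hY P hP'.1
    exact ⟨a1, a2, a3, hP'.2⟩
  refine (Finset.sum_le_sum h1).trans ?_
  rw [← Finset.mul_sum]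
  refine mul_le_mul_of_nonneg_left ?_ (by positivity)
  refine ((hB D).1 B _ fun Q hQ => ?_).1
  obtain ⟨P, hP, rfl⟩ := Finset.mem_image.1 hQ
  obtain ⟨a1, _, _, a4⟩ := hY P hP
  exact ⟨(hA D d F).2.2.2.2.2.1 P a1, a4⟩

/-- weight of one low record -/
theorem one_RWL0 (hP : SPrA) (hS : SSeed) (hB : RBoxC) {D d : ℕ} (F : Fr D d)
    (Ω : Finset (Pt d)) (p : ℝ) (hp0 : 0 ≤ p) (hp1 : p ≤ 1) (a : ℕ) (x : ℝ) (hx : 1 ≤ x)
    (hc : 3 * Real.exp 1 * p * a ^ (d - 1) * x ^ 2 ≤ 1 / 64) (u : Rc D d) (i : Fin d)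
    (ha : psi u.1 < a) (he : ∑ s, u.2.1 s ≤ psi u.1 + 2) :
    Pr Ω p (WE F u) * x ^ (∑ s, u.2.1 s) ≤ p * x ^ 2 * (1 / 4) ^ psi u.1 := by
  have hx0 : 0 < x := by linarith
  have hm : Pr Ω p (WE F u) ≤ Pr Ω p (ISp u.1) :=
    (hP _ Ω p hp0 hp1).2.2.1 _ _ fun A _ hA => by
      obtain ⟨w, hw, hW⟩ := hA
      exact ⟨w, hw, hW.1⟩
  have hn : 0 ≤ Pr Ω p (ISp u.1) := (hP _ Ω p hp0 hp1).1 _
  have hsg : (sg (ex u.1) i : ℝ) ≤ (a : ℝ) ^ (d - 1) := by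
    have h1 := (((hB d).2.2.2.1 u.1).2.1 i).2.1
    have h2 : (psi u.1 + 1) ^ (d - 1) ≤ a ^ (d - 1) := Nat.pow_le_pow_left ha _
    exact_mod_cast h1.trans h2
  have e2 : Real.exp (2 * Real.log x) = x ^ 2 := by
    rw [show 2 * Real.log x = ((2 : ℕ) : ℝ) * Real.log x by norm_num, Real.exp_nat_mul,
      Real.exp_log hx0]
  have e3 : Real.exp (Real.log x * psi u.1) = x ^ psi u.1 := by
    rw [mul_comm, Real.exp_nat_mul, Real.exp_log hx0]
  have hs := (hS d Ω p hp0 hp1 u.1 i (Real.log x) (Real.log_nonneg hx)).2 (by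
    rw [e2]
    refine le_trans ?_ hc
    have := Real.exp_pos 1
    gcongr)
  rw [e3] at hs
  calc Pr Ω p (WE F u) * x ^ (∑ s, u.2.1 s)
      ≤ Pr Ω p (ISp u.1) * x ^ (psi u.1 + 2) :=
        mul_le_mul hm (pow_le_pow_right₀ hx he) (by positivity) hn
    _ = (Pr Ω p (ISp u.1) * x ^ psi u.1) * x ^ 2 := by ring
    _ ≤ (p * (1 / 4) ^ psi u.1) * x ^ 2 := mul_le_mul_of_nonneg_right hs (by positivity)
    _ = p * x ^ 2 * (1 / 4) ^ psi u.1 := by ring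

theorem rWL0 (hO : SOld) (hG : RGeo) : RWL0 := by
  classical
  obtain ⟨hP, -, -, -, -, hS, -⟩ := hO
  obtain ⟨-, -, -, -, hA, -, hL, hB, -⟩ := hG
  intro D d
  obtain ⟨C, hC0, hC⟩ := (hB d).2.2.2.2 (2 * D)
  refine ⟨C * ((d + 1) * 2 ^ d * 2 ^ D), by positivity, ?_⟩
  intro F Ω p hp0 hp1 a b T S B x hx hc
  set X := (admS F a b T S B).filter (LowR a) with hXd
  have hX : ∀ u ∈ X, u.2.2 = false ∧ psi u.1 < a ∧ Val u.1 ∧ F.Reg u.1 ∧ F.lev u.1 ≤ 1 ∧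
      F.pr u.1 ≤ B ∧ ∑ s, u.2.1 s ≤ psi u.1 + 2 ∧ Nonempty (Fin d) := by
    intro u hu
    obtain ⟨h1, h2, h3⟩ := Finset.mem_filter.1 hu
    unfold admS at h1
    obtain ⟨a1, a2, a3, -, ⟨s, -⟩, a6, -⟩ := (Finset.mem_filter.1 h1).2
    obtain ⟨-, b2, b3⟩ := a6 h2
    have b4 := (hA D d F).2.2.2.2.2.2.2.2.2.1 u.1
    refine ⟨h2, h3, a1, a2, ?_, a3, by omega, ⟨F.io s.1⟩⟩
    rcases b3 with b3 | b3
    · omega
    · exact b3.1
  have hx0 : 0 < x := by linarith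
  calc ∑ u ∈ X, Pr Ω p (WE F u) * x ^ (∑ s, u.2.1 s)
      ≤ ∑ u ∈ X, p * x ^ 2 * (1 / 4) ^ psi u.1 := by
        refine Finset.sum_le_sum fun u hu => ?_
        obtain ⟨-, a2, -, -, -, -, a7, ⟨i⟩⟩ := hX u hu
        exact one_RWL0 hP hS hB F Ω p hp0 hp1 a x hx hc u i a2 a7
    _ = p * x ^ 2 * ∑ u ∈ X, (1 / 4 : ℝ) ^ psi u.1 := by rw [Finset.mul_sum]
    _ ≤ p * x ^ 2 * (C * ((d + 1) * 2 ^ d * (2 ^ D * volB B))) := by
        refine mul_le_mul_of_nonneg_left ?_ (by positivity)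
        refine (fib_RWL0 X (fun P => (1 / 4 : ℝ) ^ psi P) (fun P => by positivity)
          fun u hu => ⟨(hX u hu).1, (hX u hu).2.2.2.2.2.2.1⟩).trans ?_
        refine (Finset.sum_le_sum fun P _ => hC (psi P)).trans ?_
        rw [← Finset.mul_sum]
        refine mul_le_mul_of_nonneg_left (low_RWL0 hA hL hB F B _ fun P hP' => ?_) hC0
        obtain ⟨u, hu, rfl⟩ := Finset.mem_image.1 hP'
        obtain ⟨-, -, a3, a4, a5, a6, -⟩ := hX u hu
        exact ⟨a3, a4, a5, a6⟩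
    _ = C * ((d + 1) * 2 ^ d * 2 ^ D) * volB B * p * x ^ 2 := by ring

end Pool.Agent.MP_6d294b_pr
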