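import Pool.Agent.MP_6d294b_pr.Stm2

open Finset

namespace Pool.Agent.MP_6d294b_pr

/-- all nonzero exponents lie on one axis -/
theorem prod_axis_RWL1 {D : ℕ} (e : Sd D → ℕ) (x : Fin D → ℝ) (s : Sd D) (hs : e s ≠ 0)
    (hT : ¬ Two e) : ∏ t : Sd D, x t.1 ^ e t = x s.1 ^ (∑ t, e t) := by
  rw [← Finset.prod_pow_eq_pow_sum]
  refine Finset.prod_congr rfl fun t _ => ?_
  by_cases ht : e t = 0
  · simp [ht]
  · have : s.1 = t.1 := by
      by_contra hne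
      exact hT ⟨s, t, hne, hs, ht⟩
    rw [this]

/-- sum over low boxes whose projection passes a layer -/
theorem low_sum_RWL1 (hL : RLowC) (hB : RBoxC) {D d : ℕ} (F : Fr D d) (B : Bx D) (s : Sd D)
    (j : ℤ) (X : Finset (Bx d))
    (hX : ∀ P ∈ X, Val P ∧ F.Reg P ∧ F.lev P ≤ 1 ∧ Val (F.pr P) ∧ F.pr P ≤ B ∧ j < F.pr P s) :
    ∑ P ∈ X, (1 / 2 : ℝ) ^ psi P ≤
      (d + 1) * 2 ^ d * (2 ^ D * (((B s - j).toNat * sg (ex B) s.1 : ℕ) : ℝ)) := by
  classical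
  have h1 : ∑ P ∈ X, (1 / 2 : ℝ) ^ psi P =
      ∑ Q ∈ X.image F.pr, ∑ P ∈ X.filter (fun P => F.pr P = Q), (1 / 2 : ℝ) ^ psi P :=
    (Finset.sum_fiberwise_of_maps_to (fun P hP => Finset.mem_image_of_mem _ hP) _).symm
  rw [h1]
  have h2 : ∀ Q ∈ X.image F.pr, ∑ P ∈ X.filter (fun P => F.pr P = Q), (1 / 2 : ℝ) ^ psi P ≤
      (d + 1) * 2 ^ d * (1 / 2 : ℝ) ^ psi Q := by
    intro Q _
    refine hL D d F Q (1 / 2) _ (by norm_num) le_rfl ?_
    intro P hP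
    rw [Finset.mem_filter] at hP
    obtain ⟨a1, a2, a3, -⟩ := hX P hP.1
    exact ⟨a1, a2, a3, hP.2⟩
  refine (Finset.sum_le_sum h2).trans ?_
  rw [← Finset.mul_sum]
  refine mul_le_mul_of_nonneg_left ?_ (by positivity)
  have h3 := ((hB D).1 B (X.image F.pr) (by
    intro Q hQ
    obtain ⟨P, hP, rfl⟩ := Finset.mem_image.mp hQ
    obtain ⟨-, -, -, a4, a5, -⟩ := hX P hP
    exact ⟨a4, a5⟩)).2.1 s j (by
    intro Q hQ
    obtain ⟨P, hP, rfl⟩ := Finset.mem_image.mp hQ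
    exact (hX P hP).2.2.2.2.2)
  exact h3

/-- counting the records over one box -/
theorem fib_RWL1 {D d : ℕ} (U : Finset (Rc D d)) (g : Bx d → ℝ) (hg : ∀ P, 0 ≤ g P)
    (hU : ∀ u ∈ U, u.2.2 = false ∧ ∀ t, u.2.1 t < psi u.1 + 3) :
    ∑ u ∈ U, g u.1 ≤ ∑ P ∈ U.image Prod.fst, ((psi P : ℝ) + 3) ^ (2 * D) * g P := by
  classical
  rw [Finset.sum_comp g Prod.fst]
  refine Finset.sum_le_sum fun P _ => ?_
  rw [nsmul_eq_mul]
  refine mul_le_mul_of_nonneg_right ?_ (hg P)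
  have hc : (U.filter fun u => u.1 = P).card ≤
      (Fintype.piFinset fun _ : Sd D => Finset.range (psi P + 3)).card := by
    refine Finset.card_le_card_of_injOn (fun u => u.2.1) ?_ ?_
    · intro u hu
      have hu' := Finset.mem_filter.mp hu
      simp only [Finset.mem_coe, Fintype.mem_piFinset, Finset.mem_range]
      intro t
      have := (hU u hu'.1).2 t
      rwa [hu'.2] at this
    · intro u hu v hv huv
      have hu' := Finset.mem_filter.mp hu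
      have hv' := Finset.mem_filter.mp hv
      refine Prod.ext (hu'.2.trans hv'.2.symm) (Prod.ext huv ?_)
      rw [(hU u hu'.1).1, (hU v hv'.1).1]
  rw [Fintype.card_piFinset] at hc
  simp only [Finset.card_range, Finset.prod_const, Finset.card_univ, Fintype.card_prod,
    Fintype.card_fin, Fintype.card_bool] at hc
  rw [mul_comm D 2] at hc
  exact_mod_cast hc

theorem rWL1 (hO : SOld) (hG : RGeo) : RWL1 := by
  classical
  obtain ⟨hPrA, -, -, hGA, -⟩ := hO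
  obtain ⟨-, -, -, -, hLA, -, hLow, hBox, hUni⟩ := hG
  intro D d
  obtain ⟨C₀, hC₀, hC⟩ := (hBox d).2.2.2.2 (2 * D + 2 * d)
  refine ⟨16 * C₀ * ((d + 1) * 2 ^ d * 2 ^ D), by positivity, ?_⟩
  intro F Ω p hp0 hp1 a b T S B x η hS hSB hx
  set U := (admS F a b T S B).filter (fun u => LowR a u ∧ ¬ Two u.2.1) with hUdef
  -- facts on the records
  have hU : ∀ u ∈ U, Val u.1 ∧ F.Reg u.1 ∧ F.pr u.1 ≤ B ∧
      (∀ s, u.2.1 s ≠ 0 → S s + u.2.1 s ≤ F.pr u.1 s) ∧ (∃ s, u.2.1 s ≠ 0) ∧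
      u.2.2 = false ∧ psi u.1 < a ∧ ¬ Two u.2.1 ∧ ∑ s, u.2.1 s ≤ psi u.1 + 2 ∧
      F.lev u.1 ≤ 1 ∧ 1 ≤ psi u.1 := by
    intro u hu
    rw [hUdef, Finset.mem_filter] at hu
    obtain ⟨hu1, ⟨hf, hlt⟩, hT⟩ := hu
    have hA : Adm2 F a b T S B u := by
      unfold admS at hu1
      exact (Finset.mem_filter.mp hu1).2
    obtain ⟨a1, a2, a3, a4, a5, a6, -⟩ := hA
    obtain ⟨-, b2, b3⟩ := a6 hf
    have hps := (hLA D d F).2.2.2.2.2.2.2.2.2.1 u.1
    rcases b3 with b3 | ⟨b4, b5⟩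
    · omega
    · rcases b5 with b5 | b5
      · exact ⟨a1, a2, a3, a4, a5, hf, hlt, hT, by omega, b4, b5⟩
      · exact absurd b5 hT
  set g : Sd D → Bx d → ℝ := fun s P =>
    16 * (((psi P : ℝ) + 1) ^ d * p * x s.1 ^ 2) ^ 2 * (1 / 4) ^ psi P with hg
  have hg0 : ∀ s P, 0 ≤ g s P := fun s P => by rw [hg]; positivity
  -- weight of one record
  have hw : ∀ u ∈ U, Pr Ω p (WE F u) * ∏ s : Sd D, x s.1 ^ u.2.1 s ≤
      ∑ s : Sd D, if u.2.1 s ≠ 0 then g s u.1 else 0 := by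
    intro u hu
    obtain ⟨-, -, -, -, ⟨s, hs⟩, -, hlt, hT, hsum, -, h1⟩ := hU u hu
    have hle : g s u.1 ≤ ∑ s : Sd D, if u.2.1 s ≠ 0 then g s u.1 else 0 := by
      have := Finset.single_le_sum (f := fun s : Sd D => if u.2.1 s ≠ 0 then g s u.1 else 0)
        (fun t _ => by
          split_ifs
          · exact hg0 _ _
          · exact le_rfl) (Finset.mem_univ s)
      simpa [hs] using this
    refine le_trans ?_ hle
    rw [prod_axis_RWL1 u.2.1 x s hs hT]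
    obtain ⟨hx1, hx2, -⟩ := hx s.1
    have hP := hPrA (Pt d) Ω p hp0 hp1
    have hm : Pr Ω p (WE F u) ≤ Pr Ω p (ISp u.1) := by
      refine hP.2.2.1 _ _ ?_
      rintro A - ⟨w, hw1, hw2⟩
      exact ⟨w, hw1, hw2.1⟩
    have hcond : 16 * ((psi u.1 : ℝ) + 1) ^ d * p * x s.1 ^ 2 ≤ 1 := by
      refine le_trans ?_ hx2
      have : ((psi u.1 : ℝ) + 1) ≤ a := by exact_mod_cast hlt
      gcongr
    have hu2 := (hUni d Ω p hp0 hp1).1 u.1 (x s.1) hx1 h1 hcond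
    refine le_trans ?_ hu2
    exact mul_le_mul hm (pow_le_pow_right₀ hx1 hsum) (by positivity) (hP.1 _)
  refine (Finset.sum_le_sum hw).trans ?_
  rw [Finset.sum_comm]
  -- one side
  have hside : ∀ s : Sd D, ∑ u ∈ U, (if u.2.1 s ≠ 0 then g s u.1 else 0) ≤
      16 * C₀ * ((d + 1) * 2 ^ d * 2 ^ D) * η * ((B s - S s).toNat : ℝ) := by
    intro s
    rw [← Finset.sum_filter]
    set V := U.filter (fun u => u.2.1 s ≠ 0) with hV
    have h1 := fib_RWL1 V (g s) (hg0 s) (by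
      intro u hu
      have hu' := (Finset.mem_filter.mp hu).1
      obtain ⟨-, -, -, -, -, hf, -, -, hsum, -⟩ := hU u hu'
      refine ⟨hf, fun t => ?_⟩
      have := Finset.single_le_sum (f := u.2.1) (fun _ _ => Nat.zero_le _) (Finset.mem_univ t)
      omega)
    refine h1.trans ?_
    have h2 : ∀ P ∈ V.image Prod.fst, ((psi P : ℝ) + 3) ^ (2 * D) * g s P ≤
        16 * C₀ * (p * x s.1 ^ 2) ^ 2 * (1 / 2 : ℝ) ^ psi P := by
      intro P _
      have h3 := hC (psi P)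
      have h4 : ((psi P : ℝ) + 1) ^ (2 * d) ≤ ((psi P : ℝ) + 3) ^ (2 * d) := by
        gcongr; norm_num
      have h5 : ((psi P : ℝ) + 3) ^ (2 * D) * g s P =
          16 * (p * x s.1 ^ 2) ^ 2 *
            (((psi P : ℝ) + 3) ^ (2 * D) * ((psi P : ℝ) + 1) ^ (2 * d) * (1 / 4) ^ psi P) := by
        rw [hg]; ring
      have h6 : ((psi P : ℝ) + 3) ^ (2 * D) * ((psi P : ℝ) + 1) ^ (2 * d) * (1 / 4) ^ psi P ≤
          C₀ * (1 / 2) ^ psi P := by
        refine le_trans ?_ h3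
        rw [pow_add]
        gcongr
      rw [h5]
      calc 16 * (p * x s.1 ^ 2) ^ 2 *
            (((psi P : ℝ) + 3) ^ (2 * D) * ((psi P : ℝ) + 1) ^ (2 * d) * (1 / 4) ^ psi P)
          ≤ 16 * (p * x s.1 ^ 2) ^ 2 * (C₀ * (1 / 2) ^ psi P) := by gcongr
        _ = _ := by ring
    refine (Finset.sum_le_sum h2).trans ?_
    rw [← Finset.mul_sum]
    have h7 := low_sum_RWL1 hLow hBox F B s (S s) (V.image Prod.fst) (by
      intro P hP
      obtain ⟨u, hu, rfl⟩ := Finset.mem_image.mp hP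
      have hu' := Finset.mem_filter.mp hu
      obtain ⟨a1, a2, a3, a4, -, -, -, -, -, a5, -⟩ := hU u hu'.1
      refine ⟨a1, a2, a5, (hLA D d F).2.2.2.2.2.1 _ a1, a3, ?_⟩
      have := a4 s hu'.2
      have h0 : 0 < u.2.1 s := Nat.pos_of_ne_zero hu'.2
      omega)
    have h8 := (hx s.1).2.2
    push_cast at h7
    calc 16 * C₀ * (p * x s.1 ^ 2) ^ 2 * ∑ P ∈ V.image Prod.fst, (1 / 2 : ℝ) ^ psi P
        ≤ 16 * C₀ * (p * x s.1 ^ 2) ^ 2 *
          ((d + 1) * 2 ^ d * (2 ^ D * (((B s - S s).toNat : ℝ) * sg (ex B) s.1))) := by gcongr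
      _ = 16 * C₀ * ((d + 1) * 2 ^ d * 2 ^ D) * (sg (ex B) s.1 * (p * x s.1 ^ 2) ^ 2) *
          ((B s - S s).toNat : ℝ) := by ring
      _ ≤ _ := by gcongr
  refine (Finset.sum_le_sum fun s _ => hside s).trans ?_
  rw [← Finset.mul_sum]
  have h9 := ((hGA D).2.2.2.1 S B hS hSB).2.2.2.1
  have h10 : ∑ s : Sd D, ((B s - S s).toNat : ℝ) = (psi B : ℝ) - psi S := by
    rw [h9]; push_cast; ring
  rw [h10]

end Pool.Agent.MP_6d294b_pr
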