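import Pool.Agent.MP_6d294b_pr.Stm2

open Finset

namespace Pool.Agent.MP_6d294b_pr

theorem seed_RWL2 (hO : SOld) (hG : RGeo) {D d : ℕ} (F : Fr D d) (Ω : Finset (Pt d)) (p p' : ℝ)
    (h0 : 0 ≤ p) (h1 : p ≤ 1) (hpp : p ≤ p') (a : ℕ) (c : ℝ) (hc : 0 ≤ c)
    (hsm : 3 * Real.exp 1 * p * a ^ (d - 1) * Real.exp (2 * c) ≤ 1 / 64)
    (u : Rc D d) (hu : psi u.1 < a) (i : Fin d) :
    Pr Ω p (WE F u) ≤ p' * (Real.exp (- c) / 4) ^ psi u.1 := by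
  obtain ⟨hPA, -, -, -, -, hS, -, -, -⟩ := hO
  obtain ⟨-, -, -, -, -, -, -, hB, -⟩ := hG
  have e1 : Pr Ω p (WE F u) ≤ Pr Ω p (ISp u.1) := by
    refine (hPA (Pt d) Ω p h0 h1).2.2.1 _ _ ?_
    rintro A - ⟨w, hw, hs, -⟩
    exact ⟨w, hw, hs⟩
  have e2 : sg (ex u.1) i ≤ a ^ (d - 1) :=
    (((hB d).2.2.2.1 u.1).2.1 i).2.1.trans (Nat.pow_le_pow_left hu _)
  have e3 : (sg (ex u.1) i : ℝ) ≤ (a : ℝ) ^ (d - 1) := by exact_mod_cast e2
  have e4 : 3 * Real.exp 1 * p * sg (ex u.1) i * Real.exp (2 * c) ≤ 1 / 64 := by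
    refine le_trans ?_ hsm
    gcongr
  have e5 := (hS d Ω p h0 h1 u.1 i c hc).2 e4
  have e6 : Real.exp (c * psi u.1) * Real.exp (- c) ^ psi u.1 = 1 := by
    rw [← Real.exp_nat_mul, ← Real.exp_add]
    simp [mul_comm]
  have e7 : 0 ≤ Real.exp (- c) ^ psi u.1 := by positivity
  calc Pr Ω p (WE F u) ≤ Pr Ω p (ISp u.1) := e1
    _ = Pr Ω p (ISp u.1) * Real.exp (c * psi u.1) * Real.exp (- c) ^ psi u.1 := by
        rw [mul_assoc, e6, mul_one]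
    _ ≤ p * (1 / 4) ^ psi u.1 * Real.exp (- c) ^ psi u.1 := mul_le_mul_of_nonneg_right e5 e7
    _ ≤ p' * (1 / 4) ^ psi u.1 * Real.exp (- c) ^ psi u.1 := by gcongr
    _ = p' * (Real.exp (- c) / 4) ^ psi u.1 := by
        rw [mul_assoc, ← mul_pow]
        congr 2
        ring

theorem maps_RWL2 (hO : SOld) (hG : RGeo) {D d : ℕ} (F : Fr D d) (a b T : ℕ) (S B : Bx D)
    (u : Rc D d) (hA : Adm2 F a b T S B u) (hL : LowR a u) (hT : Two u.2.1) :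
    (F.pr u.1, u.2.1) ∈ admSet a S B := by
  classical
  obtain ⟨-, -, -, hGA, -, -, -, -, -⟩ := hO
  obtain ⟨-, -, -, -, hLA, -, -, -, -⟩ := hG
  obtain ⟨hv, -, hle, hs, -, hf, -⟩ := hA
  have hv' : Val (F.pr u.1) := (hLA D d F).2.2.2.2.2.1 _ hv
  have hps : psi (F.pr u.1) ≤ psi u.1 := by
    rw [(hLA D d F).2.2.2.2.2.2.2.2.2.1 u.1]
    exact Nat.le_add_right _ _
  have hlt : psi (F.pr u.1) < a := lt_of_le_of_lt hps hL.2
  obtain ⟨-, hsum, -⟩ := hf hL.1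
  unfold admSet
  rw [mem_filter, mem_product]
  refine ⟨⟨((hGA D).2.2.2.1 _ _ hv' hle).2.2.2.2, ?_⟩, hv', hle, hlt, hsum, hs, hT⟩
  rw [Fintype.mem_piFinset]
  intro s
  rw [mem_range]
  have : u.2.1 s ≤ ∑ s, u.2.1 s := single_le_sum (f := u.2.1) (fun _ _ => Nat.zero_le _) (mem_univ s)
  show u.2.1 s < a + 2
  omega

theorem fib_RWL2 (hG : RGeo) {D d : ℕ} (F : Fr D d) (a b T : ℕ) (S B : Bx D)
    (X : Finset (Rc D d)) (v : Dat D) (ρ : ℝ) (h0 : 0 ≤ ρ) (h1 : ρ ≤ 1 / 2)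
    (hX : ∀ u ∈ X, Adm2 F a b T S B u ∧ LowR a u ∧ (F.pr u.1, u.2.1) = v) :
    ∑ u ∈ X, ρ ^ psi u.1 ≤ (d + 1) * 2 ^ d * ρ ^ psi v.1 := by
  classical
  obtain ⟨-, -, -, -, -, -, hL, -, -⟩ := hG
  have hinj : Set.InjOn (fun u : Rc D d => u.1) X := by
    intro u hu u' hu' h
    obtain ⟨-, hl, he⟩ := hX u hu
    obtain ⟨-, hl', he'⟩ := hX u' hu'
    have h2 : u.2.1 = u'.2.1 := (congrArg Prod.snd (he.trans he'.symm) :)
    exact Prod.ext h (Prod.ext h2 (hl.1.trans hl'.1.symm))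
  have e := sum_image (f := fun P : Bx d => ρ ^ psi P) hinj
  rw [← e]
  refine hL D d F v.1 ρ _ h0 h1 ?_
  intro P hP
  obtain ⟨u, hu, rfl⟩ := mem_image.1 hP
  obtain ⟨⟨hv, hr, -, -, -, hf, -⟩, hl, he⟩ := hX u hu
  refine ⟨hv, hr, ?_, congrArg Prod.fst he⟩
  obtain ⟨-, -, h | h⟩ := hf hl.1
  · exact absurd hl.2 (not_lt.2 h)
  · exact h.1

theorem rWL2 (hO : SOld) (hG : RGeo) : RWL2 := by
  classical
  intro D d
  refine ⟨(d + 1) * 2 ^ d * (2 ^ (3 * D + 3) * D), by positivity, ?_⟩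
  intro F Ω p p' h0 h1 hpp hp' a b T Dr S B β c Z hS hSB hDr hc hβ hβc hβ2 hZ hsm
  have hW := hO.2.2.2.2.2.2.1
  set ρ : ℝ := Real.exp (- c) / 4 with hρ
  have hρ0 : 0 ≤ ρ := by positivity
  have hρ1 : ρ ≤ 1 / 2 := by
    have : Real.exp (- c) ≤ 1 := Real.exp_le_one_iff.2 (by linarith)
    rw [hρ]; linarith
  have hw : ∀ e : Sd D → ℕ, 0 ≤ ∏ s : Sd D, (β s.1)⁻¹ ^ e s := fun e =>
    prod_nonneg fun s _ => pow_nonneg (inv_nonneg.2 (hβ s.1).1.le) _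
  have hfin := hW D a Dr S B (fun P => p' * ρ ^ psi P) β c Z p' hS hSB hDr hp' hβ hβc hβ2 hZ (by
    intro P _ _
    refine ⟨by positivity, le_of_eq ?_⟩
    have e6 : Real.exp (- c) ^ psi P * Real.exp (c * psi P) = 1 := by
      rw [← Real.exp_nat_mul, ← Real.exp_add]
      simp [mul_comm]
    have e7 : ρ ^ psi P = (1 / 4) ^ psi P * Real.exp (- c) ^ psi P := by
      rw [← mul_pow, hρ]
      congr 1
      ring
    rw [e7, mul_assoc, mul_assoc, e6, mul_one])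
  generalize hX : (admS F a b T S B).filter (fun u => LowR a u ∧ Two u.2.1) = X
  have hXm : ∀ u ∈ X, Adm2 F a b T S B u ∧ LowR a u ∧ Two u.2.1 := by
    intro u hu
    rw [← hX, mem_filter] at hu
    exact ⟨((hG.2.2.2.2.2.1 D d F).2.2.1 a b T S B hS hSB u).1 hu.1, hu.2⟩
  have hmaps : ∀ u ∈ X, (fun u : Rc D d => ((F.pr u.1, u.2.1) : Dat D)) u ∈ admSet a S B :=
    fun u hu => maps_RWL2 hO hG F a b T S B u (hXm u hu).1 (hXm u hu).2.1 (hXm u hu).2.2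
  calc ∑ u ∈ X, Pr Ω p (WE F u) * ∏ s : Sd D, (β s.1)⁻¹ ^ u.2.1 s
      ≤ ∑ u ∈ X, p' * ρ ^ psi u.1 * ∏ s : Sd D, (β s.1)⁻¹ ^ u.2.1 s := by
        refine sum_le_sum fun u hu => mul_le_mul_of_nonneg_right ?_ (hw _)
        obtain ⟨s, -⟩ := (hXm u hu).2.2
        exact seed_RWL2 hO hG F Ω p p' h0 h1 hpp a c hc hsm u (hXm u hu).2.1.2 (F.io s.1)
    _ = ∑ v ∈ admSet a S B, ∑ u ∈ X.filter (fun u : Rc D d => ((F.pr u.1, u.2.1) : Dat D) = v),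
          p' * ρ ^ psi u.1 * ∏ s : Sd D, (β s.1)⁻¹ ^ u.2.1 s :=
        (sum_fiberwise_of_maps_to hmaps _).symm
    _ ≤ ∑ v ∈ admSet a S B, (d + 1) * 2 ^ d *
          (p' * ρ ^ psi v.1 * ∏ s : Sd D, (β s.1)⁻¹ ^ v.2 s) := by
        refine sum_le_sum fun v _ => ?_
        have e1 : ∑ u ∈ X.filter (fun u : Rc D d => ((F.pr u.1, u.2.1) : Dat D) = v),
            p' * ρ ^ psi u.1 * ∏ s : Sd D, (β s.1)⁻¹ ^ u.2.1 s =
            (p' * ∏ s : Sd D, (β s.1)⁻¹ ^ v.2 s) *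
              ∑ u ∈ X.filter (fun u : Rc D d => ((F.pr u.1, u.2.1) : Dat D) = v),
                ρ ^ psi u.1 := by
          rw [mul_sum]
          refine sum_congr rfl fun u hu => ?_
          rw [← (mem_filter.1 hu).2]
          ring
        have e2 := fib_RWL2 hG F a b T S B
          (X.filter (fun u : Rc D d => ((F.pr u.1, u.2.1) : Dat D) = v)) v ρ hρ0 hρ1 (by
            intro u hu
            rw [mem_filter] at hu
            exact ⟨(hXm u hu.1).1, (hXm u hu.1).2.1, hu.2⟩)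
        rw [e1]
        refine (mul_le_mul_of_nonneg_left e2 (mul_nonneg hp'.le (hw _))).trans (le_of_eq ?_)
        ring
    _ = (d + 1) * 2 ^ d * ∑ v ∈ admSet a S B,
          p' * ρ ^ psi v.1 * ∏ s : Sd D, (β s.1)⁻¹ ^ v.2 s := by rw [mul_sum]
    _ ≤ (d + 1) * 2 ^ d * (2 ^ (3 * D + 3) * D * (Z + 1) * Dr * (lg B - lg S)) :=
        mul_le_mul_of_nonneg_left hfin (by positivity)
    _ = _ := by ring

end Pool.Agent.MP_6d294b_pr
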