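import Pool.Agent.MP_6d294b_pr.All
import Pool.Agent.MP_6d294b_pr.RAbsR
import Pool.Agent.MP_6d294b_pr.RAbsS
import Pool.Agent.MP_6d294b_pr.RAdd
import Pool.Agent.MP_6d294b_pr.RBase
import Pool.Agent.MP_6d294b_pr.RBase1
import Pool.Agent.MP_6d294b_pr.RBet
import Pool.Agent.MP_6d294b_pr.RBlk
import Pool.Agent.MP_6d294b_pr.RBoxC
import Pool.Agent.MP_6d294b_pr.RChain
import Pool.Agent.MP_6d294b_pr.RChi
import Pool.Agent.MP_6d294b_pr.RConv
import Pool.Agent.MP_6d294b_pr.RCover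
import Pool.Agent.MP_6d294b_pr.RCrit
import Pool.Agent.MP_6d294b_pr.RCrossB
import Pool.Agent.MP_6d294b_pr.RCrossC
import Pool.Agent.MP_6d294b_pr.RCrs
import Pool.Agent.MP_6d294b_pr.RCut
import Pool.Agent.MP_6d294b_pr.RDer
import Pool.Agent.MP_6d294b_pr.RDet
import Pool.Agent.MP_6d294b_pr.RDrop
import Pool.Agent.MP_6d294b_pr.REnd
import Pool.Agent.MP_6d294b_pr.RFam
import Pool.Agent.MP_6d294b_pr.RFill
import Pool.Agent.MP_6d294b_pr.RFinal
import Pool.Agent.MP_6d294b_pr.RGap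
import Pool.Agent.MP_6d294b_pr.RGood
import Pool.Agent.MP_6d294b_pr.RGraph
import Pool.Agent.MP_6d294b_pr.RHB
import Pool.Agent.MP_6d294b_pr.RInd
import Pool.Agent.MP_6d294b_pr.RInt
import Pool.Agent.MP_6d294b_pr.RLiftA
import Pool.Agent.MP_6d294b_pr.RLiftB
import Pool.Agent.MP_6d294b_pr.RLowC
import Pool.Agent.MP_6d294b_pr.RMer
import Pool.Agent.MP_6d294b_pr.RMerge
import Pool.Agent.MP_6d294b_pr.RNew
import Pool.Agent.MP_6d294b_pr.RNum
import Pool.Agent.MP_6d294b_pr.RParB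
import Pool.Agent.MP_6d294b_pr.RPath
import Pool.Agent.MP_6d294b_pr.RPerc
import Pool.Agent.MP_6d294b_pr.RRed1
import Pool.Agent.MP_6d294b_pr.RRed2
import Pool.Agent.MP_6d294b_pr.RSeed
import Pool.Agent.MP_6d294b_pr.RSeedW
import Pool.Agent.MP_6d294b_pr.RSlope
import Pool.Agent.MP_6d294b_pr.RStep
import Pool.Agent.MP_6d294b_pr.RStep2
import Pool.Agent.MP_6d294b_pr.RStepW
import Pool.Agent.MP_6d294b_pr.RTop
import Pool.Agent.MP_6d294b_pr.RTower
import Pool.Agent.MP_6d294b_pr.RUni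
import Pool.Agent.MP_6d294b_pr.RWL0
import Pool.Agent.MP_6d294b_pr.RWL1
import Pool.Agent.MP_6d294b_pr.RWL2

namespace Pool.Agent.MP_6d294b_pr

theorem old_RAll : SOld :=
  ⟨sPrA, sPrB sPrA, sBK sPrA, sGeoA, sGeoB sGeoA, sSeed sPrA sGeoA (sGeoB sGeoA), sWsum sGeoA,
    sPotA, sPotB⟩

theorem geo_RAll : RGeo := by
  have hO := old_RAll
  have h0 := rGap hO
  have h1 := rFill hO h0
  have hL := rLiftA h0
  have hX := rBoxC hO h0
  exact ⟨h0, h1, rFam h0 h1, rCut h0, hL, rLiftB hO h0 hL, rLowC hL, hX, rUni hO h1 hX⟩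

theorem slope_RAll : RSlope := rSlope rBet (rDer rBet) (rConv rBet (rDer rBet))

theorem ana_RAll : RAna := ⟨rBet, slope_RAll, rNum rBet slope_RAll⟩

theorem chain_RAll : RChain := by
  have hO := old_RAll
  have hG := geo_RAll
  have hN := rNew hO hG (rAbsR hO) (rAbsS hO)
  have hE := rEnd hO hG
  exact rChain hO hG (rAdd hO hG (rAbsS hO) hN) (rMer hO hG (rAbsR hO) hN hE) hE

theorem seed_RAll : RSeed :=
  rSeed old_RAll geo_RAll ana_RAll chain_RAll (rCrossC old_RAll geo_RAll) (rWL0 old_RAll geo_RAll)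
    (rHB old_RAll geo_RAll ana_RAll) (rSeedW old_RAll geo_RAll ana_RAll)

theorem drop_RAll : RDrop := by
  have hO := old_RAll
  have hG := geo_RAll
  have hN := ana_RAll
  have hW := rStepW hO hG hN (rWL1 hO hG) (rWL2 hO hG) (rHB hO hG hN) seed_RAll
  have hS := rStep hO hG hN (rGood hO hG rBet) (rCrossB hO hG) hW
  have hI := rInd hO hG hN chain_RAll seed_RAll hS (rMerge hO hG hN)
  exact rDrop hN rInt rParB (rCrit hO hG hN hI)

/-- the reduction of the dimension -/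
theorem red_RAll : RFinal := by
  have hO := old_RAll
  have hG := geo_RAll
  have hP := rPath hO hG
  have hD := rDet hG rGraph (rCover hG) hP
  have hC := rCrs hO hG hD hP
  have hB := rBase (rBlk hO hG) (rChi hO hG) (rBase1 hO hG)
  exact rFinal hO hB (rPerc (rStep2 (rRed1 hO hG hC) (rRed2 hO hG hD hP hC)) rTower (rTop hO hG))
    rTower

theorem final_RAll : FinalG 6 := red_RAll 6 drop_RAll

end Pool.Agent.MP_6d294b_pr
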