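import Pool.Agent.MP_6d294b_pr.Stm2
import Pool.Agent.MP_6d294b_pr.PPar

open Finset

namespace Pool.Agent.MP_6d294b_pr

open Filter

theorem ev_RPar (c : ℝ) (hc : 0 < c) (n : ℕ) :
    ∀ᶠ x : ℝ in atTop, c * (2 * Real.log x) ^ n ≤ x := by
  have h1 := (Real.isLittleO_pow_log_id_atTop (n := n)).bound (c := (c * 2 ^ n)⁻¹) (by positivity)
  filter_upwards [h1, eventually_ge_atTop (1 : ℝ)] with x b1 b3
  have := Real.log_nonneg b3
  rw [Real.norm_of_nonneg (by positivity), id, Real.norm_of_nonneg (by linarith),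
    le_inv_mul_iff₀ (by positivity)] at b1
  rw [mul_pow, ← mul_assoc]
  exact b1

theorem eps_RPar {V La g Z p T N a C D d l x Y : ℝ} (hx : 2 ≤ x) (hl : 1 ≤ l) (hD : 2 ≤ D)
    (hd : D ≤ d) (hC : 1 ≤ C) (hY : 1 ≤ Y) (hV0 : 0 ≤ V) (hV : V ≤ 6 * (d * l)) (hL0 : 0 ≤ La)
    (hL : La ≤ 3 * l) (hg0 : 0 ≤ g) (hg : g ≤ d * l) (hZ0 : 0 ≤ Z) (hZ : Z ≤ Y * l)
    (hp0 : 0 ≤ p) (hp : p ≤ 1 / x ^ 2) (hT1 : x ≤ T) (hT2 : T ≤ 2 * x) (hN0 : 0 ≤ N)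
    (hN : N ≤ 2 * (d * l * x ^ 2)) (ha0 : 0 ≤ a) (ha : a + 3 ≤ 21 * (d * l)) :
    0 ≤ V + 2 * N * ((2 * V + 2 * D * (a + 1) * g + 2) / T + C * (p * Z + 1 / T)) +
      (2 * T + 1) * C * (Z + 1) * (D * La) ∧
    V + 2 * N * ((2 * V + 2 * D * (a + 1) * g + 2) / T + C * (p * Z + 1 / T)) +
      (2 * T + 1) * C * (Z + 1) * (D * La) ≤
      (200 * d ^ 4 + 6 * d + 38 * (C * Y * d)) * (l ^ 3 * x) := by
  have hx0 : 0 < x := by linarith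
  have hd2 : 2 ≤ d := hD.trans hd
  have hT0 : 0 < T := by linarith
  refine ⟨by positivity, ?_⟩
  have hu : 2 ≤ d * l := hd2.trans (le_mul_of_one_le_right (by linarith) hl)
  have hl2 : l ^ 2 ≤ l ^ 3 := pow_le_pow_right₀ hl (by norm_num)
  have hl1 : l ≤ l ^ 3 := le_self_pow₀ hl (by norm_num)
  have hYl : 1 ≤ Y * l := one_le_mul_of_one_le_of_one_le hY hl
  have a1 : 2 * V + 2 * D * (a + 1) * g + 2 ≤ 50 * (d * (d * l) ^ 2) := by
    have b1 : 2 * D * (a + 1) * g ≤ 2 * d * (21 * (d * l)) * (d * l) := by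
      gcongr; linarith
    have b2 : 4 * (d * l) ≤ d * (d * l) ^ 2 := by
      have : 4 ≤ d * (d * l) := by nlinarith only [hd2, hu]
      nlinarith only [this, hu]
    linarith only [b1, b2, hu, hV]
  have a2 : (2 * V + 2 * D * (a + 1) * g + 2) / T ≤ 50 * (d * (d * l) ^ 2) / x :=
    div_le_div₀ (by positivity) a1 hx0 hT1
  have a3 : C * (p * Z + 1 / T) ≤ C * (2 * (Y * l) / x) := by
    refine mul_le_mul_of_nonneg_left ?_ (by linarith)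
    have b1 : p ≤ 1 / x :=
      hp.trans (one_div_le_one_div_of_le hx0 (le_self_pow₀ (by linarith) (by norm_num)))
    have b2 : p * Z ≤ 1 / x * (Y * l) := by gcongr
    have b3 : 1 / T ≤ Y * l / x := div_le_div₀ (by positivity) hYl hx0 hT1
    have b4 : 2 * (Y * l) / x = 1 / x * (Y * l) + Y * l / x := by ring
    linarith
  have a4 : 2 * N * ((2 * V + 2 * D * (a + 1) * g + 2) / T + C * (p * Z + 1 / T)) ≤
      2 * (2 * (d * l * x ^ 2)) * (50 * (d * (d * l) ^ 2) / x + C * (2 * (Y * l) / x)) := by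
    gcongr
  have a5 : 2 * (2 * (d * l * x ^ 2)) * (50 * (d * (d * l) ^ 2) / x + C * (2 * (Y * l) / x)) =
      200 * d ^ 4 * (l ^ 3 * x) + 8 * (C * Y * d) * (l ^ 2 * x) := by
    field_simp; ring
  have a6 : (2 * T + 1) * C * (Z + 1) * (D * La) ≤ (5 * x) * C * (2 * (Y * l)) * (d * (3 * l)) := by
    gcongr <;> linarith
  have a7 : C * Y * d * (l ^ 2 * x) ≤ C * Y * d * (l ^ 3 * x) := by gcongr
  have a8 : d * l ≤ d * (l ^ 3 * x) := by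
    have : l ^ 3 ≤ l ^ 3 * x := le_mul_of_one_le_right (by positivity) (by linarith)
    gcongr; linarith
  linarith only [a4, a5, a6, a7, a8, hV]

theorem bb_RPar {V La g a D d l : ℝ} (hl : 1 ≤ l) (hD : 2 ≤ D) (hd : D ≤ d) (hV0 : 0 ≤ V)
    (hV : V ≤ 6 * (d * l)) (hL : La ≤ 3 * l) (hg0 : 0 ≤ g) (hg : g ≤ d * l)
    (ha0 : 0 ≤ a) (ha : a + 3 ≤ 21 * (d * l)) :
    20 * La * (3 * V + 3 + (g + 3) * (2 * D + 1) * (a + 3)) ≤ 10200 * (d * l) ^ 3 := by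
  have hd2 : 2 ≤ d := hD.trans hd
  have hu : 2 ≤ d * l := hd2.trans (le_mul_of_one_le_right (by linarith) hl)
  have b1 : (g + 3) * (2 * D + 1) * (a + 3) ≤ (5 / 2 * (d * l)) * (3 * d) * (21 * (d * l)) := by
    gcongr <;> linarith
  have b2 : 4 * (d * l) ≤ d * (d * l) ^ 2 := by
    have : 4 ≤ d * (d * l) := by nlinarith only [hd2, hu]
    nlinarith only [this, hu]
  have b3 : 3 * V + 3 + (g + 3) * (2 * D + 1) * (a + 3) ≤ 170 * (d * (d * l) ^ 2) := by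
    linarith only [b1, b2, hu, hV]
  calc 20 * La * (3 * V + 3 + (g + 3) * (2 * D + 1) * (a + 3))
      ≤ 20 * (3 * l) * (170 * (d * (d * l) ^ 2)) := by gcongr
    _ = 10200 * (d * l) ^ 3 := by ring

noncomputable def EE_RPar (j d : ℕ) (C : ℝ) : ℝ :=
  200 * (d : ℝ) ^ 4 + 6 * d + 38 * (C * (5 * ((j : ℝ) + 1)) ^ j * d)

noncomputable def FF_RPar (j d : ℕ) (C : ℝ) : ℝ := 72 * C * (EE_RPar j d C + 2) + 2

theorem exq_RPar (a : ℕ) : (1 / 4 : ℝ) ^ a ≤ Real.exp (-a) := by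
  have h : (1 / 4 : ℝ) ≤ Real.exp (-1) := by
    rw [Real.exp_neg, one_div]
    exact inv_anti₀ (Real.exp_pos 1) (by have := Real.exp_one_lt_d9; linarith)
  calc (1 / 4 : ℝ) ^ a ≤ Real.exp (-1) ^ a := pow_le_pow_left₀ (by norm_num) h a
    _ = Real.exp (-a) := by rw [← Real.exp_nat_mul]; congr 1; ring

theorem four_RPar : (4 : ℝ) ≤ Real.exp 2 := by
  have h := Real.exp_one_gt_d9
  have : Real.exp 2 = Real.exp 1 * Real.exp 1 := by rw [← Real.exp_add]; norm_num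
  nlinarith

theorem vexp_RPar {v t : ℝ} (hv : 0 < v) (h : 3 * Real.log v + 2 + t ≤ 0) :
    4 * v ^ 3 * Real.exp t ≤ 1 := by
  have e : v ^ 3 = Real.exp (3 * Real.log v) := by
    rw [show (3 : ℝ) * Real.log v = ((3 : ℕ) : ℝ) * Real.log v by norm_num, Real.exp_nat_mul,
      Real.exp_log hv]
  calc 4 * v ^ 3 * Real.exp t ≤ Real.exp 2 * Real.exp (3 * Real.log v) * Real.exp t := by
        rw [e]; gcongr; exact four_RPar
    _ = Real.exp (3 * Real.log v + 2 + t) := by rw [← Real.exp_add, ← Real.exp_add]; congr 1; ring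
    _ ≤ 1 := Real.exp_le_one_iff.2 h

theorem logs_RPar (d N k : ℕ) {x : ℝ} (hx : 2 ≤ x) (hN0 : (4 : ℝ) ≤ N) (hN4 : (N : ℝ) ≤ x ^ 4)
    (hk : (k : ℝ) ≤ x ^ 4) :
    1 ≤ Real.log (2 * (N : ℝ) + 1) ∧ Real.log (2 * (N : ℝ) + 1) ≤ 3 * (2 * Real.log x) ∧
      1 ≤ (2 * (N : ℝ) + 1 + k) ^ (2 * d) ∧
      Real.log ((2 * (N : ℝ) + 1 + k) ^ (2 * d)) ≤ 6 * (d * (2 * Real.log x)) := by
  have hk0 : (0 : ℝ) ≤ k := Nat.cast_nonneg k
  have hxx : 4 ≤ x ^ 2 := by nlinarith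
  have hN3 : 2 * (N : ℝ) + 1 + k ≤ x ^ 6 := by
    have c4 := mul_le_mul_of_nonneg_right hxx (show 0 ≤ x ^ 4 by positivity)
    linarith
  refine ⟨?_, ?_, one_le_pow₀ (by linarith), ?_⟩
  · rw [Real.le_log_iff_exp_le (by positivity)]
    have := Real.exp_one_lt_d9
    linarith
  · have := log_le_Par (x := x) (y := 2 * (N : ℝ) + 1) 6 (by positivity) (by linarith)
    push_cast at this
    linarith
  · have c1 : (2 * (N : ℝ) + 1 + k) ^ (2 * d) ≤ x ^ (12 * d) := by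
      rw [show 12 * d = 6 * (2 * d) by ring, pow_mul x 6]
      exact pow_le_pow_left₀ (by positivity) hN3 _
    have := log_le_Par (12 * d) (by positivity) c1
    push_cast at this
    linarith

theorem gm_RPar (j : ℕ) {x d : ℝ} (hx : 2 ≤ x) (hj : 1 ≤ j) (hjd : (j : ℝ) + 1 ≤ d) :
    (1 / x ^ 2) ^ j ≤ 1 / x ^ 2 ∧ 0 ≤ Real.log (2 / (1 / x ^ 2) ^ j) / 2 ∧
      Real.log (2 / (1 / x ^ 2) ^ j) / 2 ≤ d * (2 * Real.log x) := by
  have hx0 : 0 < x := by linarith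
  have hj0 : (0 : ℝ) ≤ j := Nat.cast_nonneg j
  have hlx : 0 ≤ Real.log x := Real.log_nonneg (by linarith)
  have hq1 : 1 / x ^ 2 ≤ 1 := by rw [div_le_one (by positivity)]; nlinarith
  have hp0 : 0 < (1 / x ^ 2) ^ j := by positivity
  have hpq : (1 / x ^ 2) ^ j ≤ 1 / x ^ 2 := pow_le_of_le_one (by positivity) hq1 (by omega)
  refine ⟨hpq, ?_, ?_⟩
  · have : 1 ≤ 2 / (1 / x ^ 2) ^ j := by rw [le_div_iff₀ hp0]; linarith
    have := Real.log_nonneg this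
    linarith
  · have c1 : 2 / (1 / x ^ 2) ^ j ≤ x ^ (2 * j + 1) := by
      rw [div_le_iff₀ hp0, pow_succ x (2 * j), pow_mul, mul_right_comm, ← mul_pow,
        mul_one_div_cancel (by positivity), one_pow, one_mul]
      exact hx
    have c2 := log_le_Par (2 * j + 1) (by positivity) c1
    push_cast at c2
    have c3 : (j : ℝ) * Real.log x ≤ d * Real.log x := by gcongr; linarith
    have c4 : Real.log x ≤ d * Real.log x := le_mul_of_one_le_left hlx (by linarith)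
    linarith [mul_nonneg hj0 hlx]

theorem big_RPar {d C E F l x : ℝ} (hd2 : 2 ≤ d) (hC : 1 ≤ C) (hl1 : 1 ≤ l)
    (hE0 : 200 * d ^ 4 ≤ E) (hF : F = 72 * C * (E + 2) + 2)
    (h3 : 24 * (d + 1) ^ 2 * C * F * l ^ 5 ≤ x) :
    60 * (d * (d * l) ^ 2) ≤ x ∧ 4 * (d * l) ≤ d * (d * l) ^ 2 := by
  have hu : 2 ≤ d * l := hd2.trans (le_mul_of_one_le_right (by linarith) hl1)
  have hE1 : 0 ≤ E := le_trans (by positivity) hE0
  have hFE : E + 2 ≤ F := by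
    have : E + 2 ≤ 72 * C * (E + 2) := le_mul_of_one_le_left (by linarith) (by linarith)
    linarith
  have hF0 : 0 ≤ F := by linarith
  constructor
  · refine le_trans ?_ h3
    have c1 : d ^ 3 ≤ d ^ 4 := pow_le_pow_right₀ (by linarith) (by norm_num)
    have c2 : l ^ 2 ≤ l ^ 5 := pow_le_pow_right₀ hl1 (by norm_num)
    have c3 : 1 ≤ 24 * (d + 1) ^ 2 * C :=
      one_le_mul_of_one_le_of_one_le (by nlinarith only [hd2]) hC
    have c4 : 60 * d ^ 3 ≤ 24 * (d + 1) ^ 2 * C * F := by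
      have : F ≤ 24 * (d + 1) ^ 2 * C * F := le_mul_of_one_le_left hF0 c3
      have : 0 ≤ d ^ 3 := by positivity
      linarith
    calc 60 * (d * (d * l) ^ 2) = 60 * d ^ 3 * l ^ 2 := by ring
      _ ≤ _ := by gcongr
  · have : 4 ≤ d * (d * l) := by nlinarith only [hd2, hu]
    nlinarith only [this, hu]

theorem nn_RPar (j : ℕ) {d l x : ℝ} (hj : 1 ≤ j) (hjd : (j : ℝ) + 1 ≤ d) (hl1 : 1 ≤ l)
    (hx : 2 ≤ x) (hu : 2 * (d * l) ≤ x) :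
    ∃ (B : ℝ) (N : ℕ), 1 ≤ B ∧ B ^ j = l ∧ B * ((j : ℝ) + 1) ≤ 1 / x ^ 2 * N ∧ x ^ 2 ≤ N ∧
      (N : ℝ) ≤ 2 * (d * l * x ^ 2) ∧ (N : ℝ) ≤ x ^ 4 ∧
      (1 / x ^ 2) ^ j * (2 * (N : ℝ) + 1) ^ j ≤ (5 * ((j : ℝ) + 1)) ^ j * l := by
  have hx0 : 0 < x := by linarith
  have hj0 : (0 : ℝ) ≤ j := Nat.cast_nonneg j
  obtain ⟨B, hB1, hBk⟩ : ∃ B : ℝ, 1 ≤ B ∧ B ^ j = l :=
    ⟨l ^ ((j : ℝ)⁻¹), Real.one_le_rpow hl1 (by positivity),
      Real.rpow_inv_natCast_pow (by linarith) (by omega)⟩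
  have hBl : B ≤ l := by rw [← hBk]; exact le_self_pow₀ hB1 (by omega)
  obtain ⟨D, hD⟩ : ∃ D : ℝ, D = (j : ℝ) + 1 := ⟨_, rfl⟩
  rw [← hD] at hjd ⊢
  have hD1 : 1 ≤ D := by linarith
  have b1 : x ^ 2 ≤ D * B * x ^ 2 :=
    le_mul_of_one_le_left (by positivity) (one_le_mul_of_one_le_of_one_le hD1 hB1)
  have hxx : 4 ≤ x ^ 2 := by nlinarith only [hx]
  obtain ⟨N, hN1, hN2⟩ : ∃ N : ℕ, D * B * x ^ 2 ≤ N ∧ (N : ℝ) ≤ 2 * (D * B * x ^ 2) :=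
    ⟨⌈D * B * x ^ 2⌉₊, Nat.le_ceil _, by
      have := Nat.ceil_lt_add_one (show 0 ≤ D * B * x ^ 2 by linarith); linarith⟩
  have hN5 : (N : ℝ) ≤ 2 * (d * l * x ^ 2) := by
    have : D * B * x ^ 2 ≤ d * l * x ^ 2 := by gcongr; linarith
    linarith
  refine ⟨B, N, hB1, hBk, ?_, b1.trans hN1, hN5, ?_, ?_⟩
  · rw [one_div, le_inv_mul_iff₀ (by positivity)]
    linarith
  · have c2 : x ≤ x ^ 2 := le_self_pow₀ (by linarith) (by norm_num)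
    have c4 := mul_le_mul_of_nonneg_right (hu.trans c2) (show 0 ≤ x ^ 2 by positivity)
    linarith
  · rw [← hBk, ← mul_pow, ← mul_pow]
    refine pow_le_pow_left₀ (by positivity) ?_ j
    rw [one_div, inv_mul_le_iff₀ (by positivity)]
    linarith

theorem mm_RPar {d C E F l x G e T : ℝ} (hd2 : 2 ≤ d) (hC : 1 ≤ C) (hl1 : 1 ≤ l) (hx : 2 ≤ x)
    (hE1 : 0 ≤ E) (hF : F = 72 * C * (E + 2) + 2) (h3 : 24 * (d + 1) ^ 2 * C * F * l ^ 5 ≤ x)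
    (hG0 : 1 ≤ G) (hG2 : G + 2 ≤ 6 * (C * l)) (he0 : 0 ≤ e) (he1 : e ≤ E * (l ^ 3 * x))
    (hT1 : x ≤ T) (hT2 : T ≤ 2 * x) :
    ∃ M : ℕ, 12 * (G + 2) * (e + T) ≤ M ∧ x ≤ M ∧ G * (M + 1) ≤ 6 * C * F * l ^ 5 * x ∧
      1 / x ^ 2 * (2 + G * (M + 1)) ≤ 1 ∧ ∀ j : ℕ, 1 ≤ j →
        4 * (d + 1) ^ 2 * ((1 / x ^ 2) ^ j * ((G + 2) * ((M : ℝ) + 1) ^ j)) ≤ 1 := by
  have hx0 : 0 < x := by linarith
  have hT0 : 0 < T := by linarith
  have hq0 : 0 < 1 / x ^ 2 := by positivity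
  have hxl : x ≤ l ^ 3 * x := le_mul_of_one_le_left hx0.le (one_le_pow₀ hl1)
  have hxl4 : 1 ≤ l ^ 4 * x := one_le_mul_of_one_le_of_one_le (one_le_pow₀ hl1) (by linarith)
  obtain ⟨M, hM1, hM2⟩ : ∃ M : ℕ, 12 * (G + 2) * (e + T) ≤ M ∧ (M : ℝ) + 1 ≤ F * (l ^ 4 * x) := by
    refine ⟨⌈12 * (G + 2) * (e + T)⌉₊, Nat.le_ceil _, ?_⟩
    have c1 := Nat.ceil_lt_add_one (show 0 ≤ 12 * (G + 2) * (e + T) by positivity)
    have c2 : 12 * (G + 2) * (e + T) ≤ 12 * (6 * (C * l)) * ((E + 2) * (l ^ 3 * x)) := by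
      gcongr; linarith
    have c3 : F * (l ^ 4 * x) =
        12 * (6 * (C * l)) * ((E + 2) * (l ^ 3 * x)) + 2 * (l ^ 4 * x) := by rw [hF]; ring
    linarith
  have hM0 : (0 : ℝ) ≤ M := Nat.cast_nonneg M
  have hGM : (G + 2) * (M + 1) ≤ 6 * C * F * l ^ 5 * x := by
    calc (G + 2) * (M + 1) ≤ 6 * (C * l) * (F * (l ^ 4 * x)) := by gcongr
      _ = _ := by ring
  have hq : 4 * (d + 1) ^ 2 * (1 / x ^ 2 * ((G + 2) * (M + 1))) ≤ 1 := by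
    rw [mul_left_comm, one_div, inv_mul_le_iff₀ (by positivity)]
    calc 4 * (d + 1) ^ 2 * ((G + 2) * (M + 1))
        ≤ 4 * (d + 1) ^ 2 * (6 * C * F * l ^ 5 * x) := by gcongr
      _ = 24 * (d + 1) ^ 2 * C * F * l ^ 5 * x := by ring
      _ ≤ x * x := by gcongr
      _ = _ := by ring
  have hq2 : 1 / x ^ 2 * ((G + 2) * (M + 1)) ≤ 1 := by
    refine le_trans (le_mul_of_one_le_left (by positivity) ?_) hq
    nlinarith only [hd2]
  refine ⟨M, hM1, ?_, ?_, ?_, fun j hj => ?_⟩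
  · have : e + T ≤ 12 * (G + 2) * (e + T) :=
      le_mul_of_one_le_left (by positivity) (by linarith only [hG0])
    linarith only [this, hM1, he0, hT1]
  · linarith only [hM0, hGM]
  · refine le_trans (mul_le_mul_of_nonneg_left ?_ hq0.le) hq2
    linarith only [hM0]
  · refine le_trans (mul_le_mul_of_nonneg_left ?_ (by positivity)) hq
    rw [mul_left_comm, ← mul_pow, mul_left_comm (1 / x ^ 2)]
    refine mul_le_mul_of_nonneg_left (pow_le_of_le_one (by positivity) ?_ (by omega))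
      (by positivity)
    refine le_trans (mul_le_mul_of_nonneg_left ?_ hq0.le) hq2
    exact le_mul_of_one_le_left (by positivity) (by linarith only [hG0])

theorem ab_RPar {v La g D d l x T : ℝ} (hl : 1 ≤ l) (hD : 2 ≤ D) (hd : D ≤ d) (hv1 : 1 ≤ v)
    (hV : Real.log v ≤ 6 * (d * l)) (hL1 : 1 ≤ La) (hL : La ≤ 3 * l) (hg0 : 0 ≤ g)
    (hg : g ≤ d * l) (hx3 : 60 * (d * (d * l) ^ 2) ≤ x) (hx4 : 4 * (d * l) ≤ d * (d * l) ^ 2)
    (hT1 : x ≤ T) :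
    ∃ a b : ℕ, 1 ≤ a ∧ (a : ℝ) + 3 ≤ 21 * (d * l) ∧ 2 * D * ((a : ℝ) + 1) + 2 * (a + 3) ≤ b ∧
      2 * (b : ℝ) + 1 ≤ 20500 * (d * l) ^ 3 ∧ 4 * v ^ 3 * (1 / 4) ^ a ≤ 1 ∧
      4 * v ^ 3 * Real.exp (- (1 / (10 * La) * b / 2) + (g + 3) * (2 * D + 1) * (a + 3) + 1) ≤ 1 ∧
      v ^ 4 * Real.exp ((2 * D * (a + 1) + 2) * g + 1 - T) ≤ 1 / 2 := by
  have hu : 2 ≤ d * l := (hD.trans hd).trans (le_mul_of_one_le_right (by linarith) hl)
  have hv0 : 0 < v := by linarith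
  have hV0 : 0 ≤ Real.log v := Real.log_nonneg hv1
  obtain ⟨a, ha1, ha2⟩ : ∃ a : ℕ, 3 * Real.log v + 2 ≤ a ∧ (a : ℝ) + 3 ≤ 21 * (d * l) :=
    ⟨⌈3 * Real.log v + 2⌉₊, Nat.le_ceil _, by
      have := Nat.ceil_lt_add_one (show 0 ≤ 3 * Real.log v + 2 by linarith); linarith⟩
  have ha0 : (0 : ℝ) ≤ a := Nat.cast_nonneg a
  have c0 := bb_RPar hl hD hd hV0 hV hL hg0 hg ha0 ha2
  obtain ⟨W, hW⟩ : ∃ W : ℝ, W = 3 * Real.log v + 3 + (g + 3) * (2 * D + 1) * (a + 3) := ⟨_, rfl⟩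
  have hW0 : 0 ≤ W := by rw [hW]; positivity
  rw [← hW] at c0
  obtain ⟨b, hb1, hb2⟩ : ∃ b : ℕ, 20 * La * W ≤ b ∧ 2 * (b : ℝ) + 1 ≤ 20500 * (d * l) ^ 3 := by
    refine ⟨⌈20 * La * W⌉₊, Nat.le_ceil _, ?_⟩
    have c1 := Nat.ceil_lt_add_one (show 0 ≤ 20 * La * W by positivity)
    have c3 : 1 ≤ (d * l) ^ 3 := one_le_pow₀ (by linarith)
    linarith
  refine ⟨a, b, ?_, ha2, ?_, hb2, ?_, vexp_RPar hv0 ?_, ?_⟩
  · have : (1 : ℝ) ≤ a := by linarith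
    exact_mod_cast this
  · have c2 : 3 * (2 * D + 1) * ((a : ℝ) + 3) ≤ (g + 3) * (2 * D + 1) * (a + 3) := by
      gcongr; linarith
    have c3 : W ≤ 20 * La * W := le_mul_of_one_le_left hW0 (by linarith)
    have c4 : 0 ≤ D * a := by positivity
    linarith only [c2, c3, c4, hb1, hW, hV0, hD, ha0]
  · refine le_trans ?_ (vexp_RPar (v := v) (t := -a) hv0 (by linarith))
    exact mul_le_mul_of_nonneg_left (exq_RPar a) (by positivity)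
  · have c1 : W ≤ 1 / (10 * La) * b / 2 := by
      rw [le_div_iff₀ (by norm_num), one_div, le_inv_mul_iff₀ (by positivity)]
      linarith
    linarith only [c1, hW]
  · have e1 : v ^ 4 = Real.exp (4 * Real.log v) := by
      rw [show (4 : ℝ) * Real.log v = ((4 : ℕ) : ℝ) * Real.log v by norm_num, Real.exp_nat_mul,
        Real.exp_log hv0]
    have c1 : (2 * D * ((a : ℝ) + 1) + 2) * g ≤ 2 * d * (21 * (d * l)) * (d * l) := by
      refine mul_le_mul ?_ hg hg0 (by have := hD.trans hd; positivity)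
      have : D * ((a : ℝ) + 3) ≤ d * (21 * (d * l)) := by gcongr; linarith
      linarith only [this, hD]
    have c2 : Real.exp (-1) ≤ 1 / 2 := by
      rw [Real.exp_neg, one_div]
      exact inv_anti₀ (by norm_num) (by have := Real.exp_one_gt_d9; linarith only [this])
    rw [e1, ← Real.exp_add]
    refine le_trans (Real.exp_le_exp.2 ?_) c2
    linarith only [c1, hx3, hx4, hT1, hV, hu]

theorem gg_RPar {C La l : ℝ} (hC : 1 ≤ C) (hl1 : 1 ≤ l) (hL1 : 1 ≤ La) (hL3 : La ≤ 3 * l) :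
    ∃ G : ℕ, C * La ≤ G ∧ (1 : ℝ) ≤ G ∧ (G : ℝ) + 2 ≤ 6 * (C * l) := by
  have hCL : 1 ≤ C * La := one_le_mul_of_one_le_of_one_le hC hL1
  have hCl : 1 ≤ C * l := one_le_mul_of_one_le_of_one_le hC hl1
  refine ⟨⌈C * La⌉₊, Nat.le_ceil _, hCL.trans (Nat.le_ceil _), ?_⟩
  have c1 := Nat.ceil_lt_add_one (show 0 ≤ C * La by positivity)
  have c2 : C * La ≤ C * (3 * l) := by gcongr
  linarith

theorem ss_RPar (j d : ℕ) {C l x b G M : ℝ} (hj : 1 ≤ j) (hC : 1 ≤ C) (hb0 : 0 ≤ b)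
    (h4 : C * (20500 * (d : ℝ) ^ 3) ^ d * l ^ (3 * d) ≤ x)
    (hb2 : 2 * b + 1 ≤ 20500 * (d * l) ^ 3) (hG0 : 1 ≤ G) (hM0 : 0 ≤ M) (hMx : x ≤ M) :
    C * (2 * b + 1) ^ d ≤ G * (M + 1) ^ j := by
  calc C * (2 * b + 1) ^ d ≤ C * (20500 * (d * l) ^ 3) ^ d := by gcongr
    _ = C * (20500 * (d : ℝ) ^ 3) ^ d * l ^ (3 * d) := by
      rw [pow_mul, mul_assoc C, ← mul_pow]; congr 2; ring
    _ ≤ M + 1 := by linarith
    _ ≤ (M + 1) ^ j := le_self_pow₀ (by linarith) (by omega)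
    _ ≤ _ := le_mul_of_one_le_left (by positivity) hG0

theorem main_RPar (j d : ℕ) (C : ℝ) (hj : 1 ≤ j) (hjd : j + 1 ≤ d) (hC : 1 ≤ C) {x : ℝ}
    (hx : 2 ≤ x)
    (h3 : 24 * ((d : ℝ) + 1) ^ 2 * C * FF_RPar j d C * (2 * Real.log x) ^ 5 ≤ x)
    (h4 : C * (20500 * (d : ℝ) ^ 3) ^ d * (2 * Real.log x) ^ (3 * d) ≤ x)
    (k : ℕ) (hk1 : 1 ≤ k) (hk : (k : ℝ) ≤ x ^ 4) :
    ∃ (π : Pm) (B : ℝ), π.k = k ∧ π.C = C ∧ π.p = (1 / x ^ 2) ^ j ∧ ParR (j + 1) d π ∧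
      x ^ 2 ≤ π.N ∧ (π.N : ℝ) ≤ x ^ 4 ∧ 1 / x ^ 2 * (2 + (π.G * (π.M + 1) : ℕ)) ≤ 1 ∧ 1 ≤ B ∧
      B * ((j : ℝ) + 1) ≤ 1 / x ^ 2 * π.N ∧ B ^ j = 2 * Real.log x ∧
      ((π.G * (π.M + 1) : ℕ) : ℝ) ≤ 6 * C * FF_RPar j d C * (2 * Real.log x) ^ 5 * x ∧
      π.eps (j + 1) d ≤ EE_RPar j d C * (2 * Real.log x) ^ 3 * x := by
  have hx0 : 0 < x := by linarith
  have hj0 : (1 : ℝ) ≤ j := by exact_mod_cast hj
  have hl1 : 1 ≤ 2 * Real.log x := by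
    have h1 : Real.log 2 ≤ Real.log x := Real.log_le_log (by norm_num) hx
    have := Real.log_two_gt_d9
    linarith
  have hD2 : 2 ≤ (j : ℝ) + 1 := by linarith
  have hDd : (j : ℝ) + 1 ≤ d := by exact_mod_cast hjd
  have hd2 : (2 : ℝ) ≤ d := hD2.trans hDd
  have hY1 : 1 ≤ (5 * ((j : ℝ) + 1)) ^ j := one_le_pow₀ (by linarith)
  have hE0 : 200 * (d : ℝ) ^ 4 ≤ EE_RPar j d C := by
    have : 0 ≤ C * (5 * ((j : ℝ) + 1)) ^ j * d := by positivity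
    unfold EE_RPar; linarith
  have hE1 : 0 ≤ EE_RPar j d C := le_trans (by positivity) hE0
  have hp0 : 0 < (1 / x ^ 2) ^ j := by positivity
  have hxx : 4 ≤ x ^ 2 := by nlinarith only [hx]
  obtain ⟨T, hT1, hT2⟩ : ∃ T : ℕ, x ≤ T ∧ (T : ℝ) ≤ 2 * x :=
    ⟨⌈x⌉₊, Nat.le_ceil x, by have := Nat.ceil_lt_add_one hx0.le; linarith⟩
  have hT0 : (1 : ℝ) ≤ T := by linarith
  obtain ⟨hx3, hx4⟩ := big_RPar hd2 hC hl1 hE0 rfl h3
  have hu : 2 * ((d : ℝ) * (2 * Real.log x)) ≤ x := by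
    have : 0 ≤ (d : ℝ) * (2 * Real.log x) := by positivity
    linarith only [this, hx3, hx4]
  obtain ⟨B, N, hB1, hBk, hB2, hN1, hN5, hN4, hZY⟩ := nn_RPar j hj hDd hl1 hx hu
  have hN0 : (4 : ℝ) ≤ N := hxx.trans hN1
  obtain ⟨hL1, hL3, hv1, hV6⟩ := logs_RPar d N k hx hN0 hN4 hk
  obtain ⟨hpq, hg0, hgd⟩ := gm_RPar j hx hj hDd
  obtain ⟨a, b, ha1, ha2, hb1, hb2, hb3, hb4, hb5⟩ :=
    ab_RPar hl1 hD2 hDd hv1 hV6 hL1 hL3 hg0 hgd hx3 hx4 hT1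
  obtain ⟨G, hG1, hG0, hG2⟩ := gg_RPar hC hl1 hL1 hL3
  have hV0 := Real.log_nonneg hv1
  have hL0 := zero_le_one.trans hL1
  have hZ0 : 0 ≤ (1 / x ^ 2) ^ j * (2 * (N : ℝ) + 1) ^ j :=
    mul_nonneg hp0.le (pow_nonneg (by linarith only [hN0]) _)
  obtain ⟨he0, he1⟩ := eps_RPar hx hl1 hD2 hDd hC hY1 hV0 hV6 hL0 hL3 hg0 hgd hZ0 hZY hp0.le hpq
    hT1 hT2 (Nat.cast_nonneg N) hN5 (Nat.cast_nonneg a) ha2
  obtain ⟨M, hM1, hMx, hM2, hM3, hM4⟩ :=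
    mm_RPar hd2 hC hl1 hx hE1 rfl h3 hG0 hG2 he0 he1 hT1 hT2
  have hss := ss_RPar j d hj hC (Nat.cast_nonneg b) h4 hb2 hG0 (Nat.cast_nonneg M) hMx
  refine ⟨⟨T, M, N, a, b, k, G, C, (1 / x ^ 2) ^ j⟩, B, rfl, rfl, rfl,
    ⟨by omega, hjd, hp0, hC, by exact_mod_cast hT0, ?_, ha1, hk1, by exact_mod_cast hG0, ?_,
      hM4 j hj, ?_, hb3, ?_, hG1, ?_, ?_⟩, hN1, hN4, ?_, hB1, hB2, hBk, ?_, ?_⟩
  · have : (1 : ℝ) ≤ N := by linarith only [hN0]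
    exact_mod_cast this
  · exact_mod_cast hb1
  · simp only [Pm.ss, Nat.add_sub_cancel]
    push_cast
    exact hss
  · simp only [Pm.de, Pm.gm, Pm.vol]
    push_cast
    exact hb4
  · simp only [Pm.eps, Pm.et1, Pm.et2, Pm.the, Pm.Z, Pm.gm, Pm.vol, Nat.add_sub_cancel]
    push_cast
    exact hM1
  · simp only [Pm.gm, Pm.vol]
    push_cast
    exact hb5
  · push_cast
    exact hM3
  · push_cast
    exact hM2
  · simp only [Pm.eps, Pm.et1, Pm.et2, Pm.the, Pm.Z, Pm.gm, Pm.vol, Nat.add_sub_cancel]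
    push_cast
    rw [mul_assoc (EE_RPar j d C)]
    exact he1

theorem rPar : RPar := by
  intro D d C hD hd hC
  obtain ⟨j, rfl⟩ : ∃ j, D = j + 1 := ⟨D - 1, by omega⟩
  have hd0 : (0 : ℝ) < d := by exact_mod_cast (show 0 < d by omega)
  have hE : 0 < EE_RPar j d C := by unfold EE_RPar; positivity
  have hF : 0 < FF_RPar j d C := by unfold FF_RPar; positivity
  obtain ⟨x₁, hx⟩ := eventually_atTop.1
    ((ev_RPar (24 * ((d : ℝ) + 1) ^ 2 * C * FF_RPar j d C) (by positivity) 5).and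
      (ev_RPar (C * (20500 * (d : ℝ) ^ 3) ^ d) (by positivity) (3 * d)))
  set x₀ : ℝ := max x₁ 2 with hx₀
  have h0 : 0 < x₀ := by positivity
  refine ⟨6 * C * FF_RPar j d C + EE_RPar j d C, 1 / x₀ ^ 2, by positivity, by positivity,
    fun q hq hq0 k hk1 hk => ?_⟩
  have hs : 0 < Real.sqrt q := Real.sqrt_pos.2 hq
  set x : ℝ := (Real.sqrt q)⁻¹ with hxd
  have hx0 : 0 < x := by positivity
  have e1 : 1 / x ^ 2 = q := by
    rw [hxd, inv_pow, Real.sq_sqrt hq.le, one_div, inv_inv]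
  have hle : x₀ ≤ x := by
    rw [← e1] at hq0
    have := (one_div_le_one_div (by positivity) (by positivity)).1 hq0
    exact (pow_le_pow_iff_left₀ h0.le hx0.le two_ne_zero).1 this
  have b1 : 2 ≤ x := (le_max_right _ _).trans hle
  obtain ⟨b2, b3⟩ := hx x ((le_max_left _ _).trans hle)
  have e2 : Real.log (1 / q) = 2 * Real.log x := by
    rw [← e1, one_div_one_div, Real.log_pow]; norm_num
  have e3 : 1 / q ^ 2 = x ^ 4 := by rw [← e1]; field_simp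
  have e4 : 1 / q = x ^ 2 := by rw [← e1, one_div_one_div]
  have hlx : 0 ≤ Real.log x := Real.log_nonneg (by linarith)
  obtain ⟨π, B, c1, c2, c3, c4, c5, c6, c7, c8, c9, c10, c11, c12⟩ :=
    main_RPar j d C (by omega) hd hC b1 b2 b3 k hk1 (by rw [← e3]; exact hk)
  rw [e1] at c3 c7 c9
  refine ⟨π, B, c1, c2, c3, c4, by rw [e4]; exact c5, by rw [e3]; exact c6, c7, c8,
    by push_cast; exact c9, by rw [e2]; exact c10, ?_, ?_⟩
  · rw [e2, div_eq_mul_inv]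
    refine c11.trans ?_
    gcongr
    linarith
  · rw [e2, div_eq_mul_inv]
    refine c12.trans ?_
    have : 0 ≤ 6 * C * FF_RPar j d C := by positivity
    gcongr
    linarith

end Pool.Agent.MP_6d294b_pr
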