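import Pool.Agent.MP_6d294b_pr.Stm2

open Finset

namespace Pool.Agent.MP_6d294b_pr

open Filter

theorem ev_RParB (c : ℝ) (m : ℕ) : ∃ x₀ : ℝ, 2 ≤ x₀ ∧ ∀ x, x₀ ≤ x → c * (2 * Real.log x) ^ m ≤ x := by
  have h := (Real.isLittleO_pow_log_id_atTop (n := m)).bound
    (show 0 < 1 / ((|c| + 1) * 2 ^ m) by positivity)
  obtain ⟨x₁, hx₁⟩ := eventually_atTop.1 h
  refine ⟨max x₁ 2, le_max_right _ _, fun x hx => ?_⟩
  have h1 := hx₁ x (le_trans (le_max_left _ _) hx)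
  have hx2 : 2 ≤ x := le_trans (le_max_right _ _) hx
  have hl : 0 ≤ Real.log x := Real.log_nonneg (by linarith)
  simp only [id, Real.norm_eq_abs] at h1
  rw [abs_of_nonneg (pow_nonneg hl m), abs_of_nonneg (show 0 ≤ x by linarith)] at h1
  rw [mul_pow]
  have h2 : (|c| + 1) * 2 ^ m * Real.log x ^ m ≤ x := by
    have := mul_le_mul_of_nonneg_left h1 (show 0 ≤ (|c| + 1) * 2 ^ m by positivity)
    rwa [← mul_assoc, mul_one_div_cancel (by positivity), one_mul] at this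
  have h3 : c ≤ |c| + 1 := by linarith [le_abs_self c]
  calc c * (2 ^ m * Real.log x ^ m) ≤ (|c| + 1) * (2 ^ m * Real.log x ^ m) := by gcongr
    _ ≤ x := by linarith

/-- bound for the error budget -/
theorem eps_RParB (D d : ℕ) (π : Pm) {x l z : ℝ} (hx : 2 ≤ x) (hl : 1 ≤ l) (hC : 1 ≤ π.C)
    (hz : 0 ≤ z) (hp0 : 0 < π.p) (hp : π.p ≤ 1 / x) (hv0 : 0 ≤ Real.log (π.vol d))
    (hv : Real.log (π.vol d) ≤ 6 * d * l) (hg0 : 0 ≤ π.gm) (hg : π.gm ≤ D * l)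
    (ha : (π.a : ℝ) + 1 ≤ 22 * d * l) (hT : x ≤ π.T) (hT2 : (π.T : ℝ) ≤ 2 * x)
    (hN : (π.N : ℝ) ≤ 2 * D * l * x ^ 2) (hK0 : 0 ≤ Real.log (2 * π.N + 1))
    (hK : Real.log (2 * π.N + 1) ≤ 3 * l) (hZ : π.Z D ≤ z * l) :
    0 ≤ π.eps D d ∧ π.eps D d ≤ (6 * d + 4 * D * (12 * d + 44 * D ^ 2 * d + 2 + π.C * (z + 1))
      + 15 * D * (π.C * (z + 1))) * (x * l ^ 3) := by
  have hx0 : 0 < x := by linarith
  have hT0 : (0 : ℝ) < π.T := by linarith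
  have hZ0 : 0 ≤ π.Z D := by unfold Pm.Z; positivity
  have hC0 : 0 ≤ π.C := by linarith
  have hl2 : l ≤ l ^ 2 := by nlinarith
  have hl3 : l ^ 2 ≤ l ^ 3 := by nlinarith
  have e10 : 0 ≤ π.et1 D d := by unfold Pm.et1; positivity
  have e20 : 0 ≤ π.et2 D := by unfold Pm.et2; positivity
  have t0 : 0 ≤ π.the D := by unfold Pm.the; positivity
  refine ⟨by unfold Pm.eps; positivity, ?_⟩
  have e1 : π.et1 D d ≤ (12 * d + 44 * D ^ 2 * d + 2) * l ^ 2 / x := by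
    unfold Pm.et1
    refine div_le_div₀ (by positivity) ?_ hx0 hT
    have b1 : 2 * D * ((π.a : ℝ) + 1) * π.gm ≤ 2 * D * (22 * d * l) * (D * l) := by gcongr
    have b2 : (d : ℝ) * l ≤ d * l ^ 2 := by gcongr
    nlinarith
  have e2 : π.et2 D ≤ π.C * (z + 1) * l ^ 2 / x := by
    unfold Pm.et2
    have b1 : π.p * π.Z D ≤ 1 / x * (z * l) := by gcongr
    have b2 : 1 / (π.T : ℝ) ≤ 1 / x := one_div_le_one_div_of_le hx0 hT
    have b3 : 1 / x * (z * l) + 1 / x ≤ (z + 1) * l ^ 2 / x := by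
      rw [le_div_iff₀ hx0]
      have : (1 / x * (z * l) + 1 / x) * x = z * l + 1 := by field_simp
      rw [this]
      have : z * l ≤ z * l ^ 2 := by gcongr
      nlinarith
    calc π.C * (π.p * π.Z D + 1 / π.T) ≤ π.C * ((z + 1) * l ^ 2 / x) := by
          gcongr; linarith
      _ = _ := by ring
  have e3 : 2 * π.N * (π.et1 D d + π.et2 D) ≤
      4 * D * (12 * d + 44 * D ^ 2 * d + 2 + π.C * (z + 1)) * (x * l ^ 3) := by
    calc 2 * π.N * (π.et1 D d + π.et2 D) ≤ 2 * (2 * D * l * x ^ 2) *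
          ((12 * d + 44 * D ^ 2 * d + 2) * l ^ 2 / x + π.C * (z + 1) * l ^ 2 / x) := by gcongr
      _ = _ := by field_simp; ring
  have e4 : π.the D ≤ 5 * x * π.C * ((z + 1) * l) := by
    unfold Pm.the
    have b1 : 2 * (π.T : ℝ) + 1 ≤ 5 * x := by linarith
    have b2 : π.Z D + 1 ≤ (z + 1) * l := by nlinarith
    gcongr
  have e5 : π.the D * (D * Real.log (2 * π.N + 1)) ≤ 15 * D * (π.C * (z + 1)) * (x * l ^ 3) := by
    calc π.the D * (D * Real.log (2 * π.N + 1)) ≤ 5 * x * π.C * ((z + 1) * l) * (D * (3 * l)) := by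
          gcongr
      _ = 15 * D * (π.C * (z + 1)) * (x * l ^ 2) := by ring
      _ ≤ _ := by gcongr
  have e6 : Real.log (π.vol d) ≤ 6 * d * (x * l ^ 3) := by
    have b1 : l ≤ x * l ^ 3 := by nlinarith
    calc _ ≤ 6 * d * l := hv
      _ ≤ _ := by gcongr
  unfold Pm.eps
  linarith [e3, e5, e6]

theorem ceil_le_RParB {y : ℝ} (hy : 0 ≤ y) : (⌈y⌉₊ : ℝ) ≤ y + 1 := (Nat.ceil_lt_add_one hy).le

theorem main_RParB (j d k : ℕ) (C x l B cE cb c3 c4 : ℝ) (hj : 1 ≤ j) (hd : j + 1 ≤ d) (hC : 1 ≤ C)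
    (hx : 2 ≤ x) (hl : l = 2 * Real.log x) (hl1 : 1 ≤ l) (hB1 : 1 ≤ B) (hBl : B ≤ l)
    (hBj : B ^ j = l) (hk1 : 1 ≤ k) (hk : (k : ℝ) ≤ x ^ 4)
    (hcE : cE = 3 + 18 * d + 24 * d * ((j + 1 : ℝ) + 3) * (2 * (j + 1 : ℝ) + 1))
    (hcb : cb = 60 * cE + 1 + 44 * (j + 1 : ℝ) * d + 48 * d)
    (hc3 : c3 = 6 * d + 4 * (j + 1 : ℝ) * (12 * d + 44 * (j + 1 : ℝ) ^ 2 * d + 2 +
      C * ((5 * (j + 1 : ℝ)) ^ j + 1)) + 15 * (j + 1 : ℝ) * (C * ((5 * (j + 1 : ℝ)) ^ j + 1)))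
    (hc4 : c4 = 72 * C * (c3 + 2) + 2)
    (s1 : 2 * (j + 1 : ℝ) * l ≤ x) (s2 : 24 * (d + 1 : ℝ) ^ 2 * C * c4 * l ^ 5 ≤ x)
    (s3 : C * (3 * cb * l ^ 3) ^ d ≤ x)
    (s4 : (24 * d + (44 * (j + 1 : ℝ) * d + 2) * (j + 1 : ℝ) + 2) * l ^ 2 ≤ x) :
    ∃ π : Pm, π.k = k ∧ π.C = C ∧ π.p = (1 / x ^ 2) ^ j ∧ ParR (j + 1) d π ∧ x ^ 2 ≤ π.N ∧
      (π.N : ℝ) ≤ x ^ 4 ∧ 2 + ((π.G * (π.M + 1) : ℕ) : ℝ) ≤ x ^ 2 ∧
      B * (j + 1 : ℝ) * x ^ 2 ≤ π.N ∧ ((π.G * (π.M + 1) : ℕ) : ℝ) ≤ 4 * C * c4 * (x * l ^ 5) ∧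
      π.eps (j + 1) d ≤ c3 * (x * l ^ 3) := by
  have hx0 : 0 < x := by linarith
  have hj0 : (0 : ℝ) ≤ j := Nat.cast_nonneg j
  have hj1 : (1 : ℝ) ≤ j := by exact_mod_cast hj
  have hd1 : (1 : ℝ) ≤ d := by exact_mod_cast (show 1 ≤ d by omega)
  obtain ⟨D, hD⟩ : ∃ D : ℝ, D = j + 1 := ⟨_, rfl⟩
  rw [← hD] at hcE hcb hc3 s1 s4 ⊢
  have hD1 : 1 ≤ D := by linarith
  have hl2 : l ≤ l ^ 2 := by nlinarith
  have hl3 : l ^ 2 ≤ l ^ 3 := by nlinarith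
  have hx2 : x ≤ x ^ 2 := by nlinarith
  have hx4 : 4 ≤ x ^ 2 := by nlinarith
  have hcE0 : 0 ≤ cE := by rw [hcE]; positivity
  have hcb1 : 1 ≤ cb := by
    have : 0 ≤ 60 * cE + 44 * D * d + 48 * d := by positivity
    linarith
  have hc30 : 0 ≤ c3 := by rw [hc3]; positivity
  have hc40 : 2 ≤ c4 := by
    have : 0 ≤ 72 * C * (c3 + 2) := by positivity
    linarith
  -- N
  obtain ⟨N, hN⟩ : ∃ N : ℕ, N = ⌈B * D * x ^ 2⌉₊ := ⟨_, rfl⟩
  have hBD : 1 ≤ B * D := one_le_mul_of_one_le_of_one_le hB1 hD1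
  have hBDx : x ^ 2 ≤ B * D * x ^ 2 := le_mul_of_one_le_left (by positivity) hBD
  have N1 : B * D * x ^ 2 ≤ N := hN ▸ Nat.le_ceil _
  have N2 : (N : ℝ) ≤ B * D * x ^ 2 + 1 := hN ▸ ceil_le_RParB (by positivity)
  have N3 : (N : ℝ) ≤ 2 * D * l * x ^ 2 := by
    have : B * D * x ^ 2 ≤ l * D * x ^ 2 := by gcongr
    linarith
  have N4 : (N : ℝ) ≤ x ^ 3 := by
    calc (N : ℝ) ≤ 2 * D * l * x ^ 2 := N3
      _ ≤ x * x ^ 2 := by gcongr
      _ = x ^ 3 := by ring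
  have hx34 : 2 * x ^ 3 ≤ x ^ 4 := by
    have : x ^ 4 = x * x ^ 3 := by ring
    rw [this]; gcongr
  have hx3 : 0 < x ^ 3 := by positivity
  have N5 : (N : ℝ) ≤ x ^ 4 := by linarith
  have N6 : (1 : ℝ) ≤ N := by linarith
  have hk0 : (0 : ℝ) ≤ k := Nat.cast_nonneg k
  have W1 : 2 * (N : ℝ) + 1 + k ≤ x ^ 6 := by
    have a1 : x ^ 6 = x ^ 2 * x ^ 4 := by ring
    have a2 : 4 * x ^ 4 ≤ x ^ 2 * x ^ 4 := by gcongr
    have a3 : 1 ≤ x ^ 4 := one_le_pow₀ (by linarith)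
    linarith
  have L6 : Real.log (x ^ 6) = 3 * l := by rw [Real.log_pow, hl]; push_cast; ring
  have W2 : Real.log (2 * (N : ℝ) + 1 + k) ≤ 3 * l := L6 ▸ Real.log_le_log (by positivity) W1
  have W3 : 0 ≤ Real.log (2 * (N : ℝ) + 1 + k) := Real.log_nonneg (by linarith)
  have K2 : Real.log (2 * (N : ℝ) + 1) ≤ 3 * l :=
    le_trans (Real.log_le_log (by positivity) (by linarith)) W2
  have K1 : 1 ≤ Real.log (2 * (N : ℝ) + 1) := by
    rw [Real.le_log_iff_exp_le (by positivity)]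
    have := Real.exp_one_lt_d9
    linarith
  -- p
  obtain ⟨p, hp⟩ : ∃ p : ℝ, p = (1 / x ^ 2) ^ j := ⟨_, rfl⟩
  have hq1 : 1 / x ^ 2 ≤ 1 := by rw [div_le_one (by positivity)]; linarith
  have p0 : 0 < p := by rw [hp]; positivity
  have p1 : p ≤ 1 / x ^ 2 := by
    rw [hp]; exact pow_le_of_le_one (by positivity) hq1 (by omega)
  have p2 : p ≤ 1 / x := le_trans p1 (one_div_le_one_div_of_le hx0 hx2)
  have lp : Real.log (2 / p) = Real.log 2 + j * l := by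
    rw [Real.log_div (by norm_num) p0.ne', hp, Real.log_pow, one_div, Real.log_inv, Real.log_pow, hl]
    push_cast; ring
  have l2 : Real.log 2 ≤ 1 := by
    have := Real.log_le_sub_one_of_pos (x := 2) (by norm_num)
    linarith
  have l20 : 0 ≤ Real.log 2 := Real.log_nonneg (by norm_num)
  have jl : 0 ≤ (j : ℝ) * l := by positivity
  have g0 : 0 ≤ Real.log (2 / p) / 2 := by rw [lp]; positivity
  have g1 : Real.log (2 / p) / 2 ≤ D * l := by rw [lp, hD]; nlinarith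
  -- a, G, T
  obtain ⟨a, ha⟩ : ∃ a : ℕ, a = ⌈18 * (d : ℝ) * l⌉₊ + 2 := ⟨_, rfl⟩
  have dl1 : 1 ≤ (d : ℝ) * l := one_le_mul_of_one_le_of_one_le hd1 hl1
  have a1 : 18 * (d : ℝ) * l + 2 ≤ a := by
    rw [ha]; push_cast; linarith [Nat.le_ceil (18 * (d : ℝ) * l)]
  have a2 : (a : ℝ) ≤ 21 * d * l := by
    rw [ha]; push_cast
    have := ceil_le_RParB (show 0 ≤ 18 * (d : ℝ) * l by positivity)
    linarith
  obtain ⟨G, hG⟩ : ∃ G : ℕ, G = ⌈C * Real.log (2 * (N : ℝ) + 1)⌉₊ := ⟨_, rfl⟩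
  have Cl1 : 1 ≤ C * l := one_le_mul_of_one_le_of_one_le hC hl1
  have G1 : C * Real.log (2 * (N : ℝ) + 1) ≤ G := hG ▸ Nat.le_ceil _
  have G2 : (G : ℝ) ≤ 4 * C * l := by
    have b1 := ceil_le_RParB (show 0 ≤ C * Real.log (2 * (N : ℝ) + 1) by positivity)
    have b2 : C * Real.log (2 * (N : ℝ) + 1) ≤ C * (3 * l) := by gcongr
    rw [hG]; linarith
  have G3 : (1 : ℝ) ≤ G := le_trans (one_le_mul_of_one_le_of_one_le hC K1) G1
  obtain ⟨T, hT⟩ : ∃ T : ℕ, T = ⌈x⌉₊ := ⟨_, rfl⟩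
  have T1 : x ≤ T := hT ▸ Nat.le_ceil _
  have T2 : (T : ℝ) ≤ 2 * x := by
    have := ceil_le_RParB hx0.le
    rw [hT]; linarith
  -- b
  obtain ⟨E, hE⟩ : ∃ E : ℝ, E = 2 + 18 * d * l +
      (Real.log (2 / p) / 2 + 3) * (2 * D + 1) * (a + 3) + 1 := ⟨_, rfl⟩
  have E0 : 0 ≤ E := by rw [hE]; positivity
  have E1 : E ≤ cE * l ^ 2 := by
    have b1 : Real.log (2 / p) / 2 + 3 ≤ (D + 3) * l := by nlinarith
    have b2 : (a : ℝ) + 3 ≤ 24 * d * l := by linarith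
    have b3 : (Real.log (2 / p) / 2 + 3) * (2 * D + 1) * (a + 3) ≤
        ((D + 3) * l) * (2 * D + 1) * (24 * d * l) := by gcongr
    have b4 : (d : ℝ) * l ≤ d * l ^ 2 := by gcongr
    have b5 : cE * l ^ 2 = 3 * l ^ 2 + 18 * (d * l ^ 2) +
        ((D + 3) * l) * (2 * D + 1) * (24 * d * l) := by rw [hcE]; ring
    rw [hE, b5]; linarith
  obtain ⟨b, hb⟩ : ∃ b : ℕ, b = ⌈60 * l * E⌉₊ + (2 * (j + 1) * (a + 1) + 2 * (a + 3)) := ⟨_, rfl⟩
  have b1 : 60 * l * E ≤ b := by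
    rw [hb]; push_cast
    have : (0 : ℝ) ≤ 2 * (j + 1) * (a + 1) + 2 * (a + 3) := by positivity
    linarith [Nat.le_ceil (60 * l * E)]
  have b2 : (b : ℝ) ≤ cb * l ^ 3 := by
    have c1 := ceil_le_RParB (show 0 ≤ 60 * l * E by positivity)
    have c2 : 60 * l * E ≤ 60 * l * (cE * l ^ 2) := by gcongr
    have c3' : 2 * D * ((a : ℝ) + 1) ≤ 2 * D * (22 * d * l ^ 3) := by
      have : (d : ℝ) * l ≤ d * l ^ 3 := by gcongr; linarith
      gcongr; linarith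
    have c4' : 2 * ((a : ℝ) + 3) ≤ 48 * (d * l ^ 3) := by
      have : (d : ℝ) * l ≤ d * l ^ 3 := by gcongr; linarith
      linarith
    have c5 : cb * l ^ 3 = 60 * l * (cE * l ^ 2) + l ^ 3 + 2 * D * (22 * d * l ^ 3) +
        48 * (d * l ^ 3) := by rw [hcb]; ring
    rw [hb, c5]; push_cast; rw [← hD]; linarith
  -- eps and M
  obtain ⟨π₀, hπ₀⟩ : ∃ π₀ : Pm, π₀ = ⟨T, 0, N, a, 0, k, 0, C, p⟩ := ⟨_, rfl⟩
  have v1 : Real.log ((2 * (N : ℝ) + 1 + k) ^ (2 * d)) ≤ 6 * d * l := by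
    rw [Real.log_pow]; push_cast
    have : 2 * (d : ℝ) * Real.log (2 * (N : ℝ) + 1 + k) ≤ 2 * d * (3 * l) := by gcongr
    linarith
  have v0 : 0 ≤ Real.log ((2 * (N : ℝ) + 1 + k) ^ (2 * d)) := by
    rw [Real.log_pow]; positivity
  have Z1 : p * (2 * (N : ℝ) + 1) ^ j ≤ (5 * D) ^ j * l := by
    rw [hp, ← hBj, ← mul_pow, ← mul_pow]
    refine pow_le_pow_left₀ (by positivity) ?_ j
    rw [one_div, inv_mul_le_iff₀ (by positivity)]
    have : x ^ 2 * (5 * D * B) = 5 * (B * D * x ^ 2) := by ring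
    rw [this]; linarith
  have ep := eps_RParB (j + 1) d π₀ (x := x) (l := l) (z := (5 * D) ^ j) hx hl1
    (by rw [hπ₀]; exact hC) (by positivity) (by rw [hπ₀]; exact p0) (by rw [hπ₀]; exact p2)
    (by rw [hπ₀]; exact v0) (by rw [hπ₀]; exact v1) (by rw [hπ₀]; exact g0)
    (by rw [hπ₀]; push_cast; rw [← hD]; exact g1) (by rw [hπ₀]; show (a : ℝ) + 1 ≤ _; linarith)
    (by rw [hπ₀]; exact T1) (by rw [hπ₀]; exact T2)
    (by rw [hπ₀]; push_cast; rw [← hD]; exact N3)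
    (by rw [hπ₀]; exact le_trans zero_le_one K1) (by rw [hπ₀]; exact K2) (by rw [hπ₀]; exact Z1)
  obtain ⟨e, he⟩ : ∃ e : ℝ, e = π₀.eps (j + 1) d := ⟨_, rfl⟩
  have hC' : π₀.C = C := by rw [hπ₀]
  rw [← he, hC'] at ep
  push_cast at ep
  rw [← hD, ← hc3] at ep
  obtain ⟨e0, e1⟩ := ep
  obtain ⟨M, hM⟩ : ∃ M : ℕ, M = ⌈12 * ((G : ℝ) + 2) * (e + T)⌉₊ := ⟨_, rfl⟩
  have M1 : 12 * ((G : ℝ) + 2) * (e + T) ≤ M := hM ▸ Nat.le_ceil _
  have xl : x ≤ x * l ^ 3 := le_mul_of_one_le_right hx0.le (one_le_pow₀ hl1)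
  have xl4 : 1 ≤ x * l ^ 4 := one_le_mul_of_one_le_of_one_le (by linarith) (one_le_pow₀ hl1)
  have M2 : (M : ℝ) + 1 ≤ c4 * (x * l ^ 4) := by
    have c1 := ceil_le_RParB (show 0 ≤ 12 * ((G : ℝ) + 2) * (e + T) by positivity)
    have c2 : (G : ℝ) + 2 ≤ 6 * C * l := by linarith
    have c3' : e + T ≤ (c3 + 2) * (x * l ^ 3) := by linarith
    have c4' : 12 * ((G : ℝ) + 2) * (e + T) ≤ 12 * (6 * C * l) * ((c3 + 2) * (x * l ^ 3)) := by
      gcongr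
    have c5 : c4 * (x * l ^ 4) = 12 * (6 * C * l) * ((c3 + 2) * (x * l ^ 3)) + 2 * (x * l ^ 4) := by
      rw [hc4]; ring
    rw [hM, c5]; linarith
  have M3 : x ≤ M := by
    have c1 : (T : ℝ) ≤ e + T := by linarith
    have c2 : e + T ≤ 12 * ((G : ℝ) + 2) * (e + T) :=
      le_mul_of_one_le_left (by positivity) (by linarith)
    linarith
  have GM : (G : ℝ) * (M + 1) ≤ 4 * C * c4 * (x * l ^ 5) := by
    calc (G : ℝ) * (M + 1) ≤ (4 * C * l) * (c4 * (x * l ^ 4)) := by gcongr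
      _ = _ := by ring
  have d4 : (4 : ℝ) ≤ (d + 1) ^ 2 := by
    have := pow_le_pow_left₀ (show (0 : ℝ) ≤ 2 by norm_num) (show (2 : ℝ) ≤ d + 1 by linarith only [hd1]) 2
    linarith only [this]
  have Cc : 0 ≤ C * c4 * l ^ 5 := by positivity
  have s2' : 96 * (C * c4 * l ^ 5) ≤ x := by
    have c1 := mul_le_mul_of_nonneg_right d4 Cc
    have c2 : 24 * (d + 1 : ℝ) ^ 2 * C * c4 * l ^ 5 = 24 * ((d + 1 : ℝ) ^ 2 * (C * c4 * l ^ 5)) := by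
      ring
    linarith only [c1, c2, s2]
  have hv : (2 * (N : ℝ) + 1 + k) ^ (2 * d) ≤ Real.exp (6 * d * l) := by
    rw [← Real.log_le_iff_le_exp (by positivity)]; exact v1
  have hv3 : ((2 * (N : ℝ) + 1 + k) ^ (2 * d)) ^ 3 ≤ Real.exp (18 * d * l) := by
    calc _ ≤ Real.exp (6 * d * l) ^ 3 := by gcongr
      _ = _ := by rw [← Real.exp_nat_mul]; congr 1; push_cast; ring
  have h4 : (4 : ℝ) ≤ Real.exp 2 := by
    have c1 := Real.add_one_le_exp (1 : ℝ)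
    have c2 : Real.exp 2 = Real.exp 1 * Real.exp 1 := by rw [← Real.exp_add]; norm_num
    nlinarith only [c1, c2]
  refine ⟨⟨T, M, N, a, b, k, G, C, p⟩, rfl, rfl, hp, ?_, by show x ^ 2 ≤ (N : ℝ); linarith, N5,
    ?_, N1, by push_cast; exact GM, ?_⟩
  · refine ⟨by omega, hd, p0, hC, ?_, ?_, ?_, hk1, ?_, ?_, ?_, ?_, ?_, ?_, G1, ?_, ?_⟩
    · exact_mod_cast (show (1 : ℝ) ≤ T by linarith)
    · exact_mod_cast N6
    · show 1 ≤ a
      omega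
    · exact_mod_cast G3
    · show 2 * (j + 1) * (a + 1) + 2 * (a + 3) ≤ b
      omega
    · show 4 * ((d : ℝ) + 1) ^ 2 * (p * (((G : ℝ) + 2) * ((M : ℝ) + 1) ^ j)) ≤ 1
      have c1 : ((M : ℝ) + 1) / x ^ 2 ≤ c4 * l ^ 4 / x := by
        rw [div_le_div_iff₀ (by positivity) hx0]
        calc ((M : ℝ) + 1) * x ≤ c4 * (x * l ^ 4) * x := by gcongr
          _ = _ := by ring
      have c2 : c4 * l ^ 4 ≤ C * c4 * l ^ 5 := by
        have : C * c4 * l ^ 5 = (C * l) * (c4 * l ^ 4) := by ring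
        rw [this]; exact le_mul_of_one_le_left (by positivity) Cl1
      have c3' : ((M : ℝ) + 1) / x ^ 2 ≤ 1 := by
        refine le_trans c1 ?_
        rw [div_le_one hx0]; linarith
      have c4' : p * ((M : ℝ) + 1) ^ j ≤ c4 * l ^ 4 / x := by
        rw [hp, ← mul_pow, one_div_mul_eq_div]
        exact le_trans (pow_le_of_le_one (by positivity) c3' (by omega)) c1
      have c5 : (G : ℝ) + 2 ≤ 6 * C * l := by linarith
      calc 4 * ((d : ℝ) + 1) ^ 2 * (p * (((G : ℝ) + 2) * ((M : ℝ) + 1) ^ j))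
          = 4 * ((d : ℝ) + 1) ^ 2 * (((G : ℝ) + 2) * (p * ((M : ℝ) + 1) ^ j)) := by ring
        _ ≤ 4 * ((d : ℝ) + 1) ^ 2 * ((6 * C * l) * (c4 * l ^ 4 / x)) := by gcongr
        _ = 24 * (d + 1 : ℝ) ^ 2 * C * c4 * l ^ 5 / x := by ring
        _ ≤ 1 := by rw [div_le_one hx0]; exact s2
    · show C * (2 * (b : ℝ) + 1) ^ d ≤ ((G * (M + 1) ^ j : ℕ) : ℝ)
      have c1 : 1 ≤ cb * l ^ 3 := one_le_mul_of_one_le_of_one_le hcb1 (one_le_pow₀ hl1)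
      have c2 : 2 * (b : ℝ) + 1 ≤ 3 * cb * l ^ 3 := by linarith
      have c3' : C * (2 * (b : ℝ) + 1) ^ d ≤ C * (3 * cb * l ^ 3) ^ d := by gcongr
      have c4' : (M : ℝ) + 1 ≤ ((M : ℝ) + 1) ^ j := le_self_pow₀ (by linarith) (by omega)
      have c5 : ((M : ℝ) + 1) ^ j ≤ G * ((M : ℝ) + 1) ^ j :=
        le_mul_of_one_le_left (by positivity) G3
      push_cast; linarith
    · show 4 * ((2 * (N : ℝ) + 1 + k) ^ (2 * d)) ^ 3 * (1 / 4) ^ a ≤ 1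
      have c1 : (1 / 4 : ℝ) ≤ Real.exp (- 1) := by
        rw [Real.exp_neg, one_div]
        refine inv_anti₀ (Real.exp_pos _) ?_
        have := Real.exp_one_lt_d9
        linarith
      have c2 : (1 / 4 : ℝ) ^ a ≤ Real.exp (- a) := by
        calc (1 / 4 : ℝ) ^ a ≤ Real.exp (- 1) ^ a := by gcongr
          _ = _ := by rw [← Real.exp_nat_mul]; congr 1; ring
      calc _ ≤ Real.exp 2 * Real.exp (18 * d * l) * Real.exp (- a) := by gcongr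
        _ = Real.exp (2 + 18 * d * l - a) := by rw [← Real.exp_add, ← Real.exp_add]; congr 1
        _ ≤ 1 := Real.exp_le_one_iff.2 (by linarith)
    · show 4 * ((2 * (N : ℝ) + 1 + k) ^ (2 * d)) ^ 3 *
        Real.exp (- (1 / (10 * Real.log (2 * (N : ℝ) + 1)) * b / 2) +
          (Real.log (2 / p) / 2 + 3) * (2 * ((j + 1 : ℕ) : ℝ) + 1) * (a + 3) + 1) ≤ 1
      push_cast; rw [← hD]
      have c1 : 1 / (30 * l) ≤ 1 / (10 * Real.log (2 * (N : ℝ) + 1)) :=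
        one_div_le_one_div_of_le (by positivity) (by linarith)
      have c2 : E ≤ 1 / (10 * Real.log (2 * (N : ℝ) + 1)) * b / 2 := by
        calc E = 1 / (30 * l) * (60 * l * E) / 2 := by field_simp; ring
          _ ≤ _ := by gcongr
      calc _ ≤ Real.exp 2 * Real.exp (18 * d * l) *
            Real.exp (- (1 / (10 * Real.log (2 * (N : ℝ) + 1)) * b / 2) +
              (Real.log (2 / p) / 2 + 3) * (2 * D + 1) * (a + 3) + 1) := by gcongr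
        _ ≤ 1 := by
          rw [← Real.exp_add, ← Real.exp_add]
          exact Real.exp_le_one_iff.2 (by linarith)
    · have : (⟨T, M, N, a, b, k, G, C, p⟩ : Pm).eps (j + 1) d = e := by rw [he, hπ₀]; rfl
      rw [this]; exact M1
    · show ((2 * (N : ℝ) + 1 + k) ^ (2 * d)) ^ 4 *
        Real.exp ((2 * ((j + 1 : ℕ) : ℝ) * (a + 1) + 2) * (Real.log (2 / p) / 2) + 1 - T) ≤ 1 / 2
      push_cast; rw [← hD]
      have c0 : ((2 * (N : ℝ) + 1 + k) ^ (2 * d)) ^ 4 ≤ Real.exp (24 * d * l) := by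
        calc _ ≤ Real.exp (6 * d * l) ^ 4 := by gcongr
          _ = _ := by rw [← Real.exp_nat_mul]; congr 1; push_cast; ring
      have c1 : 2 * D * ((a : ℝ) + 1) + 2 ≤ (44 * D * d + 2) * l := by
        have : 2 * D * ((a : ℝ) + 1) ≤ 2 * D * (22 * d * l) := by gcongr; linarith
        linarith
      have c2 : (2 * D * ((a : ℝ) + 1) + 2) * (Real.log (2 / p) / 2) ≤
          ((44 * D * d + 2) * l) * (D * l) := by gcongr
      have c3' : (d : ℝ) * l ≤ d * l ^ 2 := by gcongr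
      have c4' : (24 * d + (44 * D * d + 2) * D + 2) * l ^ 2 =
          24 * (d * l ^ 2) + ((44 * D * d + 2) * l) * (D * l) + 2 * l ^ 2 := by ring
      have c5 : Real.exp (- 1) ≤ 1 / 2 := by
        rw [Real.exp_neg, one_div]
        refine inv_anti₀ (by norm_num) ?_
        have := Real.add_one_le_exp (1 : ℝ)
        linarith
      calc _ ≤ Real.exp (24 * d * l) *
            Real.exp ((2 * D * ((a : ℝ) + 1) + 2) * (Real.log (2 / p) / 2) + 1 - T) := by gcongr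
        _ ≤ Real.exp (- 1) := by
          rw [← Real.exp_add]
          exact Real.exp_le_exp.2 (by linarith)
        _ ≤ _ := c5
  · push_cast
    have c1 : 4 * C * c4 * (x * l ^ 5) = x * (4 * (C * c4 * l ^ 5)) := by ring
    have c2 : x * (4 * (C * c4 * l ^ 5)) ≤ x * (x / 24) := by gcongr; linarith
    have c3' : x * (x / 24) = x ^ 2 / 24 := by ring
    show 2 + (G : ℝ) * (M + 1) ≤ x ^ 2
    linarith
  · have : (⟨T, M, N, a, b, k, G, C, p⟩ : Pm).eps (j + 1) d = e := by rw [he, hπ₀]; rfl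
    rw [this]; exact e1

theorem rParB : RPar := by
  intro D d C hD hd hC
  obtain ⟨j, rfl⟩ : ∃ j, D = j + 1 := ⟨D - 1, by omega⟩
  have hj : 1 ≤ j := by omega
  obtain ⟨cE, hcE⟩ : ∃ c : ℝ, c = 3 + 18 * d + 24 * d * ((j + 1 : ℝ) + 3) * (2 * (j + 1 : ℝ) + 1) :=
    ⟨_, rfl⟩
  obtain ⟨cb, hcb⟩ : ∃ c : ℝ, c = 60 * cE + 1 + 44 * (j + 1 : ℝ) * d + 48 * d := ⟨_, rfl⟩
  obtain ⟨c3, hc3⟩ : ∃ c : ℝ, c = 6 * d + 4 * (j + 1 : ℝ) * (12 * d + 44 * (j + 1 : ℝ) ^ 2 * d + 2 +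
      C * ((5 * (j + 1 : ℝ)) ^ j + 1)) + 15 * (j + 1 : ℝ) * (C * ((5 * (j + 1 : ℝ)) ^ j + 1)) :=
    ⟨_, rfl⟩
  obtain ⟨c4, hc4⟩ : ∃ c : ℝ, c = 72 * C * (c3 + 2) + 2 := ⟨_, rfl⟩
  have hc30 : 0 ≤ c3 := by rw [hc3]; positivity
  have hc40 : 0 < c4 := by rw [hc4]; positivity
  obtain ⟨x1, h12, h1⟩ := ev_RParB (2 * (j + 1 : ℝ)) 1
  obtain ⟨x2, -, h2⟩ := ev_RParB (24 * (d + 1 : ℝ) ^ 2 * C * c4) 5
  obtain ⟨x3, -, h3⟩ := ev_RParB (C * (3 * cb) ^ d) (3 * d)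
  obtain ⟨x4, -, h4⟩ := ev_RParB (24 * d + (44 * (j + 1 : ℝ) * d + 2) * (j + 1 : ℝ) + 2) 2
  obtain ⟨y, hy⟩ : ∃ y : ℝ, y = max (max x1 x2) (max x3 x4) := ⟨_, rfl⟩
  have y1 : x1 ≤ y := hy ▸ le_trans (le_max_left _ _) (le_max_left _ _)
  have y2 : x2 ≤ y := hy ▸ le_trans (le_max_right _ _) (le_max_left _ _)
  have y3 : x3 ≤ y := hy ▸ le_trans (le_max_left _ _) (le_max_right _ _)
  have y4 : x4 ≤ y := hy ▸ le_trans (le_max_right _ _) (le_max_right _ _)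
  have y0 : 0 < y := by linarith
  refine ⟨4 * C * c4 + c3, 1 / y ^ 2, by positivity, by positivity, fun q hq hq0 k hk1 hk => ?_⟩
  obtain ⟨x, hx⟩ : ∃ x : ℝ, x = 1 / Real.sqrt q := ⟨_, rfl⟩
  have sq0 : 0 < Real.sqrt q := Real.sqrt_pos.2 hq
  have hx0 : 0 < x := by rw [hx]; positivity
  have hx2 : x ^ 2 = 1 / q := by rw [hx, div_pow, one_pow, Real.sq_sqrt hq.le]
  have hq' : q = 1 / x ^ 2 := by rw [hx2, one_div_one_div]
  have hyx : y ≤ x := by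
    refine (pow_le_pow_iff_left₀ y0.le hx0.le two_ne_zero).1 ?_
    rw [hx2, le_div_iff₀ hq]
    rw [le_div_iff₀ (by positivity)] at hq0
    linarith
  have hx2' : 2 ≤ x := by linarith
  obtain ⟨l, hl⟩ : ∃ l : ℝ, l = 2 * Real.log x := ⟨_, rfl⟩
  have hlq : Real.log (1 / q) = l := by rw [← hx2, Real.log_pow, hl]; norm_num
  have hl1 : 1 ≤ l := by
    have c1 : Real.log 2 ≤ Real.log x := Real.log_le_log (by norm_num) hx2'
    have c2 := Real.log_two_gt_d9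
    linarith
  have hj0 : (j : ℝ) ≠ 0 := by exact_mod_cast (show j ≠ 0 by omega)
  have hj1 : (1 : ℝ) ≤ j := by exact_mod_cast hj
  obtain ⟨B, hB⟩ : ∃ B : ℝ, B = l ^ ((j : ℝ)⁻¹) := ⟨_, rfl⟩
  have hBj : B ^ j = l := by rw [hB]; exact Real.rpow_inv_natCast_pow (by linarith) (by omega)
  have hB1 : 1 ≤ B := by rw [hB]; exact Real.one_le_rpow hl1 (by positivity)
  have hBl : B ≤ l := hBj ▸ le_self_pow₀ hB1 (by omega)
  have hk4 : (k : ℝ) ≤ x ^ 4 := by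
    have : x ^ 4 = 1 / q ^ 2 := by
      rw [show x ^ 4 = (x ^ 2) ^ 2 by ring, hx2, div_pow, one_pow]
    rw [this]; exact hk
  have s1 := h1 x (le_trans y1 hyx)
  have s2 := h2 x (le_trans y2 hyx)
  have s3 := h3 x (le_trans y3 hyx)
  have s4 := h4 x (le_trans y4 hyx)
  rw [← hl] at s1 s2 s3 s4
  rw [pow_one] at s1
  have s3' : C * (3 * cb * l ^ 3) ^ d ≤ x := by
    rw [mul_pow, ← pow_mul, ← mul_assoc]; exact s3
  obtain ⟨π, p1, p2, p3, p4, p5, p6, p7, p8, p9, p10⟩ := main_RParB j d k C x l B cE cb c3 c4 hj hd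
    hC hx2' hl hl1 hB1 hBl hBj hk1 hk4 hcE hcb hc3 hc4 s1 s2 s3' s4
  have hxq : q * x ^ 2 = 1 := by rw [hx2]; field_simp
  have hdiv : ∀ (c : ℝ) (m : ℕ), c * l ^ m / Real.sqrt q = c * (x * l ^ m) := by
    intro c m; rw [hx]; ring
  refine ⟨π, B, p1, p2, by rw [p3, ← hq']; rfl, p4, hx2 ▸ p5, ?_, ?_, hB1, ?_, ?_, ?_, ?_⟩
  · have : x ^ 4 = 1 / q ^ 2 := by
      rw [show x ^ 4 = (x ^ 2) ^ 2 by ring, hx2, div_pow, one_pow]
    rw [← this]; exact p6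
  · calc q * (2 + ((π.G * (π.M + 1) : ℕ) : ℝ)) ≤ q * x ^ 2 := by gcongr
      _ = 1 := hxq
  · push_cast
    calc B * ((j : ℝ) + 1) = q * (B * (j + 1 : ℝ) * x ^ 2) := by
          rw [show q * (B * (j + 1 : ℝ) * x ^ 2) = B * (j + 1 : ℝ) * (q * x ^ 2) by ring, hxq, mul_one]
      _ ≤ q * π.N := by gcongr
  · rw [hlq]; exact hBj
  · rw [hlq, hdiv]
    refine le_trans p9 ?_
    gcongr; linarith
  · rw [hlq, hdiv]
    refine le_trans p10 ?_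
    have : 0 ≤ 4 * C * c4 := by positivity
    gcongr; linarith

end Pool.Agent.MP_6d294b_pr
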