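import Pool.Agent.MP_6d294b_pr.UStm
import Pool.Agent.MP_6d294b_pr.PPrA

open Finset

namespace Pool.Agent.MP_6d294b_pr

theorem sUDrop (h1 : SUInd) (h2 : SUGrow) (h3 : SUDisj) (h4 : SUEv) (h5 : SUWord) (h6 : SUCost) :
    SUDrop := by
  intro d hd
  obtain ⟨κ, k0, k1, h6⟩ := h6 d hd
  refine ⟨κ, k0, fun q s k N n v q0 q1 s1 s2 hk hks hN hg => ?_⟩
  obtain ⟨p, hp⟩ : ∃ p, p = 1 - Real.exp (- q ^ (d - 1)) := ⟨_, rfl⟩
  have p0 : 0 ≤ p := by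
    rw [hp, sub_nonneg]
    exact Real.exp_le_one_iff.2 (neg_nonpos.2 (pow_nonneg q0.le _))
  have p1 : p ≤ 1 := by
    rw [hp]
    linarith [Real.exp_pos (- q ^ (d - 1))]
  have hs : 2 ≤ s := by
    have : (2 : ℝ) ≤ 1 / q := by
      rw [le_div_iff₀ q0]
      linarith
    exact_mod_cast this.trans s1
  obtain ⟨ι, I, W, w1, w2, w3⟩ := h5 s k N hk hks hN
  have h12 : (⟨0, by omega⟩ : Fin d) ≠ ⟨1, by omega⟩ := Fin.ne_of_val_ne (by norm_num)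
  have e := (h1 _ (grid d n) p p0 p1 ι I fun w => UEv v ⟨0, by omega⟩ ⟨1, by omega⟩ N (W w)).2
    fun w hw w' hw' hne A hA => (w2 w hw w' hw' hne).elim
      (fun h => h3 d s k N v _ _ _ _ A h12 (by omega) (w1 w hw) h hA)
      fun h => h3 d s k N v _ _ _ _ A h12 (by omega) (w1 w' hw') h hA.symm
  rw [← hp]
  refine le_trans ?_ (mono_PrA _ p0 p1 _ _ fun A _ (h : ∃ w ∈ I, UEv v ⟨0, by omega⟩ ⟨1, by omega⟩
    N (W w) A) => h.elim fun w hw => h2 d n s k N v _ _ _ A h12 hs (w1 w hw.1) hg hw.2.1)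
  rw [e]
  refine le_trans (mul_le_mul_of_nonneg_left (w3 (κ * q) (by positivity) (by nlinarith))
    (by positivity)) ?_
  rw [Finset.mul_sum]
  refine Finset.sum_le_sum fun w hw => le_trans ?_ (h4 d s k N _ p v _ _ _ p0 p1 h12 (by omega)
    (by omega) (w1 w hw) hg)
  rw [mul_assoc, hp]
  exact mul_le_mul_of_nonneg_left (h6 q s k N _ q0 (by linarith) s1 s2 hks (w1 w hw))
    (pow_nonneg (hp ▸ p0) _)

theorem sUPerc (h0 : SInt) (h1 : SUDrop) (h2 : SUGlob) (h3 : SUPar) (h4 : SUTrans) : SUPerc := by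
  intro d hd
  obtain ⟨κ, k0, h1⟩ := h1 d hd
  obtain ⟨c, q₀, c0, q1, h3⟩ := h3 d κ (lam d) hd k0 (lt_of_lt_of_le (by norm_num) (h0 d hd).1)
  refine ⟨c, q₀, c0, q1, fun q n q0 hq n1 n2 => ?_⟩
  obtain ⟨s, k, N, a1, a2, a3, a4, a5, a6, a7, a8⟩ := h3 q n q0 hq n1 n2
  have p0 : 0 ≤ 1 - Real.exp (- q ^ (d - 1)) := by
    rw [sub_nonneg]
    exact Real.exp_le_one_iff.2 (neg_nonpos.2 (pow_nonneg q0.le _))
  have p1 : 1 - Real.exp (- q ^ (d - 1)) ≤ 1 := by linarith [Real.exp_pos (- q ^ (d - 1))]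
  refine le_trans ?_ ((h2 d n N _ _ hd (by omega) p0 p1 fun v hv =>
    h1 q s k N n v q0 a1 a2 a3 a4 a5 a6 hv).trans (h4 d n _ p0 p1))
  have e1 := Real.exp_le_exp.2 (neg_le_neg a8)
  have e2 : Real.exp (-2) ≤ 1 / 4 := by
    have := Real.add_one_le_exp (1 : ℝ)
    rw [Real.exp_neg, show (2 : ℝ) = 1 + 1 by norm_num, Real.exp_add, one_div]
    exact inv_anti₀ (by norm_num) (by nlinarith)
  linarith

end Pool.Agent.MP_6d294b_pr
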