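import Pool.Agent.MP_6d294b_pr.UStm

/-! Filling a layer, and completing a droplet to the whole grid. -/

open Finset

namespace Pool.Agent.MP_6d294b_pr

lemma sum_lt_UFill {d : ℕ} {f g : Fin d → ℕ} (j : Fin d) (h : ∀ k, k ≠ j → f k = g k)
    (hj : f j < g j) : ∑ k, f k < ∑ k, g k :=
  Finset.sum_lt_sum (fun k _ => by
    by_cases e : k = j
    · exact e ▸ hj.le
    · exact (h k e).le) ⟨j, mem_univ j, hj⟩

theorem sUFill : SUFill := by
  intro d n S lo hi y i c e hS he hb c0 c1 c2 c3 hl hy yi hyb
  have gr : ∀ z : Pt d, 0 ≤ z i → z i < n → (∀ j, j ≠ i → lo j ≤ z j ∧ z j < hi j) →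
      z ∈ grid d n := fun z a b h => mem_grid.2 fun j => by
    by_cases e : j = i
    · exact e ▸ ⟨a, b⟩
    · have := h j e
      have := hb j e
      omega
  have key : ∀ (m : ℕ) (x : Pt d), ∑ j, (x j - y j).natAbs < m → x i = c →
      (∀ j, j ≠ i → lo j ≤ x j ∧ x j < hi j) → x ∈ S := by
    intro m
    induction m with
    | zero => exact fun x h => absurd h (Nat.not_lt_zero _)
    | succ m ih =>
      intro x hm xi hx
      by_cases hxy : x = y
      · exact hxy ▸ hy
      obtain ⟨j, hj⟩ := Function.ne_iff.1 hxy
      have ji : j ≠ i := fun e => hj (by rw [e, xi, yi])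
      obtain ⟨a, ha, ha'⟩ : ∃ a : ℤ, (a = 1 ∧ x j < y j ∨ a = -1 ∧ y j < x j) ∧ (a = 1 ∨ a = -1) := by
        rcases lt_or_gt_of_ne hj with h | h
        · exact ⟨1, Or.inl ⟨rfl, h⟩, Or.inl rfl⟩
        · exact ⟨-1, Or.inr ⟨rfl, h⟩, Or.inr rfl⟩
      have u1 : Function.update x j (x j + a) i = c := by rw [Function.update_of_ne ji.symm, xi]
      have u2 : ∀ k, k ≠ i → lo k ≤ Function.update x j (x j + a) k ∧
          Function.update x j (x j + a) k < hi k := fun k hk => by
        by_cases e : k = j
        · subst e
          have := hx k hk
          have := hyb k hk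
          rw [Function.update_self]
          omega
        · rw [Function.update_of_ne e]
          exact hx k hk
      have u3 : Function.update x i (x i + -e) i = c - e := by
        rw [Function.update_self, xi, sub_eq_add_neg]
      have u4 : ∀ k, k ≠ i → lo k ≤ Function.update x i (x i + -e) k ∧
          Function.update x i (x i + -e) k < hi k := fun k hk => by
        rw [Function.update_of_ne hk]
        exact hx k hk
      have lt : ∑ k, (Function.update x j (x j + a) k - y k).natAbs < ∑ k, (x k - y k).natAbs :=
        sum_lt_UFill j (fun k hk => by rw [Function.update_of_ne hk]) (by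
          rw [Function.update_self]
          omega)
      exact hS x (gr x (by omega) (by omega) hx) j i a (-e) ha' (by omega) (Or.inl ji)
        (gr _ (by omega) (by omega) u2) (gr _ (by omega) (by omega) u4)
        (ih _ (by omega) u1 u2) (hl _ u3 u4)
  exact fun x => key _ x (Nat.lt_succ_self _)

/-- a new layer of a large box is filled -/
lemma lay_UFill (h : SUFill) {d n N : ℕ} {A : Finset (Pt d)} {S : Set (Pt d)} (hd : 2 ≤ d)
    (hN : 1 ≤ N) (hL : ULines n N A) (hS : UCl n S) (hA : ∀ x ∈ A, x ∈ S) {lo hi : Pt d}
    (hb : ∀ j, 0 ≤ lo j ∧ lo j + N ≤ hi j ∧ hi j ≤ n) (hin : ∀ x ∈ ubox lo hi, x ∈ S) (i : Fin d)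
    (c e : ℤ) (he : e = 1 ∨ e = -1) (c0 : 0 ≤ c) (c1 : c < n) (c2 : lo i ≤ c - e)
    (c3 : c - e < hi i) (x : Pt d) (xi : x i = c) (hx : ∀ j, j ≠ i → lo j ≤ x j ∧ x j < hi j) :
    x ∈ S := by
  have : Nontrivial (Fin d) := Fin.nontrivial_iff_two_le.2 hd
  obtain ⟨j, ji⟩ := exists_ne i
  obtain ⟨y, yA, hy⟩ := hL (Function.update lo i c) (mem_grid.2 fun k => by
    by_cases e : k = i
    · subst e
      rw [Function.update_self]
      exact ⟨c0, c1⟩
    · have := hb k
      rw [Function.update_of_ne e]
      omega) j (by
    have := hb j
    rw [Function.update_of_ne ji]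
    omega)
  rw [useg, mem_ubox] at hy
  have bi := hb i
  refine h d n S lo hi y i c e hS he (fun k _ => ⟨(hb k).1, (hb k).2.2⟩) c0 c1 (by omega) (by omega)
    (fun z zi hz => hin z (mem_ubox.2 fun k => ?_)) (hA y yA) ?_ (fun k hk => ?_) x xi hx
  · by_cases e : k = i
    · subst e
      omega
    · exact hz k e
  · have := hy i
    rw [if_neg ji.symm, Function.update_self] at this
    omega
  · have := hy k
    have := hb k
    rw [Function.update_of_ne hk] at *
    split_ifs at * <;> omega

theorem sUComp (h : SUFill) : SUComp := by
  intro d n N v A hd hN hv hD hL S hS hA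
  have key : ∀ (m : ℕ) (lo hi : Pt d), ∑ j, ((lo j).toNat + (n - hi j).toNat) < m →
      (∀ j, 0 ≤ lo j ∧ lo j + N ≤ hi j ∧ hi j ≤ n) → (∀ x ∈ ubox lo hi, x ∈ S) →
      ∀ x ∈ grid d n, x ∈ S := by
    intro m
    induction m with
    | zero => exact fun lo hi h => absurd h (Nat.not_lt_zero _)
    | succ m ih =>
      intro lo hi hm hb hin
      by_cases h1 : ∃ i, hi i < n
      · obtain ⟨i, hi'⟩ := h1
        have bi := hb i
        have lt : ∑ j, ((lo j).toNat + (n - Function.update hi i (hi i + 1) j).toNat) <
            ∑ j, ((lo j).toNat + (n - hi j).toNat) :=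
          sum_lt_UFill i (fun k hk => by rw [Function.update_of_ne hk]) (by
            rw [Function.update_self]
            omega)
        refine ih lo (Function.update hi i (hi i + 1)) (by omega) (fun k => ?_) fun x hx => ?_
        · by_cases e : k = i
          · subst e
            rw [Function.update_self]
            omega
          · rw [Function.update_of_ne e]
            exact hb k
        · rw [mem_ubox] at hx
          have a := hx i
          rw [Function.update_self] at a
          have b : ∀ k, k ≠ i → lo k ≤ x k ∧ x k < hi k := fun k hk => by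
            have := hx k
            rwa [Function.update_of_ne hk] at this
          by_cases e : x i = hi i
          · exact lay_UFill h hd hN hL hS hA hb hin i (hi i) 1 (Or.inl rfl) (by omega) hi'
              (by omega) (by omega) x e b
          · refine hin x (mem_ubox.2 fun k => ?_)
            by_cases e' : k = i
            · subst e'
              omega
            · exact b k e'
      by_cases h2 : ∃ i, 0 < lo i
      · obtain ⟨i, hi'⟩ := h2
        have bi := hb i
        have lt : ∑ j, ((Function.update lo i (lo i - 1) j).toNat + (n - hi j).toNat) <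
            ∑ j, ((lo j).toNat + (n - hi j).toNat) :=
          sum_lt_UFill i (fun k hk => by rw [Function.update_of_ne hk]) (by
            rw [Function.update_self]
            omega)
        refine ih (Function.update lo i (lo i - 1)) hi (by omega) (fun k => ?_) fun x hx => ?_
        · by_cases e : k = i
          · subst e
            rw [Function.update_self]
            omega
          · rw [Function.update_of_ne e]
            exact hb k
        · rw [mem_ubox] at hx
          have a := hx i
          rw [Function.update_self] at a
          have b : ∀ k, k ≠ i → lo k ≤ x k ∧ x k < hi k := fun k hk => by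
            have := hx k
            rwa [Function.update_of_ne hk] at this
          by_cases e : x i = lo i - 1
          · exact lay_UFill h hd hN hL hS hA hb hin i (lo i - 1) (-1) (Or.inr rfl) (by omega)
              (by omega) (by omega) (by omega) x e b
          · refine hin x (mem_ubox.2 fun k => ?_)
            by_cases e' : k = i
            · subst e'
              omega
            · exact b k e'
      refine fun x hx => hin x (mem_ubox.2 fun k => ?_)
      have a := mem_grid.1 hx k
      have b := not_exists.1 h1 k
      have c := not_exists.1 h2 k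
      omega
  refine key _ v (fun j => v j + N) (Nat.lt_succ_self _) (fun j => ?_)
    (hD S hS fun x hx _ => hA x hx)
  have a := mem_grid.1 (hv (show v ∈ ucube v (N + 1) from mem_ubox.2 fun k => by
    push_cast
    omega)) j
  have b := mem_grid.1 (hv (show (fun k => v k + N) ∈ ucube v (N + 1) from mem_ubox.2 fun k => by
    push_cast
    omega)) j
  omega

end Pool.Agent.MP_6d294b_pr
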