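import Pool.Agent.MP_6d294b_pr.UStm

open Finset

namespace Pool.Agent.MP_6d294b_pr

lemma large_UFinal (K : ℝ) : ∃ n₀ : ℕ, ∀ n : ℕ, n₀ ≤ n → K ≤ Real.log n := by
  have h3 : Filter.Tendsto (fun n : ℕ => Real.log n) Filter.atTop Filter.atTop :=
    Real.tendsto_log_atTop.comp tendsto_natCast_atTop_atTop
  exact Filter.eventually_atTop.1 (h3.eventually (Filter.eventually_ge_atTop K))

theorem sUFinal (h3 : SInt) (h : SUPerc) : SUFinal := by
  classical
  intro d hd
  obtain ⟨c, q₀, hc, hq₀, h5⟩ := h d hd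
  have hlam := (h3 d hd).1
  set la : ℝ := lam d with hla
  have hla0 : 0 < la := by linarith
  set s : ℝ := Real.sqrt la with hs
  have hs0 : 0 < s := Real.sqrt_pos.2 hla0
  have hss : la = s ^ 2 := (Real.sq_sqrt hla0.le).symm
  obtain ⟨n₀, hn₀⟩ := large_UFinal (1 + la / q₀ + (c / s) ^ 2)
  refine ⟨c * s / 2, by positivity, n₀, fun n hn => ?_⟩
  have hK := hn₀ n hn
  set L : ℝ := Real.log n with hL
  have hlq : 0 < la / q₀ := by positivity
  have hcs : 0 ≤ (c / s) ^ 2 := sq_nonneg _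
  have hL0 : 0 < L := by linarith
  set r : ℝ := Real.sqrt L with hr
  have hr0 : 0 < r := Real.sqrt_pos.2 hL0
  have hrr : L = r ^ 2 := (Real.sq_sqrt hL0.le).symm
  have hL32 : L ^ (3 / 2 : ℝ) = r ^ 3 := by
    rw [hr, Real.sqrt_eq_rpow, ← Real.rpow_natCast, ← Real.rpow_mul hL0.le]
    norm_num
  have hcr : c / s ≤ r := le_of_sq_le_sq (by rw [← hrr]; linarith) hr0.le
  set x : ℝ := c / (2 * s * r) with hx
  have hx0 : 0 < x := by positivity
  have hx1 : x ≤ 1 / 2 := by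
    rw [div_le_iff₀ hs0] at hcr
    rw [hx, div_le_iff₀ (by positivity)]
    linarith
  set q : ℝ := la / L * (1 - x) with hq
  have hq0 : 0 < q := mul_pos (by positivity) (by linarith)
  have hqu : q ≤ la / L := by
    have : 0 < la / L := by positivity
    nlinarith
  have hqq : q ≤ q₀ := by
    refine hqu.trans ?_
    rw [div_le_iff₀ hL0]
    have a1 : la / q₀ ≤ L := by linarith
    rw [div_le_iff₀ hq₀] at a1
    linarith
  have h1 : L ≤ la / q := by
    rw [le_div_iff₀ hq0]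
    rw [le_div_iff₀ hL0] at hqu
    linarith
  have h2 : la / q - c / Real.sqrt q ≤ L := by
    have a1 : la / q ≤ L * (1 + 2 * x) := by
      rw [div_le_iff₀ hq0, hq]
      have e : L * (1 + 2 * x) * (la / L * (1 - x)) = la * (1 + x * (1 - 2 * x)) := by
        field_simp; ring
      rw [e]
      have : 0 ≤ x * (1 - 2 * x) := mul_nonneg hx0.le (by linarith)
      nlinarith
    have a2 : L * (2 * x) = c * (r / s) := by
      rw [hx, hrr]; field_simp
    have hs1 : 0 < Real.sqrt q := Real.sqrt_pos.2 hq0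
    have a3 : r / s ≤ 1 / Real.sqrt q := by
      refine le_of_sq_le_sq ?_ (by positivity)
      rw [one_div_pow, Real.sq_sqrt hq0.le, div_pow, ← hrr, ← hss, div_le_div_iff₀ hla0 hq0]
      rw [le_div_iff₀ hL0] at hqu
      linarith
    have a4 := mul_le_mul_of_nonneg_left a3 hc.le
    rw [mul_one_div] at a4
    linarith
  have hb := h5 q n hq0 hqq h2 h1
  set p₀ : ℝ := 1 - Real.exp (- q ^ (d - 1)) with hp₀
  have hqd : 0 < q ^ (d - 1) := pow_pos hq0 _
  have hp0 : 0 ≤ p₀ := by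
    have := Real.exp_le_one_iff.2 (show - q ^ (d - 1) ≤ 0 by linarith)
    linarith
  have hp1 : p₀ ≤ 1 := by
    rw [hp₀]
    linarith [Real.exp_pos (- q ^ (d - 1))]
  have hp2 : p₀ ≤ q ^ (d - 1) := by
    have := Real.add_one_le_exp (- q ^ (d - 1))
    linarith
  set S := {p : ℝ | 0 ≤ p ∧ p ≤ 1 ∧
      (1 / 2 : ℝ) ≤ Pr (univ : Finset (Fin d → Fin n)) p (Perc d n)} with hS
  have hinf : sInf S ≤ q ^ (d - 1) :=
    (csInf_le ⟨0, fun p hp => hp.1⟩ (show p₀ ∈ S from ⟨hp0, hp1, hb⟩)).trans hp2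
  have hinf0 : 0 ≤ sInf S := Real.sInf_nonneg fun p hp => hp.1
  have hroot : (sInf S) ^ (1 / ((d : ℝ) - 1)) ≤ q := by
    have a2 : ((d : ℝ) - 1) = ((d - 1 : ℕ) : ℝ) := by
      rw [Nat.cast_sub (by omega)]
      simp
    have a3 := Real.rpow_le_rpow hinf0 hinf
      (show (0 : ℝ) ≤ ((d - 1 : ℕ) : ℝ)⁻¹ by positivity)
    rw [Real.pow_rpow_inv_natCast hq0.le (by omega)] at a3
    rw [a2, one_div (((d - 1 : ℕ) : ℝ))]
    exact a3
  rw [hL32]
  have f1 : la / L - q = c * s / 2 / r ^ 3 := by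
    rw [hq, hx, hrr, hss]
    field_simp
    ring
  linarith

end Pool.Agent.MP_6d294b_pr
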