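import Pool.Agent.MP_6d294b_pr.UHar
import Pool.Agent.MP_6d294b_pr.UNG
import Pool.Agent.MP_6d294b_pr.UFill
import Pool.Agent.MP_6d294b_pr.UWord
import Pool.Agent.MP_6d294b_pr.UCost
import Pool.Agent.MP_6d294b_pr.UGlob
import Pool.Agent.MP_6d294b_pr.UPar
import Pool.Agent.MP_6d294b_pr.UFinal
import Pool.Agent.MP_6d294b_pr.UEv
import Pool.Agent.MP_6d294b_pr.UDrop
import Pool.Agent.MP_6d294b_pr.PSlope
import Pool.Agent.MP_6d294b_pr.PInt

namespace Pool.Agent.MP_6d294b_pr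

theorem upper_final : SUFinal :=
  sUFinal (sInt sBet (sSlope sBet)) (sUPerc (sInt sBet (sSlope sBet))
    (sUDrop sUInd (sUGrow sUFill) sUDisj (sUEv sUHar (sUNG sUHar)) sUWord
      (sUCost sBet (sSlope sBet) (sUSum sBet (sSlope sBet))))
    (sUGlob sUHar sUInd (sUComp sUFill)) sUPar sUTrans)

end Pool.Agent.MP_6d294b_pr
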